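import Pool.Agent.T2.Defs
import Pool.Agent.SDN.Frames
import Pool.Agent.Tight.Defs

/-!
T2, module C3: a part of a walk in its own frame stays in a box.
-/

set_option autoImplicit false

namespace HexObs

namespace T2

open Finset TS SDN

open scoped ENNReal

/-- levels in another frame -/
lemma lvl_frame {c : Pt} (hc : c ∈ dirs) (p v : Pt) {M : ℤ}
    (h0 : |lvl false (p + mulE c v) - lvl false p| ≤ M) (h1 : |lvl true (p + mulE c v) - lvl true p| ≤ M) (dir : Bool) :
    |lvl dir v| ≤ 2 * M := by
  rw [abs_le] at h0 h1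
  simp only [dirs, mem_insert, mem_singleton] at hc
  rw [abs_le]
  rcases hc with rfl | rfl | rfl | rfl | rfl | rfl <;> cases dir <;>
    simp only [lvl, hd, ip, up, mulE, Bool.false_eq_true, if_false, if_true, Prod.fst_add, Prod.snd_add] at h0 h1 ⊢ <;>
    constructor <;> omega

lemma row_of_lvl {dir : Bool} {v : Pt} {M K : ℤ} (h : |lvl dir v| ≤ M) (hM : M ≤ 3 * K) : |row dir v| ≤ K := by
  rw [abs_le] at h ⊢
  unfold row
  constructor <;> omega

theorem infix_WL {w : List Bool} (hw : w ∈ SA) {x y q : ℕ} (hxy : x ≤ y) (hy : y ≤ w.length)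
    (h : ∀ dir i j, x ≤ i → i ≤ y → x ≤ j → j ≤ y → row dir (vx oo up w i) - row dir (vx oo up w j) ≤ 2 ^ q) :
    (w.drop x).take (y - x) ∈ WL (q + 2) := by
  refine ⟨SA_take (SA_drop hw x) _, ?_⟩
  intro i hi dir
  rw [List.length_take, List.length_drop] at hi
  have hi' : i ≤ y - x := by omega
  have hp : (0 : ℤ) < 2 ^ q := by positivity
  obtain ⟨c, hc, -, h3⟩ := drop_frame' w x
  have hv : vx oo up ((w.drop x).take (y - x)) i = vx oo up (w.drop x) i := by
    have := vx_append (v0 := oo) (d0 := up) (t := (w.drop x).take (y - x)) (s := (w.drop x).drop (y - x)) (i := i)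
      (by rw [List.length_take, List.length_drop]; omega)
    rw [List.take_append_drop] at this
    exact this.symm
  rw [hv]
  have key : ∀ dir', |lvl dir' (vx oo up w x + mulE c (vx oo up (w.drop x) i)) - lvl dir' (vx oo up w x)| ≤
      3 * 2 ^ q + 2 := by
    intro dir'
    rw [← h3]
    have a1 := h dir' (x + i) x (by omega) (by omega) le_rfl hxy
    have a2 := h dir' x (x + i) le_rfl hxy (by omega) (by omega)
    unfold row at a1 a2
    rw [abs_le]
    constructor <;> omega
  have h5 := lvl_frame hc _ _ (key false) (key true) dir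
  refine row_of_lvl h5 ?_
  have : (2 : ℤ) ^ (q + 2) = 4 * 2 ^ q := by rw [pow_add]; ring
  rw [this]
  omega

theorem box_WL {h e f : ℕ} {X : List Bool} (hX : X ∈ Brd h) (hh : h ≤ 2 ^ e) (hef : e ≤ f) (hb : InBox X (2 ^ f)) :
    X.dropLast ∈ WL (f + 2) := by
  obtain ⟨h1, h2, -, -⟩ := mem_Brd.1 hX
  have hX' : X ∈ SA := ⟨fun _ _ _ => Set.mem_univ _, fun i k hik hk => h2 i k hik hk⟩
  have hd : X.dropLast = X.take (X.length - 1) := List.dropLast_eq_take
  rw [hd]
  refine ⟨SA_take hX' _, ?_⟩
  intro i hi dir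
  rw [List.length_take] at hi
  have hi' : i ≤ X.length := by omega
  have hv : vx oo up (X.take (X.length - 1)) i = vx oo up X i := by
    have := vx_append (v0 := oo) (d0 := up) (t := X.take (X.length - 1)) (s := X.drop (X.length - 1)) (i := i)
      (by rw [List.length_take]; omega)
    rw [List.take_append_drop] at this
    exact this.symm
  rw [hv]
  have hp : (0 : ℤ) < 2 ^ f := by positivity
  have hhf : (h : ℤ) ≤ 2 ^ f := by
    have : h ≤ 2 ^ f := hh.trans (Nat.pow_le_pow_right (by norm_num) hef)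
    exact_mod_cast this
  have h3 : 0 ≤ lev X i ∧ lev X i ≤ 3 * 2 ^ f := by
    rcases Nat.eq_zero_or_pos i with rfl | hpos
    · rw [lev_zero]
      constructor <;> omega
    · have := h1 i hpos hi'
      constructor <;> omega
  have h4 := hb i hi'
  have h4' : |lat X i| ≤ 2 ^ f := by
    refine h4.trans ?_
    push_cast
    exact le_rfl
  rw [abs_le] at h4'
  have h5 : |lvl dir (vx oo up X i)| ≤ 6 * 2 ^ f := by
    rw [abs_le]
    unfold lev at h3
    unfold lat at h4'
    cases dir <;>
    simp only [lvl, SDN.hd, ip, up, cross, Bool.false_eq_true, if_false, if_true] at h3 h4' ⊢ <;>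
    constructor <;> omega
  refine row_of_lvl h5 ?_
  have : (2 : ℤ) ^ (f + 2) = 4 * 2 ^ f := by rw [pow_add]; ring
  rw [this]
  omega

end T2

end HexObs
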