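import Pool.Agent.T2.Defs
import Pool.Agent.SDN.Peierls1F
import Pool.Agent.SDN.WordNb

/-!
T2, B1: a walk in a box of the size 2 ^ μ times the scale 2 ^ b has few leaves of the scale b.
-/

set_option autoImplicit false

namespace HexObs

namespace T2

open Finset TS SDN

open scoped ENNReal

namespace Few

open PE in
/-- a walk with m leaves of the scale b = k + 5 contains a chain of C1 (any bound of the doublings) -/
theorem crowd_word' : ∃ Cc : ℕ, 1 ≤ Cc ∧ ∀ (L k w0 m n u W : ℕ) (dir : Bool) (t : List Bool) (e : ℕ → ℕ), t ∈ WL L →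
    w0 ≤ k → Lf dir (k + 5) t m u e → 4 ≤ m → Cc * 2 ^ w0 * nb (k + 5) t ≤ n →
    dbl (2 ^ (k + 4)) (lws t e 1 (m - 2)) ≤ W →
    ∃ s ∈ SAL (100 * 4 ^ L), ∃ gs : List (List Bool),
      gs ∈ C1 (2 ^ (k + 4)) (2 ^ (L + 1)) (k + 2) (2 ^ (k - w0)) n ((m - 4) / 2 + 1) ∧
      dbl (2 ^ (k + 4)) gs ≤ W ∧ ∃ r ∈ SAL (100 * 4 ^ L), t = s ++ ((unf gs).dropLast ++ r) := by
  obtain ⟨C, hC⟩ := caps_card
  refine ⟨16 * C + 1, by omega, fun L k w0 m n u W dir t e ht hw0 h hm hn hd => ?_⟩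
  obtain ⟨J, hJ⟩ : ∃ J, J = 2 * ((m - 4) / 2 + 1) := ⟨_, rfl⟩
  have hJm : 1 + J + 1 ≤ m := by omega
  have hJ1 : 1 ≤ J := by omega
  obtain ⟨w1, w2, w3⟩ := lws_word ht.1 (by omega : 1 ≤ k + 5) h (le_refl 1) hJ1 hJm
  have hBr := lws_BrR ht (by omega : 1 ≤ k + 5) h (le_refl 1) hJm
  have e5 : k + 5 - 1 = k + 4 := rfl
  rw [e5] at hBr
  have hle1 := e_le h 1 (by omega)
  have hlt1 : e 1 < e 2 := h.lt 1 (by omega)
  have hle2 := e_le h 2 (by omega)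
  have htk : (t.take (e 1 + 1)).length = e 1 + 1 := by
    rw [List.length_take]
    omega
  obtain ⟨q, hq⟩ : ∃ q, q = t.drop (e 1 + 1) := ⟨_, rfl⟩
  have hq2 : q = (unf (lws t e 1 J)).dropLast ++ t.drop (e (1 + J) - 1) := by
    rw [hq]
    conv_lhs => rw [w1]
    rw [List.drop_left' htk]
  have hqs : q ∈ SA := by
    rw [hq]
    exact SA_drop ht.1 _
  have hHB : ∀ g ∈ lws t e 1 J, g ∈ HB (2 ^ (k + 4)) := by
    intro g hg
    obtain ⟨x, x1, _, x3⟩ := hBr g hg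
    exact ⟨x, x1, x3⟩
  obtain ⟨c1, c2⟩ := caps_nc (k := k) (w := 2 ^ (k - w0)) Nat.one_le_two_pow hqs hq2 hHB
    (by rw [lws_length, hJ]; exact ⟨(m - 4) / 2 + 1, by ring⟩)
  have hcard := hC k (k - w0) q (caps (k + 2) (2 ^ (k - w0)) 0 0 (lws t e 1 J)).toFinset (by omega) c1 (by
    intro x hx
    rw [List.mem_toFinset] at hx
    obtain ⟨i, j, hij, hj, l1, l2, l3, l4⟩ := c2 x hx
    refine ⟨i, j, by omega, hj, l1, l2, l3, ?_⟩
    rw [l4]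
    push_cast
    rfl)
  have hlen := WL_length ht
  refine ⟨t.take (e 1 + 1), ⟨SA_take ht.1 _, by rw [List.length_take]; omega⟩, lws t e 1 J, ⟨?_, w2, hBr, c1, ?_⟩,
    (dbl_lws_mono _ t e 1 (by omega)).trans hd, t.drop (e (1 + J) - 1), ⟨SA_drop ht.1 _, by
      rw [List.length_drop]; omega⟩, w1⟩
  · rw [lws_length, hJ]
  · refine hcard.trans (le_trans ?_ hn)
    have h1 : nb (k + 5) q ≤ 16 * nb (k + 5) t := by
      rw [hq]
      exact nb_drop _ _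
    have h2 : k - (k - w0) = w0 := by omega
    rw [h2]
    calc C * 2 ^ w0 * nb (k + 5) q ≤ C * 2 ^ w0 * (16 * nb (k + 5) t) := by gcongr
      _ = 16 * C * 2 ^ w0 * nb (k + 5) t := by ring
      _ ≤ (16 * C + 1) * 2 ^ w0 * nb (k + 5) t := by gcongr; omega

/-- number of the visited cells in a box -/
lemma nb_box' {L : ℕ} {t : List Bool} (ht : t ∈ WL L) : ∀ k b : ℕ, b + k = L + 1 → nb b t ≤ 4 ^ (k + 1) := by
  intro k
  induction k with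
  | zero =>
    intro b hb
    have := nb_top ht (show L + 1 ≤ b by omega)
    simpa using this
  | succ k ih =>
    intro b hb
    have h1 := ih (b + 1) (by omega)
    have h2 := nb_four b t
    calc nb b t ≤ 4 * nb (b + 1) t := h2
      _ ≤ 4 * 4 ^ (k + 1) := by omega
      _ = 4 ^ (k + 1 + 1) := by ring

/-- the doublings of the leaves in a box -/
lemma dbl_box {b μ m u : ℕ} {dir : Bool} {t : List Bool} {e : ℕ → ℕ} (ht : t ∈ WL (b + μ)) (hb : 1 ≤ b)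
    (h : Lf dir b t m u e) : dbl (2 ^ (b - 1)) (lws t e 1 (m - 2)) ≤ (μ + 3) * m := by
  rcases Nat.lt_or_ge m 2 with hm | hm
  · have h0 : m - 2 = 0 := by omega
    rw [h0]
    simp [dbl, lws]
  have hBr := PE.lws_BrR ht hb h (le_refl 1) (by omega : 1 + (m - 2) + 1 ≤ m)
  have h1 : ∀ x ∈ (lws t e 1 (m - 2)).map (fun g => Nat.log 2 (hgt g / 2 ^ (b - 1))), x ≤ μ + 3 := by
    intro x hx
    rw [List.mem_map] at hx
    obtain ⟨g, hg, rfl⟩ := hx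
    obtain ⟨k, _, hk2, hk3⟩ := hBr g hg
    rw [hgt_eq hk3]
    have h2 : k / 2 ^ (b - 1) ≤ 2 ^ (μ + 2) := by
      apply Nat.div_le_of_le_mul
      refine hk2.trans (le_of_eq ?_)
      rw [← pow_add]
      congr 1
      omega
    calc Nat.log 2 (k / 2 ^ (b - 1)) ≤ Nat.log 2 (2 ^ (μ + 2)) := Nat.log_mono_right h2
      _ = μ + 2 := Nat.log_pow (by norm_num) _
      _ ≤ μ + 3 := by omega
  unfold dbl
  refine (List.sum_le_card_nsmul _ _ h1).trans ?_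
  rw [List.length_map, PE.lws_length, smul_eq_mul, mul_comm]
  exact Nat.mul_le_mul_left _ (by omega)

/-- crowding in a box of the size 2 ^ μ times the scale: the exponent C does not depend on μ -/
theorem crowd_box : ∃ C : ℝ, 0 < C ∧ ∀ μ : ℕ, ∃ (A B : ℝ) (b0 : ℕ), 0 < A ∧ 0 < B ∧ ∀ (b m : ℕ) (dir : Bool),
    b0 ≤ b → A ≤ m →
    gf {t | t ∈ WL (b + μ) ∧ ∃ u e, Lf dir b t m u e} ≤ ENNReal.ofReal (((2 : ℝ) ^ (b + μ)) ^ C * B / 4 ^ m) := by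
  obtain ⟨K, c, hN⟩ := nrm_exists
  obtain ⟨Cs, hCs, hP⟩ := pairCap
  obtain ⟨Cc, hCc1, hword⟩ := crowd_word'
  obtain ⟨Cp, hCp, hpoly⟩ := SAL_poly
  -- the polynomial bound
  obtain ⟨G, hG⟩ : ∃ G : ℕ → ℝ, G = fun L => ((100 * 4 ^ L : ℕ) : ℝ) ^ Cp * Cp := ⟨_, rfl⟩
  have hGp : ∀ L, 0 < G L := by
    intro L
    rw [hG]
    have : (0 : ℝ) < ((100 * 4 ^ L : ℕ) : ℝ) := by positivity
    positivity
  have hGe : ∀ L, G L = Cp * 100 ^ Cp * ((2 : ℝ) ^ L) ^ (2 * Cp) := by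
    intro L
    rw [hG]
    simp only
    push_cast
    rw [Real.mul_rpow (by norm_num) (by positivity), Real.rpow_mul (by positivity)]
    have : (((2 : ℝ) ^ L) ^ (2 : ℝ)) = 4 ^ L := by
      rw [Real.rpow_two, ← pow_mul, mul_comm L 2, pow_mul]
      norm_num
    rw [this]
    ring
  have h100 : (0 : ℝ) < Cp * 100 ^ Cp := by positivity
  refine ⟨4 * Cp + 1, by positivity, fun μ => ?_⟩
  obtain ⟨k0, w0, Q, C0, hwk, hQ2, hC0, hch⟩ := crowd_chain' hN hCs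
    (fun N k j1 j3 w K0 h1 h2 h3 _ _ => hP N k j1 j3 w K0 h1 h2 h3) (μ + 3)
  obtain ⟨n, hn⟩ : ∃ n, n = Cc * 2 ^ w0 * 4 ^ (μ + 2) := ⟨_, rfl⟩
  refine ⟨((2 * Q * n + 4 : ℕ) : ℝ), 2 * (Cp * 100 ^ Cp) ^ 2 * C0, k0 + 5, by positivity, by positivity,
    fun b m dir hb hm => ?_⟩
  have hm' : 2 * Q * n + 4 ≤ m := by exact_mod_cast hm
  obtain ⟨k, rfl⟩ : ∃ k, b = k + 5 := ⟨b - 5, by omega⟩
  obtain ⟨l, hl⟩ : ∃ l, l = k + 5 + μ := ⟨_, rfl⟩
  rw [← hl]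
  have hsum := hch k (2 ^ (l + 1)) m n (by omega) (by omega) (by omega)
  obtain ⟨P, hPe⟩ : ∃ P : Set (List (List Bool)), P = {gs | gs ∈ C1 (2 ^ (k + 4)) (2 ^ (l + 1)) (k + 2) (2 ^ (k - w0)) n
    ((m - 4) / 2 + 1) ∧ dbl (2 ^ (k + 4)) gs ≤ (μ + 3) * m} := ⟨_, rfl⟩
  have hsplit := sum_split {t | t ∈ WL l ∧ ∃ u e, Lf dir (k + 5) t m u e} (100 * 4 ^ l) P (by
    intro gs hgs
    rw [hPe] at hgs
    exact C1_brd Nat.one_le_two_pow hgs.1) (by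
    rintro t ⟨ht, u, e, hLf⟩
    have hnb : nb (k + 5) t ≤ 4 ^ (μ + 2) := nb_box' ht (μ + 1) (k + 5) (by omega)
    have hnn : Cc * 2 ^ w0 * nb (k + 5) t ≤ n := by
      rw [hn]
      gcongr
    have hd : dbl (2 ^ (k + 4)) (lws t e 1 (m - 2)) ≤ (μ + 3) * m := by
      rw [hl] at ht
      exact dbl_box ht (by omega) hLf
    obtain ⟨s, hs, gs, g1, g2, r, hr, htr⟩ := hword l k w0 m n u ((μ + 3) * m) dir t e ht (by omega) hLf (by omega) hnn hd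
    exact ⟨s, hs, gs, by rw [hPe]; exact ⟨g1, g2⟩, r, hr, htr⟩)
  refine hsplit.trans ?_
  have hsum' : ∑' gs : {gs // gs ∈ P}, SDN.wl gs.1 ≤ ENNReal.ofReal (C0 * Ub (k + 4) / 4 ^ m) := by
    rw [hPe]
    exact hsum
  have hp := hpoly (100 * 4 ^ l) (Nat.mul_pos (by norm_num) (by positivity))
  have hp' : gf (SAL (100 * 4 ^ l)) ≤ ENNReal.ofReal (G l) := by
    rw [hG]
    exact hp
  have hU := (Ub_pos (k + 4)).le
  calc 2 * gf (SAL (100 * 4 ^ l)) ^ 2 * ∑' gs : {gs // gs ∈ P}, SDN.wl gs.1 ≤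
        2 * ENNReal.ofReal (G l) ^ 2 * ENNReal.ofReal (C0 * Ub (k + 4) / 4 ^ m) := by gcongr
    _ = ENNReal.ofReal (2 * G l ^ 2 * (C0 * Ub (k + 4) / 4 ^ m)) := by
        have e2 : (2 : ℝ≥0∞) = ENNReal.ofReal 2 := by norm_num
        rw [e2, ← ENNReal.ofReal_pow (hGp l).le, ← ENNReal.ofReal_mul (by norm_num), ← ENNReal.ofReal_mul (by
          have := hGp l
          positivity)]
    _ ≤ _ := by
        apply ENNReal.ofReal_le_ofReal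
        have h3 : Ub (k + 4) ≤ 2 ^ l := by
          refine (Ub_le _).trans ?_
          exact pow_le_pow_right₀ (by norm_num) (by omega)
        rw [hGe l]
        have h5 : (((2 : ℝ) ^ l) ^ (2 * Cp)) ^ 2 * 2 ^ l = ((2 : ℝ) ^ l) ^ (4 * Cp + 1) := by
          rw [Real.rpow_add (by positivity), Real.rpow_one, ← Real.rpow_natCast (((2 : ℝ) ^ l) ^ (2 * Cp)) 2,
            ← Real.rpow_mul (by positivity)]
          congr 2
          push_cast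
          ring
        calc 2 * (Cp * 100 ^ Cp * ((2 : ℝ) ^ l) ^ (2 * Cp)) ^ 2 * (C0 * Ub (k + 4) / 4 ^ m) ≤
              2 * (Cp * 100 ^ Cp * ((2 : ℝ) ^ l) ^ (2 * Cp)) ^ 2 * (C0 * 2 ^ l / 4 ^ m) := by gcongr
          _ = 2 * (Cp * 100 ^ Cp) ^ 2 * C0 * ((((2 : ℝ) ^ l) ^ (2 * Cp)) ^ 2 * 2 ^ l) / 4 ^ m := by ring
          _ = 2 * (Cp * 100 ^ Cp) ^ 2 * C0 * ((2 : ℝ) ^ l) ^ (4 * Cp + 1) / 4 ^ m := by rw [h5]
          _ = _ := by ring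

/-- the number of leaves is at most the length -/
lemma m_le {dir : Bool} {b m u : ℕ} {t : List Bool} {e : ℕ → ℕ} (h : Lf dir b t m u e) : m ≤ t.length := by
  have h1 : ∀ i, i ≤ m → i ≤ e i := by
    intro i
    induction i with
    | zero => intro _; exact Nat.zero_le _
    | succ i ih =>
      intro hi
      have h2 := ih (by omega)
      have h3 := h.lt i (by omega)
      omega
  exact (h1 m le_rfl).trans h.le

lemma gf_bU' {ι : Type} (I : Finset ι) (P : ι → Set (List Bool)) : gf (⋃ i ∈ I, P i) ≤ ∑ i ∈ I, gf (P i) :=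
  ENNReal.tsum_biUnion_le wE I P

end Few

open Few in
theorem few_leaves {Q : ℝ} (hQ : 0 < Q) : ∃ C1 : ℝ, 0 < C1 ∧ ∀ κ : ℝ, 0 < κ → ∀ μ : ℕ, ∃ L0 : ℕ,
    ∀ (L b : ℕ) (dir : Bool), L0 ≤ L → κ * L ≤ b → b + μ ≤ L →
    gf {t | t ∈ WL (b + μ) ∧ ∃ m u e, Lf dir b t m u e ∧ C1 * L < m} ≤ ENNReal.ofReal ((2 : ℝ) ^ (-(Q * L))) := by
  obtain ⟨C, hC, hbox⟩ := crowd_box
  refine ⟨(Q + C + 3) / 2, by positivity, fun κ hκ μ => ?_⟩
  obtain ⟨C1, hC1⟩ : ∃ C1, C1 = (Q + C + 3) / 2 := ⟨_, rfl⟩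
  have hC1p : 1 ≤ C1 := by
    rw [hC1]
    linarith
  rw [← hC1]
  obtain ⟨A, B, b0, hA, hB, hcb⟩ := hbox μ
  refine ⟨⌈A⌉₊ + ⌈101 * B⌉₊ + ⌈b0 / κ⌉₊, fun L b dir hL hb hbL => ?_⟩
  have hLA : A ≤ L := by
    have h1 : (⌈A⌉₊ : ℝ) ≤ L := by exact_mod_cast (by omega : ⌈A⌉₊ ≤ L)
    exact (Nat.le_ceil A).trans h1
  have hLB : 101 * B ≤ L := by
    have h1 : (⌈101 * B⌉₊ : ℝ) ≤ L := by exact_mod_cast (by omega : ⌈101 * B⌉₊ ≤ L)
    exact (Nat.le_ceil _).trans h1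
  have hLb : b0 ≤ b := by
    have h1 : (⌈b0 / κ⌉₊ : ℝ) ≤ L := by exact_mod_cast (by omega : ⌈b0 / κ⌉₊ ≤ L)
    have h2 := (Nat.le_ceil (b0 / κ)).trans h1
    rw [div_le_iff₀ hκ] at h2
    have h3 : (b0 : ℝ) ≤ b := by linarith
    exact_mod_cast h3
  have hL0 : (0 : ℝ) ≤ L := Nat.cast_nonneg L
  obtain ⟨I, hI⟩ : ∃ I : Finset ℕ, I = (range (100 * 4 ^ (b + μ) + 1)).filter (fun m : ℕ => C1 * L < (m : ℝ)) := ⟨_, rfl⟩
  have hsub : {t | t ∈ WL (b + μ) ∧ ∃ m u e, Lf dir b t m u e ∧ C1 * L < m} ⊆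
      ⋃ m ∈ I, {t | t ∈ WL (b + μ) ∧ ∃ u e, Lf dir b t m u e} := by
    rintro t ⟨ht, m, u, e, hLf, hm⟩
    rw [Set.mem_iUnion₂]
    refine ⟨m, ?_, ht, u, e, hLf⟩
    rw [hI, Finset.mem_filter, Finset.mem_range]
    have h1 := m_le hLf
    have h2 := WL_length ht
    exact ⟨by omega, hm⟩
  refine (gf_mono hsub).trans ((gf_bU' _ _).trans ?_)
  -- each term
  have hterm : ∀ m ∈ I, gf {t | t ∈ WL (b + μ) ∧ ∃ u e, Lf dir b t m u e} ≤
      ENNReal.ofReal (B * (2 : ℝ) ^ ((C - 2 * C1) * L)) := by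
    intro m hm
    rw [hI, Finset.mem_filter] at hm
    have hmL := hm.2
    have hmA : A ≤ m := by nlinarith
    refine (hcb b m dir hLb hmA).trans ?_
    apply ENNReal.ofReal_le_ofReal
    have h1 : ((2 : ℝ) ^ (b + μ)) ^ C ≤ (2 : ℝ) ^ (C * L) := by
      rw [← Real.rpow_natCast, ← Real.rpow_mul (by norm_num)]
      apply Real.rpow_le_rpow_of_exponent_le (by norm_num)
      have h2 : ((b + μ : ℕ) : ℝ) ≤ L := by exact_mod_cast hbL
      nlinarith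
    have h3 : (2 : ℝ) ^ (2 * C1 * L) ≤ 4 ^ m := by
      have h4 : (4 : ℝ) ^ m = (2 : ℝ) ^ (2 * (m : ℝ)) := by
        rw [Real.rpow_mul (by norm_num), Real.rpow_two, Real.rpow_natCast]
        norm_num
      rw [h4]
      apply Real.rpow_le_rpow_of_exponent_le (by norm_num)
      nlinarith
    have h5 : (0 : ℝ) < (2 : ℝ) ^ (2 * C1 * L) := Real.rpow_pos_of_pos (by norm_num) _
    calc ((2 : ℝ) ^ (b + μ)) ^ C * B / 4 ^ m ≤ (2 : ℝ) ^ (C * L) * B / (2 : ℝ) ^ (2 * C1 * L) := by gcongr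
      _ = B * ((2 : ℝ) ^ (C * L) / (2 : ℝ) ^ (2 * C1 * L)) := by ring
      _ = B * (2 : ℝ) ^ ((C - 2 * C1) * L) := by
          rw [← Real.rpow_sub (by norm_num)]
          congr 2
          ring
  refine (Finset.sum_le_card_nsmul _ _ _ hterm).trans ?_
  rw [nsmul_eq_mul]
  have hcard : I.card ≤ 100 * 4 ^ (b + μ) + 1 := by
    rw [hI]
    refine (Finset.card_filter_le _ _).trans ?_
    rw [Finset.card_range]
  have hcard' : (I.card : ℝ) ≤ 101 * (2 : ℝ) ^ (2 * (L : ℝ)) := by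
    have h1 : (I.card : ℝ) ≤ 100 * 4 ^ (b + μ) + 1 := by exact_mod_cast hcard
    have h2 : (4 : ℝ) ^ (b + μ) ≤ 4 ^ L := pow_le_pow_right₀ (by norm_num) hbL
    have h3 : (1 : ℝ) ≤ 4 ^ L := one_le_pow₀ (by norm_num)
    have h4 : (4 : ℝ) ^ L = (2 : ℝ) ^ (2 * (L : ℝ)) := by
      rw [Real.rpow_mul (by norm_num), Real.rpow_two, Real.rpow_natCast]
      norm_num
    rw [← h4]
    linarith
  have e1 : (I.card : ℝ≥0∞) = ENNReal.ofReal (I.card : ℝ) := by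
    rw [ENNReal.ofReal_natCast]
  rw [e1, ← ENNReal.ofReal_mul (Nat.cast_nonneg _)]
  apply ENNReal.ofReal_le_ofReal
  have h2L : (L : ℝ) ≤ (2 : ℝ) ^ (L : ℝ) := by
    rw [Real.rpow_natCast]
    exact_mod_cast (Nat.lt_two_pow_self (n := L)).le
  have hpos : (0 : ℝ) < (2 : ℝ) ^ ((C - 2 * C1) * L) := Real.rpow_pos_of_pos (by norm_num) _
  have hpos2 : (0 : ℝ) < (2 : ℝ) ^ (2 * (L : ℝ)) := Real.rpow_pos_of_pos (by norm_num) _
  calc (I.card : ℝ) * (B * (2 : ℝ) ^ ((C - 2 * C1) * L)) ≤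
        101 * (2 : ℝ) ^ (2 * (L : ℝ)) * (B * (2 : ℝ) ^ ((C - 2 * C1) * L)) := by gcongr
    _ = 101 * B * ((2 : ℝ) ^ (2 * (L : ℝ)) * (2 : ℝ) ^ ((C - 2 * C1) * L)) := by ring
    _ ≤ (2 : ℝ) ^ (L : ℝ) * ((2 : ℝ) ^ (2 * (L : ℝ)) * (2 : ℝ) ^ ((C - 2 * C1) * L)) := by
        gcongr
        exact hLB.trans h2L
    _ = (2 : ℝ) ^ (-(Q * L)) := by
        rw [← Real.rpow_add (by norm_num), ← Real.rpow_add (by norm_num)]
        congr 1
        rw [hC1]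
        ring

end T2

end HexObs
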