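import Pool.Agent.T2.Defs
import Pool.Agent.SDN.FillN
import Pool.Agent.SDN.XT
import Pool.Agent.SDN.XFill

/-!
T2, module A: the norm of the sum over the special leaves.
-/

set_option autoImplicit false

namespace HexObs

namespace T2

open Finset TS SDN

open scoped ENNReal

namespace AN

lemma nil_BU : ([] : List Bool) ∈ BU := ⟨0, nil_mem_Brd⟩

lemma BU_app {s t : List Bool} (hs : s ∈ BU) (ht : t ∈ BU) : s ++ t ∈ BU := by
  obtain ⟨n, hn⟩ := hs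
  obtain ⟨m, hm⟩ := ht
  exact ⟨_, Brd_append hn hm⟩

lemma hgt_app {s t : List Bool} (hs : s ∈ BU) (ht : t ∈ BU) : hgt (s ++ t) = hgt s + hgt t := by
  obtain ⟨n, hn⟩ := hs
  obtain ⟨m, hm⟩ := ht
  rw [hgt_eq hn, hgt_eq hm, hgt_eq (Brd_append hn hm)]

/-- Markov -/
lemma markov {a C : ℝ} (h : MeanLen a C) {T : ℕ} (hT : 1 ≤ T) {lam : ℝ} (hlam : 0 < lam)
    {A : Set (List Bool)} (hA : ∀ Z ∈ A, Z ∈ Brd T ∧ lam ≤ (Z.length : ℝ)) :
    gf A ≤ ENNReal.ofReal (1 / lam) * (ENNReal.ofReal (C * (T : ℝ) ^ a) * BT T) := by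
  refine le_trans ?_ (mul_le_mul_right (h T hT) _)
  have h1 : gf A ≤ ∑' t : A, ENNReal.ofReal (1 / lam) * ((t.1.length : ℝ≥0∞) * wE t.1) := by
    unfold gf
    refine ENNReal.tsum_le_tsum fun t => ?_
    have h2 := (hA t.1 t.2).2
    have h3 : (1 : ℝ≥0∞) ≤ ENNReal.ofReal (1 / lam) * (t.1.length : ℝ≥0∞) := by
      rw [← ENNReal.ofReal_natCast, ← ENNReal.ofReal_mul (by positivity), ← ENNReal.ofReal_one]
      apply ENNReal.ofReal_le_ofReal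
      rw [one_div, inv_mul_eq_div, le_div_iff₀ hlam, one_mul]
      exact h2
    calc wE t.1 = 1 * wE t.1 := (one_mul _).symm
      _ ≤ (ENNReal.ofReal (1 / lam) * (t.1.length : ℝ≥0∞)) * wE t.1 := mul_le_mul_left h3 _
      _ = _ := mul_assoc _ _ _
  refine h1.trans ?_
  rw [ENNReal.tsum_mul_left]
  refine mul_le_mul_right ?_ _
  exact ENNReal.tsum_mono_subtype (fun t => (t.length : ℝ≥0∞) * wE t) (fun Z hZ => (hA Z hZ).1)

end AN

theorem EZ_sp {a C : ℝ} (ha : 0 ≤ a) (hC : 0 ≤ C) (h : MeanLen a C) (D e : ℕ) {N : ℕ} (hN : 1 ≤ N) {lam : ℝ}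
    (hlam : 0 < lam) : EZ D N e (Sp e lam) (C * (N : ℝ) ^ a / lam * UU N) := by
  intro M hM P1 hP1 P2 hP2 Q hQ h1 h2
  have hX : M ++ P1 ∈ BU := AN.BU_app hM (IU_BU hP1)
  have hY : P2 ++ Q ∈ BU := AN.BU_app (IU_BU hP2) hQ
  have hXh : hgt (M ++ P1) ≤ 2 ^ e := by
    rw [AN.hgt_app hM (IU_BU hP1)]
    exact h1
  have hYh : hgt (P2 ++ Q) ≤ 2 ^ e := by
    rw [AN.hgt_app (IU_BU hP2) hQ]
    exact h2
  obtain ⟨c, hc⟩ : ∃ c : ℝ≥0∞, c = ENNReal.ofReal (C * (N : ℝ) ^ a / lam) := ⟨_, rfl⟩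
  have hkey : ∀ n : ℕ, gf {Z | Z ∈ Brd n ∧ M ++ (P1 ++ (Z ++ (P2 ++ Q))) ∈ Sp e lam ∧
      M ++ (P1 ++ (Z ++ (P2 ++ Q))) ∈ BrR D N} ≤ if n ∈ range (N + 1) then c * BT n else 0 := by
    intro n
    have hlen : ∀ Z, Z ∈ Brd n → M ++ (P1 ++ (Z ++ (P2 ++ Q))) ∈ Sp e lam → lam ≤ (Z.length : ℝ) := by
      intro Z hZ hs
      refine hs (M ++ P1) hX Z ⟨n, hZ⟩ (P2 ++ Q) hY ?_ hXh hYh
      rw [List.append_assoc]
    by_cases hn : n ∈ range (N + 1)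
    · rw [if_pos hn]
      rw [mem_range] at hn
      rcases Nat.eq_zero_or_pos n with h0 | h0
      · subst h0
        refine le_trans (le_of_eq ?_) (zero_le)
        have : {Z | Z ∈ Brd 0 ∧ M ++ (P1 ++ (Z ++ (P2 ++ Q))) ∈ Sp e lam ∧
            M ++ (P1 ++ (Z ++ (P2 ++ Q))) ∈ BrR D N} = ∅ := by
          rw [Set.eq_empty_iff_forall_notMem]
          rintro Z ⟨hZ, hs, -⟩
          have h3 := hlen Z hZ hs
          rw [Brd_zero, Set.mem_singleton_iff] at hZ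
          rw [hZ] at h3
          simp only [List.length_nil, Nat.cast_zero] at h3
          linarith
        rw [this]
        unfold gf
        exact tsum_empty
      · refine (AN.markov h h0 hlam (A := {Z | Z ∈ Brd n ∧ M ++ (P1 ++ (Z ++ (P2 ++ Q))) ∈ Sp e lam ∧
          M ++ (P1 ++ (Z ++ (P2 ++ Q))) ∈ BrR D N}) fun Z hZ => ⟨hZ.1, hlen Z hZ.1 hZ.2.1⟩).trans ?_
        rw [← mul_assoc, hc]
        refine mul_le_mul_left ?_ _
        rw [← ENNReal.ofReal_mul (by positivity)]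
        apply ENNReal.ofReal_le_ofReal
        have h4 : (n : ℝ) ^ a ≤ (N : ℝ) ^ a := by
          refine Real.rpow_le_rpow (by positivity) ?_ ha
          exact_mod_cast (by omega : n ≤ N)
        rw [one_div, inv_mul_eq_div]
        refine div_le_div_of_nonneg_right ?_ hlam.le
        exact mul_le_mul_of_nonneg_left h4 hC
    · rw [if_neg hn]
      rw [mem_range, not_lt] at hn
      refine le_of_eq ?_
      have : {Z | Z ∈ Brd n ∧ M ++ (P1 ++ (Z ++ (P2 ++ Q))) ∈ Sp e lam ∧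
          M ++ (P1 ++ (Z ++ (P2 ++ Q))) ∈ BrR D N} = ∅ := by
        rw [Set.eq_empty_iff_forall_notMem]
        rintro Z ⟨hZ, -, m, -, hm, hB⟩
        obtain ⟨i, hi⟩ := hM
        obtain ⟨j, hj⟩ := IU_BU hP1
        obtain ⟨k, hk⟩ := hY
        have h5 := Brd_height hB (Brd_append hi (Brd_append hj (Brd_append hZ hk)))
        omega
      rw [this]
      unfold gf
      exact tsum_empty
  refine (ENNReal.tsum_le_tsum hkey).trans ?_
  rw [tsum_eq_sum (s := range (N + 1)) (fun n hn => if_neg hn)]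
  rw [Finset.sum_congr rfl (fun n hn => if_pos hn), ← Finset.mul_sum]
  have h6 : ∑ n ∈ range (N + 1), BT n = ENNReal.ofReal (UU N) := by
    unfold UU
    rw [ENNReal.ofReal_sum_of_nonneg (fun t _ => show 0 ≤ uu t from ENNReal.toReal_nonneg)]
    exact Finset.sum_congr rfl fun t _ => BT_eq_uu t
  rw [h6, hc, ← ENNReal.ofReal_mul (by positivity)]

theorem x_sp : ∃ K c : ℝ, 1 ≤ K ∧ 0 < c ∧ ∀ (a C : ℝ), 0 ≤ a → 0 ≤ C → MeanLen a C →
    ∀ (k e j1 N : ℕ) (ρ lam : ℝ) (Φ : List Bool → ℝ≥0∞), Hered Φ → j1 + 3 ≤ e → e ≤ k → 1 ≤ ρ → 1 ≤ N →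
    UU N ≤ ρ * Ub k → 0 < lam →
    xT (2 ^ (k + 4)) k (tF (2 ^ (k + 4)) N (Sp e lam) LFold Φ) ≤
      ENNReal.ofReal (K * ρ * ((2 : ℝ) ^ (k - e) * (2 : ℝ) ^ (-(c * ((e : ℝ) - j1))) +
        4 ^ (k - j1) * (C * (N : ℝ) ^ a * ρ / lam))) * xT (2 ^ (k + 4)) k Φ := by
  obtain ⟨C0, δ, hI⟩ := inp_exists
  obtain ⟨K, c, hK, hc, hx⟩ := x_fillE hI
  refine ⟨K, c, hK, hc, ?_⟩
  intro a C ha hC h k e j1 N ρ lam Φ hΦ he hek hρ hN hU hlam
  have hUk := Ub_pos k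
  refine hx (2 ^ (k + 4)) N k e j1 (Sp e lam) LFold ρ (C * (N : ℝ) ^ a * ρ / lam) Φ hΦ RNb_LFold le_rfl he hek hρ hU
    (by positivity) ?_
  have h1 := EZ_sp ha hC h (2 ^ (k + 4)) e hN hlam
  intro M hM P1 hP1 P2 hP2 Q hQ h3 h4
  refine (h1 M hM P1 hP1 P2 hP2 Q hQ h3 h4).trans (ENNReal.ofReal_le_ofReal ?_)
  calc C * (N : ℝ) ^ a / lam * UU N ≤ C * (N : ℝ) ^ a / lam * (ρ * Ub k) :=
        mul_le_mul_of_nonneg_left hU (by positivity)
    _ = C * (N : ℝ) ^ a * ρ / lam * Ub k := by ring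

namespace AN

lemma UU_up (k i : ℕ) : UU (2 ^ (k + i)) ≤ 2 ^ i * Ub k := by
  induction i with
  | zero =>
    rw [pow_zero, one_mul]
    exact le_rfl
  | succ i ih =>
    rw [← add_assoc, pow_succ, mul_comm (2 ^ (k + i)) 2, pow_succ]
    calc UU (2 * 2 ^ (k + i)) ≤ 2 * UU (2 ^ (k + i)) := UU_double _
      _ ≤ 2 * (2 ^ i * Ub k) := by linarith
      _ = _ := by ring

end AN

theorem x_sp_small {a C g : ℝ} (ha : 0 ≤ a) (hC : 0 ≤ C) (h : MeanLen a C) (hg : 0 < g) :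
    ∃ η : ℝ, 0 < η ∧ η ≤ 1 / 8 ∧ ∀ μ : ℕ, ∃ b0 : ℕ, 6 ≤ b0 ∧ ∀ (b : ℕ) (Φ : List Bool → ℝ≥0∞), b0 ≤ b → Hered Φ →
      xT (2 ^ (b - 1)) (b - 5) (tF (2 ^ (b - 1)) (2 ^ (b + μ + 1)) (Sp (ee η b) ((2 : ℝ) ^ ((a + g) * (b + μ : ℕ)))) LFold Φ) ≤
        ENNReal.ofReal ((2 : ℝ) ^ (-(η * b))) * xT (2 ^ (b - 1)) (b - 5) Φ := by
  obtain ⟨K, c, hK, hc, hx⟩ := x_sp
  obtain ⟨A, hA⟩ : ∃ A : ℝ, A = 1 + 2 / c := ⟨_, rfl⟩
  have hA0 : 0 < 2 / c := by positivity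
  have hA1 : 1 < A := by linarith
  obtain ⟨η, hη0, hη8, hηg, hηA, hηgA⟩ : ∃ η : ℝ, 0 < η ∧ η ≤ 1 / 8 ∧ η ≤ g / 4 ∧ 2 * η * A ≤ 1 / 2 ∧ 4 * η * A ≤ g / 2 := by
    refine ⟨min (1 / (8 * A)) (g / (8 * A)), by positivity, ?_, ?_, ?_, ?_⟩
    · refine (min_le_left _ _).trans ?_
      exact one_div_le_one_div_of_le (by norm_num) (by linarith)
    · refine (min_le_right _ _).trans ?_
      exact div_le_div_of_nonneg_left hg.le (by norm_num) (by linarith)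
    · have h1 := mul_le_mul_of_nonneg_right (min_le_left (1 / (8 * A)) (g / (8 * A))) (by linarith : 0 ≤ A)
      have h2 : 1 / (8 * A) * A = 1 / 8 := by
        field_simp
      linarith
    · have h1 := mul_le_mul_of_nonneg_right (min_le_right (1 / (8 * A)) (g / (8 * A))) (by linarith : 0 ≤ A)
      have h2 : g / (8 * A) * A = g / 8 := by
        field_simp
      linarith
  refine ⟨η, hη0, hη8, fun μ => ?_⟩
  obtain ⟨ρ, hρ⟩ : ∃ ρ : ℝ, ρ = 2 ^ (μ + 6) := ⟨_, rfl⟩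
  have hρ1 : 1 ≤ ρ := by
    rw [hρ]
    exact one_le_pow₀ (by norm_num)
  obtain ⟨c1, hc1⟩ : ∃ c1 : ℝ, c1 = K * ρ * 2 + K * ρ * (256 * (C * 2 ^ a * ρ)) := ⟨_, rfl⟩
  have hc10 : 0 < c1 := by
    rw [hc1]
    have : 0 < K * ρ := by positivity
    positivity
  -- b large
  have htend : Filter.Tendsto (fun b : ℕ => c1 * ((2 : ℝ) ^ (-η)) ^ b) Filter.atTop (nhds (c1 * 0)) := by
    refine Filter.Tendsto.const_mul _ ?_
    refine tendsto_pow_atTop_nhds_zero_of_lt_one (by positivity) ?_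
    exact Real.rpow_lt_one_of_one_lt_of_neg (by norm_num) (by linarith)
  rw [mul_zero] at htend
  obtain ⟨b1, hb1⟩ := Filter.eventually_atTop.1 (htend.eventually (gt_mem_nhds (show (0 : ℝ) < 1 by norm_num)))
  refine ⟨max 20 b1, le_max_of_le_left (by norm_num), fun b Φ hb hΦ => ?_⟩
  have hb20 : 20 ≤ b := (le_max_left _ _).trans hb
  have hbb1 : b1 ≤ b := (le_max_right _ _).trans hb
  have hsmall : c1 * (2 : ℝ) ^ (-(η * b)) < 1 := by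
    have h1 := hb1 b hbb1
    have h2 : ((2 : ℝ) ^ (-η)) ^ b = (2 : ℝ) ^ (-(η * b)) := by
      rw [← Real.rpow_natCast, ← Real.rpow_mul (by norm_num)]
      congr 1
      ring
    rw [h2] at h1
    exact h1
  have hbR : (20 : ℝ) ≤ b := by exact_mod_cast hb20
  obtain ⟨n, hn⟩ : ∃ n : ℕ, n = ⌊2 * η * b⌋₊ := ⟨_, rfl⟩
  have hn1 : (n : ℝ) ≤ 2 * η * b := by
    rw [hn]
    exact Nat.floor_le (by positivity)
  have hn2 : 2 * η * b < n + 1 := by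
    rw [hn]
    exact Nat.lt_floor_add_one _
  obtain ⟨J, hJ⟩ : ∃ J : ℕ, J = ⌈2 / c * n⌉₊ + 3 := ⟨_, rfl⟩
  have hJ1 : 2 / c * n ≤ J := by
    rw [hJ]
    push_cast
    linarith [Nat.le_ceil (2 / c * (n : ℝ))]
  have hJ2 : (J : ℝ) ≤ 2 / c * n + 4 := by
    rw [hJ]
    push_cast
    linarith [(Nat.ceil_lt_add_one (show (0 : ℝ) ≤ 2 / c * n by positivity)).le]
  have hJ3 : 3 ≤ J := by omega
  have hnJ : ((n : ℝ) + J) ≤ 2 * η * A * b + 4 := by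
    have : 2 / c * n ≤ 2 / c * (2 * η * b) := mul_le_mul_of_nonneg_left hn1 hA0.le
    rw [hA]
    linarith
  have hnJb : n + J + 5 ≤ b := by
    have h1 : 2 * η * A * b ≤ 1 / 2 * b := mul_le_mul_of_nonneg_right hηA (by linarith)
    have h2 : ((n + J + 5 : ℕ) : ℝ) ≤ (b : ℝ) := by
      push_cast
      linarith
    exact_mod_cast h2
  obtain ⟨k, hk⟩ : ∃ k : ℕ, k = b - 5 := ⟨_, rfl⟩
  have hkb : b = k + 5 := by omega
  have hee : ee η b = k - n := by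
    unfold ee
    rw [← hn, ← hk]
  rw [hee, ← hk, show b - 1 = k + 4 by omega]
  have hUN : UU (2 ^ (b + μ + 1)) ≤ ρ * Ub k := by
    have := AN.UU_up k (μ + 6)
    rw [hρ, show b + μ + 1 = k + (μ + 6) by omega]
    exact this
  refine (hx a C ha hC h k (k - n) (k - n - J) (2 ^ (b + μ + 1)) ρ ((2 : ℝ) ^ ((a + g) * (b + μ : ℕ))) Φ hΦ
    (by omega) (by omega) hρ1 Nat.one_le_two_pow hUN (by positivity)).trans
    (mul_le_mul_left (ENNReal.ofReal_le_ofReal ?_) _)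
  have e1 : k - (k - n) = n := by omega
  have e2 : k - (k - n - J) = n + J := by omega
  have e3 : ((k - n : ℕ) : ℝ) - ((k - n - J : ℕ) : ℝ) = J := by
    rw [Nat.cast_sub (show J ≤ k - n by omega)]
    ring
  rw [e1, e2, e3]
  -- the two terms
  have t1 : (2 : ℝ) ^ n * (2 : ℝ) ^ (-(c * (J : ℝ))) ≤ 2 * (2 : ℝ) ^ (-(2 * η * b)) := by
    have h1 : c * (2 / c * n) ≤ c * J := mul_le_mul_of_nonneg_left hJ1 hc.le
    have h2 : c * (2 / c * n) = 2 * n := by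
      field_simp
    rw [← Real.rpow_natCast, ← Real.rpow_add (by norm_num)]
    have h3 : (2 : ℝ) * (2 : ℝ) ^ (-(2 * η * b)) = (2 : ℝ) ^ (1 + -(2 * η * b)) := by
      rw [Real.rpow_add (by norm_num), Real.rpow_one]
    rw [h3]
    refine Real.rpow_le_rpow_of_exponent_le (by norm_num) ?_
    linarith
  have t2 : (4 : ℝ) ^ (n + J) * (C * ((2 ^ (b + μ + 1) : ℕ) : ℝ) ^ a * ρ / (2 : ℝ) ^ ((a + g) * (b + μ : ℕ))) ≤
      256 * (C * 2 ^ a * ρ) * (2 : ℝ) ^ (-(2 * η * b)) := by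
    have h1 : (4 : ℝ) ^ (n + J) ≤ 256 * (2 : ℝ) ^ (g / 2 * b) := by
      have h2 : (4 : ℝ) ^ (n + J) = (2 : ℝ) ^ (2 * ((n : ℝ) + J)) := by
        rw [Real.rpow_mul (by norm_num)]
        rw [show (2 : ℝ) ^ (2 : ℝ) = 4 by norm_num]
        rw [← Real.rpow_natCast]
        push_cast
        rfl
      have h3 : (256 : ℝ) * (2 : ℝ) ^ (g / 2 * b) = (2 : ℝ) ^ (8 + g / 2 * b) := by
        rw [Real.rpow_add (by norm_num)]
        norm_num
      rw [h2, h3]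
      refine Real.rpow_le_rpow_of_exponent_le (by norm_num) ?_
      have h4 : 4 * η * A * b ≤ g / 2 * b := mul_le_mul_of_nonneg_right hηgA (by linarith)
      linarith
    have h5 : ((2 ^ (b + μ + 1) : ℕ) : ℝ) ^ a / (2 : ℝ) ^ ((a + g) * (b + μ : ℕ)) ≤ 2 ^ a * (2 : ℝ) ^ (-(g * b)) := by
      have h6 : ((2 ^ (b + μ + 1) : ℕ) : ℝ) = (2 : ℝ) ^ ((b + μ + 1 : ℕ) : ℝ) := by
        rw [Real.rpow_natCast]
        push_cast
        rfl
      rw [h6, ← Real.rpow_mul (by norm_num), ← Real.rpow_sub (by norm_num), ← Real.rpow_add (by norm_num)]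
      refine Real.rpow_le_rpow_of_exponent_le (by norm_num) ?_
      push_cast
      have h7 : 0 ≤ g * μ := by positivity
      nlinarith
    have h8 : (2 : ℝ) ^ (g / 2 * b) * (2 : ℝ) ^ (-(g * b)) ≤ (2 : ℝ) ^ (-(2 * η * b)) := by
      rw [← Real.rpow_add (by norm_num)]
      refine Real.rpow_le_rpow_of_exponent_le (by norm_num) ?_
      have h9 : η * b ≤ g / 4 * b := mul_le_mul_of_nonneg_right hηg (by linarith)
      linarith
    calc (4 : ℝ) ^ (n + J) * (C * ((2 ^ (b + μ + 1) : ℕ) : ℝ) ^ a * ρ / (2 : ℝ) ^ ((a + g) * (b + μ : ℕ))) =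
        (4 : ℝ) ^ (n + J) * (C * ρ * (((2 ^ (b + μ + 1) : ℕ) : ℝ) ^ a / (2 : ℝ) ^ ((a + g) * (b + μ : ℕ)))) := by ring
      _ ≤ (256 * (2 : ℝ) ^ (g / 2 * b)) * (C * ρ * (2 ^ a * (2 : ℝ) ^ (-(g * b)))) := by gcongr
      _ = 256 * (C * 2 ^ a * ρ) * ((2 : ℝ) ^ (g / 2 * b) * (2 : ℝ) ^ (-(g * b))) := by ring
      _ ≤ _ := mul_le_mul_of_nonneg_left h8 (by positivity)
  have hKρ : 0 ≤ K * ρ := by positivity
  have e4 : (2 : ℝ) ^ (-(2 * η * b)) = (2 : ℝ) ^ (-(η * b)) * (2 : ℝ) ^ (-(η * b)) := by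
    rw [← Real.rpow_add (by norm_num)]
    congr 1
    ring
  have hp : 0 < (2 : ℝ) ^ (-(η * b)) := by positivity
  calc K * ρ * ((2 : ℝ) ^ n * (2 : ℝ) ^ (-(c * (J : ℝ))) +
        4 ^ (n + J) * (C * ((2 ^ (b + μ + 1) : ℕ) : ℝ) ^ a * ρ / (2 : ℝ) ^ ((a + g) * (b + μ : ℕ))))
      ≤ K * ρ * (2 * (2 : ℝ) ^ (-(2 * η * b)) + 256 * (C * 2 ^ a * ρ) * (2 : ℝ) ^ (-(2 * η * b))) :=
        mul_le_mul_of_nonneg_left (add_le_add t1 t2) hKρ
    _ = (c1 * (2 : ℝ) ^ (-(η * b))) * (2 : ℝ) ^ (-(η * b)) := by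
        rw [e4, hc1]
        ring
    _ ≤ 1 * (2 : ℝ) ^ (-(η * b)) := mul_le_mul_of_nonneg_right hsmall.le hp.le
    _ = _ := one_mul _

end T2

end HexObs
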