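import Pool.Agent.T2.UpDefs
import Pool.Agent.T2.ANorm

/-!
T2, module A': the norm of the sum over the special leaves, hypotheses Tail and EZ.
-/

set_option autoImplicit false

namespace HexObs

namespace T2

open Finset TS SDN

open scoped ENNReal

namespace AN

/-- EZ from a property of the middle bridge -/
lemma EZ_of {D N e : ℕ} {W : Set (List Bool)} {P : List Bool → Prop} {ε : ℝ}
    (hs : ∑ h ∈ range (N + 1), gf {Z | Z ∈ Brd h ∧ P Z} ≤ ENNReal.ofReal ε)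
    (hW : ∀ X ∈ BU, ∀ Z ∈ BU, ∀ Y ∈ BU, hgt X ≤ 2 ^ e → hgt Y ≤ 2 ^ e → X ++ (Z ++ Y) ∈ W → P Z) :
    EZ D N e W ε := by
  intro M hM P1 hP1 P2 hP2 Q hQ h1 h2
  have hX : M ++ P1 ∈ BU := BU_app hM (IU_BU hP1)
  have hY : P2 ++ Q ∈ BU := BU_app (IU_BU hP2) hQ
  have hXh : hgt (M ++ P1) ≤ 2 ^ e := by
    rw [hgt_app hM (IU_BU hP1)]
    exact h1
  have hYh : hgt (P2 ++ Q) ≤ 2 ^ e := by
    rw [hgt_app (IU_BU hP2) hQ]
    exact h2
  have hkey : ∀ n : ℕ, gf {Z | Z ∈ Brd n ∧ M ++ (P1 ++ (Z ++ (P2 ++ Q))) ∈ W ∧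
      M ++ (P1 ++ (Z ++ (P2 ++ Q))) ∈ BrR D N} ≤ if n ∈ range (N + 1) then gf {Z | Z ∈ Brd n ∧ P Z} else 0 := by
    intro n
    by_cases hn : n ∈ range (N + 1)
    · rw [if_pos hn]
      refine gf_mono ?_
      rintro Z ⟨hZ, hZW, -⟩
      rw [← List.append_assoc] at hZW
      exact ⟨hZ, hW (M ++ P1) hX Z ⟨n, hZ⟩ (P2 ++ Q) hY hXh hYh hZW⟩
    · rw [if_neg hn]
      refine le_of_eq ?_
      have : {Z | Z ∈ Brd n ∧ M ++ (P1 ++ (Z ++ (P2 ++ Q))) ∈ W ∧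
          M ++ (P1 ++ (Z ++ (P2 ++ Q))) ∈ BrR D N} = ∅ := by
        rw [Set.eq_empty_iff_forall_notMem]
        rintro Z ⟨hZ, -, m, -, hm, hB⟩
        obtain ⟨i, hi⟩ := hM
        obtain ⟨j, hj⟩ := IU_BU hP1
        obtain ⟨k, hk⟩ := hY
        have h5 := Brd_height hB (Brd_append hi (Brd_append hj (Brd_append hZ hk)))
        rw [mem_range] at hn
        omega
      rw [this]
      unfold gf
      exact tsum_empty
  refine (ENNReal.tsum_le_tsum hkey).trans ?_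
  rw [tsum_eq_sum (s := range (N + 1)) (fun n hn => if_neg hn)]
  rw [Finset.sum_congr rfl (fun n hn => if_pos hn)]
  exact hs

end AN

theorem EZ_tail {D e N : ℕ} {lam d : ℝ} (h : Tail N lam d) : EZ D N e (Sp e lam) (d * UU N) := by
  refine AN.EZ_of (P := fun Z => lam ≤ (Z.length : ℝ)) h ?_
  intro X hX Z hZ Y hY h1 h2 h3
  exact h3 X hX Z hZ Y hY rfl h1 h2

theorem EZ_short {D e N : ℕ} {lam d : ℝ} (h : Short N lam d) : EZ D N e {g | (g.length : ℝ) < lam} (d * UU N) := by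
  refine AN.EZ_of (P := fun Z => (Z.length : ℝ) < lam) h ?_
  intro X hX Z hZ Y hY h1 h2 h3
  rw [Set.mem_setOf_eq, List.length_append, List.length_append] at h3
  push_cast at h3
  have h6 : (0 : ℝ) ≤ X.length := Nat.cast_nonneg _
  have h7 : (0 : ℝ) ≤ Y.length := Nat.cast_nonneg _
  linarith

/-- EZ is monotone in the bound -/
theorem EZ_mono {D N e : ℕ} {W : Set (List Bool)} {ε ε' : ℝ} (h : EZ D N e W ε) (hε : ε ≤ ε') : EZ D N e W ε' :=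
  fun M hM P1 hP1 P2 hP2 Q hQ h1 h2 => (h M hM P1 hP1 P2 hP2 Q hQ h1 h2).trans (ENNReal.ofReal_le_ofReal hε)

/-- the numbers of the filling step for a rare property W -/
theorem xW_small {g : ℝ} (hg : 0 < g) : ∃ (η δ : ℝ) (b0 : ℕ), 0 < η ∧ η ≤ 1 / 8 ∧ 0 < δ ∧ 6 ≤ b0 ∧
    ∀ (b N : ℕ) (W : Set (List Bool)) (Φ : List Bool → ℝ≥0∞), b0 ≤ b → 1 ≤ N → (N : ℝ) ≤ (2 : ℝ) ^ ((1 + δ) * b) →
      Hered Φ → EZ (2 ^ (b - 1)) N (ee η b) W ((2 : ℝ) ^ (-(g * b)) * UU N) →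
      xT (2 ^ (b - 1)) (b - 5) (tF (2 ^ (b - 1)) N W LFold Φ) ≤
        ENNReal.ofReal ((2 : ℝ) ^ (-(η * b))) * xT (2 ^ (b - 1)) (b - 5) Φ := by
  obtain ⟨C0, δ, hI⟩ := inp_exists
  obtain ⟨K, c, hK, hc, hx⟩ := x_fillE hI
  obtain ⟨A, hA⟩ : ∃ A : ℝ, A = 1 + 2 / c := ⟨_, rfl⟩
  have hA0 : 0 < 2 / c := by positivity
  have hA1 : 1 < A := by linarith
  obtain ⟨η, hη0, hη8, hηg, hηA, hηgA⟩ : ∃ η : ℝ, 0 < η ∧ η ≤ 1 / 8 ∧ η ≤ g / 8 ∧ 2 * η * A ≤ 1 / 2 ∧ 4 * η * A ≤ g / 2 := by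
    refine ⟨min (1 / (8 * A)) (g / (8 * A)), by positivity, ?_, ?_, ?_, ?_⟩
    · refine (min_le_left _ _).trans ?_
      exact one_div_le_one_div_of_le (by norm_num) (by linarith)
    · refine (min_le_right _ _).trans ?_
      exact div_le_div_of_nonneg_left hg.le (by norm_num) (by linarith)
    · have h1 := mul_le_mul_of_nonneg_right (min_le_left (1 / (8 * A)) (g / (8 * A))) (by linarith : 0 ≤ A)
      have h2 : 1 / (8 * A) * A = 1 / 8 := by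
        field_simp
      linarith
    · have h1 := mul_le_mul_of_nonneg_right (min_le_right (1 / (8 * A)) (g / (8 * A))) (by linarith : 0 ≤ A)
      have h2 : g / (8 * A) * A = g / 8 := by
        field_simp
      linarith
  obtain ⟨c1, hc1⟩ : ∃ c1 : ℝ, c1 = K * 64 * 2 + K * 64 * (256 * 64) := ⟨_, rfl⟩
  have hc10 : 0 < c1 := by
    rw [hc1]
    positivity
  have htend : Filter.Tendsto (fun b : ℕ => c1 * ((2 : ℝ) ^ (-(η / 2))) ^ b) Filter.atTop (nhds (c1 * 0)) := by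
    refine Filter.Tendsto.const_mul _ ?_
    refine tendsto_pow_atTop_nhds_zero_of_lt_one (by positivity) ?_
    exact Real.rpow_lt_one_of_one_lt_of_neg (by norm_num) (by linarith)
  rw [mul_zero] at htend
  obtain ⟨b1, hb1⟩ := Filter.eventually_atTop.1 (htend.eventually (gt_mem_nhds (show (0 : ℝ) < 1 by norm_num)))
  refine ⟨η, η / 2, max 20 b1, hη0, hη8, by linarith, le_max_of_le_left (by norm_num), ?_⟩
  intro b N W Φ hb hN hNb hΦ hEZ
  have hb20 : 20 ≤ b := (le_max_left _ _).trans hb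
  have hbb1 : b1 ≤ b := (le_max_right _ _).trans hb
  have hsmall : c1 * (2 : ℝ) ^ (-(η / 2 * b)) < 1 := by
    have h1 := hb1 b hbb1
    have h2 : ((2 : ℝ) ^ (-(η / 2))) ^ b = (2 : ℝ) ^ (-(η / 2 * b)) := by
      rw [← Real.rpow_natCast, ← Real.rpow_mul (by norm_num)]
      congr 1
      ring
    rw [h2] at h1
    exact h1
  have hbR : (20 : ℝ) ≤ b := by exact_mod_cast hb20
  obtain ⟨ρ, hρ⟩ : ∃ ρ : ℝ, ρ = 64 * (2 : ℝ) ^ (η / 2 * b) := ⟨_, rfl⟩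
  have hρ1 : 1 ≤ ρ := by
    have : (1 : ℝ) ≤ (2 : ℝ) ^ (η / 2 * b) := Real.one_le_rpow (by norm_num) (by positivity)
    rw [hρ]
    linarith
  obtain ⟨n, hn⟩ : ∃ n : ℕ, n = ⌊2 * η * b⌋₊ := ⟨_, rfl⟩
  have hn1 : (n : ℝ) ≤ 2 * η * b := by
    rw [hn]
    exact Nat.floor_le (by positivity)
  have hn2 : 2 * η * b < n + 1 := by
    rw [hn]
    exact Nat.lt_floor_add_one _
  obtain ⟨J, hJ⟩ : ∃ J : ℕ, J = ⌈2 / c * n⌉₊ + 3 := ⟨_, rfl⟩
  have hJ1 : 2 / c * n ≤ J := by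
    rw [hJ]
    push_cast
    linarith [Nat.le_ceil (2 / c * (n : ℝ))]
  have hJ2 : (J : ℝ) ≤ 2 / c * n + 4 := by
    rw [hJ]
    push_cast
    linarith [(Nat.ceil_lt_add_one (show (0 : ℝ) ≤ 2 / c * n by positivity)).le]
  have hJ3 : 3 ≤ J := by omega
  have hnJ : ((n : ℝ) + J) ≤ 2 * η * A * b + 4 := by
    have : 2 / c * n ≤ 2 / c * (2 * η * b) := mul_le_mul_of_nonneg_left hn1 hA0.le
    rw [hA]
    linarith
  have hnJb : n + J + 5 ≤ b := by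
    have h1 : 2 * η * A * b ≤ 1 / 2 * b := mul_le_mul_of_nonneg_right hηA (by linarith)
    have h2 : ((n + J + 5 : ℕ) : ℝ) ≤ (b : ℝ) := by
      push_cast
      linarith
    exact_mod_cast h2
  obtain ⟨k, hk⟩ : ∃ k : ℕ, k = b - 5 := ⟨_, rfl⟩
  have hkb : b = k + 5 := by omega
  have hee : ee η b = k - n := by
    unfold ee
    rw [← hn, ← hk]
  rw [hee, show b - 1 = k + 4 by omega] at hEZ
  rw [← hk, show b - 1 = k + 4 by omega]
  have hUk := Ub_pos k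
  -- the height N
  have hUN : UU N ≤ ρ * Ub k := by
    obtain ⟨m, hm⟩ : ∃ m : ℕ, m = ⌈η / 2 * b⌉₊ := ⟨_, rfl⟩
    have hm1 : η / 2 * b ≤ m := by
      rw [hm]
      exact Nat.le_ceil _
    have hm2 : (m : ℝ) ≤ η / 2 * b + 1 := by
      rw [hm]
      exact (Nat.ceil_lt_add_one (by positivity)).le
    have hNm : N ≤ 2 ^ (k + (5 + m)) := by
      have h1 : (N : ℝ) ≤ ((2 ^ (k + (5 + m)) : ℕ) : ℝ) := by
        refine hNb.trans ?_
        push_cast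
        rw [← Real.rpow_natCast]
        refine Real.rpow_le_rpow_of_exponent_le (by norm_num) ?_
        push_cast
        have h2 : (b : ℝ) = k + 5 := by exact_mod_cast hkb
        nlinarith
      exact_mod_cast h1
    have h3 : UU N ≤ UU (2 ^ (k + (5 + m))) := Num2Aux.UU_mono hNm
    refine h3.trans ((AN.UU_up k (5 + m)).trans (mul_le_mul_of_nonneg_right ?_ hUk.le))
    rw [hρ, pow_add]
    have h4 : (2 : ℝ) ^ m ≤ 2 * (2 : ℝ) ^ (η / 2 * b) := by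
      have h5 : 2 * (2 : ℝ) ^ (η / 2 * b) = (2 : ℝ) ^ (1 + η / 2 * b) := by
        rw [Real.rpow_add (by norm_num), Real.rpow_one]
      rw [h5, ← Real.rpow_natCast]
      exact Real.rpow_le_rpow_of_exponent_le (by norm_num) (by linarith)
    linarith
  have hEZ' : EZ (2 ^ (k + 4)) N (k - n) W ((2 : ℝ) ^ (-(g * b)) * ρ * Ub k) := by
    refine EZ_mono hEZ ?_
    calc (2 : ℝ) ^ (-(g * b)) * UU N ≤ (2 : ℝ) ^ (-(g * b)) * (ρ * Ub k) :=
          mul_le_mul_of_nonneg_left hUN (by positivity)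
      _ = _ := by ring
  refine (hx (2 ^ (k + 4)) N k (k - n) (k - n - J) W LFold ρ ((2 : ℝ) ^ (-(g * b)) * ρ) Φ hΦ RNb_LFold le_rfl
    (by omega) (by omega) hρ1 hUN (by positivity) hEZ').trans
    (mul_le_mul_left (ENNReal.ofReal_le_ofReal ?_) _)
  have e1 : k - (k - n) = n := by omega
  have e2 : k - (k - n - J) = n + J := by omega
  have e3 : ((k - n : ℕ) : ℝ) - ((k - n - J : ℕ) : ℝ) = J := by
    rw [Nat.cast_sub (show J ≤ k - n by omega)]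
    ring
  rw [e1, e2, e3]
  -- the two terms
  have t1 : (2 : ℝ) ^ n * (2 : ℝ) ^ (-(c * (J : ℝ))) ≤ 2 * (2 : ℝ) ^ (-(2 * η * b)) := by
    have h1 : c * (2 / c * n) ≤ c * J := mul_le_mul_of_nonneg_left hJ1 hc.le
    have h2 : c * (2 / c * n) = 2 * n := by
      field_simp
    rw [← Real.rpow_natCast, ← Real.rpow_add (by norm_num)]
    have h3 : (2 : ℝ) * (2 : ℝ) ^ (-(2 * η * b)) = (2 : ℝ) ^ (1 + -(2 * η * b)) := by
      rw [Real.rpow_add (by norm_num), Real.rpow_one]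
    rw [h3]
    refine Real.rpow_le_rpow_of_exponent_le (by norm_num) ?_
    linarith
  have t2 : (4 : ℝ) ^ (n + J) * ((2 : ℝ) ^ (-(g * b)) * ρ) ≤ 256 * 64 * (2 : ℝ) ^ (-(5 / 2 * η * b)) := by
    have h1 : (4 : ℝ) ^ (n + J) ≤ 256 * (2 : ℝ) ^ (g / 2 * b) := by
      have h2 : (4 : ℝ) ^ (n + J) = (2 : ℝ) ^ (2 * ((n : ℝ) + J)) := by
        rw [Real.rpow_mul (by norm_num)]
        rw [show (2 : ℝ) ^ (2 : ℝ) = 4 by norm_num]
        rw [← Real.rpow_natCast]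
        push_cast
        rfl
      have h3 : (256 : ℝ) * (2 : ℝ) ^ (g / 2 * b) = (2 : ℝ) ^ (8 + g / 2 * b) := by
        rw [Real.rpow_add (by norm_num)]
        norm_num
      rw [h2, h3]
      refine Real.rpow_le_rpow_of_exponent_le (by norm_num) ?_
      have h4 : 4 * η * A * b ≤ g / 2 * b := mul_le_mul_of_nonneg_right hηgA (by linarith)
      linarith
    have h8 : (2 : ℝ) ^ (g / 2 * b) * ((2 : ℝ) ^ (-(g * b)) * (2 : ℝ) ^ (η / 2 * b)) ≤ (2 : ℝ) ^ (-(5 / 2 * η * b)) := by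
      rw [← Real.rpow_add (by norm_num), ← Real.rpow_add (by norm_num)]
      refine Real.rpow_le_rpow_of_exponent_le (by norm_num) ?_
      have h9 : η * b ≤ g / 8 * b := mul_le_mul_of_nonneg_right hηg (by linarith)
      have h10 : 0 ≤ η * b := by positivity
      linarith
    calc (4 : ℝ) ^ (n + J) * ((2 : ℝ) ^ (-(g * b)) * ρ) ≤
        (256 * (2 : ℝ) ^ (g / 2 * b)) * ((2 : ℝ) ^ (-(g * b)) * ρ) := by gcongr
      _ = 256 * 64 * ((2 : ℝ) ^ (g / 2 * b) * ((2 : ℝ) ^ (-(g * b)) * (2 : ℝ) ^ (η / 2 * b))) := by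
          rw [hρ]
          ring
      _ ≤ _ := mul_le_mul_of_nonneg_left h8 (by positivity)
  have e5 : (2 : ℝ) ^ (η / 2 * b) * (2 : ℝ) ^ (-(2 * η * b)) = (2 : ℝ) ^ (-(η / 2 * b)) * (2 : ℝ) ^ (-(η * b)) := by
    rw [← Real.rpow_add (by norm_num), ← Real.rpow_add (by norm_num)]
    congr 1
    ring
  have e6 : (2 : ℝ) ^ (η / 2 * b) * (2 : ℝ) ^ (-(5 / 2 * η * b)) ≤ (2 : ℝ) ^ (-(η / 2 * b)) * (2 : ℝ) ^ (-(η * b)) := by
    rw [← Real.rpow_add (by norm_num), ← Real.rpow_add (by norm_num)]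
    refine Real.rpow_le_rpow_of_exponent_le (by norm_num) ?_
    have h10 : 0 ≤ η * b := by positivity
    linarith
  have hp : 0 < (2 : ℝ) ^ (-(η * b)) := by positivity
  have hKρ : 0 ≤ K * ρ := by positivity
  calc K * ρ * ((2 : ℝ) ^ n * (2 : ℝ) ^ (-(c * (J : ℝ))) + 4 ^ (n + J) * ((2 : ℝ) ^ (-(g * b)) * ρ))
      ≤ K * ρ * (2 * (2 : ℝ) ^ (-(2 * η * b)) + 256 * 64 * (2 : ℝ) ^ (-(5 / 2 * η * b))) :=
        mul_le_mul_of_nonneg_left (add_le_add t1 t2) hKρ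
    _ = K * 64 * 2 * ((2 : ℝ) ^ (η / 2 * b) * (2 : ℝ) ^ (-(2 * η * b))) +
        K * 64 * (256 * 64) * ((2 : ℝ) ^ (η / 2 * b) * (2 : ℝ) ^ (-(5 / 2 * η * b))) := by
        rw [hρ]
        ring
    _ ≤ K * 64 * 2 * ((2 : ℝ) ^ (-(η / 2 * b)) * (2 : ℝ) ^ (-(η * b))) +
        K * 64 * (256 * 64) * ((2 : ℝ) ^ (-(η / 2 * b)) * (2 : ℝ) ^ (-(η * b))) := by
        rw [e5]
        gcongr
    _ = (c1 * (2 : ℝ) ^ (-(η / 2 * b))) * (2 : ℝ) ^ (-(η * b)) := by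
        rw [hc1]
        ring
    _ ≤ 1 * (2 : ℝ) ^ (-(η * b)) := mul_le_mul_of_nonneg_right hsmall.le hp.le
    _ = _ := one_mul _

end T2

end HexObs
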