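import Pool.Agent.T2.Defs

/-!
UP: the upper size bound (lower bound of the lengths). Definitions. Text: doc proof/UP_h57, board/UP.
-/

set_option autoImplicit false

namespace HexObs

namespace T2

open Finset TS SDN

open scoped ENNReal

/-- the bridges with at least lam letters have at most the proportion d of the mass up to the height N -/
def Tail (N : ℕ) (lam d : ℝ) : Prop :=
  ∑ h ∈ Finset.range (N + 1), gf {Z | Z ∈ Brd h ∧ lam ≤ (Z.length : ℝ)} ≤ ENNReal.ofReal (d * UU N)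

/-- the bridges with less than lam letters have at most the proportion d of the mass up to the height N -/
def Short (N : ℕ) (lam d : ℝ) : Prop :=
  ∑ h ∈ Finset.range (N + 1), gf {Z | Z ∈ Brd h ∧ (Z.length : ℝ) < lam} ≤ ENNReal.ofReal (d * UU N)

/-- the lower input: for τ < τ1 and every large top scale L there is a scale l ≤ L such that the walks in the box of
radius 2 ^ l with at least 2 ^ (l + τ L) letters are not rarer than some power of 2 ^ L -/
def LongWalks (τ1 : ℝ) : Prop := ∀ τ : ℝ, τ < τ1 → ∃ (Q0 : ℝ) (L0 : ℕ), 0 < Q0 ∧ ∀ L : ℕ, L0 ≤ L → ∃ l : ℕ, l ≤ L ∧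
  ENNReal.ofReal ((2 : ℝ) ^ (-(Q0 * L))) ≤ gf {t | t ∈ WL l ∧ (2 : ℝ) ^ ((l : ℝ) + τ * L) ≤ t.length}

/-- t leaves the box of radius 2 ^ q -/
def Ext (q : ℕ) (t : List Bool) : Prop := ∃ i, i ≤ t.length ∧ ∃ dir, (2 : ℤ) ^ q ≤ |row dir (vx oo up t i)|

/-- the walks that leave the box of radius 2 ^ L with at most 2 ^ (β L) letters are exponentially rare -/
def ExpUp (β : ℝ) : Prop := ∃ (c : ℝ) (L0 : ℕ), 0 < c ∧ ∀ L : ℕ, L0 ≤ L →
  gf {t | t ∈ SA ∧ Ext L t ∧ (t.length : ℝ) ≤ (2 : ℝ) ^ (β * L)} ≤ ENNReal.ofReal (Real.exp (-(2 : ℝ) ^ (c * L)))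

end T2

end HexObs
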