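import Pool.Agent.Tight.LawK
import Pool.Agent.T2.UpDefs

/-!
UP, module U3: renewal amplification. If the long bridges of height at most N0 have the proportion q of the mass,
then the short bridges of all heights have the mass at most UU N0 / q.
-/

set_option autoImplicit false

namespace HexObs

namespace T2

open Finset TS SDN

open scoped ENNReal

namespace Amp

lemma gf_FCW (T : ℕ) : gf (FCW T) = 1 := by
  rw [← tsum_FCW T]
  unfold gf
  exact tsum_subtype (FCW T) wE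

/-- minimal long bridges -/
def tau (lam : ℝ) (h : ℕ) : Set (List Bool) :=
  {Z | Z ∈ Brd h ∧ lam ≤ (Z.length : ℝ) ∧ ∀ a u : List Bool, ∀ b c : ℕ, a ∈ Brd b → u ∈ Brd c → 1 ≤ c → Z = a ++ u →
    (a.length : ℝ) < lam}

/-- short bridges -/
def Sh (lam : ℝ) (h : ℕ) : Set (List Bool) := {Z | Z ∈ Brd h ∧ (Z.length : ℝ) < lam}

/-- long bridges -/
def Lo (lam : ℝ) (h : ℕ) : Set (List Bool) := {Z | Z ∈ Brd h ∧ lam ≤ (Z.length : ℝ)}

lemma ofReal_UU (N : ℕ) : ENNReal.ofReal (UU N) = ∑ i ∈ Finset.range (N + 1), BT i := by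
  unfold UU
  rw [ENNReal.ofReal_sum_of_nonneg (fun i _ => (uu_pos i).le)]
  exact Finset.sum_congr rfl fun i _ => (BT_eq_uu i).symm

/-- a long bridge has a minimal long prefix -/
lemma Lo_dec {lam : ℝ} {h : ℕ} {Z : List Bool} (hZ : Z ∈ Lo lam h) :
    ∃ j, j ≤ h ∧ ∃ a ∈ tau lam j, ∃ u ∈ Brd (h - j), Z = a ++ u := by
  classical
  have hex : ∃ j, j ≤ h ∧ ∃ a, a ∈ Brd j ∧ lam ≤ (a.length : ℝ) ∧ ∃ u ∈ Brd (h - j), Z = a ++ u :=
    ⟨h, le_rfl, Z, hZ.1, hZ.2, [], by rw [Nat.sub_self]; exact nil_mem_Brd, (List.append_nil Z).symm⟩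
  obtain ⟨hj, a, ha, hla, u, hu, hZu⟩ := Nat.find_spec hex
  refine ⟨Nat.find hex, hj, a, ⟨ha, hla, ?_⟩, u, hu, hZu⟩
  intro a' u' b c ha' hu' hc haa
  by_contra hcon
  rw [not_lt] at hcon
  have hjb : Nat.find hex = b + c := Brd_height ha (haa ▸ Brd_append ha' hu')
  have hlt : b < Nat.find hex := by omega
  refine Nat.find_min hex hlt ⟨by omega, a', ha', hcon, u' ++ u, ?_, by rw [hZu, haa, List.append_assoc]⟩
  have h1 : h - b = c + (h - Nat.find hex) := by omega
  rw [h1]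
  exact Brd_append hu' hu

/-- uniqueness of the minimal long prefix -/
lemma tau_unique {lam : ℝ} {j j' b b' : ℕ} {a a' u u' : List Bool} (ha : a ∈ tau lam j) (ha' : a' ∈ tau lam j')
    (hu : u ∈ Brd b) (hu' : u' ∈ Brd b') (h : a ++ u = a' ++ u') : a = a' ∧ u = u' := by
  have key : ∀ {j j' b b' : ℕ} {a a' u u' : List Bool}, a ∈ tau lam j → a' ∈ tau lam j' → u ∈ Brd b → u' ∈ Brd b' →
      a ++ u = a' ++ u' → j ≤ j' → a = a' ∧ u = u' := by
    intro j j' b b' a a' u u' ha ha' hu hu' h hjj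
    obtain ⟨v, hv, h1, h2⟩ := FCaux.nested ha.1 ha'.1 hu hu' hjj h
    rcases Nat.eq_zero_or_pos (j' - j) with h0 | h0
    · rw [h0, Brd_zero] at hv
      have h4 : v = [] := hv
      rw [h4, List.append_nil] at h1
      rw [h4, List.nil_append] at h2
      exact ⟨h1.symm, h2⟩
    · exfalso
      have h5 := ha'.2.2 a v _ _ ha.1 hv h0 h1
      have h6 := ha.2.1
      linarith
  rcases Nat.le_total j j' with hjj | hjj
  · exact key ha ha' hu hu' h hjj
  · obtain ⟨h1, h2⟩ := key ha' ha hu' hu h.symm hjj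
    exact ⟨h1.symm, h2.symm⟩

/-- mass of the long bridges of height at most N0 -/
lemma sum_Lo_le (lam : ℝ) (N0 : ℕ) :
    ∑ h ∈ Finset.range (N0 + 1), gf (Lo lam h) ≤
      (∑ j ∈ Finset.range (N0 + 1), gf (tau lam j)) * ENNReal.ofReal (UU N0) := by
  have h1 : ∀ h ∈ Finset.range (N0 + 1), gf (Lo lam h) ≤
      ∑ j ∈ Finset.range (N0 + 1), gf (tau lam j) * (if j ≤ h then BT (h - j) else 0) := by
    intro h hh
    rw [Finset.mem_range] at hh
    let C : ℕ → Set (List Bool) := fun j => if j ≤ h then {Z | ∃ a ∈ tau lam j, ∃ u ∈ Brd (h - j), Z = a ++ u} else ∅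
    have hsub : Lo lam h ⊆ ⋃ j ∈ Finset.range (N0 + 1), C j := by
      intro Z hZ
      obtain ⟨j, hj, a, ha, u, hu, hau⟩ := Lo_dec hZ
      simp only [Set.mem_iUnion]
      refine ⟨j, Finset.mem_range.2 (by omega), ?_⟩
      simp only [C, if_pos hj]
      exact ⟨a, ha, u, hu, hau⟩
    refine (gf_mono hsub).trans (((ENNReal.tsum_biUnion_le wE (Finset.range (N0 + 1)) C)).trans ?_)
    refine Finset.sum_le_sum fun j _ => ?_
    change gf (C j) ≤ _
    by_cases hj : j ≤ h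
    · simp only [C, if_pos hj]
      rw [← gf_Brd]
      exact gf_le_mul fun t ht => by
        obtain ⟨a, ha, u, hu, h⟩ := ht
        exact ⟨a, ha, u, hu, h⟩
    · simp only [C, if_neg hj]
      have : gf (∅ : Set (List Bool)) = 0 := by
        unfold gf
        exact tsum_empty
      rw [this]
      exact zero_le
  refine (Finset.sum_le_sum h1).trans ?_
  rw [Finset.sum_comm, Finset.sum_mul]
  refine Finset.sum_le_sum fun j hj => ?_
  rw [Finset.mem_range] at hj
  rw [← Finset.mul_sum]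
  refine mul_le_mul' le_rfl ?_
  rw [ofReal_UU, ← Finset.sum_filter]
  have h2 : (Finset.range (N0 + 1)).filter (fun h => j ≤ h) = Finset.image (fun i => i + j) (Finset.range (N0 + 1 - j)) := by
    ext x
    simp only [Finset.mem_filter, Finset.mem_range, Finset.mem_image]
    constructor
    · rintro ⟨h3, h4⟩
      exact ⟨x - j, by omega, by omega⟩
    · rintro ⟨i, h3, rfl⟩
      omega
  rw [h2, Finset.sum_image (fun x _ y _ h => by simpa using h)]
  have h3 : ∀ i ∈ Finset.range (N0 + 1 - j), BT (i + j - j) = BT i := fun i _ => by rw [Nat.add_sub_cancel]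
  rw [Finset.sum_congr rfl h3]
  exact Finset.sum_le_sum_of_subset (Finset.range_mono (by omega))

/-- the short words of the first cut law -/
def FS (N0 : ℕ) (lam : ℝ) : Set (List Bool) := {t | t ∈ FCW (N0 + 1) ∧ (t.length : ℝ) < lam}

/-- mass of the minimal long prefixes plus mass of the short words -/
lemma mass_le_one (lam : ℝ) (N0 : ℕ) :
    gf (FS N0 lam) + ∑ j ∈ Finset.range (N0 + 1), gf (tau lam j) ≤ 1 := by
  let C : ℕ → Set (List Bool) := fun j => {Z | ∃ a u, a ∈ tau lam j ∧ u ∈ FCW (N0 + 1 - j) ∧ Z = a ++ u}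
  have hC : ∀ j ∈ Finset.range (N0 + 1), gf (tau lam j) ≤ gf (C j) := by
    intro j _
    have h1 : gf (tau lam j) * gf (FCW (N0 + 1 - j)) ≤ gf (C j) := by
      refine mul_le_gf (fun a ha b hb => ⟨a, b, ha, hb, rfl⟩) fun a ha b hb a' ha' b' hb' hab => ?_
      obtain ⟨n, hn⟩ := hb
      obtain ⟨n', hn'⟩ := hb'
      exact (tau_unique ha ha' hn.1 hn'.1 hab).1
    rwa [gf_FCW, mul_one] at h1
  have hdisj : ∀ i j, ∀ t, t ∈ C i → t ∈ C j → i = j := by
    rintro i j t ⟨a, u, ha, ⟨n, hn⟩, rfl⟩ ⟨a', u', ha', ⟨n', hn'⟩, h1⟩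
    obtain ⟨h2, -⟩ := tau_unique ha ha' hn.1 hn'.1 h1
    rw [h2] at ha
    exact Brd_height ha.1 ha'.1
  let D : Option (Finset.range (N0 + 1)) → Set (List Bool) := fun o => match o with
    | none => FS N0 lam
    | some j => C (j : ℕ)
  have hD : ∀ i j, ∀ t, t ∈ D i → t ∈ D j → i = j := by
    rintro (_ | i) (_ | j) t ht ht'
    · rfl
    · exfalso
      obtain ⟨a, u, ha, hu, rfl⟩ := ht'
      have h1 := ht.2
      have h2 := ha.2.1
      rw [List.length_append] at h1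
      push_cast at h1
      have : (0 : ℝ) ≤ u.length := Nat.cast_nonneg _
      linarith
    · exfalso
      obtain ⟨a, u, ha, hu, rfl⟩ := ht
      have h1 := ht'.2
      have h2 := ha.2.1
      rw [List.length_append] at h1
      push_cast at h1
      have : (0 : ℝ) ≤ u.length := Nat.cast_nonneg _
      linarith
    · exact congrArg some (Subtype.ext (hdisj _ _ t ht ht'))
  have hsub : (⋃ o, D o) ⊆ FCW (N0 + 1) := by
    intro t ht
    rw [Set.mem_iUnion] at ht
    obtain ⟨o, ho⟩ := ht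
    rcases o with _ | ⟨j, hj⟩
    · exact ho.1
    · rw [Finset.mem_range] at hj
      obtain ⟨a, u, ha, ⟨n, hn⟩, rfl⟩ := ho
      have ha' : a ∈ tau lam j := ha
      have hn' : u ∈ FC (N0 + 1 - j) n := hn
      have h0 := hn'.2.1
      refine ⟨j + n, Brd_append ha'.1 hn'.1, by omega, ?_⟩
      rintro c hc1 hc2 ⟨s', u', b, hs', hu', h1⟩
      obtain ⟨v, hv, h2, h3⟩ := FCaux.nested ha'.1 hs' hn'.1 hu' (by omega) h1
      exact hn'.2.2 (c - j) (by omega) (by omega) ⟨v, u', b, hv, hu', h3⟩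
  have h1 := gf_mono hsub
  rw [gf_FCW, K1.gf_iUnion D hD, tsum_fintype, Fintype.sum_option] at h1
  refine le_trans ?_ h1
  change gf (FS N0 lam) + _ ≤ gf (FS N0 lam) + ∑ i : Finset.range (N0 + 1), gf (C (i : ℕ))
  rw [Finset.sum_coe_sort (Finset.range (N0 + 1)) (fun i => gf (C i))]
  exact add_le_add le_rfl (Finset.sum_le_sum hC)

/-- sum of the short first cut words -/
lemma sum_FS (lam : ℝ) (N0 M : ℕ) :
    ∑ j ∈ Finset.range M, gf (FC (N0 + 1) j ∩ {t | (t.length : ℝ) < lam}) ≤ gf (FS N0 lam) := by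
  let C : Finset.range M → Set (List Bool) := fun j => FC (N0 + 1) (j : ℕ) ∩ {t | (t.length : ℝ) < lam}
  have hdisj : ∀ i j, ∀ t, t ∈ C i → t ∈ C j → i = j := by
    rintro i j t ⟨hi, _⟩ ⟨hj, _⟩
    exact Subtype.ext (Brd_height hi.1 hj.1)
  have hsub : (⋃ j, C j) ⊆ FS N0 lam := by
    intro t ht
    rw [Set.mem_iUnion] at ht
    obtain ⟨j, h1, h2⟩ := ht
    exact ⟨⟨j, h1⟩, h2⟩
  have h1 := gf_mono hsub
  rw [K1.gf_iUnion C hdisj, tsum_fintype] at h1
  rwa [Finset.sum_coe_sort (Finset.range M) (fun j => gf (FC (N0 + 1) j ∩ {t | (t.length : ℝ) < lam}))] at h1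

/-- a short bridge of height above N0 -/
lemma Sh_le (lam : ℝ) {N0 h : ℕ} (hh : N0 + 1 ≤ h) :
    gf (Sh lam h) ≤ ∑ j ∈ Finset.Icc (N0 + 1) h, gf (FC (N0 + 1) j ∩ {t | (t.length : ℝ) < lam}) * gf (Sh lam (h - j)) := by
  let C : ℕ → Set (List Bool) := fun j => {Z | ∃ a u, a ∈ FC (N0 + 1) j ∩ {t | (t.length : ℝ) < lam} ∧
    u ∈ Sh lam (h - j) ∧ Z = a ++ u}
  have hsub : Sh lam h ⊆ ⋃ j ∈ Finset.Icc (N0 + 1) h, C j := by
    rintro Z ⟨hZ, hl⟩
    obtain ⟨j, a, u, h1, h2, ha, hu, rfl⟩ := FC_dec hh hZ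
    rw [List.length_append] at hl
    push_cast at hl
    have e1 : (0 : ℝ) ≤ u.length := Nat.cast_nonneg _
    have e2 : (0 : ℝ) ≤ a.length := Nat.cast_nonneg _
    simp only [Set.mem_iUnion]
    refine ⟨j, Finset.mem_Icc.2 ⟨h1, h2⟩, a, u, ⟨ha, ?_⟩, ⟨hu, by linarith⟩, rfl⟩
    change (a.length : ℝ) < lam
    linarith
  refine (gf_mono hsub).trans ((ENNReal.tsum_biUnion_le wE (Finset.Icc (N0 + 1) h) C).trans ?_)
  refine Finset.sum_le_sum fun j _ => ?_
  change gf (C j) ≤ _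
  exact gf_le_mul fun t ht => by
    obtain ⟨a, u, ha, hu, h⟩ := ht
    exact ⟨a, ha, u, hu, h⟩

/-- the recursion -/
lemma rec_le (lam : ℝ) (N0 N : ℕ) :
    ∑ h ∈ Finset.range (N + 1), gf (Sh lam h) ≤
      ENNReal.ofReal (UU N0) + gf (FS N0 lam) * ∑ h ∈ Finset.range (N + 1), gf (Sh lam h) := by
  have h1 : ∀ h ∈ Finset.range (N + 1), gf (Sh lam h) ≤ (if h ≤ N0 then BT h else 0) +
      ∑ j ∈ Finset.range (N + 1), gf (FC (N0 + 1) j ∩ {t | (t.length : ℝ) < lam}) *
        (if j ≤ h then gf (Sh lam (h - j)) else 0) := by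
    intro h hh
    rw [Finset.mem_range] at hh
    by_cases hc : h ≤ N0
    · rw [if_pos hc]
      refine le_trans ?_ le_self_add
      rw [← gf_Brd]
      exact gf_mono fun Z hZ => hZ.1
    · rw [if_neg hc, zero_add]
      refine (Sh_le (N0 := N0) (h := h) lam (by omega)).trans ?_
      have h2 : ∀ j ∈ Finset.Icc (N0 + 1) h, gf (FC (N0 + 1) j ∩ {t | (t.length : ℝ) < lam}) * gf (Sh lam (h - j)) =
          gf (FC (N0 + 1) j ∩ {t | (t.length : ℝ) < lam}) * (if j ≤ h then gf (Sh lam (h - j)) else 0) := by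
        intro j hj
        rw [if_pos (Finset.mem_Icc.1 hj).2]
      rw [Finset.sum_congr rfl h2]
      refine Finset.sum_le_sum_of_subset fun j hj => ?_
      rw [Finset.mem_Icc] at hj
      rw [Finset.mem_range]
      omega
  refine (Finset.sum_le_sum h1).trans ?_
  rw [Finset.sum_add_distrib]
  refine add_le_add ?_ ?_
  · rw [ofReal_UU, ← Finset.sum_filter]
    refine Finset.sum_le_sum_of_subset fun j hj => ?_
    rw [Finset.mem_filter] at hj
    rw [Finset.mem_range]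
    omega
  · rw [Finset.sum_comm]
    have h3 : ∀ j ∈ Finset.range (N + 1), ∑ h ∈ Finset.range (N + 1),
        gf (FC (N0 + 1) j ∩ {t | (t.length : ℝ) < lam}) * (if j ≤ h then gf (Sh lam (h - j)) else 0) ≤
        gf (FC (N0 + 1) j ∩ {t | (t.length : ℝ) < lam}) * ∑ h ∈ Finset.range (N + 1), gf (Sh lam h) := by
      intro j hj
      rw [Finset.mem_range] at hj
      rw [← Finset.mul_sum]
      refine mul_le_mul' le_rfl ?_
      rw [← Finset.sum_filter]
      have h2 : (Finset.range (N + 1)).filter (fun h => j ≤ h) =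
          Finset.image (fun i => i + j) (Finset.range (N + 1 - j)) := by
        ext x
        simp only [Finset.mem_filter, Finset.mem_range, Finset.mem_image]
        constructor
        · rintro ⟨h3, h4⟩
          exact ⟨x - j, by omega, by omega⟩
        · rintro ⟨i, h3, rfl⟩
          omega
      rw [h2, Finset.sum_image (fun x _ y _ h => by simpa using h)]
      have h3 : ∀ i ∈ Finset.range (N + 1 - j), gf (Sh lam (i + j - j)) = gf (Sh lam i) := fun i _ => by
        rw [Nat.add_sub_cancel]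
      rw [Finset.sum_congr rfl h3]
      exact Finset.sum_le_sum_of_subset (Finset.range_mono (by omega))
    refine (Finset.sum_le_sum h3).trans ?_
    rw [← Finset.sum_mul]
    exact mul_le_mul' (sum_FS lam N0 (N + 1)) le_rfl

end Amp

open Amp in
theorem amplify {N0 : ℕ} {lam q : ℝ} (hq : 0 < q) (h : ¬ Tail N0 lam q) (N : ℕ) :
    ∑ h ∈ Finset.range (N + 1), gf {Z | Z ∈ Brd h ∧ (Z.length : ℝ) < lam} ≤ ENNReal.ofReal (UU N0 / q) := by
  have hU : 0 < UU N0 := Num2Aux.UU_pos N0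
  have h1 : ENNReal.ofReal (q * UU N0) < ∑ h ∈ Finset.range (N0 + 1), gf (Lo lam h) := not_le.1 h
  set p : ℝ≥0∞ := ∑ j ∈ Finset.range (N0 + 1), gf (tau lam j) with hp
  set V : ℝ≥0∞ := ∑ h ∈ Finset.range (N + 1), gf (Sh lam h) with hV
  change V ≤ _
  have h2 := sum_Lo_le lam N0
  rw [← hp] at h2
  -- q ≤ p
  have h3 : ENNReal.ofReal q ≤ p := by
    by_contra hcon
    rw [not_le] at hcon
    have h4 : p * ENNReal.ofReal (UU N0) ≤ ENNReal.ofReal q * ENNReal.ofReal (UU N0) := mul_le_mul' hcon.le le_rfl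
    rw [← ENNReal.ofReal_mul hq.le] at h4
    exact absurd (h1.trans_le (h2.trans h4)) (lt_irrefl _)
  have h5 := mass_le_one lam N0
  rw [← hp] at h5
  have h6 := rec_le lam N0 N
  rw [← hV] at h6
  have hVtop : V ≠ ⊤ := by
    refine ne_top_of_le_ne_top (b := ENNReal.ofReal (UU N)) ENNReal.ofReal_ne_top ?_
    rw [ofReal_UU]
    refine Finset.sum_le_sum fun h _ => ?_
    rw [← gf_Brd]
    exact gf_mono fun Z hZ => hZ.1
  have h7 : gf (FS N0 lam) ≠ ⊤ := ne_top_of_le_ne_top ENNReal.one_ne_top (le_self_add.trans h5)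
  have h8 : gf (FS N0 lam) * V + p * V ≤ ENNReal.ofReal (UU N0) + gf (FS N0 lam) * V := by
    rw [← add_mul]
    calc _ ≤ 1 * V := mul_le_mul' h5 le_rfl
      _ = V := one_mul V
      _ ≤ _ := h6
  have h9 : p * V ≤ ENNReal.ofReal (UU N0) := by
    rw [add_comm] at h8
    exact (ENNReal.add_le_add_iff_right (ENNReal.mul_ne_top h7 hVtop)).1 h8
  rw [ENNReal.ofReal_div_of_pos hq, ENNReal.le_div_iff_mul_le (Or.inl (by simpa using hq)) (Or.inl ENNReal.ofReal_ne_top),
    mul_comm]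
  exact (mul_le_mul' h3 le_rfl).trans h9

end T2

end HexObs
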