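import Pool.Agent.T2.Defs
import Pool.Agent.SDE.FinalB
import Pool.Agent.EXL.FinalPre
import Pool.Agent.EXL.GlFin
import Pool.Agent.Ex.P2Main

/-!
T2, module M: the mean length of the bridges (honeycomb lattice).
-/

set_option autoImplicit false

namespace HexObs

namespace T2

open scoped ENNReal

lemma MeanLen.mono {a a' C : ℝ} (hC : 0 ≤ C) (h : MeanLen a C) (ha : a ≤ a') : MeanLen a' C := by
  intro T hT
  refine (h T hT).trans (mul_le_mul' (ENNReal.ofReal_le_ofReal ?_) le_rfl)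
  exact mul_le_mul_of_nonneg_left (Real.rpow_le_rpow_of_exponent_le (by exact_mod_cast hT) ha) hC

/-- the critical bridges of height T have weight at least c T ^ (-1 / 4) -/
theorem bT_quarter : ∃ c : ℝ, 0 < c ∧ ∀ T : ℕ, 1 ≤ T → c * (T : ℝ) ^ (-(1 / 4) : ℝ) ≤ (BT T).toReal := by
  obtain ⟨C, hC, h⟩ := Ex.P2.main (fun n => HexObs.bT_nonneg n) (fun _ _ h => Pool.Agent.EXL.bT_anti h)
    (fun _ => rfl) Pool.Agent.EXL.Glue.relE_bT
  refine ⟨1 / C, by positivity, fun T hT => ?_⟩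
  have h1 := (h T hT).1
  rw [one_div, inv_mul_eq_div]
  exact h1

/-- mean length with every exponent above 20 / 11 -/
theorem meanLen_quarter {a : ℝ} (ha : 20 / 11 < a) : ∃ C : ℝ, 0 ≤ C ∧ MeanLen a C := by
  obtain ⟨a', ha'⟩ : ∃ a' : ℝ, a' = min a (19 / 10) := ⟨_, rfl⟩
  have h1 : a' ≤ a := by rw [ha']; exact min_le_left _ _
  have h2 : a' ≤ 19 / 10 := by rw [ha']; exact min_le_right _ _
  have h3 : 20 / 11 < a' := by rw [ha']; exact lt_min ha (by norm_num)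
  obtain ⟨v, hv⟩ : ∃ v : ℝ, v = 1 - 4 / 3 * (2 - a') := ⟨_, rfl⟩
  have hv1 : v < 1 := by rw [hv]; linarith
  have hv2 : 25 / 33 < v := by rw [hv]; linarith
  have hv0 : 0 < v := by linarith
  have hiv1 : 1 < 1 / v := by rw [lt_div_iff₀ hv0]; linarith
  have hiv2 : 1 / v < 1.32 := by
    rw [div_lt_iff₀ hv0]
    linarith
  obtain ⟨C, hC, h⟩ := SDE.s2_of_bT (α := 1 / 4) (θ := (1 / v + 1.32) / 2) (by norm_num) (by linarith) (by linarith)
    bT_quarter
  obtain ⟨θ, hθ⟩ : ∃ θ : ℝ, θ = (1 / v + 1.32) / 2 := ⟨_, rfl⟩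
  rw [← hθ] at h
  have hθ0 : 0 < θ := by rw [hθ]; linarith
  have hθv : 1 / θ ≤ v := by
    have h4 : 1 / v ≤ θ := by rw [hθ]; linarith
    rw [div_le_iff₀ hv0] at h4
    rw [div_le_iff₀ hθ0]
    linarith
  refine ⟨C, hC.le, MeanLen.mono hC.le (a := 2 - (1 - 1 / θ) * (1 - 1 / 4)) h ?_⟩
  rw [hv] at hθv
  linarith

end T2

end HexObs
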