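import Pool.Agent.T2.LongW

/-!
UP, module LB2: long walks from a lower bound of the weight of the walks through a vertex (after CMP/MeanC.lean).
-/

set_option autoImplicit false

namespace HexObs

namespace T2

open Finset TS SDN CMP LP

open scoped ENNReal

/-- the walks of the strip of height 3 h through a vertex of the middle h rows weigh at least c h ^ b -/
def LowHH (b c : ℝ) : Prop := ∀ h : ℕ, 1 ≤ h → ∃ L0 : ℕ, ∀ L : ℕ, L0 ≤ L → ∀ x ∈ KJ h,
  c * (h : ℝ) ^ b ≤ HH (Par (3 * h) L L) {kv (kl h x)}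

open Classical in
/-- the walks through one vertex of the middle. -/
lemma one_vertex_b {h L : ℕ} {x : ℕ × ℕ} {ε : ℝ}
    (hε : ∑ a ∈ bd (Par (3 * h) L L), ∑ t ∈ (ex0 (Par (3 * h) L L) a).filter (fun t =>
      ((a.2 ≠ up ∧ a.2 ≠ -up) ∨ (dx a.2 t t.length ≠ up ∧ dx a.2 t t.length ≠ -up)) ∧ Hit {kv (kl h x)} a t),
        xc ^ t.length ≤ ε) :
    HH (Par (3 * h) L L) {kv (kl h x)} ≤
      ε + ∑ a ∈ (bd (Par (3 * h) L L)).filter (fun a => a.2 = up), ∑ t ∈ Gd (3 * h) L (kv (kl h x)) a, cw t +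
      ∑ a ∈ (bd (Par (3 * h) L L)).filter (fun a => a.2 = -up), ∑ t ∈ Gd (3 * h) L (kv (kl h x)) a, cw t := by
  rw [HH_def]
  have h2 : ∀ a ∈ bd (Par (3 * h) L L), ∑ t ∈ (ex0 (Par (3 * h) L L) a).filter (Hit {kv (kl h x)} a), cw t ≤
      ∑ t ∈ (ex0 (Par (3 * h) L L) a).filter (fun t =>
        ((a.2 ≠ up ∧ a.2 ≠ -up) ∨ (dx a.2 t t.length ≠ up ∧ dx a.2 t t.length ≠ -up)) ∧ Hit {kv (kl h x)} a t),
          xc ^ t.length + (if a.2 = up then ∑ t ∈ Gd (3 * h) L (kv (kl h x)) a, cw t else 0) +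
        (if a.2 = -up then ∑ t ∈ Gd (3 * h) L (kv (kl h x)) a, cw t else 0) := by
    intro a _
    by_cases ha : a.2 = up ∨ a.2 = -up
    · have h3 : (if a.2 = up then ∑ t ∈ Gd (3 * h) L (kv (kl h x)) a, cw t else 0) +
          (if a.2 = -up then ∑ t ∈ Gd (3 * h) L (kv (kl h x)) a, cw t else 0) =
            ∑ t ∈ Gd (3 * h) L (kv (kl h x)) a, cw t := by
        have hne : (up : Pt) ≠ -up := by decide
        rcases ha with ha | ha
        · rw [if_pos ha, if_neg (by rw [ha]; exact hne), add_zero]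
        · rw [if_neg (by rw [ha]; exact hne.symm), if_pos ha, zero_add]
      rw [add_assoc, h3]
      have h4 : (ex0 (Par (3 * h) L L) a).filter (Hit {kv (kl h x)} a) =
          (ex0 (Par (3 * h) L L) a).filter (fun t =>
            ((a.2 ≠ up ∧ a.2 ≠ -up) ∨ (dx a.2 t t.length ≠ up ∧ dx a.2 t t.length ≠ -up)) ∧
              Hit {kv (kl h x)} a t) ∪ Gd (3 * h) L (kv (kl h x)) a := by
        ext t
        rw [Finset.mem_union, Finset.mem_filter, Finset.mem_filter, mem_Gd]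
        tauto
      have h5 : Disjoint ((ex0 (Par (3 * h) L L) a).filter (fun t =>
            ((a.2 ≠ up ∧ a.2 ≠ -up) ∨ (dx a.2 t t.length ≠ up ∧ dx a.2 t t.length ≠ -up)) ∧
              Hit {kv (kl h x)} a t)) (Gd (3 * h) L (kv (kl h x)) a) := by
        rw [Finset.disjoint_left]
        intro t ht ht2
        rw [Finset.mem_filter] at ht
        rw [mem_Gd] at ht2
        tauto
      rw [h4, Finset.sum_union h5]
      apply add_le_add_left
      exact Finset.sum_le_sum (fun t _ => cw_le_pow t)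
    · push Not at ha
      rw [if_neg ha.1, if_neg ha.2, add_zero, add_zero]
      have h4 : (ex0 (Par (3 * h) L L) a).filter (Hit {kv (kl h x)} a) =
          (ex0 (Par (3 * h) L L) a).filter (fun t =>
            ((a.2 ≠ up ∧ a.2 ≠ -up) ∨ (dx a.2 t t.length ≠ up ∧ dx a.2 t t.length ≠ -up)) ∧
              Hit {kv (kl h x)} a t) := by
        ext t
        rw [Finset.mem_filter, Finset.mem_filter]
        tauto
      rw [h4]
      exact Finset.sum_le_sum (fun t _ => cw_le_pow t)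
  refine (Finset.sum_le_sum h2).trans ?_
  rw [Finset.sum_add_distrib, Finset.sum_add_distrib, Finset.sum_filter, Finset.sum_filter]
  linarith

open Classical in
/-- the length-weighted sum from the weight of the walks through a vertex -/
theorem mean_ge_b {b c : ℝ} (hb : 0 ≤ b) (hc : 0 < c) (hlow : LowHH b c) :
    ∃ C q : ℝ, 0 < C ∧ 0 < q ∧ q < 1 ∧ ∀ h M : ℕ, 1 ≤ h → 1 ≤ M →
      (c / 2 * (h : ℝ) ^ b - C * h * (M + 1) * q ^ M) * h ≤ ∑ t ∈ WW (3 * h) h (M * (3 * h)), cw t * t.length := by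
  obtain ⟨C, q, hC, hq, hq1, hlat⟩ := lat_tail
  have hq2 : 0 < (1 - q)⁻¹ := inv_pos.2 (by linarith)
  refine ⟨12 * C * (1 + (1 - q)⁻¹), q, by positivity, hq, hq1, ?_⟩
  intro h M hh hM
  have hMh : 1 ≤ M * (3 * h) := Nat.mul_pos hM (by omega)
  obtain ⟨L0, hL0⟩ := hlow h hh
  choose A0 hA0 using fun v : Pt => walls_hit (3 * h) v (c / 2) (by omega) (by positivity)
  set L := 3 * h + 1 + L0 + ∑ x ∈ KJ h, A0 (kv (kl h x)) with hL
  have hL1 : 3 * h < L := by omega
  have hL2 : ∀ x ∈ KJ h, A0 (kv (kl h x)) ≤ L := by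
    intro x hx
    have h9 : A0 (kv (kl h x)) ≤ ∑ x ∈ KJ h, A0 (kv (kl h x)) :=
      Finset.single_le_sum (f := fun x => A0 (kv (kl h x))) (fun i _ => Nat.zero_le _) hx
    omega
  have h1 : ∑ x ∈ KJ h, (c * (h : ℝ) ^ b) ≤ ∑ x ∈ KJ h, (c / 2 +
      ∑ a ∈ (bd (Par (3 * h) L L)).filter (fun a => a.2 = up), ∑ t ∈ Gd (3 * h) L (kv (kl h x)) a, cw t +
      ∑ a ∈ (bd (Par (3 * h) L L)).filter (fun a => a.2 = -up), ∑ t ∈ Gd (3 * h) L (kv (kl h x)) a, cw t) := by
    apply Finset.sum_le_sum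
    intro x hx
    exact (hL0 L (by omega) x hx).trans (one_vertex_b (hA0 _ L L (hL2 x hx) (hL2 x hx)))
  rw [Finset.sum_add_distrib, Finset.sum_add_distrib, Finset.sum_const, Finset.sum_const, nsmul_eq_mul, nsmul_eq_mul,
    KJ_card] at h1
  have h2 := side_total (L := L) hC hq hq1 hh hM (φ := phF h) (fun y z hy hz he => phF_inj h hy hz he)
    (F := (bd (Par (3 * h) L L)).filter (fun a => a.2 = up)) (fun a => -a.1.2)
    (by
      intro a ha b hb he
      rw [Finset.mem_filter] at ha hb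
      obtain ⟨k, rfl, _, _⟩ := floor_start (by omega) (by omega) (by omega) ha.1 ha.2
      obtain ⟨l, rfl, _, _⟩ := floor_start (by omega) (by omega) (by omega) hb.1 hb.2
      have he' : - -k = - -l := he
      have : k = l := by omega
      rw [this])
    (by
      intro a ha
      rw [Finset.mem_filter] at ha
      obtain ⟨k, rfl, h3, h4⟩ := floor_start (by omega) (by omega) (by omega) ha.1 ha.2
      rw [Finset.mem_Ioo]
      show -(L : ℤ) < - -k ∧ - -k < L
      omega)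
    (by
      intro a ha x hx
      rw [Finset.mem_filter] at ha
      obtain ⟨k, rfl, h3, h4⟩ := floor_start (by omega) (by omega) (by omega) ha.1 ha.2
      have h5 := floor_bound hlat hh hMh h3 h4 hx
      have e : - -k = k := neg_neg k
      show _ ≤ ∑ t ∈ (WW (3 * h) h (M * (3 * h))).filter (Vis (phF h (- -k, x))), cw t +
        C * q ^ (max (M * (3 * h)) ((- -k).natAbs - 3 * h) / (3 * h))
      rw [e]
      exact h5)
  have h3 := side_total (L := L) hC hq hq1 hh hM (φ := phT h) (fun y z hy hz he => phT_inj h hy hz he)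
    (F := (bd (Par (3 * h) L L)).filter (fun a => a.2 = -up)) (fun a => (3 * h : ℕ) + 1 - a.1.2)
    (by
      intro a ha b hb he
      rw [Finset.mem_filter] at ha hb
      obtain ⟨k, rfl, _, _⟩ := top_start (by omega) (by omega) (by omega) ha.1 ha.2
      obtain ⟨l, rfl, _, _⟩ := top_start (by omega) (by omega) (by omega) hb.1 hb.2
      have he' : ((3 * h : ℕ) : ℤ) + 1 - ((3 * h : ℕ) + 1 - k) = (3 * h : ℕ) + 1 - ((3 * h : ℕ) + 1 - l) := he
      have : k = l := by linarith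
      rw [this])
    (by
      intro a ha
      rw [Finset.mem_filter] at ha
      obtain ⟨k, rfl, h3, h4⟩ := top_start (by omega) (by omega) (by omega) ha.1 ha.2
      rw [Finset.mem_Ioo]
      show -(L : ℤ) < ((3 * h : ℕ) : ℤ) + 1 - ((3 * h : ℕ) + 1 - k) ∧ ((3 * h : ℕ) : ℤ) + 1 - ((3 * h : ℕ) + 1 - k) < L
      omega)
    (by
      intro a ha x hx
      rw [Finset.mem_filter] at ha
      obtain ⟨k, rfl, h3, h4⟩ := top_start (by omega) (by omega) (by omega) ha.1 ha.2
      have h5 := top_bound hlat hh hMh h3 h4 hx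
      have e : ((3 * h : ℕ) : ℤ) + 1 - ((3 * h : ℕ) + 1 - k) = k := by ring
      show _ ≤ ∑ t ∈ (WW (3 * h) h (M * (3 * h))).filter
        (Vis (phT h (((3 * h : ℕ) : ℤ) + 1 - ((3 * h : ℕ) + 1 - k), x))), cw t +
        C * q ^ (max (M * (3 * h)) ((((3 * h : ℕ) : ℤ) + 1 - ((3 * h : ℕ) + 1 - k)).natAbs - 3 * h) / (3 * h))
      rw [e]
      exact h5)
  push_cast at h1
  have hh1 : (1 : ℝ) ≤ h := by exact_mod_cast hh
  have hp : 1 ≤ (h : ℝ) ^ b := Real.one_le_rpow hh1 hb
  have h4 : c / 2 * (h : ℝ) ^ b * h ≤ (c * (h : ℝ) ^ b - c / 2) * h := by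
    apply mul_le_mul_of_nonneg_right _ (by linarith)
    nlinarith
  linarith

/-- long walks from the weight of the walks through a vertex and the weight of the bridges -/
theorem longWalks_low {a b c : ℝ} (ha : 0 ≤ a) (hb : 0 ≤ b) (hc : 0 < c) (hlow : LowHH b c)
    (hB : ∃ C : ℝ, 0 < C ∧ ∀ h : ℕ, 1 ≤ h → uu h ≤ C * (h : ℝ) ^ (-a)) : LongWalks (a + b) := by
  obtain ⟨C, q, hC, hq, hq1, hmean⟩ := mean_ge_b hb hc hlow
  exact longWalks_gen ha hb (by positivity) hC hq hq1 hmean hB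

end T2

end HexObs
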