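import Pool.Agent.T2.LongW
import Pool.Agent.EXL.FinalPre
import Pool.Agent.EXL.GlFin
import Pool.Agent.Ex.P2Main

/-!
UP, module LB: long walks with the excess 1 / 4, unconditional.
-/

set_option autoImplicit false

namespace HexObs

namespace T2

/-- the critical bridges of height h have weight at most C h ^ (-1 / 4) -/
theorem uu_le_quarter : ∃ C : ℝ, 0 < C ∧ ∀ h : ℕ, 1 ≤ h → uu h ≤ C * (h : ℝ) ^ (-(1 / 4 : ℝ)) := by
  obtain ⟨C, hC, h⟩ := Ex.P2.main (fun n => HexObs.bT_nonneg n) (fun _ _ h => Pool.Agent.EXL.bT_anti h)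
    (fun _ => rfl) Pool.Agent.EXL.Glue.relE_bT
  exact ⟨C, hC, fun n hn => (h n hn).2⟩

/-- long walks with the excess 1 / 4 -/
theorem longWalks_quarter : LongWalks (1 / 4) := longWalks_of (by norm_num) uu_le_quarter

end T2

end HexObs
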