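import Pool.Agent.CMP.HHThree
import Pool.Agent.CMP.MeanC
import Pool.Agent.HexLoop.Ring

/-!
UP, LB+: the weight of the walks through a vertex at distance s from the boundary is at least c s ^ b for some b > 0:
the nested polygons of LP.ring around the vertex multiply the bound 3 of HH_three.
-/

set_option autoImplicit false

namespace HexObs

namespace LP

open Complex Finset

private lemma rg_card1 : ∀ c : ZMod 3, c ≠ 1 →
    (dirs.filter (fun d => c + cl d ≠ 1)).card = 3 := by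
  decide

open Classical in
private lemma rg_card {v : Pt} (hv : Vt v) : (dirs.filter (fun d => De (v, d))).card = 3 := by
  have h1 : dirs.filter (fun d => De (v, d)) = dirs.filter (fun d => cl v + cl d ≠ 1) := by
    apply Finset.filter_congr
    intro d hd
    unfold De Vt
    simp only [← cl_add]
    constructor
    · rintro ⟨_, _, h⟩
      exact h
    · intro h
      exact ⟨hd, hv, h⟩
  rw [h1]
  exact rg_card1 _ hv

open Classical in
/-- the recursion: polygons around the vertex. -/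
theorem HH_rec {Ω : Finset Pt} (hΩ : Full Ω) {v : Pt} (hv : v ∈ Ω) :
    3 + ∑ E ∈ (polys Ω).filter (fun E => Ins E v), xc ^ E.card * HH (inn Ω E) {v} ≤ HH Ω {v} := by
  have hvt : Vt v := hΩ.1 v hv
  have e1 : HH Ω {v} = ∑ d ∈ dirs.filter (fun d => De (v, d)), ((SS (Ω.erase v) (v, d)).re -
      ∑ t ∈ (ex0 (Ω.erase v) (v, d)).filter (fun t => tp (v, d) t = v), (wt t).re) := by
    rw [HH_vertex hΩ hv]
    apply Finset.sum_congr rfl
    intro d _
    have h1 : exv Ω v (v, d) = (ex0 (Ω.erase v) (v, d)).filter (fun t => ¬ tp (v, d) t = v) := by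
      unfold exv
      apply Finset.filter_congr
      intro t _
      rfl
    unfold SS
    rw [Complex.re_sum, h1, ← Finset.sum_filter_add_sum_filter_not (ex0 (Ω.erase v) (v, d))
      (fun t => tp (v, d) t = v)]
    ring
  have e2 := bulk_vertex hΩ hv
  have e3 : ∑ d ∈ dirs.filter (fun d => De (v, d)), ∑ t ∈ (ex0 (Ω.erase v) (v, d)).filter
      (fun t => tp (v, d) t = v), (wt t).re ≤ 0 := by
    apply Finset.sum_nonpos
    intro d hd
    apply Finset.sum_nonpos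
    intro t ht
    rw [Finset.mem_filter] at hd ht
    exact ret_nonpos hd.2 ht.1 ht.2
  rw [rg_card hvt] at e2
  rw [e1, Finset.sum_sub_distrib]
  push_cast at e2
  linarith

private lemma rg_vt {E : Finset (Pt × Pt)} (hE : IsPoly E) {v : Pt} (hv : v ∈ VE E) : Vt v := by
  obtain ⟨p, hp, rfl⟩ := Finset.mem_image.1 hv
  exact (isPoly_de hE hp).2.1

/-- an annulus constant: polygons in the box of size R e around the box of size e weigh at least c. -/
def RingC (R e0 : ℕ) (c : ℝ) : Prop := ∀ (e : ℕ) (z : Pt), e0 ≤ e → cl z = 0 →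
    ∃ 𝓔 : Finset (Finset (Pt × Pt)), (∀ E ∈ 𝓔, IsPoly E ∧ (∀ v ∈ VE E, Bx z (R * e) v) ∧
      ∀ v, Vt v → Bx z e v → Ins E v) ∧ c ≤ ∑ E ∈ 𝓔, xc ^ E.card

private lemma bx_mono {z v : Pt} {s s' : ℕ} (h : s ≤ s') (hv : Bx z s v) : Bx z s' v := by
  have h1 : (s : ℤ) ≤ s' := by exact_mod_cast h
  exact ⟨hv.1.trans h1, hv.2.trans h1⟩

theorem HH_grow {R e0 : ℕ} {c : ℝ} (hR : 1 ≤ R) (hc : 0 < c) (hr : RingC R e0 c) : ∀ k : ℕ,
    ∀ {Ω : Finset Pt}, Full Ω → ∀ {z : Pt}, cl z = 0 → (∀ v, Vt v → Bx z (R ^ k * e0) v → v ∈ Ω) →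
    ∀ {v : Pt}, Vt v → Bx z e0 v → 3 * (1 + c) ^ k ≤ HH Ω {v} := by
  classical
  intro k
  induction k using Nat.strong_induction_on with
  | _ k ih =>
    intro Ω hΩ z hz hB v hv hvB
    have hpow : ∀ i, 1 ≤ R ^ i := fun i => Nat.one_le_pow _ _ (by omega)
    have hvΩ : v ∈ Ω := hB v hv (bx_mono (Nat.le_mul_of_pos_left _ (hpow k)) hvB)
    have hfam : ∀ j, ∃ 𝓔 : Finset (Finset (Pt × Pt)), (∀ E ∈ 𝓔, IsPoly E ∧
        (∀ v ∈ VE E, Bx z (R ^ (j + 1) * e0) v) ∧ ∀ v, Vt v → Bx z (R ^ j * e0) v → Ins E v) ∧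
        c ≤ ∑ E ∈ 𝓔, xc ^ E.card := by
      intro j
      obtain ⟨𝓔, h1, h2⟩ := hr (R ^ j * e0) z (Nat.le_mul_of_pos_left _ (hpow j)) hz
      refine ⟨𝓔, fun E hE => ⟨(h1 E hE).1, fun w hw => ?_, (h1 E hE).2.2⟩, h2⟩
      have := (h1 E hE).2.1 w hw
      rwa [← mul_assoc, ← pow_succ'] at this
    choose 𝓔 h𝓔 hc𝓔 using hfam
    have hdisj : ∀ i j, i < j → Disjoint (𝓔 i) (𝓔 j) := by
      intro i j hij
      rw [Finset.disjoint_left]
      intro E h1 h2
      obtain ⟨p1, p2, p3⟩ := h𝓔 i E h1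
      obtain ⟨q1, q2, q3⟩ := h𝓔 j E h2
      have hne : E.Nonempty := by
        rw [Finset.nonempty_iff_ne_empty]
        rintro rfl
        obtain ⟨_, _, d, _, _, h4⟩ := q3 v hv (bx_mono (Nat.le_mul_of_pos_left _ (hpow j)) hvB)
        exact h4 rfl
      obtain ⟨p, hp⟩ := hne
      have hw : p.1 ∈ VE E := Finset.mem_image_of_mem _ hp
      have h3 := p2 p.1 hw
      have h4 := q3 p.1 (rg_vt p1 hw) (bx_mono (Nat.mul_le_mul_right _ (Nat.pow_le_pow_right (by omega) hij)) h3)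
      exact h4.2.1 hw
    have hsub : ((range k).biUnion 𝓔) ⊆ (polys Ω).filter (fun E => Ins E v) := by
      intro E hE
      rw [Finset.mem_biUnion] at hE
      obtain ⟨j, hj, hE⟩ := hE
      rw [Finset.mem_range] at hj
      obtain ⟨p1, p2, p3⟩ := h𝓔 j E hE
      rw [Finset.mem_filter, mem_polys]
      refine ⟨⟨p1, fun w hw => ?_⟩, p3 v hv (bx_mono (Nat.le_mul_of_pos_left _ (hpow j)) hvB)⟩
      exact hB w (rg_vt p1 hw) (bx_mono (Nat.mul_le_mul_right _ (Nat.pow_le_pow_right (by omega) hj)) (p2 w hw))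
    have hpos : ∀ E ∈ (polys Ω).filter (fun E => Ins E v), 0 ≤ xc ^ E.card * HH (inn Ω E) {v} := by
      intro E hE
      rw [Finset.mem_filter] at hE
      apply mul_nonneg (pow_nonneg xc_pos.le _)
      have h3 := HH_three (full_inn hΩ hE.1) (mem_inn.2 ⟨hvΩ, hE.2⟩)
      linarith
    have h1 : ∑ E ∈ (range k).biUnion 𝓔, xc ^ E.card * HH (inn Ω E) {v} ≤
        ∑ E ∈ (polys Ω).filter (fun E => Ins E v), xc ^ E.card * HH (inn Ω E) {v} :=
      Finset.sum_le_sum_of_subset_of_nonneg hsub (fun E hE _ => hpos E hE)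
    rw [Finset.sum_biUnion (by
      intro i _ j _ hij
      rcases lt_or_gt_of_ne hij with h | h
      · exact hdisj i j h
      · exact (hdisj j i h).symm)] at h1
    have h2 : ∀ j ∈ range k, c * (3 * (1 + c) ^ j) ≤ ∑ E ∈ 𝓔 j, xc ^ E.card * HH (inn Ω E) {v} := by
      intro j hj
      have hjk := Finset.mem_range.1 hj
      have h3 : ∀ E ∈ 𝓔 j, xc ^ E.card * (3 * (1 + c) ^ j) ≤ xc ^ E.card * HH (inn Ω E) {v} := by
        intro E hE
        obtain ⟨p1, p2, p3⟩ := h𝓔 j E hE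
        have hEp : E ∈ (polys Ω).filter (fun E => Ins E v) := hsub (Finset.mem_biUnion.2 ⟨j, hj, hE⟩)
        apply mul_le_mul_of_nonneg_left _ (pow_nonneg xc_pos.le _)
        refine ih j hjk (full_inn hΩ (Finset.mem_filter.1 hEp).1) hz (fun w hw hwB => ?_) hv hvB
        exact mem_inn.2 ⟨hB w hw (bx_mono (Nat.mul_le_mul_right _ (Nat.pow_le_pow_right (by omega) hjk.le)) hwB),
          p3 w hw hwB⟩
      calc c * (3 * (1 + c) ^ j) ≤ (∑ E ∈ 𝓔 j, xc ^ E.card) * (3 * (1 + c) ^ j) :=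
            mul_le_mul_of_nonneg_right (hc𝓔 j) (by positivity)
        _ = ∑ E ∈ 𝓔 j, xc ^ E.card * (3 * (1 + c) ^ j) := Finset.sum_mul _ _ _
        _ ≤ _ := Finset.sum_le_sum h3
    have h3 : 3 + ∑ j ∈ range k, c * (3 * (1 + c) ^ j) = 3 * (1 + c) ^ k := by
      clear ih hB h1 h2 hsub
      induction k with
      | zero => simp
      | succ k ih =>
        rw [Finset.sum_range_succ, ← add_assoc, ih, pow_succ]
        ring
    have h4 := HH_rec hΩ hvΩ
    have h5 := Finset.sum_le_sum h2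
    linarith

/-- polynomial growth of the weight of the walks through a vertex of the middle of the strip. -/
theorem lowHH_pos : ∃ b c : ℝ, 0 < b ∧ 0 < c ∧ ∀ h : ℕ, 1 ≤ h → ∃ L0 : ℕ, ∀ L : ℕ, L0 ≤ L → ∀ x ∈ CMP.KJ h,
    c * (h : ℝ) ^ b ≤ HH (Par (3 * h) L L) {CMP.kv (CMP.kl h x)} := by
  obtain ⟨R', e0, c, hR', he0, hc, hr'⟩ := ring
  -- R at least 2
  obtain ⟨R, hR, hr⟩ : ∃ R : ℕ, 2 ≤ R ∧ RingC R e0 c := by
    refine ⟨R' + 1, by omega, ?_⟩
    intro e z he hz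
    obtain ⟨𝓔, h1, h2⟩ := hr' e z he hz
    exact ⟨𝓔, fun E hE => ⟨(h1 E hE).1, fun w hw => bx_mono (Nat.mul_le_mul_right _ (by omega)) ((h1 E hE).2.1 w hw),
      (h1 E hE).2.2⟩, h2⟩
  obtain ⟨b, hb⟩ : ∃ b : ℝ, b = Real.logb R (1 + c) := ⟨_, rfl⟩
  have hR1 : (1 : ℝ) < R := by exact_mod_cast hR
  have hb0 : 0 < b := by
    rw [hb]
    exact Real.logb_pos hR1 (by linarith)
  have hRb : (R : ℝ) ^ b = 1 + c := by
    rw [hb]
    exact Real.rpow_logb (by linarith) (by linarith) (by linarith)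
  have he0' : (1 : ℝ) ≤ e0 := by exact_mod_cast he0
  have he0b : (0 : ℝ) < (e0 : ℝ) ^ b := Real.rpow_pos_of_pos (by linarith) _
  refine ⟨b, 3 / (1 + c) / (e0 : ℝ) ^ b, hb0, by positivity, ?_⟩
  intro h hh
  refine ⟨10 * h + 10, ?_⟩
  intro L hL x hx
  have hkb := CMP.kl_bd hx
  have hvt : Vt (CMP.kv (CMP.kl h x)) := CMP.kv_cl hx
  have hl : lv (CMP.kv (CMP.kl h x)) = CMP.kl h x := CMP.lv_kv _
  have hn : nn (CMP.kv (CMP.kl h x)) = CMP.kl h x % 2 - CMP.kl h x / 2 := CMP.nn_kv _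
  generalize CMP.kv (CMP.kl h x) = v at hvt hl hn
  generalize CMP.kl h x = l at hkb hl hn
  have hfull := par_full (3 * h) L L
  have hmem : ∀ w : Pt, Vt w → |w.1 - v.1| ≤ (h : ℤ) + 1 → |w.2 - v.2| ≤ (h : ℤ) → w ∈ Par (3 * h) L L := by
    intro w hw h1 h2
    rw [abs_le] at h1 h2
    have hL' : (10 : ℤ) * h + 10 ≤ L := by exact_mod_cast hL
    have e1 : lv w = w.1 + 2 * w.2 := rfl
    have e2 : nn w = w.1 - w.2 := rfl
    have e3 : v.1 + 2 * v.2 = l := hl
    have e4 : v.1 - v.2 = l % 2 - l / 2 := hn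
    rw [mem_par, e1, e2]
    refine ⟨hw, ?_, ?_, ?_, ?_⟩
    · omega
    · push_cast
      omega
    · omega
    · omega
  have hv3 : 3 ≤ HH (Par (3 * h) L L) {v} := by
    apply HH_three hfull
    apply hmem v hvt
    · rw [sub_self, abs_zero]
      omega
    · rw [sub_self, abs_zero]
      omega
  have hh0 : (0 : ℝ) < h := by exact_mod_cast hh
  rcases Nat.lt_or_ge h e0 with hcase | hcase
  · -- small h
    refine le_trans ?_ hv3
    have h1 : (h : ℝ) ^ b ≤ (e0 : ℝ) ^ b :=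
      Real.rpow_le_rpow hh0.le (by exact_mod_cast hcase.le) hb0.le
    calc 3 / (1 + c) / (e0 : ℝ) ^ b * (h : ℝ) ^ b ≤ 3 / (1 + c) / (e0 : ℝ) ^ b * (e0 : ℝ) ^ b :=
          mul_le_mul_of_nonneg_left h1 (by positivity)
      _ = 3 / (1 + c) := by
        field_simp
      _ ≤ 3 := by
        rw [div_le_iff₀ (by linarith)]
        linarith
  · -- the centre
    obtain ⟨z, hz, hz1, hz2⟩ : ∃ z : Pt, cl z = 0 ∧ |z.1 - v.1| ≤ 1 ∧ z.2 = v.2 := by
      have h1 : cl v = 0 ∨ cl v = 2 := by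
        have key : ∀ a : ZMod 3, a ≠ 1 → a = 0 ∨ a = 2 := by decide
        exact key _ hvt
      rcases h1 with h1 | h1
      · exact ⟨v, h1, by simp, rfl⟩
      · refine ⟨v + (1, 0), ?_, by simp, by simp⟩
        rw [cl_add, h1]
        decide
    obtain ⟨k, hk⟩ : ∃ k, k = Nat.log R (h / e0) := ⟨_, rfl⟩
    have hq : h / e0 ≠ 0 := by
      have : 1 ≤ h / e0 := (Nat.one_le_div_iff (by omega)).2 hcase
      omega
    have hk1 : R ^ k * e0 ≤ h := by
      have h1 : R ^ k ≤ h / e0 := by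
        rw [hk]
        exact Nat.pow_log_le_self R hq
      calc R ^ k * e0 ≤ h / e0 * e0 := Nat.mul_le_mul_right _ h1
        _ ≤ h := Nat.div_mul_le_self h e0
    have hk2 : h < R ^ (k + 1) * e0 := by
      have h1 : h / e0 < R ^ (k + 1) := by
        rw [hk]
        exact Nat.lt_pow_succ_log_self (by omega) _
      rwa [Nat.div_lt_iff_lt_mul (by omega)] at h1
    have key := HH_grow (R := R) (e0 := e0) (by omega) hc hr k hfull hz (fun w hw hwB => by
      obtain ⟨a1, a2⟩ := hwB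
      have hk1' : ((R ^ k * e0 : ℕ) : ℤ) ≤ h := by exact_mod_cast hk1
      have b1 : (w - z).1 = w.1 - z.1 := rfl
      have b2 : (w - z).2 = w.2 - z.2 := rfl
      rw [b1] at a1
      rw [b2] at a2
      rw [abs_le] at a1 a2 hz1
      apply hmem w hw
      · rw [abs_le]
        constructor <;> omega
      · rw [abs_le]
        constructor <;> omega) hvt (by
      have hz1' := abs_le.1 hz1
      constructor
      · show |v.1 - z.1| ≤ (e0 : ℤ)
        rw [abs_le]
        constructor <;> omega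
      · show |v.2 - z.2| ≤ (e0 : ℤ)
        rw [abs_le]
        constructor <;> omega)
    refine le_trans ?_ key
    have h1 : (h : ℝ) ^ b ≤ (1 + c) ^ (k + 1) * (e0 : ℝ) ^ b := by
      have h2 : (h : ℝ) ≤ (R : ℝ) ^ (k + 1) * e0 := by exact_mod_cast hk2.le
      calc (h : ℝ) ^ b ≤ ((R : ℝ) ^ (k + 1) * e0) ^ b := Real.rpow_le_rpow hh0.le h2 hb0.le
        _ = ((R : ℝ) ^ (k + 1)) ^ b * (e0 : ℝ) ^ b := Real.mul_rpow (by positivity) (by positivity)
        _ = ((R : ℝ) ^ b) ^ (k + 1) * (e0 : ℝ) ^ b := by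
          rw [← Real.rpow_natCast, ← Real.rpow_natCast, ← Real.rpow_mul (by positivity),
            ← Real.rpow_mul (by positivity), mul_comm b]
        _ = _ := by rw [hRb]
    calc 3 / (1 + c) / (e0 : ℝ) ^ b * (h : ℝ) ^ b ≤
        3 / (1 + c) / (e0 : ℝ) ^ b * ((1 + c) ^ (k + 1) * (e0 : ℝ) ^ b) :=
          mul_le_mul_of_nonneg_left h1 (by positivity)
      _ = 3 * (1 + c) ^ k := by
        rw [pow_succ]
        field_simp

end LP

end HexObs
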