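import Pool.Agent.T2.LongB
import Pool.Agent.T2.LongQ
import Pool.Agent.T2.LowHHRing

/-!
UP, module LB: long walks with an excess above 1 / 4, unconditional.
-/

set_option autoImplicit false

namespace HexObs

namespace T2

theorem longWalks_pos : ∃ b : ℝ, 0 < b ∧ LongWalks (1 / 4 + b) := by
  obtain ⟨b, c, hb, hc, h⟩ := LP.lowHH_pos
  exact ⟨b, hb, longWalks_low (by norm_num) hb.le hc h uu_le_quarter⟩

end T2

end HexObs
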