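import Pool.Agent.T2.UpDefs
import Pool.Agent.T2.AllN
import Pool.Agent.SDN.EncBall

/-!
UP, module U9: all n, from the exponential bound for the walks that leave the box too early.
-/

set_option autoImplicit false

namespace HexObs

namespace T2

open Finset TS SDN

open scoped ENNReal

namespace AllNUp

/-- the norm of a vertex from its two rows -/
lemma nrm_row {v : Pt} {R : ℤ} (h0 : |row false v| < R) (h1 : |row true v| < R) : nrm v ≤ 9 * R ^ 2 := by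
  have e : 3 * nrm v = lvl false v ^ 2 + lvl false v * lvl true v + lvl true v ^ 2 := by
    simp only [lvl, hd, ip, nrm, up, Bool.false_eq_true, if_false, if_true]
    ring
  have k : ∀ dir, |row dir v| < R → |lvl dir v| ≤ 3 * R := by
    intro dir h
    unfold row at h
    rw [abs_lt] at h
    rw [abs_le]
    omega
  have k0 := k false h0
  have k1 := k true h1
  have hR : 0 < R := lt_of_le_of_lt (abs_nonneg _) h0
  have s0 : lvl false v ^ 2 ≤ (3 * R) ^ 2 := sq_le_sq' (by linarith [(abs_le.1 k0).1]) (abs_le.1 k0).2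
  have s1 : lvl true v ^ 2 ≤ (3 * R) ^ 2 := sq_le_sq' (by linarith [(abs_le.1 k1).1]) (abs_le.1 k1).2
  nlinarith [sq_nonneg (lvl false v - lvl true v)]

/-- the size of a walk from its vertices -/
lemma S4_le {n : ℕ} {l : List Pt} (hl : l ∈ SawNu.WS SawNu.hexL n) {D : ℝ}
    (h : ∀ i, i ≤ n → ∃ q : Pt, SawNu.ps l i = HexMu.psi q ∧ (nrm q : ℝ) ≤ D) :
    SawNu.S4 SawNu.hexRot l ≤ 6 * D := by
  have hl' := SawNu.mem_WS.mp hl
  have k1 : ∀ i, i ≤ n → (((SawNu.ps l i).2 : ℤ) : ℝ) ^ 2 ≤ 4 / 3 * D := by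
    intro i hi
    obtain ⟨q, hq, hD⟩ := h i hi
    rw [hq]
    have e : (nrm q : ℝ) = (q.1 : ℝ) ^ 2 + q.1 * q.2 + (q.2 : ℝ) ^ 2 := by
      unfold nrm
      push_cast
      ring
    simp only [HexMu.psi]
    push_cast
    nlinarith [sq_nonneg (2 * (q.1 : ℝ) + q.2), sq_nonneg (2 * (q.2 : ℝ) + q.1)]
  have k2 : ∀ i, i ≤ n → (((SawNu.ps (l.map SawNu.hexRot.f) i).2 : ℤ) : ℝ) ^ 2 ≤ 4 / 3 * D := by
    intro i hi
    obtain ⟨q, hq, hD⟩ := h i hi
    have h1 := SawNu.hexRot.ps_snd hl'.2.1 i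
    rw [hq] at h1
    simp only [HexMu.psi, SawNu.hexRot] at h1 ⊢
    have h4 : (SawNu.ps (l.map SawNu.rotT) i).2 = q.1 := by linarith
    rw [h4]
    have e : (nrm q : ℝ) = (q.1 : ℝ) ^ 2 + q.1 * q.2 + (q.2 : ℝ) ^ 2 := by
      unfold nrm
      push_cast
      ring
    nlinarith [sq_nonneg (2 * (q.1 : ℝ) + q.2), sq_nonneg (2 * (q.2 : ℝ) + q.1)]
  have t1 := SawNu.tip_le l
  have t2 := SawNu.tip_le (l.map SawNu.rhoH)
  have t3 := SawNu.tip_le (l.map SawNu.hexRot.f)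
  have t4 := SawNu.tip_le ((l.map SawNu.hexRot.f).map SawNu.rhoH)
  simp only [List.length_map] at t2 t3 t4
  rw [hl'.1] at t1 t2 t3 t4
  have a1 := k1 _ t1
  have a2 := k1 _ t2
  have a3 := k2 _ t3
  have a4 := k2 _ t4
  have b1 : ((SawNu.mx l : ℤ) : ℝ) = ((SawNu.ps l (SawNu.tip l)).2 : ℤ) := rfl
  have b2 : SawNu.mx (l.map SawNu.rhoH) = -(SawNu.ps l (SawNu.tip (l.map SawNu.rhoH))).2 := by
    rw [SawNu.mx, SawNu.ps_map, SawNu.rhoH_snd]
  have b3 : ((SawNu.mx (l.map SawNu.hexRot.f) : ℤ) : ℝ) =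
      ((SawNu.ps (l.map SawNu.hexRot.f) (SawNu.tip (l.map SawNu.hexRot.f))).2 : ℤ) := rfl
  have b4 : SawNu.mx ((l.map SawNu.hexRot.f).map SawNu.rhoH) =
      -(SawNu.ps (l.map SawNu.hexRot.f) (SawNu.tip ((l.map SawNu.hexRot.f).map SawNu.rhoH))).2 := by
    rw [SawNu.mx, SawNu.ps_map, SawNu.rhoH_snd]
  rw [SawNu.S4, b1, b2, b3, b4]
  push_cast
  have hD : 0 ≤ D := by nlinarith [sq_nonneg (((SawNu.ps l (SawNu.tip l)).2 : ℤ) : ℝ)]
  nlinarith

/-- the dictionary with the encoding of the final statement, walks that leave a ball and words that leave a box -/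
theorem enc_far : ∃ K : ℕ, 1 ≤ K ∧ ∀ n L : ℕ, 1 ≤ n →
    ((SawNu.WS SawNu.hexL n).filter (fun l => (K : ℝ) * (4 : ℝ) ^ L < SawNu.S4 SawNu.hexRot l)).card ≤
      3 * {t | (t ∈ SA ∧ Ext L t) ∧ t.length = n}.ncard := by
  refine ⟨54, by norm_num, fun n L hn => ?_⟩
  have hS3 : ((SawNu.hexL.S false : Finset (ℤ × ℤ)) : Set (ℤ × ℤ)).ncard = 3 := by
    rw [Set.ncard_coe_finset]
    simp only [SawNu.hexL, cond_false]
    decide
  set T : Set (List Bool) := {t | (t ∈ SA ∧ Ext L t) ∧ t.length = n} with hT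
  have hTf : T.Finite := (List.finite_length_eq Bool n).subset (fun _ ht => ht.2)
  have hc3 : 3 * T.ncard = (((SawNu.hexL.S false : Finset (ℤ × ℤ)) : Set (ℤ × ℤ)) ×ˢ T).ncard := by
    rw [Set.ncard_prod, hS3]
  rw [hc3, ← Set.ncard_coe_finset]
  have hfin : (((SawNu.hexL.S false : Finset (ℤ × ℤ)) : Set (ℤ × ℤ)) ×ˢ T).Finite :=
    (Finset.finite_toSet _).prod hTf
  refine le_trans (Set.ncard_le_ncard ?_ (hfin.image
    (fun p : (ℤ × ℤ) × List Bool => (HexMu.stepsOf (HexMu.phi p.1) p.2.dropLast).map HexMu.psi)))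
    (Set.ncard_image_le hfin)
  intro l hl
  rw [Finset.mem_coe, Finset.mem_filter] at hl
  obtain ⟨hW, hS⟩ := hl
  obtain ⟨h1, h2, h3⟩ := SawNu.mem_WS.mp hW
  rcases l with _ | ⟨s, l⟩
  · simp at h1
    omega
  rw [List.length_cons] at h1
  have hs := h2.1
  have hup : up ∈ dirs := by decide
  have hl2 : (HexMu.tword (s :: l)).length + 1 = n := by
    rw [HexMu.tword_length]
    exact h1
  set t' := HexMu.tword (s :: l) with ht'
  have hlen : (t' ++ [true]).length = n := by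
    rw [List.length_append, List.length_singleton]
    exact hl2
  have hvx : ∀ i, i ≤ n → vx oo up (t' ++ [true]) i = vx oo up t' i := fun i hi => vx_append (by omega)
  refine ⟨(s, t' ++ [true]), ⟨hs, ⟨⟨⟨fun _ _ _ => trivial, ?_⟩, ?_⟩, hlen⟩⟩, ?_⟩
  · intro i k hik hk he
    rw [hlen] at hk
    rw [hvx i (by omega), hvx k hk] at he
    have h4 := HexMu.vx_tword_inj h2 h3 oo hik (by omega)
    exact h4 (PHWDict.dist_rot hup (HexMu.phi_dirs hs) oo oo he)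
  · by_contra hcon
    unfold Ext at hcon
    push Not at hcon
    rw [hlen] at hcon
    have key := S4_le hW (D := 9 * (4 : ℝ) ^ L) (fun i hi => by
      refine ⟨vx oo (HexMu.phi s) t' i, ?_, ?_⟩
      · have := HexMu.vx_tword h2 h3 oo i (by omega)
        rw [← this]
        have h0 : (oo : Pt) = 0 := rfl
        rw [h0, sub_zero]
      · rw [← EncBall.nrm_vx (HexMu.phi_dirs hs), ← hvx i hi]
        have h5 := nrm_row (hcon i hi false) (hcon i hi true)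
        have h6 : ((nrm (vx oo up (t' ++ [true]) i) : ℤ) : ℝ) ≤ ((9 * ((2 : ℤ) ^ L) ^ 2 : ℤ) : ℝ) := by
          exact_mod_cast h5
        refine h6.trans (le_of_eq ?_)
        push_cast
        rw [← pow_mul, mul_comm L 2, pow_mul]
        norm_num)
    push_cast at hS
    linarith
  · simp only
    rw [List.dropLast_concat, ht', HexMu.tword, PHWDict.stepsOf_tw_eq (HexMu.ch_of_SA h2 h3)]
    rw [List.map_cons, HexMu.psi_phi hs]
    congr 1
    have key : ∀ (b : Bool) (l : List (ℤ × ℤ)), SawNu.TW SawNu.hexL.S b l →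
        (l.map HexMu.phi).map HexMu.psi = l := by
      intro b l
      induction l generalizing b with
      | nil => intro _; rfl
      | cons s l ih =>
        rintro ⟨k1, k2⟩
        rw [List.map_cons, List.map_cons, HexMu.psi_phi k1, ih _ k2]
    exact key _ l h2.2

lemma count {β c : ℝ} {L n K : ℕ}
    (hA : gf {t | t ∈ SA ∧ Ext L t ∧ (t.length : ℝ) ≤ (2 : ℝ) ^ (β * L)} ≤
      ENNReal.ofReal (Real.exp (-(2 : ℝ) ^ (c * L))))
    (hE : ((SawNu.WS SawNu.hexL n).filter (fun l => (K : ℝ) * (4 : ℝ) ^ L < SawNu.S4 SawNu.hexRot l)).card ≤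
      3 * {t | (t ∈ SA ∧ Ext L t) ∧ t.length = n}.ncard)
    (hC : 1 ≤ ((SawNu.WS SawNu.hexL n).card : ℝ) * xc ^ n) (hn : (n : ℝ) ≤ (2 : ℝ) ^ (β * L)) :
    (((SawNu.WS SawNu.hexL n).filter (fun l => (K : ℝ) * (4 : ℝ) ^ L < SawNu.S4 SawNu.hexRot l)).card : ℝ) ≤
      3 * Real.exp (-(2 : ℝ) ^ (c * L)) * ((SawNu.WS SawNu.hexL n).card : ℝ) := by
  set S : Set (List Bool) := {t | (t ∈ SA ∧ Ext L t) ∧ t.length = n} with hS
  have h1 : gf S ≤ ENNReal.ofReal (Real.exp (-(2 : ℝ) ^ (c * L))) := by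
    refine le_trans ?_ hA
    apply gf_mono
    rintro t ⟨⟨h2, h4⟩, h3⟩
    refine ⟨h2, h4, ?_⟩
    rw [h3]
    exact hn
  rw [AllN.gf_len (n := n) (fun t ht => ht.2)] at h1
  have hxn : 0 < xc ^ n := pow_pos xc_pos n
  have h2 : (S.ncard : ℝ) * xc ^ n ≤ Real.exp (-(2 : ℝ) ^ (c * L)) := by
    have h3 : ((S.ncard : ℝ≥0∞)) = ENNReal.ofReal (S.ncard : ℝ) := (ENNReal.ofReal_natCast _).symm
    rw [h3, ← ENNReal.ofReal_mul (Nat.cast_nonneg _)] at h1
    exact (ENNReal.ofReal_le_ofReal_iff (Real.exp_pos _).le).1 h1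
  have h4 : (((SawNu.WS SawNu.hexL n).filter (fun l => (K : ℝ) * (4 : ℝ) ^ L < SawNu.S4 SawNu.hexRot l)).card : ℝ) ≤
      3 * (S.ncard : ℝ) := by exact_mod_cast hE
  have h5 : (S.ncard : ℝ) ≤ Real.exp (-(2 : ℝ) ^ (c * L)) * ((SawNu.WS SawNu.hexL n).card : ℝ) := by
    have h6 : (0 : ℝ) ≤ S.ncard := Nat.cast_nonneg _
    have h7 : (0 : ℝ) ≤ ((SawNu.WS SawNu.hexL n).card : ℝ) := Nat.cast_nonneg _
    calc (S.ncard : ℝ) = (S.ncard : ℝ) * 1 := (mul_one _).symm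
      _ ≤ (S.ncard : ℝ) * (((SawNu.WS SawNu.hexL n).card : ℝ) * xc ^ n) := mul_le_mul_of_nonneg_left hC h6
      _ = ((S.ncard : ℝ) * xc ^ n) * ((SawNu.WS SawNu.hexL n).card : ℝ) := by ring
      _ ≤ _ := mul_le_mul_of_nonneg_right h2 h7
  linarith

/-- the maximal level of a walk is at most its number of steps -/
lemma mx_le {n : ℕ} {l : List Pt} (hl : l ∈ SawNu.WS SawNu.hexL n) : ((SawNu.mx l : ℤ) : ℝ) ^ 2 ≤ (n : ℝ) ^ 2 := by
  rw [SawNu.mem_WS] at hl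
  have h4 := SawNu.lev_le_time hl.2.1 hl.2.2 (SawNu.tip_le l)
  have h5 : SawNu.mx l ≤ n := by
    have h6 : ((SawNu.tip l : ℕ) : ℤ) ≤ n := by
      have := SawNu.tip_le l
      exact_mod_cast (by omega : SawNu.tip l ≤ n)
    exact le_trans h4 h6
  have h8 : ((SawNu.mx l : ℤ) : ℝ) ≤ n := by exact_mod_cast h5
  have h9 : (0 : ℝ) ≤ ((SawNu.mx l : ℤ) : ℝ) := by exact_mod_cast SawNu.mx_nonneg l
  exact pow_le_pow_left₀ h9 h8 2

lemma S4_le_sq {n : ℕ} {l : List Pt} (hl : l ∈ SawNu.WS SawNu.hexL n) : SawNu.S4 SawNu.hexRot l ≤ 4 * (n : ℝ) ^ 2 := by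
  have h1 := mx_le hl
  have h2 := mx_le (SawNu.rho_mem_WS hl)
  have h3 := mx_le (SawNu.hexRot.mem_WS hl)
  have h4 := mx_le (SawNu.rho_mem_WS (SawNu.hexRot.mem_WS hl))
  rw [SawNu.S4]
  linarith

end AllNUp

open AllNUp

/-- almost all walks stay in the ball of radius n^(p/2), p > 2 / β: exponential bound -/
theorem ball_up_p {β p : ℝ} (hβ : 1 < β) (hp : 2 < p * β) (hA : ExpUp β) :
    ∃ c : ℝ, 0 < c ∧ ∀ n : ℕ, 1 ≤ n →
      (((SawNu.WS SawNu.hexL n).filter (fun l => c⁻¹ * (n : ℝ) ^ p < SawNu.S4 SawNu.hexRot l)).card : ℝ) ≤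
        c⁻¹ * Real.exp (-(n : ℝ) ^ c) * ((SawNu.WS SawNu.hexL n).card : ℝ) := by
  obtain ⟨c, L0, hc, hA⟩ := hA
  obtain ⟨K, hK, hE⟩ := enc_far
  have hC := card_ge
  have hβ0 : 0 < β := by linarith
  have hp0 : 0 < p := by
    by_contra h
    push Not at h
    have := mul_nonpos_of_nonpos_of_nonneg h hβ0.le
    linarith
  set n0 : ℝ := (2 : ℝ) ^ (β * (L0 : ℝ)) with hn0
  have hn0p : 1 ≤ n0 := Real.one_le_rpow (by norm_num) (by positivity)
  have hKR : (1 : ℝ) ≤ K := by exact_mod_cast hK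
  obtain ⟨c', hc'0, hc'1, hc'3, hc'4, hc'5⟩ : ∃ c' : ℝ, 0 < c' ∧ c' ≤ 1 / 3 ∧ c' ≤ 1 / (4 * K) ∧
      c' ≤ c / β ∧ c' ≤ Real.exp (-n0) := by
    refine ⟨min (min (1 / 3) (1 / (4 * K))) (min (c / β) (Real.exp (-n0))), ?_, ?_, ?_, ?_, ?_⟩
    · exact lt_min (lt_min (by norm_num) (by positivity)) (lt_min (by positivity) (Real.exp_pos _))
    · exact (min_le_left _ _).trans (min_le_left _ _)
    · exact (min_le_left _ _).trans (min_le_right _ _)
    · exact (min_le_right _ _).trans (min_le_left _ _)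
    · exact (min_le_right _ _).trans (min_le_right _ _)
  refine ⟨c', hc'0, fun n hn => ?_⟩
  have hnR : (1 : ℝ) ≤ n := by exact_mod_cast hn
  have hnR0 : (0 : ℝ) < n := by linarith
  have hN : (0 : ℝ) ≤ ((SawNu.WS SawNu.hexL n).card : ℝ) := Nat.cast_nonneg _
  set s : ℝ := Real.logb 2 n with hs
  have hs0 : 0 ≤ s := Real.logb_nonneg (by norm_num) hnR
  have hns : (n : ℝ) = (2 : ℝ) ^ s := (Real.rpow_logb (by norm_num) (by norm_num) hnR0).symm
  set L : ℕ := ⌈s / β⌉₊ with hL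
  have hL1 : s / β ≤ L := Nat.le_ceil _
  have hL2 : (L : ℝ) < s / β + 1 := Nat.ceil_lt_add_one (by positivity)
  rw [div_le_iff₀ hβ0] at hL1
  have hnL : (n : ℝ) ≤ (2 : ℝ) ^ (β * L) := by
    rw [hns]
    exact Real.rpow_le_rpow_of_exponent_le (by norm_num) (by linarith)
  rcases le_or_gt L0 L with hLL | hLL
  · -- large n
    have h2 := count (hA L hLL) (hE n L hn) (hC n) hnL
    have h3 : ((SawNu.WS SawNu.hexL n).filter (fun l => c'⁻¹ * (n : ℝ) ^ p < SawNu.S4 SawNu.hexRot l)).card ≤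
        ((SawNu.WS SawNu.hexL n).filter (fun l => (K : ℝ) * (4 : ℝ) ^ L < SawNu.S4 SawNu.hexRot l)).card := by
      apply Finset.card_le_card
      intro l hl
      rw [Finset.mem_filter] at hl ⊢
      refine ⟨hl.1, lt_of_le_of_lt ?_ hl.2⟩
      have h4 : (4 : ℝ) ^ L ≤ 4 * (n : ℝ) ^ p := by
        have h5 : 2 * (L : ℝ) ≤ 2 + s * p := by
          have h6 : 2 * (s / β) ≤ s * p := by
            have h7 : s / β * 2 ≤ s / β * (p * β) := mul_le_mul_of_nonneg_left hp.le (by positivity)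
            have h8 : s / β * (p * β) = s * p := by field_simp
            linarith
          linarith
        have h9 : (4 : ℝ) ^ L = (2 : ℝ) ^ (2 * (L : ℝ)) := by
          rw [Real.rpow_mul (by norm_num), Real.rpow_natCast]
          norm_num
        have h10 : (4 : ℝ) * (n : ℝ) ^ p = (2 : ℝ) ^ (2 + s * p) := by
          rw [Real.rpow_add (by norm_num), hns, ← Real.rpow_mul (by norm_num)]
          norm_num
        rw [h9, h10]
        exact Real.rpow_le_rpow_of_exponent_le (by norm_num) h5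
      have h10 : 4 * K ≤ c'⁻¹ := by
        rw [le_inv_comm₀ (by positivity) hc'0]
        rw [one_div] at hc'3
        exact hc'3
      have h13 : 0 ≤ (n : ℝ) ^ p := by positivity
      calc (K : ℝ) * (4 : ℝ) ^ L ≤ K * (4 * (n : ℝ) ^ p) := mul_le_mul_of_nonneg_left h4 (by linarith)
        _ = 4 * K * (n : ℝ) ^ p := by ring
        _ ≤ c'⁻¹ * (n : ℝ) ^ p := mul_le_mul_of_nonneg_right h10 h13
    have h3' : (((SawNu.WS SawNu.hexL n).filter (fun l => c'⁻¹ * (n : ℝ) ^ p < SawNu.S4 SawNu.hexRot l)).card : ℝ) ≤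
        (((SawNu.WS SawNu.hexL n).filter (fun l => (K : ℝ) * (4 : ℝ) ^ L < SawNu.S4 SawNu.hexRot l)).card : ℝ) := by
      exact_mod_cast h3
    refine h3'.trans (h2.trans ?_)
    apply mul_le_mul_of_nonneg_right _ hN
    have h4 : (n : ℝ) ^ c' ≤ (2 : ℝ) ^ (c * L) := by
      rw [hns, ← Real.rpow_mul (by norm_num)]
      apply Real.rpow_le_rpow_of_exponent_le (by norm_num)
      have h6 : s * c' ≤ L * β * (c / β) := mul_le_mul hL1 hc'4 hc'0.le (by positivity)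
      have h7 : (L : ℝ) * β * (c / β) = c * L := by field_simp
      rw [h7] at h6
      exact h6
    have h8 : 3 ≤ c'⁻¹ := by
      rw [le_inv_comm₀ (by norm_num) hc'0]
      linarith
    exact mul_le_mul h8 (Real.exp_le_exp.2 (by linarith)) (Real.exp_pos _).le (by positivity)
  · -- small n
    have h1 : (n : ℝ) ≤ n0 := by
      refine hnL.trans ?_
      rw [hn0]
      apply Real.rpow_le_rpow_of_exponent_le (by norm_num)
      have h2 : (L : ℝ) ≤ L0 := by exact_mod_cast hLL.le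
      exact mul_le_mul_of_nonneg_left h2 hβ0.le
    have h2 : (n : ℝ) ^ c' ≤ n0 := by
      refine le_trans ?_ h1
      calc (n : ℝ) ^ c' ≤ (n : ℝ) ^ (1 : ℝ) := Real.rpow_le_rpow_of_exponent_le hnR (by linarith)
        _ = n := Real.rpow_one _
    have h3 : 1 ≤ c'⁻¹ * Real.exp (-(n : ℝ) ^ c') := by
      have h4 : Real.exp n0 ≤ c'⁻¹ := by
        rw [le_inv_comm₀ (Real.exp_pos _) hc'0, ← Real.exp_neg]
        exact hc'5
      calc (1 : ℝ) = Real.exp n0 * Real.exp (-n0) := by rw [← Real.exp_add]; simp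
        _ ≤ c'⁻¹ * Real.exp (-(n : ℝ) ^ c') :=
          mul_le_mul h4 (Real.exp_le_exp.2 (by linarith)) (Real.exp_pos _).le (by positivity)
    have h4 : (((SawNu.WS SawNu.hexL n).filter (fun l => c'⁻¹ * (n : ℝ) ^ p < SawNu.S4 SawNu.hexRot l)).card : ℝ) ≤
        ((SawNu.WS SawNu.hexL n).card : ℝ) := by
      exact_mod_cast Finset.card_le_card (Finset.filter_subset _ _)
    calc _ ≤ ((SawNu.WS SawNu.hexL n).card : ℝ) := h4
      _ = 1 * ((SawNu.WS SawNu.hexL n).card : ℝ) := (one_mul _).symm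
      _ ≤ _ := mul_le_mul_of_nonneg_right h3 hN

/-- the mean squared end-to-end distance, from the exponential bound -/
theorem subdiff_p {p : ℝ} (hp : 0 < p)
    (hB : ∃ c : ℝ, 0 < c ∧ ∀ n : ℕ, 1 ≤ n →
      (((SawNu.WS SawNu.hexL n).filter (fun l => c⁻¹ * (n : ℝ) ^ p < SawNu.S4 SawNu.hexRot l)).card : ℝ) ≤
        c⁻¹ * Real.exp (-(n : ℝ) ^ c) * ((SawNu.WS SawNu.hexL n).card : ℝ)) :
    ∃ c : ℝ, 0 < c ∧ ∀ n : ℕ, 1 ≤ n →
      (∑ l ∈ SawNu.WS SawNu.hexL n, ‖SawNu.phiTri l.sum‖ ^ 2) / ((SawNu.WS SawNu.hexL n).card : ℝ) ≤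
        c⁻¹ * (n : ℝ) ^ p := by
  obtain ⟨c1, hc1, hB⟩ := hB
  obtain ⟨M, hM0, hM⟩ : ∃ M : ℝ, 0 ≤ M ∧ ∀ n : ℕ, (n : ℝ) ^ 2 * Real.exp (-(n : ℝ) ^ c1) ≤ M := by
    have h1 : Filter.Tendsto (fun n : ℕ => (n : ℝ) ^ c1) Filter.atTop Filter.atTop :=
      (tendsto_rpow_atTop hc1).comp tendsto_natCast_atTop_atTop
    have h2 := (tendsto_rpow_mul_exp_neg_mul_atTop_nhds_zero (2 / c1) 1 one_pos).comp h1
    have h3 : Filter.Tendsto (fun n : ℕ => (n : ℝ) ^ 2 * Real.exp (-(n : ℝ) ^ c1)) Filter.atTop (nhds 0) := by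
      refine h2.congr (fun n => ?_)
      simp only [Function.comp]
      rw [← Real.rpow_mul (Nat.cast_nonneg _), mul_div_cancel₀ _ hc1.ne', neg_one_mul]
      norm_num
    obtain ⟨M, hM⟩ := h3.bddAbove_range
    refine ⟨max M 0, le_max_right _ _, fun n => le_max_of_le_left (hM ⟨n, rfl⟩)⟩
  refine ⟨(2 * c1⁻¹ + 8 * c1⁻¹ * M)⁻¹, by positivity, fun n hn => ?_⟩
  rw [inv_inv]
  have hnR : (1 : ℝ) ≤ n := by exact_mod_cast hn
  have hnR0 : (0 : ℝ) < n := by linarith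
  obtain ⟨l₀, hl₀, hl₀h⟩ := SawNu.hexRot.exists_up n
  have hN : (0 : ℝ) < ((SawNu.WS SawNu.hexL n).card : ℝ) := by
    exact_mod_cast Finset.card_pos.mpr ⟨l₀, hl₀⟩
  rw [div_le_iff₀ hN]
  set W := SawNu.WS SawNu.hexL n with hW
  set F := W.filter (fun l => c1⁻¹ * (n : ℝ) ^ p < SawNu.S4 SawNu.hexRot l) with hF
  set F' := W.filter (fun l => ¬ c1⁻¹ * (n : ℝ) ^ p < SawNu.S4 SawNu.hexRot l) with hF'
  have h1 : ∀ l ∈ W, ‖SawNu.phiTri l.sum‖ ^ 2 ≤ 2 * SawNu.S4 SawNu.hexRot l := by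
    intro l hl
    have h2 := SawNu.norm_pos_le SawNu.encHex SawNu.hexRot SawNu.hup_hex hl (i := n) le_rfl
    have h3 : SawNu.ps l n = l.sum := by
      rw [← (SawNu.mem_WS.mp hl).1, SawNu.ps_length]
    rw [h3] at h2
    exact h2
  have hsplit : ∑ l ∈ W, ‖SawNu.phiTri l.sum‖ ^ 2 =
      ∑ l ∈ F, ‖SawNu.phiTri l.sum‖ ^ 2 + ∑ l ∈ F', ‖SawNu.phiTri l.sum‖ ^ 2 :=
    (Finset.sum_filter_add_sum_filter_not _ _ _).symm
  have h2 : ∑ l ∈ F', ‖SawNu.phiTri l.sum‖ ^ 2 ≤ (W.card : ℝ) * (2 * (c1⁻¹ * (n : ℝ) ^ p)) := by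
    have h3 : (F'.card : ℝ) ≤ W.card := by exact_mod_cast Finset.card_le_card (Finset.filter_subset _ _)
    calc ∑ l ∈ F', ‖SawNu.phiTri l.sum‖ ^ 2 ≤ ∑ _l ∈ F', 2 * (c1⁻¹ * (n : ℝ) ^ p) := by
          apply Finset.sum_le_sum
          intro l hl
          rw [hF', Finset.mem_filter] at hl
          have := h1 l hl.1
          have h4 := not_lt.1 hl.2
          linarith
      _ = (F'.card : ℝ) * (2 * (c1⁻¹ * (n : ℝ) ^ p)) := by rw [Finset.sum_const, nsmul_eq_mul]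
      _ ≤ _ := mul_le_mul_of_nonneg_right h3 (by positivity)
  have h3 : ∑ l ∈ F, ‖SawNu.phiTri l.sum‖ ^ 2 ≤ (W.card : ℝ) * (8 * c1⁻¹ * M) := by
    calc ∑ l ∈ F, ‖SawNu.phiTri l.sum‖ ^ 2 ≤ ∑ _l ∈ F, 8 * (n : ℝ) ^ 2 := by
          apply Finset.sum_le_sum
          intro l hl
          rw [hF, Finset.mem_filter] at hl
          have := h1 l hl.1
          have h4 := S4_le_sq hl.1
          linarith
      _ = (F.card : ℝ) * (8 * (n : ℝ) ^ 2) := by rw [Finset.sum_const, nsmul_eq_mul]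
      _ ≤ (c1⁻¹ * Real.exp (-(n : ℝ) ^ c1) * (W.card : ℝ)) * (8 * (n : ℝ) ^ 2) :=
          mul_le_mul_of_nonneg_right (hB n hn) (by positivity)
      _ = (W.card : ℝ) * (8 * c1⁻¹ * ((n : ℝ) ^ 2 * Real.exp (-(n : ℝ) ^ c1))) := by ring
      _ ≤ _ := by
          apply mul_le_mul_of_nonneg_left _ hN.le
          exact mul_le_mul_of_nonneg_left (hM n) (by positivity)
  have h4 : (1 : ℝ) ≤ (n : ℝ) ^ p := Real.one_le_rpow hnR hp.le
  have h5 : 8 * c1⁻¹ * M ≤ 8 * c1⁻¹ * M * (n : ℝ) ^ p := le_mul_of_one_le_right (by positivity) h4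
  rw [hsplit]
  calc _ ≤ (W.card : ℝ) * (8 * c1⁻¹ * M) + (W.card : ℝ) * (2 * (c1⁻¹ * (n : ℝ) ^ p)) := add_le_add h3 h2
    _ ≤ (W.card : ℝ) * (8 * c1⁻¹ * M * (n : ℝ) ^ p) + (W.card : ℝ) * (2 * (c1⁻¹ * (n : ℝ) ^ p)) := by
        have := mul_le_mul_of_nonneg_left h5 hN.le
        linarith
    _ = _ := by ring

end T2

end HexObs
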