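import Pool.Agent.T2.UpDefs
import Pool.Agent.T2.FrameT
import Pool.Agent.SDN.SplitP
import Pool.Agent.SDN.MainA

/-!
UP, module U8: the walks that leave a large box with few letters are exponentially rare (pieces between the exits from
boxes of one smaller scale l).
-/

set_option autoImplicit false

namespace HexObs

namespace T2

open Finset TS SDN

open scoped ENNReal

namespace ExU

/-- the hexagonal norm of v is at most M -/
def NL (M : ℤ) (v : Pt) : Prop := |lvl false v| ≤ M ∧ |lvl true v| ≤ M ∧ |lvl false v + lvl true v| ≤ M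

lemma NL_rot {c : Pt} (hc : c ∈ dirs) {M : ℤ} {v : Pt} (h : NL M v) : NL M (mulE c v) := by
  unfold NL at h ⊢
  simp only [abs_le, lvl_false_eq, lvl_true_eq] at h ⊢
  simp only [dirs, mem_insert, mem_singleton] at hc
  obtain ⟨⟨h1, h2⟩, ⟨h3, h4⟩, h5, h6⟩ := h
  rcases hc with rfl | rfl | rfl | rfl | rfl | rfl <;>
    simp only [mulE] <;> refine ⟨⟨?_, ?_⟩, ⟨?_, ?_⟩, ?_, ?_⟩ <;> omega

lemma NL_add {M N : ℤ} {v w : Pt} (h : NL M v) (h' : NL N w) : NL (M + N) (v + w) := by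
  unfold NL at h h' ⊢
  simp only [abs_le, lvl_false_eq, lvl_true_eq, Prod.fst_add, Prod.snd_add] at h h' ⊢
  obtain ⟨⟨h1, h2⟩, ⟨h3, h4⟩, h5, h6⟩ := h
  obtain ⟨⟨k1, k2⟩, ⟨k3, k4⟩, k5, k6⟩ := h'
  refine ⟨⟨?_, ?_⟩, ⟨?_, ?_⟩, ?_, ?_⟩ <;> omega

lemma NL_mono {M N : ℤ} (hMN : M ≤ N) {v : Pt} (h : NL M v) : NL N v :=
  ⟨h.1.trans hMN, h.2.1.trans hMN, h.2.2.trans hMN⟩

lemma NL_dir {c : Pt} (hc : c ∈ dirs) : NL 2 c := by
  unfold NL
  simp only [abs_le, lvl_false_eq, lvl_true_eq]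
  simp only [dirs, mem_insert, mem_singleton] at hc
  rcases hc with rfl | rfl | rfl | rfl | rfl | rfl <;> norm_num

lemma vx_take (t : List Bool) (y i : ℕ) (hi : i ≤ y) (hy : y ≤ t.length) :
    vx oo up (t.take y) i = vx oo up t i := by
  have := vx_append (v0 := oo) (d0 := up) (t := t.take y) (s := t.drop y) (i := i)
    (by rw [List.length_take]; omega)
  rw [List.take_append_drop] at this
  exact this.symm

/-- short pieces -/
def SP (l : ℕ) (M : ℝ) : Set (List Bool) := {t | t ∈ WL (l + 8) ∧ Ext l t ∧ (t.length : ℝ) < M}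

/-- all pieces -/
def AP (l : ℕ) : Set (List Bool) := SAL (100 * 4 ^ (l + 8))

/-- words with k pieces, at least s of them short -/
def PP (Λ l : ℕ) (M : ℝ) : ℕ → ℕ → Set (List Bool)
  | 0, 0 => SAL Λ
  | 0, _ + 1 => ∅
  | k + 1, 0 => {t | ∃ g ∈ AP l, ∃ r ∈ PP Λ l M k 0, t = g ++ r}
  | k + 1, s + 1 => {t | ∃ g ∈ SP l M, ∃ r ∈ PP Λ l M k s, t = g ++ r} ∪
      {t | ∃ g ∈ AP l, ∃ r ∈ PP Λ l M k (s + 1), t = g ++ r}

lemma SP_AP {l : ℕ} {M : ℝ} {g : List Bool} (h : g ∈ SP l M) : g ∈ AP l := ⟨h.1.1, WL_length h.1⟩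

lemma PP_step (Λ l : ℕ) (M : ℝ) (k : ℕ) : ∀ s, PP Λ l M k (s + 1) ⊆ PP Λ l M k s := by
  induction k with
  | zero =>
    intro s t ht
    exact ht.elim
  | succ k ih =>
    intro s
    rcases s with _ | s
    · rintro t (⟨g, hg, r, hr, rfl⟩ | ⟨g, hg, r, hr, rfl⟩)
      · exact ⟨g, SP_AP hg, r, hr, rfl⟩
      · exact ⟨g, hg, r, ih 0 hr, rfl⟩
    · rintro t (⟨g, hg, r, hr, rfl⟩ | ⟨g, hg, r, hr, rfl⟩)
      · exact Or.inl ⟨g, hg, r, ih s hr, rfl⟩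
      · exact Or.inr ⟨g, hg, r, ih (s + 1) hr, rfl⟩

lemma PP_mono (Λ l : ℕ) (M : ℝ) (k : ℕ) {s s' : ℕ} (h : s ≤ s') : PP Λ l M k s' ⊆ PP Λ l M k s := by
  induction h with
  | refl => exact subset_rfl
  | step _ ih => exact (PP_step Λ l M k _).trans ih

lemma PP_long {Λ l : ℕ} {M : ℝ} {k s : ℕ} {g r : List Bool} (hg : g ∈ AP l) (hr : r ∈ PP Λ l M k s) :
    g ++ r ∈ PP Λ l M (k + 1) s := by
  rcases s with _ | s
  · exact ⟨g, hg, r, hr, rfl⟩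
  · exact Or.inr ⟨g, hg, r, hr, rfl⟩

lemma gf_PP {Λ l : ℕ} {M : ℝ} {G a R : ℝ≥0∞} (hG : 1 ≤ G) (hA : gf (AP l) ≤ G) (hS : gf (SP l M) ≤ a)
    (hR : gf (SAL Λ) ≤ R) (k : ℕ) : ∀ s, gf (PP Λ l M k s) ≤ (2 * G) ^ k * a ^ s * R := by
  induction k with
  | zero =>
    intro s
    rcases s with _ | s
    · rw [pow_zero, pow_zero, one_mul, one_mul]
      exact hR
    · have : gf (PP Λ l M 0 (s + 1)) = 0 := by
        show gf ∅ = 0
        unfold gf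
        exact tsum_empty
      rw [this]
      exact bot_le
  | succ k ih =>
    intro s
    have h2 : G ≤ 2 * G := by
      rw [two_mul]
      exact le_self_add
    rcases s with _ | s
    · calc gf (PP Λ l M (k + 1) 0) ≤ gf (AP l) * gf (PP Λ l M k 0) := gf_le_mul fun t ht => ht
        _ ≤ (2 * G) * ((2 * G) ^ k * a ^ 0 * R) := mul_le_mul' (hA.trans h2) (ih 0)
        _ = (2 * G) ^ (k + 1) * a ^ 0 * R := by ring
    · have h1 : gf (PP Λ l M (k + 1) (s + 1)) ≤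
          gf (SP l M) * gf (PP Λ l M k s) + gf (AP l) * gf (PP Λ l M k (s + 1)) := by
        refine (gf_union_le _ _).trans (add_le_add ?_ ?_)
        · exact gf_le_mul fun t ht => ht
        · exact gf_le_mul fun t ht => ht
      have h3 : 1 + G ≤ 2 * G := by
        rw [two_mul]
        exact add_le_add_left hG _
      calc gf (PP Λ l M (k + 1) (s + 1)) ≤
          gf (SP l M) * gf (PP Λ l M k s) + gf (AP l) * gf (PP Λ l M k (s + 1)) := h1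
        _ ≤ a * ((2 * G) ^ k * a ^ s * R) + G * ((2 * G) ^ k * a ^ (s + 1) * R) :=
          add_le_add (mul_le_mul' hS (ih s)) (mul_le_mul' hA (ih (s + 1)))
        _ = (1 + G) * ((2 * G) ^ k * a ^ (s + 1) * R) := by ring
        _ ≤ (2 * G) * ((2 * G) ^ k * a ^ (s + 1) * R) := mul_le_mul' h3 le_rfl
        _ = (2 * G) ^ (k + 1) * a ^ (s + 1) * R := by ring

/-- the exits from the own boxes -/
lemma main {Λ l : ℕ} {M : ℝ} (K : ℕ) : ∀ t : List Bool, t ∈ SAL Λ →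
    (∃ i, i ≤ t.length ∧ ¬ NL (K * (3 * 2 ^ (l + 1) + 2)) (vx oo up t i)) →
    ∃ s, t ∈ PP Λ l M K s ∧ (K : ℝ) * M ≤ s * M + t.length := by
  induction K with
  | zero =>
    intro t ht _
    refine ⟨0, ht, ?_⟩
    push_cast
    have : (0 : ℝ) ≤ t.length := Nat.cast_nonneg _
    linarith
  | succ K ih =>
    classical
    rintro t ht ⟨i, hi, hNL⟩
    have hp : (1 : ℤ) ≤ 2 ^ (l + 1) := one_le_pow₀ (by norm_num)
    have hp2 : (2 : ℤ) ^ (l + 1) = 2 * 2 ^ l := by ring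
    have hKD : (0 : ℤ) ≤ K * (3 * 2 ^ (l + 1) + 2) := by positivity
    have hex : ∃ y, ¬ NL (3 * 2 ^ (l + 1) - 1) (vx oo up t y) := by
      refine ⟨i, fun h => hNL (NL_mono ?_ h)⟩
      push_cast
      linarith
    obtain ⟨y, hy⟩ : ∃ y, y = Nat.find hex := ⟨_, rfl⟩
    have hy1 : ¬ NL (3 * 2 ^ (l + 1) - 1) (vx oo up t y) := by
      rw [hy]
      exact Nat.find_spec hex
    have hy2 : ∀ j, j < y → NL (3 * 2 ^ (l + 1) - 1) (vx oo up t j) := by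
      intro j hj
      rw [hy] at hj
      exact not_not.1 (Nat.find_min hex hj)
    have hyi : y ≤ i := by
      rw [hy]
      refine Nat.find_min' hex (fun h => hNL (NL_mono ?_ h))
      push_cast
      linarith
    have hyt : y ≤ t.length := hyi.trans hi
    have hy0 : 1 ≤ y := by
      rcases Nat.eq_zero_or_pos y with h0 | h0
      · exfalso
        apply hy1
        rw [h0]
        have : vx oo up t 0 = (0, 0) := rfl
        rw [this]
        unfold NL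
        simp only [abs_le, lvl_false_eq, lvl_true_eq]
        refine ⟨⟨?_, ?_⟩, ⟨?_, ?_⟩, ?_, ?_⟩ <;> omega
      · exact h0
    have hy3 : ∀ j, j ≤ y → NL (3 * 2 ^ (l + 1) + 1) (vx oo up t j) := by
      intro j hj
      rcases Nat.lt_or_ge j y with h1 | h1
      · exact NL_mono (by linarith) (hy2 j h1)
      · have h2 : j = y := le_antisymm hj h1
        obtain ⟨z, hz⟩ : ∃ z, y = z + 1 := ⟨y - 1, by omega⟩
        rw [h2, hz, vx_succ]
        have := NL_add (hy2 z (by omega)) (NL_dir (dx_mem up_dirs t z))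
        refine NL_mono ?_ this
        linarith
    -- the piece
    have hlen : (t.take y).length = y := by rw [List.length_take]; omega
    have hgW : t.take y ∈ WL (l + 2) := by
      refine ⟨SA_take ht.1 y, fun j hj dir => ?_⟩
      rw [hlen] at hj
      rw [vx_take t y j hj hyt]
      obtain ⟨h1, h2, -⟩ := hy3 j hj
      have h3 : |lvl dir (vx oo up t j)| ≤ 3 * 2 ^ (l + 1) + 1 := by
        cases dir
        · exact h1
        · exact h2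
      refine row_of_lvl h3 ?_
      have : (2 : ℤ) ^ (l + 2) = 2 * 2 ^ (l + 1) := by ring
      rw [this]
      linarith
    have hgW8 : t.take y ∈ WL (l + 8) := by
      refine ⟨hgW.1, fun j hj dir => (hgW.2 j hj dir).trans ?_⟩
      exact pow_le_pow_right₀ (by norm_num) (by omega)
    have hgE : Ext l (t.take y) := by
      refine ⟨y, hlen.ge, ?_⟩
      rw [vx_take t y y le_rfl hyt]
      by_contra hcon
      push Not at hcon
      have h1 := hcon false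
      have h2 := hcon true
      apply hy1
      unfold NL
      rw [abs_lt] at h1 h2
      unfold row at h1 h2
      simp only [abs_le]
      rw [hp2]
      refine ⟨⟨?_, ?_⟩, ⟨?_, ?_⟩, ?_, ?_⟩ <;> omega
    have hgA : t.take y ∈ AP l := ⟨hgW8.1, WL_length hgW8⟩
    -- the rest
    obtain ⟨c, hc, -, h3⟩ := drop_frame' t y
    have hr : t.drop y ∈ SAL Λ := by
      refine ⟨SA_drop ht.1 y, ?_⟩
      have : t.length ≤ Λ := ht.2
      rw [List.length_drop]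
      omega
    obtain ⟨s, hs, hsM⟩ := ih (t.drop y) hr ⟨i - y, by rw [List.length_drop]; omega, by
      intro h4
      apply hNL
      have h5 := h3 (i - y)
      rw [Nat.add_sub_cancel' hyi] at h5
      rw [h5]
      refine NL_mono ?_ (NL_add (hy3 y le_rfl) (NL_rot hc h4))
      push_cast
      linarith⟩
    have hlr : (t.length : ℝ) = (t.take y).length + (t.drop y).length := by
      have : t.length = (t.take y).length + (t.drop y).length := by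
        rw [← List.length_append, List.take_append_drop]
      exact_mod_cast this
    rcases lt_or_ge ((t.take y).length : ℝ) M with h4 | h4
    · refine ⟨s + 1, ?_, ?_⟩
      · exact Or.inl ⟨t.take y, ⟨hgW8, hgE, h4⟩, t.drop y, hs, (List.take_append_drop y t).symm⟩
      · push_cast
        have : (0 : ℝ) ≤ (t.take y).length := Nat.cast_nonneg _
        nlinarith
    · refine ⟨s, ?_, ?_⟩
      · have := PP_long (M := M) hgA hs
        rwa [List.take_append_drop] at this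
      · push_cast
        nlinarith

/-- the weight of all the pieces -/
lemma gf_AP {C : ℝ} (hC : 0 < C) (hpoly : ∀ Λ : ℕ, 1 ≤ Λ → gf (SAL Λ) ≤ ENNReal.ofReal ((Λ : ℝ) ^ C * C)) {l L : ℕ}
    (hl : (l : ℝ) ≤ 2 * L) (hL : (1 : ℝ) ≤ L) : gf (AP l) ≤ ENNReal.ofReal ((2 : ℝ) ^ ((27 * C + ⌈C⌉₊) * L)) := by
  refine (hpoly _ (Nat.one_le_iff_ne_zero.2 (by positivity))).trans (ENNReal.ofReal_le_ofReal ?_)
  have h1 : ((100 * 4 ^ (l + 8) : ℕ) : ℝ) ≤ (2 : ℝ) ^ (7 + 2 * ((l : ℝ) + 8)) := by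
    push_cast
    have h2 : (2 : ℝ) ^ (7 + 2 * ((l : ℝ) + 8)) = 128 * 4 ^ (l + 8) := by
      rw [Real.rpow_add (by norm_num), Real.rpow_mul (by norm_num)]
      have e1 : (2 : ℝ) ^ (7 : ℝ) = 128 := by norm_num
      have e2 : ((2 : ℝ) ^ (2 : ℝ)) = 4 := by norm_num
      have e3 : ((l : ℝ) + 8) = ((l + 8 : ℕ) : ℝ) := by push_cast; ring
      rw [e1, e2, e3, Real.rpow_natCast]
    rw [h2]
    have : (0 : ℝ) < 4 ^ (l + 8) := by positivity
    linarith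
  have h3 : C ≤ (2 : ℝ) ^ ((⌈C⌉₊ : ℕ) : ℝ) := by
    rw [Real.rpow_natCast]
    refine (Nat.le_ceil C).trans ?_
    exact_mod_cast Nat.lt_two_pow_self.le
  calc (((100 * 4 ^ (l + 8) : ℕ) : ℝ)) ^ C * C
      ≤ ((2 : ℝ) ^ (7 + 2 * ((l : ℝ) + 8))) ^ C * (2 : ℝ) ^ ((⌈C⌉₊ : ℕ) : ℝ) := by
        refine mul_le_mul (Real.rpow_le_rpow (by positivity) h1 hC.le) h3 hC.le (by positivity)
    _ = (2 : ℝ) ^ ((7 + 2 * ((l : ℝ) + 8)) * C + ⌈C⌉₊) := by
        rw [← Real.rpow_mul (by norm_num), ← Real.rpow_add (by norm_num)]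
    _ ≤ _ := by
        refine Real.rpow_le_rpow_of_exponent_le (by norm_num) ?_
        have h5 : (0 : ℝ) ≤ ⌈C⌉₊ := Nat.cast_nonneg _
        nlinarith

lemma conv {u v w : ℝ} (hu : 0 ≤ u) (hv : 0 ≤ v) (m n : ℕ) :
    (2 * ENNReal.ofReal u) ^ m * ENNReal.ofReal v ^ n * ENNReal.ofReal w = ENNReal.ofReal ((2 * u) ^ m * v ^ n * w) := by
  have h2 : (2 : ℝ≥0∞) = ENNReal.ofReal 2 := by norm_num
  rw [h2, ← ENNReal.ofReal_mul (by norm_num), ← ENNReal.ofReal_pow (by positivity), ← ENNReal.ofReal_pow hv,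
    ← ENNReal.ofReal_mul (by positivity), ← ENNReal.ofReal_mul (by positivity)]

/-- the scale of the pieces is smaller than the top scale -/
lemma num1 {l L N ε : ℝ} (hε0 : 0 < ε) (hε1 : ε ≤ 1 / 2) (hL0 : 0 ≤ L) (hLa : L * (1 + 2 * ε) ≤ N)
    (hl2 : l ≤ (1 + ε) * L) : l + ε / 2 * N ≤ N := by
  have h5 : (1 + ε) ≤ (1 - ε / 2) * (1 + 2 * ε) := by nlinarith
  have h6 : (1 + ε) * L ≤ (1 - ε / 2) * (1 + 2 * ε) * L := mul_le_mul_of_nonneg_right h5 hL0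
  have h7 : (1 - ε / 2) * (L * (1 + 2 * ε)) ≤ (1 - ε / 2) * N := mul_le_mul_of_nonneg_left hLa (by linarith)
  linarith

/-- the total length is small -/
lemma num2 {b d τ τ1 ε L N : ℝ} (hb1 : 1 ≤ b) (hd0 : 0 < d) (hτ : τ = b - 1 + d) (hττ : τ < τ1) (hε0 : 0 < ε)
    (hε1 : ε ≤ 1 / 2) (hε2 : ε * (4 * b) ≤ d) (hN : 0 ≤ N) (hNd : 4 * (τ1 + 5) ≤ d * N)
    (hLb : N ≤ (L + 1) * (1 + 2 * ε)) : b * N + 4 ≤ N + (τ * L - ε * L) := by
  have h4 : 0 ≤ τ - ε := by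
    have : ε * 4 ≤ ε * (4 * b) := mul_le_mul_of_nonneg_left (by linarith) hε0.le
    rw [hτ]
    linarith
  have h5 : (b - 1) * (1 + 2 * ε) + d / 2 ≤ τ - ε := by
    have h6 : (b - 1) * (1 + 2 * ε) + ε = (b - 1) + ε * (2 * b) - ε := by ring
    rw [hτ]
    linarith
  have h6 : ((b - 1) * (1 + 2 * ε) + d / 2) * N ≤ (τ - ε) * N := mul_le_mul_of_nonneg_right h5 hN
  have h7 : (τ - ε) * N ≤ (τ - ε) * ((L + 1) * (1 + 2 * ε)) := mul_le_mul_of_nonneg_left hLb h4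
  have h9 : d / 4 * N * (1 + 2 * ε) ≤ d / 2 * N := by
    have h10 : 0 ≤ d / 4 * N := by positivity
    calc d / 4 * N * (1 + 2 * ε) ≤ d / 4 * N * 2 := mul_le_mul_of_nonneg_left (by linarith) h10
      _ = d / 2 * N := by ring
  have h8 : ((b - 1) * N + d / 4 * N) * (1 + 2 * ε) ≤ (τ - ε) * (L + 1) * (1 + 2 * ε) := by
    calc ((b - 1) * N + d / 4 * N) * (1 + 2 * ε) = (b - 1) * (1 + 2 * ε) * N + d / 4 * N * (1 + 2 * ε) := by ring
      _ ≤ (b - 1) * (1 + 2 * ε) * N + d / 2 * N := by linarith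
      _ = ((b - 1) * (1 + 2 * ε) + d / 2) * N := by ring
      _ ≤ (τ - ε) * ((L + 1) * (1 + 2 * ε)) := h6.trans h7
      _ = _ := by ring
  have h11 := le_of_mul_le_mul_right h8 (by positivity)
  linarith

/-- the numbers of the pieces -/
lemma pieces {x Q : ℝ} {L s0 : ℕ} (hL : (1 : ℝ) ≤ L) (hQ : Q = 2 * (x + 3)) :
    (2 * (2 : ℝ) ^ (x * L)) ^ (2 * s0) * ((2 : ℝ) ^ (-(Q * L))) ^ s0 ≤ (2 : ℝ) ^ (-((2 * s0 : ℕ) : ℝ)) := by
  have h1 : (2 * (2 : ℝ) ^ (x * L)) ^ (2 * s0) * ((2 : ℝ) ^ (-(Q * L))) ^ s0 =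
      (2 : ℝ) ^ ((2 - 6 * (L : ℝ)) * s0) := by
    have e1 : (2 * (2 : ℝ) ^ (x * L)) = (2 : ℝ) ^ (1 + x * L) := by
      rw [Real.rpow_add (by norm_num), Real.rpow_one]
    rw [e1, ← Real.rpow_natCast, ← Real.rpow_natCast, ← Real.rpow_mul (by norm_num), ← Real.rpow_mul (by norm_num),
      ← Real.rpow_add (by norm_num)]
    congr 1
    rw [hQ]
    push_cast
    ring
  rw [h1]
  refine Real.rpow_le_rpow_of_exponent_le (by norm_num) ?_
  push_cast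
  have : (0 : ℝ) ≤ s0 := Nat.cast_nonneg _
  nlinarith

end ExU

open ExU

theorem exp_up {τ1 : ℝ} (hτ1 : 0 < τ1)
    (h : ∀ τ ε : ℝ, 0 ≤ τ → τ < τ1 → 0 < ε → ε ≤ 1 / 2 → ∃ κ : ℝ, 0 < κ ∧ κ ≤ 1 / 8 ∧ ∀ Q : ℝ, 0 < Q → ∃ L0 : ℕ,
      ∀ L : ℕ, L0 ≤ L → ∃ l : ℕ, κ * L ≤ l ∧ (l : ℝ) ≤ (1 + ε) * L ∧
        gf {t | t ∈ WL (l + 8) ∧ Ext l t ∧ (t.length : ℝ) < (2 : ℝ) ^ ((l : ℝ) + τ * L - ε * L)} ≤
          ENNReal.ofReal ((2 : ℝ) ^ (-(Q * L)))) {β : ℝ} (hβ : β < 1 + τ1) : ExpUp β := by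
  obtain ⟨C, hC, hpoly⟩ := SAL_poly
  obtain ⟨b, hb⟩ : ∃ b, b = max β 1 := ⟨_, rfl⟩
  have hb1 : 1 ≤ b := by rw [hb]; exact le_max_right _ _
  have hbβ : β ≤ b := by rw [hb]; exact le_max_left _ _
  have hbτ : b < 1 + τ1 := by rw [hb]; exact max_lt hβ (by linarith)
  obtain ⟨d, hd⟩ : ∃ d, d = (τ1 - (b - 1)) / 2 := ⟨_, rfl⟩
  have hd0 : 0 < d := by rw [hd]; linarith
  obtain ⟨τ, hτ⟩ : ∃ τ, τ = b - 1 + d := ⟨_, rfl⟩
  have hτ0 : 0 ≤ τ := by rw [hτ]; linarith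
  have hττ : τ < τ1 := by rw [hτ]; linarith
  obtain ⟨ε, hε⟩ : ∃ ε, ε = min (1 / 2) (d / (4 * b)) := ⟨_, rfl⟩
  have hε0 : 0 < ε := by rw [hε]; exact lt_min (by norm_num) (by positivity)
  have hε1 : ε ≤ 1 / 2 := by rw [hε]; exact min_le_left _ _
  have hε2 : ε * (4 * b) ≤ d := by
    have : ε ≤ d / (4 * b) := by rw [hε]; exact min_le_right _ _
    rwa [le_div_iff₀ (by positivity)] at this
  obtain ⟨κ, hκ0, hκ1, hh⟩ := h τ ε hτ0 hττ hε0 hε1
  obtain ⟨x, hx⟩ : ∃ x : ℝ, x = 27 * C + ⌈C⌉₊ := ⟨_, rfl⟩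
  have hx0 : 0 < x := by rw [hx]; positivity
  obtain ⟨Q, hQ⟩ : ∃ Q, Q = 2 * (x + 3) := ⟨_, rfl⟩
  obtain ⟨L1, hL1⟩ := hh Q (by rw [hQ]; positivity)
  obtain ⟨C', hC'⟩ : ∃ C' : ℝ, C' = b * C + C := ⟨_, rfl⟩
  have hC'0 : 0 < C' := by rw [hC']; positivity
  obtain ⟨N1, hN1⟩ := MainA.asymp C' (ε / 4) hC'0 (by positivity)
  obtain ⟨N2, hN2⟩ := exists_nat_ge (4 * (τ1 + 5) / d)
  obtain ⟨N3, hN3⟩ := exists_nat_ge (16 / ε)
  refine ⟨ε / 4 / 2, N1 + N2 + N3 + 2 * (L1 + 2) + 1, by positivity, fun N hN => ?_⟩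
  have hNr : (0 : ℝ) ≤ N := Nat.cast_nonneg N
  have hNd : 4 * (τ1 + 5) ≤ d * N := by
    have h1 : (N2 : ℝ) ≤ N := by exact_mod_cast (by omega : N2 ≤ N)
    have h2 := hN2.trans h1
    rw [div_le_iff₀ hd0] at h2
    linarith [mul_comm d (N : ℝ)]
  have hNe : 16 ≤ ε * N := by
    have h1 : (N3 : ℝ) ≤ N := by exact_mod_cast (by omega : N3 ≤ N)
    have h2 := hN3.trans h1
    rw [div_le_iff₀ hε0] at h2
    linarith [mul_comm ε (N : ℝ)]
  have hNL : (2 * (L1 + 2) : ℝ) ≤ N := by exact_mod_cast (by omega : 2 * (L1 + 2) ≤ N)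
  -- the scale L
  obtain ⟨L, hL⟩ : ∃ L : ℕ, L = ⌊(N : ℝ) / (1 + 2 * ε)⌋₊ := ⟨_, rfl⟩
  have hLa : (L : ℝ) * (1 + 2 * ε) ≤ N := by
    have h1 : (L : ℝ) ≤ (N : ℝ) / (1 + 2 * ε) := by
      rw [hL]
      exact Nat.floor_le (by positivity)
    rwa [le_div_iff₀ (by positivity)] at h1
  have hLb : (N : ℝ) ≤ (L + 1) * (1 + 2 * ε) := by
    have h1 : (N : ℝ) / (1 + 2 * ε) < L + 1 := by
      rw [hL]
      exact Nat.lt_floor_add_one _
    rw [div_lt_iff₀ (by positivity)] at h1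
    exact h1.le
  have hL0 : (0 : ℝ) ≤ L := Nat.cast_nonneg L
  have hLL1 : (L1 : ℝ) + 1 ≤ L := by
    have : ((L : ℝ) + 1) * (1 + 2 * ε) ≤ ((L : ℝ) + 1) * 2 := mul_le_mul_of_nonneg_left (by linarith) (by linarith)
    linarith
  have hL1' : (1 : ℝ) ≤ L := by
    have : (0 : ℝ) ≤ L1 := Nat.cast_nonneg _
    linarith
  obtain ⟨l, -, hl2, hl3⟩ := hL1 L (by exact_mod_cast (by linarith : (L1 : ℝ) ≤ L))
  have hl0 : (0 : ℝ) ≤ l := Nat.cast_nonneg l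
  have hlN : (l : ℝ) + ε / 2 * N ≤ N := num1 hε0 hε1 hL0 hLa hl2
  have hlk : (l : ℝ) + 4 ≤ N := by linarith
  obtain ⟨k, hk⟩ : ∃ k : ℕ, N = l + 4 + k := by
    have : l + 4 ≤ N := by exact_mod_cast hlk
    exact ⟨N - (l + 4), by omega⟩
  obtain ⟨s0, hs0⟩ : ∃ s0 : ℕ, s0 = 2 ^ k := ⟨_, rfl⟩
  have hKN : (2 : ℝ) ^ (ε / 4 * N) ≤ ((2 * s0 : ℕ) : ℝ) := by
    have h1 : ((2 * s0 : ℕ) : ℝ) = (2 : ℝ) ^ ((k : ℝ) + 1) := by
      rw [Real.rpow_add_one (by norm_num), Real.rpow_natCast, hs0]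
      push_cast
      ring
    rw [h1]
    refine Real.rpow_le_rpow_of_exponent_le (by norm_num) ?_
    have h2 : (N : ℝ) = l + 4 + k := by exact_mod_cast hk
    linarith
  -- the threshold of the pieces
  obtain ⟨M, hM⟩ : ∃ M : ℝ, M = (2 : ℝ) ^ ((l : ℝ) + τ * L - ε * L) := ⟨_, rfl⟩
  have hM0 : 0 < M := by rw [hM]; positivity
  have hlen : (2 : ℝ) ^ (b * N) ≤ s0 * M := by
    have h1 : (s0 : ℝ) * M = (2 : ℝ) ^ ((k : ℝ) + ((l : ℝ) + τ * L - ε * L)) := by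
      rw [hM, Real.rpow_add (by norm_num), Real.rpow_natCast, hs0]
      push_cast
      ring
    rw [h1]
    refine Real.rpow_le_rpow_of_exponent_le (by norm_num) ?_
    have h2 : (N : ℝ) = l + 4 + k := by exact_mod_cast hk
    have h3 := num2 hb1 hd0 hτ hττ hε0 hε1 hε2 hNr hNd hLb
    linarith
  -- the decomposition
  obtain ⟨Λ, hΛ⟩ : ∃ Λ : ℕ, Λ = ⌊(2 : ℝ) ^ (b * N)⌋₊ := ⟨_, rfl⟩
  have h2N : (1 : ℝ) ≤ (2 : ℝ) ^ (b * N) := Real.one_le_rpow (by norm_num) (by positivity)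
  have hΛ1 : 1 ≤ Λ := by
    rw [hΛ]
    exact (Nat.one_le_floor_iff _).2 h2N
  have hΛ2 : (Λ : ℝ) ≤ (2 : ℝ) ^ (b * N) := by
    rw [hΛ]
    exact Nat.floor_le (by positivity)
  have hsub : {t | t ∈ SA ∧ Ext N t ∧ (t.length : ℝ) ≤ (2 : ℝ) ^ (β * N)} ⊆ PP Λ l M (2 * s0) s0 := by
    rintro t ⟨ht, ⟨i, hi, dir, hE⟩, htl⟩
    have htl' : (t.length : ℝ) ≤ (2 : ℝ) ^ (b * N) :=
      htl.trans (Real.rpow_le_rpow_of_exponent_le (by norm_num) (mul_le_mul_of_nonneg_right hbβ hNr))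
    have htΛ : t ∈ SAL Λ := ⟨ht, by rw [hΛ]; exact Nat.le_floor htl'⟩
    obtain ⟨s, hs, hsM⟩ := main (M := M) (l := l) (2 * s0) t htΛ ⟨i, hi, by
      intro hNL'
      have h1 : |lvl dir (vx oo up t i)| ≤ 2 ^ N := by
        have h2 : ((2 * s0 : ℕ) : ℤ) * (3 * 2 ^ (l + 1) + 2) ≤ 2 ^ N := by
          have e1 : (2 : ℤ) ^ N = 2 ^ k * 2 ^ (l + 1) * 8 := by
            rw [hk, pow_add, pow_add, pow_add]
            ring
          have e2 : ((2 * s0 : ℕ) : ℤ) = 2 * 2 ^ k := by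
            rw [hs0]
            push_cast
            ring
          have e3 : (2 : ℤ) ≤ 2 ^ (l + 1) := by
            have : (1 : ℤ) ≤ 2 ^ l := one_le_pow₀ (by norm_num)
            rw [pow_succ]
            linarith
          have e4 : (0 : ℤ) < 2 ^ k := by positivity
          rw [e1, e2]
          nlinarith
        have h3 := NL_mono h2 hNL'
        cases dir
        · exact h3.1
        · exact h3.2.1
      have h4 : |row dir (vx oo up t i)| ≤ 2 ^ N - 1 := by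
        refine row_of_lvl h1 ?_
        have : (2 : ℤ) ≤ 2 ^ N := by
          have h5 : (2 : ℤ) ^ 1 ≤ 2 ^ N := pow_le_pow_right₀ (by norm_num) (by omega)
          linarith
        linarith
      linarith⟩
    refine PP_mono Λ l M (2 * s0) ?_ hs
    have h5 : (s0 : ℝ) * M ≤ s * M := by
      push_cast at hsM
      linarith
    have h6 : (s0 : ℝ) ≤ s := le_of_mul_le_mul_right h5 hM0
    exact_mod_cast h6
  have hl2L : (l : ℝ) ≤ 2 * L := by
    have : ε * L ≤ 1 * L := mul_le_mul_of_nonneg_right (by linarith) hL0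
    linarith
  have hAP := gf_AP hC hpoly (l := l) (L := L) hl2L hL1'
  rw [← hx] at hAP
  have hG1 : (1 : ℝ≥0∞) ≤ ENNReal.ofReal ((2 : ℝ) ^ (x * L)) := by
    rw [← ENNReal.ofReal_one]
    exact ENNReal.ofReal_le_ofReal (Real.one_le_rpow (by norm_num) (by positivity))
  have hSP : gf (SP l M) ≤ ENNReal.ofReal ((2 : ℝ) ^ (-(Q * L))) := by
    rw [hM]
    exact hl3
  have hR : gf (SAL Λ) ≤ ENNReal.ofReal (((2 : ℝ) ^ N) ^ C' * C') := by
    refine (hpoly Λ hΛ1).trans (ENNReal.ofReal_le_ofReal ?_)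
    have h1 : (1 : ℝ) ≤ (2 : ℝ) ^ N := one_le_pow₀ (by norm_num)
    have h2 : (Λ : ℝ) ^ C ≤ ((2 : ℝ) ^ N) ^ C' := by
      calc (Λ : ℝ) ^ C ≤ ((2 : ℝ) ^ (b * N)) ^ C := Real.rpow_le_rpow (Nat.cast_nonneg _) hΛ2 hC.le
        _ = ((2 : ℝ) ^ N) ^ (b * C) := by
          rw [← Real.rpow_natCast, ← Real.rpow_mul (by norm_num), ← Real.rpow_mul (by norm_num)]
          congr 1
          ring
        _ ≤ _ := Real.rpow_le_rpow_of_exponent_le h1 (by rw [hC']; linarith)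
    refine mul_le_mul h2 ?_ hC.le (by positivity)
    rw [hC']
    have : 0 < b * C := by positivity
    linarith
  refine (gf_mono hsub).trans ((gf_PP hG1 hAP hSP hR (2 * s0) s0).trans ?_)
  rw [conv (by positivity) (by positivity)]
  refine ENNReal.ofReal_le_ofReal ?_
  have h1 := pieces (x := x) (Q := Q) (L := L) (s0 := s0) hL1' hQ
  have h2 : (2 : ℝ) ^ (-((2 * s0 : ℕ) : ℝ)) ≤ (2 : ℝ) ^ (-(2 : ℝ) ^ (ε / 4 * N)) :=
    Real.rpow_le_rpow_of_exponent_le (by norm_num) (neg_le_neg hKN)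
  calc (2 * (2 : ℝ) ^ (x * L)) ^ (2 * s0) * ((2 : ℝ) ^ (-(Q * L))) ^ s0 * (((2 : ℝ) ^ N) ^ C' * C')
      ≤ (2 : ℝ) ^ (-(2 : ℝ) ^ (ε / 4 * N)) * (((2 : ℝ) ^ N) ^ C' * C') :=
        mul_le_mul_of_nonneg_right (h1.trans h2) (by positivity)
    _ = ((2 : ℝ) ^ N) ^ C' * C' * (2 : ℝ) ^ (-(2 : ℝ) ^ (ε / 4 * N)) := by ring
    _ ≤ _ := hN1 N (by omega)

end T2

end HexObs
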