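import Pool.Agent.T2.PowUp
import Pool.Agent.T2.ExpUp
import Pool.Agent.T2.AllNUp

/-!
UP, main theorem: the upper size bound for all n.
-/

set_option autoImplicit false

namespace HexObs

namespace T2

open Finset TS SDN

open scoped ENNReal

theorem all_n_up {τ1 : ℝ} (hτ1 : 0 < τ1) (hL : LongWalks τ1) {p : ℝ} (hp : 2 < p * (1 + τ1)) :
    (∃ c : ℝ, 0 < c ∧ ∀ n : ℕ, 1 ≤ n →
      (((SawNu.WS SawNu.hexL n).filter (fun l => c⁻¹ * (n : ℝ) ^ p < SawNu.S4 SawNu.hexRot l)).card : ℝ) ≤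
        c⁻¹ * Real.exp (-(n : ℝ) ^ c) * ((SawNu.WS SawNu.hexL n).card : ℝ)) ∧
    ∃ c : ℝ, 0 < c ∧ ∀ n : ℕ, 1 ≤ n →
      (∑ l ∈ SawNu.WS SawNu.hexL n, ‖SawNu.phiTri l.sum‖ ^ 2) / ((SawNu.WS SawNu.hexL n).card : ℝ) ≤
        c⁻¹ * (n : ℝ) ^ p := by
  have hp0 : 0 < p := by
    by_contra hcon
    push Not at hcon
    nlinarith
  obtain ⟨β, hβ⟩ : ∃ β : ℝ, β = (max 1 (2 / p) + (1 + τ1)) / 2 := ⟨_, rfl⟩
  have h1 : max 1 (2 / p) < 1 + τ1 := by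
    apply max_lt (by linarith)
    rw [div_lt_iff₀ hp0]
    linarith
  have h2 : 1 < β := by
    have := le_max_left 1 (2 / p)
    rw [hβ]
    linarith
  have h3 : 2 / p < β := by
    have := le_max_right 1 (2 / p)
    rw [hβ]
    linarith
  have h4 : β < 1 + τ1 := by rw [hβ]; linarith
  have h5 : 2 < p * β := by
    rw [div_lt_iff₀ hp0] at h3
    linarith
  have hE : ExpUp β := exp_up hτ1 (fun τ ε hτ hττ hε hε1 => pow_up hτ1 hL hτ hττ hε hε1) h4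
  have hB := ball_up_p h2 h5 hE
  exact ⟨hB, subdiff_p hp0 hB⟩

end T2

end HexObs
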