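import Pool.Agent.SDN.ResultC

/-!
UP, module U10: from the upper bounds on the words of the hexagonal lattice (exponent p) to the encoding of the frozen
statement; the pattern is ResP.
-/

set_option autoImplicit false

namespace HexObs

namespace T2

open SawNu SDN.ResC

theorem result_up {p : ℝ} (hp : 0 < p)
    (hS : ∃ c : ℝ, 0 < c ∧ ∀ n : ℕ, 1 ≤ n →
      (∑ l ∈ SawNu.WS SawNu.hexL n, ‖SawNu.phiTri l.sum‖ ^ 2) / ((SawNu.WS SawNu.hexL n).card : ℝ) ≤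
        c⁻¹ * (n : ℝ) ^ p)
    (hB : ∃ c : ℝ, 0 < c ∧ ∀ n : ℕ, 1 ≤ n →
      (((SawNu.WS SawNu.hexL n).filter (fun l => c⁻¹ * (n : ℝ) ^ p < SawNu.S4 SawNu.hexRot l)).card : ℝ) ≤
        c⁻¹ * Real.exp (-(n : ℝ) ^ c) * ((SawNu.WS SawNu.hexL n).card : ℝ)) :
    ∃ c : ℝ, 0 < c ∧ ∀ f : ℕ → Fin 3 → ℂ,
      (∀ i a, f i a = (-1 : ℂ) ^ i * Complex.exp (2 * (Real.pi : ℂ) * Complex.I * ((a : ℕ) : ℂ) / 3)) →
      ∀ n : ℕ, 1 ≤ n → ∀ W : Finset (Fin n → Fin 3),
        W = Finset.univ.filter (fun s : Fin n → Fin 3 => ∀ j₁ j₂ : Fin (n + 1),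
          (∑ i ∈ Finset.univ.filter (fun i : Fin n => (i : ℕ) < (j₁ : ℕ)), f (i : ℕ) (s i)) =
          (∑ i ∈ Finset.univ.filter (fun i : Fin n => (i : ℕ) < (j₂ : ℕ)), f (i : ℕ) (s i)) →
          j₁ = j₂) →
        (∑ s ∈ W, ‖∑ i : Fin n, f (i : ℕ) (s i)‖ ^ 2) / (W.card : ℝ) ≤ c⁻¹ * (n : ℝ) ^ p ∧
        ((W.filter (fun s => ∃ j : Fin (n + 1), c⁻¹ * (n : ℝ) ^ (p / 2) <
          ‖∑ i ∈ Finset.univ.filter (fun i : Fin n => (i : ℕ) < (j : ℕ)), f (i : ℕ) (s i)‖)).card : ℝ) ≤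
            c⁻¹ * Real.exp (-(n : ℝ) ^ c) * (W.card : ℝ) := by
  classical
  obtain ⟨c1, hc1, h1⟩ := hS
  obtain ⟨c2, hc2, h2⟩ := hB
  obtain ⟨c, hc, hcc1, hcc2, hcc3⟩ : ∃ c : ℝ, 0 < c ∧ c ≤ c1 ∧ c ≤ c2 / 2 ∧ c ≤ 1 := by
    refine ⟨min (min c1 (c2 / 2)) 1, by positivity, ?_, ?_, ?_⟩
    · exact (min_le_left _ _).trans (min_le_left _ _)
    · exact (min_le_left _ _).trans (min_le_right _ _)
    · exact min_le_right _ _
  refine ⟨c, hc, fun f hf' n hn W hW => ?_⟩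
  have hf : ∀ i a, f i a = encHex.φ (encHex.st i.bodd a) := fun i a => by rw [hf', hex_enc]
  have hW' : W = Finset.univ.filter (fun s : Fin n → Fin 3 => SAC f n s) := by
    rw [hW]
    ext s
    rw [Finset.mem_filter, Finset.mem_filter]
    exact Iff.rfl
  have hnR : (1 : ℝ) ≤ n := by exact_mod_cast hn
  have hcard : (W.card : ℝ) = ((WS hexL n).card : ℝ) := by rw [hW', encHex.bridge_card hf n]
  have hsum : ∑ s ∈ W, ‖∑ i : Fin n, f (i : ℕ) (s i)‖ ^ 2 = ∑ l ∈ WS hexL n, ‖phiTri l.sum‖ ^ 2 := by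
    rw [hW', encHex.bridge hf n (fun z => ‖z‖ ^ 2)]
    rfl
  constructor
  · rw [hsum, hcard]
    refine (h1 n hn).trans ?_
    exact mul_le_mul_of_nonneg_right (inv_anti₀ hc hcc1) (by positivity)
  · have hle : (W.filter (fun s => ∃ j : Fin (n + 1), c⁻¹ * (n : ℝ) ^ (p / 2) <
          ‖∑ i ∈ Finset.univ.filter (fun i : Fin n => (i : ℕ) < (j : ℕ)), f (i : ℕ) (s i)‖)).card ≤
        ((WS hexL n).filter (fun l => c2⁻¹ * (n : ℝ) ^ p < S4 hexRot l)).card := by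
      apply Finset.card_le_card_of_injOn encHex.word
      · intro s hs
        rw [Finset.mem_coe, Finset.mem_filter, hW', Finset.mem_filter] at hs
        rw [Finset.mem_coe, Finset.mem_filter]
        have hmem : encHex.word s ∈ WS hexL n := by
          rw [mem_WS]
          exact ⟨encHex.word_length s, encHex.word_tw s, (encHex.word_sa s hf).mp hs.1.2⟩
        refine ⟨hmem, ?_⟩
        obtain ⟨j, hj⟩ := hs.2
        have h3 := norm_pos_le encHex hexRot hup_hex hmem (i := (j : ℕ)) (by omega)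
        have h5 : c⁻¹ * (n : ℝ) ^ (p / 2) < ‖encHex.φ (ps (encHex.word s) j)‖ := by
          rw [encHex.word_ps s hf]
          exact hj
        have h0 : 0 < c⁻¹ * (n : ℝ) ^ (p / 2) := by positivity
        have h6 : (c⁻¹ * (n : ℝ) ^ (p / 2)) ^ 2 < ‖encHex.φ (ps (encHex.word s) j)‖ ^ 2 :=
          pow_lt_pow_left₀ h5 h0.le two_ne_zero
        have h4 : (c⁻¹ * (n : ℝ) ^ (p / 2)) ^ 2 = (c⁻¹) ^ 2 * (n : ℝ) ^ p := by
          rw [mul_pow, ← Real.rpow_natCast ((n : ℝ) ^ (p / 2)) 2, ← Real.rpow_mul (by positivity)]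
          congr 2
          push_cast
          ring
        rw [h4] at h6
        have h7 : c2⁻¹ ≤ (c⁻¹) ^ 2 / 2 := by
          have h8 : 2 * c ^ 2 ≤ c2 := by nlinarith
          have h9 : (c⁻¹) ^ 2 / 2 = (2 * c ^ 2)⁻¹ := by
            rw [mul_inv, inv_pow]
            ring
          rw [h9]
          exact inv_anti₀ (by positivity) h8
        have h10 : c2⁻¹ * (n : ℝ) ^ p ≤ (c⁻¹) ^ 2 / 2 * (n : ℝ) ^ p :=
          mul_le_mul_of_nonneg_right h7 (by positivity)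
        linarith
      · intro s _ s' _ h
        exact encHex.word_inj h
    have hle' : ((W.filter (fun s => ∃ j : Fin (n + 1), c⁻¹ * (n : ℝ) ^ (p / 2) <
          ‖∑ i ∈ Finset.univ.filter (fun i : Fin n => (i : ℕ) < (j : ℕ)), f (i : ℕ) (s i)‖)).card : ℝ) ≤
        (((WS hexL n).filter (fun l => c2⁻¹ * (n : ℝ) ^ p < S4 hexRot l)).card : ℝ) := by exact_mod_cast hle
    refine hle'.trans ((h2 n hn).trans ?_)
    rw [hcard]
    apply mul_le_mul_of_nonneg_right _ (Nat.cast_nonneg _)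
    apply mul_le_mul _ _ (Real.exp_pos _).le (by positivity)
    · exact inv_anti₀ hc (by linarith)
    · apply Real.exp_le_exp.mpr
      apply neg_le_neg
      exact Real.rpow_le_rpow_of_exponent_le hnR (by linarith)

end T2

end HexObs
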