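import Pool.Agent.T2.Main
import Pool.Agent.T2.MainUp
import Pool.Agent.T2.ResP
import Pool.Agent.T2.ResUp

/-!
The size exponent of the self-avoiding walk on the hexagonal lattice, from the mean length of the critical bridges (upper
bound) and the lower bound of the length-weighted walks of the strip.
-/

set_option autoImplicit false
open scoped Classical

namespace HexObs

namespace T2

/-- two-sided bounds for every n -/
theorem size_of {a τ1 : ℝ} (ha1 : 1 ≤ a) (ha2 : a ≤ 2) (hM : ∀ a' : ℝ, a < a' → ∃ C : ℝ, 0 ≤ C ∧ MeanLen a' C) (hτ1 : 0 < τ1)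
    (hL : LongWalks τ1) (p q : ℝ) (hp : p * a < 2) (hq : 2 < q * (1 + τ1)) :
    ∃ c : ℝ, 0 < c ∧ ∀ f : ℕ → Fin 3 → ℂ,
      (∀ i a, f i a = (-1 : ℂ) ^ i * Complex.exp (2 * (Real.pi : ℂ) * Complex.I * ((a : ℕ) : ℂ) / 3)) →
      ∀ n : ℕ, 1 ≤ n → ∀ W : Finset (Fin n → Fin 3),
        W = Finset.univ.filter (fun s : Fin n → Fin 3 => ∀ j₁ j₂ : Fin (n + 1),
          (∑ i ∈ Finset.univ.filter (fun i : Fin n => (i : ℕ) < (j₁ : ℕ)), f (i : ℕ) (s i)) =
          (∑ i ∈ Finset.univ.filter (fun i : Fin n => (i : ℕ) < (j₂ : ℕ)), f (i : ℕ) (s i)) →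
          j₁ = j₂) →
        (c * (n : ℝ) ^ p ≤ (∑ s ∈ W, ‖∑ i : Fin n, f (i : ℕ) (s i)‖ ^ 2) / (W.card : ℝ) ∧
          (∑ s ∈ W, ‖∑ i : Fin n, f (i : ℕ) (s i)‖ ^ 2) / (W.card : ℝ) ≤ c⁻¹ * (n : ℝ) ^ q) ∧
        ((W.filter (fun s => ∀ j : Fin (n + 1),
          ‖∑ i ∈ Finset.univ.filter (fun i : Fin n => (i : ℕ) < (j : ℕ)), f (i : ℕ) (s i)‖ ≤
            c * (n : ℝ) ^ (p / 2))).card : ℝ) ≤ c⁻¹ * Real.exp (-(n : ℝ) ^ c) * (W.card : ℝ) ∧
        ((W.filter (fun s => ∃ j : Fin (n + 1), c⁻¹ * (n : ℝ) ^ (q / 2) <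
          ‖∑ i ∈ Finset.univ.filter (fun i : Fin n => (i : ℕ) < (j : ℕ)), f (i : ℕ) (s i)‖)).card : ℝ) ≤
            c⁻¹ * Real.exp (-(n : ℝ) ^ c) * (W.card : ℝ) := by
  have ha0 : 0 < a := by linarith
  -- lower exponent p' ≥ max p (1 / 2), still p' a < 2
  obtain ⟨p', hp'⟩ : ∃ p' : ℝ, p' = max p (1 / 2) := ⟨_, rfl⟩
  have hpp : p ≤ p' := by rw [hp']; exact le_max_left _ _
  have hp1 : 1 / 2 ≤ p' := by rw [hp']; exact le_max_right _ _
  have hp0 : 0 < p' := by linarith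
  have hpa : p' * a < 2 := by
    rw [hp']
    rcases le_total p (1 / 2) with h | h
    · rw [max_eq_right h]
      linarith
    · rw [max_eq_left h]
      exact hp
  have hp2 : p' < 2 := by nlinarith
  obtain ⟨a', ha'⟩ : ∃ a' : ℝ, a' = (a + 2 / p') / 2 := ⟨_, rfl⟩
  have haa : a < 2 / p' := by
    rw [lt_div_iff₀ hp0]
    linarith
  have ha3 : a < a' := by rw [ha']; linarith
  have ha4 : p' * a' < 2 := by
    have h1 : a' < 2 / p' := by rw [ha']; linarith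
    rw [lt_div_iff₀ hp0] at h1
    linarith
  have hq0 : 0 < q := by
    by_contra hcon
    push Not at hcon
    nlinarith
  obtain ⟨C, hC, hMC⟩ := hM a' ha3
  obtain ⟨hS1, hB1⟩ := all_n (by linarith) hC hMC hp0 ha4
  obtain ⟨c1, hc1, h1⟩ := result_p hp0 hp2 hS1 hB1
  obtain ⟨hB2, hS2⟩ := all_n_up hτ1 hL (p := q) hq
  obtain ⟨c2, hc2, h2⟩ := result_up hq0 hS2 hB2
  have hc : 0 < min c1 c2 := lt_min hc1 hc2
  have hi1 : c1⁻¹ ≤ (min c1 c2)⁻¹ := inv_anti₀ hc (min_le_left _ _)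
  have hi2 : c2⁻¹ ≤ (min c1 c2)⁻¹ := inv_anti₀ hc (min_le_right _ _)
  refine ⟨min c1 c2, hc, fun f hf n hn W hW => ?_⟩
  obtain ⟨h1a, h1b⟩ := h1 f hf n hn W hW
  obtain ⟨h2a, h2b⟩ := h2 f hf n hn W hW
  have hnR : (1 : ℝ) ≤ n := by exact_mod_cast hn
  have hW0 : (0 : ℝ) ≤ W.card := Nat.cast_nonneg _
  have hexp : ∀ c' : ℝ, min c1 c2 ≤ c' → Real.exp (-(n : ℝ) ^ c') ≤ Real.exp (-(n : ℝ) ^ (min c1 c2)) := by
    intro c' hc'
    apply Real.exp_le_exp.2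
    apply neg_le_neg
    exact Real.rpow_le_rpow_of_exponent_le hnR hc'
  refine ⟨⟨le_trans ?_ h1a, h2a.trans ?_⟩, ?_, ?_⟩
  · exact mul_le_mul (min_le_left _ _) (Real.rpow_le_rpow_of_exponent_le hnR hpp) (by positivity) hc1.le
  · exact mul_le_mul_of_nonneg_right hi2 (by positivity)
  · refine le_trans ?_ (h1b.trans ?_)
    · refine Nat.cast_le.2 (Finset.card_le_card fun s hs => ?_)
      rw [Finset.mem_filter] at hs ⊢
      refine ⟨hs.1, fun j => (hs.2 j).trans ?_⟩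
      exact mul_le_mul (min_le_left _ _) (Real.rpow_le_rpow_of_exponent_le hnR (by linarith)) (by positivity) hc1.le
    · exact mul_le_mul_of_nonneg_right (mul_le_mul hi1 (hexp c1 (min_le_left _ _)) (Real.exp_pos _).le
        (by positivity)) hW0
  · refine le_trans ?_ (h2b.trans ?_)
    · refine Nat.cast_le.2 (Finset.card_le_card fun s hs => ?_)
      rw [Finset.mem_filter] at hs ⊢
      obtain ⟨h3, j, h4⟩ := hs
      exact ⟨h3, j, lt_of_le_of_lt (mul_le_mul_of_nonneg_right hi2 (by positivity)) h4⟩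
    · exact mul_le_mul_of_nonneg_right (mul_le_mul hi2 (hexp c2 (min_le_right _ _)) (Real.exp_pos _).le
        (by positivity)) hW0

end T2

end HexObs
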