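import Pool.Agent.T2.SizeMax

/-!
T2: the size exponent as a limit of logarithms, when the two exponents of the length agree.
-/

set_option autoImplicit false

open scoped Classical

namespace HexObs

namespace T2

open Filter

open scoped Topology

/-- two sided power bounds give the limit of the logarithms -/
theorem log_lim_of {f : ℕ → ℝ} {γ : ℝ}
    (hlow : ∀ δ : ℝ, δ < γ → ∃ c : ℝ, 0 < c ∧ ∀ n : ℕ, 1 ≤ n → c * (n : ℝ) ^ δ ≤ f n)
    (hup : ∀ δ : ℝ, γ < δ → ∃ C : ℝ, ∀ n : ℕ, 1 ≤ n → f n ≤ C * (n : ℝ) ^ δ) :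
    Tendsto (fun n : ℕ => Real.log (f n) / Real.log n) atTop (𝓝 γ) := by
  have hlog : Tendsto (fun n : ℕ => Real.log (n : ℝ)) atTop atTop :=
    Real.tendsto_log_atTop.comp tendsto_natCast_atTop_atTop
  rw [tendsto_order]
  constructor
  · intro u hu
    obtain ⟨δ, h1, h2⟩ := exists_between hu
    obtain ⟨c, hc, h3⟩ := hlow δ h2
    filter_upwards [hlog.eventually_gt_atTop (|Real.log c| / (δ - u)), Filter.eventually_ge_atTop 2] with n h5 h6
    have h4 := h3 n (by omega)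
    have hnR : (1 : ℝ) < n := by exact_mod_cast (by omega : 1 < n)
    have hn0 : (0 : ℝ) < n := by linarith
    have hl : 0 < Real.log n := Real.log_pos hnR
    rw [lt_div_iff₀ hl]
    have h7 : Real.log (c * (n : ℝ) ^ δ) ≤ Real.log (f n) := Real.log_le_log (by positivity) h4
    rw [Real.log_mul hc.ne' (by positivity), Real.log_rpow hn0] at h7
    rw [div_lt_iff₀ (by linarith)] at h5
    have h8 := neg_abs_le (Real.log c)
    nlinarith
  · intro u hu
    obtain ⟨δ, h1, h2⟩ := exists_between hu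
    obtain ⟨C, h3⟩ := hup δ h1
    obtain ⟨c, hc, h3'⟩ := hlow (γ - 1) (by linarith)
    filter_upwards [hlog.eventually_gt_atTop (|Real.log C| / (u - δ)), Filter.eventually_ge_atTop 2] with n h5 h6
    have h4 := h3 n (by omega)
    have h4' := h3' n (by omega)
    have hnR : (1 : ℝ) < n := by exact_mod_cast (by omega : 1 < n)
    have hn0 : (0 : ℝ) < n := by linarith
    have hl : 0 < Real.log n := Real.log_pos hnR
    have hf : 0 < f n := lt_of_lt_of_le (by positivity) h4'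
    have hC : 0 < C := by
      by_contra hcon
      have h7 : C * (n : ℝ) ^ δ ≤ 0 := mul_nonpos_of_nonpos_of_nonneg (not_lt.1 hcon) (by positivity)
      linarith
    rw [div_lt_iff₀ hl]
    have h7 : Real.log (f n) ≤ Real.log (C * (n : ℝ) ^ δ) := Real.log_le_log hf h4
    rw [Real.log_mul hC.ne' (by positivity), Real.log_rpow hn0] at h7
    rw [div_lt_iff₀ (by linarith)] at h5
    have h8 := le_abs_self (Real.log C)
    nlinarith

/-- the size exponent 1 / a of the self-avoiding walk on the hexagonal lattice -/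
theorem size_lim {a : ℝ} (ha1 : 1 < a) (ha2 : a ≤ 2) (hM : ∀ a' : ℝ, a < a' → ∃ C : ℝ, 0 ≤ C ∧ MeanLen a' C)
    (hL : LongWalks (a - 1)) :
    ∀ f : ℕ → Fin 3 → ℂ,
      (∀ i b, f i b = (-1 : ℂ) ^ i * Complex.exp (2 * (Real.pi : ℂ) * Complex.I * ((b : ℕ) : ℂ) / 3)) →
      ∀ W : (n : ℕ) → Finset (Fin n → Fin 3),
        (∀ n : ℕ, W n = Finset.univ.filter (fun s : Fin n → Fin 3 => ∀ j₁ j₂ : Fin (n + 1),
          (∑ i ∈ Finset.univ.filter (fun i : Fin n => (i : ℕ) < (j₁ : ℕ)), f (i : ℕ) (s i)) =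
          (∑ i ∈ Finset.univ.filter (fun i : Fin n => (i : ℕ) < (j₂ : ℕ)), f (i : ℕ) (s i)) →
          j₁ = j₂)) →
        Tendsto (fun n : ℕ => Real.log ((∑ s ∈ W n, ‖∑ i : Fin n, f (i : ℕ) (s i)‖ ^ 2) / ((W n).card : ℝ)) /
          Real.log n) atTop (𝓝 (2 / a)) ∧
        Tendsto (fun n : ℕ => Real.log ((∑ s ∈ W n, Finset.univ.sup' Finset.univ_nonempty (fun j : Fin (n + 1) =>
          ‖∑ i ∈ Finset.univ.filter (fun i : Fin n => (i : ℕ) < (j : ℕ)), f (i : ℕ) (s i)‖ ^ 2)) / ((W n).card : ℝ)) /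
          Real.log n) atTop (𝓝 (2 / a)) ∧
        ∀ ε : ℝ, 0 < ε → ∃ c : ℝ, 0 < c ∧ ∀ n : ℕ, 1 ≤ n →
          (((W n).filter (fun s => ∀ j : Fin (n + 1),
            ‖∑ i ∈ Finset.univ.filter (fun i : Fin n => (i : ℕ) < (j : ℕ)), f (i : ℕ) (s i)‖ ≤
              (n : ℝ) ^ (1 / a - ε))).card : ℝ) ≤ c⁻¹ * Real.exp (-(n : ℝ) ^ c) * ((W n).card : ℝ) ∧
          (((W n).filter (fun s => ∃ j : Fin (n + 1), (n : ℝ) ^ (1 / a + ε) <
            ‖∑ i ∈ Finset.univ.filter (fun i : Fin n => (i : ℕ) < (j : ℕ)), f (i : ℕ) (s i)‖)).card : ℝ) ≤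
            c⁻¹ * Real.exp (-(n : ℝ) ^ c) * ((W n).card : ℝ) := by
  have ha0 : 0 < a := by linarith
  intro f hf W hW
  -- the bounds for p < 2 / a < q
  have key : ∀ p q : ℝ, p < 2 / a → 2 / a < q → ∃ c : ℝ, 0 < c ∧ ∀ n : ℕ, 1 ≤ n →
      (c * (n : ℝ) ^ p ≤ (∑ s ∈ W n, ‖∑ i : Fin n, f (i : ℕ) (s i)‖ ^ 2) / ((W n).card : ℝ) ∧
        (∑ s ∈ W n, Finset.univ.sup' Finset.univ_nonempty (fun j : Fin (n + 1) =>
          ‖∑ i ∈ Finset.univ.filter (fun i : Fin n => (i : ℕ) < (j : ℕ)), f (i : ℕ) (s i)‖ ^ 2)) / ((W n).card : ℝ) ≤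
            c⁻¹ * (n : ℝ) ^ q) ∧
      (((W n).filter (fun s => ∀ j : Fin (n + 1),
        ‖∑ i ∈ Finset.univ.filter (fun i : Fin n => (i : ℕ) < (j : ℕ)), f (i : ℕ) (s i)‖ ≤
          c * (n : ℝ) ^ (p / 2))).card : ℝ) ≤ c⁻¹ * Real.exp (-(n : ℝ) ^ c) * ((W n).card : ℝ) ∧
      (((W n).filter (fun s => ∃ j : Fin (n + 1), c⁻¹ * (n : ℝ) ^ (q / 2) <
        ‖∑ i ∈ Finset.univ.filter (fun i : Fin n => (i : ℕ) < (j : ℕ)), f (i : ℕ) (s i)‖)).card : ℝ) ≤
          c⁻¹ * Real.exp (-(n : ℝ) ^ c) * ((W n).card : ℝ) := by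
    intro p q hp hq
    rw [lt_div_iff₀ ha0] at hp
    rw [div_lt_iff₀ ha0] at hq
    obtain ⟨c, hc, h⟩ := size_max_of ha1.le ha2 hM (by linarith : 0 < a - 1) hL p q hp (by linarith)
    exact ⟨c, hc, fun n hn => h f hf n hn (W n) (hW n)⟩
  -- end-to-end distance against the maximum
  have hle : ∀ n : ℕ, (∑ s ∈ W n, ‖∑ i : Fin n, f (i : ℕ) (s i)‖ ^ 2) / ((W n).card : ℝ) ≤
      (∑ s ∈ W n, Finset.univ.sup' Finset.univ_nonempty (fun j : Fin (n + 1) =>
          ‖∑ i ∈ Finset.univ.filter (fun i : Fin n => (i : ℕ) < (j : ℕ)), f (i : ℕ) (s i)‖ ^ 2)) / ((W n).card : ℝ) := by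
    intro n
    apply div_le_div_of_nonneg_right _ (Nat.cast_nonneg _)
    apply Finset.sum_le_sum
    intro s _
    have h1 := Finset.le_sup' (fun j : Fin (n + 1) =>
      ‖∑ i ∈ Finset.univ.filter (fun i : Fin n => (i : ℕ) < (j : ℕ)), f (i : ℕ) (s i)‖ ^ 2)
      (Finset.mem_univ (Fin.last n))
    have h2 : (Finset.univ.filter (fun i : Fin n => (i : ℕ) < ((Fin.last n : Fin (n + 1)) : ℕ))) = Finset.univ := by
      ext i
      simp
    simp only [h2] at h1
    exact h1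
  have hg : ∀ δ : ℝ, δ < 2 / a → ∃ q, 2 / a < q := fun _ _ => ⟨2 / a + 1, by linarith⟩
  refine ⟨log_lim_of ?_ ?_, log_lim_of ?_ ?_, ?_⟩
  · intro δ hδ
    obtain ⟨c, hc, h⟩ := key δ (2 / a + 1) hδ (by linarith)
    exact ⟨c, hc, fun n hn => (h n hn).1.1⟩
  · intro δ hδ
    obtain ⟨c, hc, h⟩ := key (2 / a - 1) δ (by linarith) hδ
    exact ⟨c⁻¹, fun n hn => (hle n).trans (h n hn).1.2⟩
  · intro δ hδ
    obtain ⟨c, hc, h⟩ := key δ (2 / a + 1) hδ (by linarith)
    exact ⟨c, hc, fun n hn => (h n hn).1.1.trans (hle n)⟩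
  · intro δ hδ
    obtain ⟨c, hc, h⟩ := key (2 / a - 1) δ (by linarith) hδ
    exact ⟨c⁻¹, fun n hn => (h n hn).1.2⟩
  · intro ε hε
    obtain ⟨c, hc, h⟩ := key (2 / a - ε) (2 / a + ε) (by linarith) (by linarith)
    have e1 : (2 / a - ε) / 2 = 1 / a - ε / 2 := by ring
    have e2 : (2 / a + ε) / 2 = 1 / a + ε / 2 := by ring
    rw [e1, e2] at h
    -- for large n the constants are absorbed
    obtain ⟨n0, hn0⟩ := exists_nat_ge ((c⁻¹ + 1) ^ (2 / ε))
    have hc1 : 1 ≤ c⁻¹ + 1 := by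
      have : 0 < c⁻¹ := by positivity
      linarith
    obtain ⟨c', hc', hc'c, hc's⟩ : ∃ c' : ℝ, 0 < c' ∧ c' ≤ c ∧ c' ≤ Real.exp (-((n0 : ℝ) + 1)) * min 1 (1 / ((n0 : ℝ) + 1)) := by
      refine ⟨min c (Real.exp (-((n0 : ℝ) + 1)) * min 1 (1 / ((n0 : ℝ) + 1))), ?_, min_le_left _ _, min_le_right _ _⟩
      positivity
    have hc'1 : c' ≤ 1 := by
      have h1 : Real.exp (-((n0 : ℝ) + 1)) ≤ 1 := Real.exp_le_one_iff.2 (by
        have : (0 : ℝ) ≤ n0 := Nat.cast_nonneg _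
        linarith)
      have h2 : min 1 (1 / ((n0 : ℝ) + 1)) ≤ 1 := min_le_left _ _
      have h3 : 0 ≤ min 1 (1 / ((n0 : ℝ) + 1)) := by positivity
      nlinarith
    refine ⟨c', hc', fun n hn => ?_⟩
    have hnR : (1 : ℝ) ≤ n := by exact_mod_cast hn
    have hn00 : (0 : ℝ) < n := by linarith
    have hcard : (0 : ℝ) ≤ ((W n).card : ℝ) := Nat.cast_nonneg _
    rcases Nat.lt_or_ge n n0 with h3 | h3
    · -- small n: the right side is at least the number of the walks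
      have h4 : (n : ℝ) ^ c' ≤ (n0 : ℝ) + 1 := by
        calc (n : ℝ) ^ c' ≤ (n : ℝ) ^ (1 : ℝ) := Real.rpow_le_rpow_of_exponent_le hnR hc'1
          _ = n := Real.rpow_one _
          _ ≤ (n0 : ℝ) + 1 := by
            have : (n : ℝ) ≤ n0 := by exact_mod_cast h3.le
            linarith
      have h5 : 1 ≤ c'⁻¹ * Real.exp (-(n : ℝ) ^ c') := by
        have h6 : c' ≤ Real.exp (-(n : ℝ) ^ c') := by
          refine hc's.trans ?_
          have h7 : Real.exp (-((n0 : ℝ) + 1)) ≤ Real.exp (-(n : ℝ) ^ c') := Real.exp_le_exp.2 (by linarith)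
          have h8 : min 1 (1 / ((n0 : ℝ) + 1)) ≤ 1 := min_le_left _ _
          have h9 := Real.exp_pos (-((n0 : ℝ) + 1))
          nlinarith
        rw [inv_mul_eq_div, le_div_iff₀ hc', one_mul]
        exact h6
      have h6 : ((W n).card : ℝ) ≤ c'⁻¹ * Real.exp (-(n : ℝ) ^ c') * ((W n).card : ℝ) := by
        calc ((W n).card : ℝ) = 1 * ((W n).card : ℝ) := (one_mul _).symm
          _ ≤ _ := mul_le_mul_of_nonneg_right h5 hcard
      constructor
      · refine le_trans ?_ h6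
        exact_mod_cast Finset.card_filter_le _ _
      · refine le_trans ?_ h6
        exact_mod_cast Finset.card_filter_le _ _
    · obtain ⟨h1, h2a, h2b⟩ := h n hn
      have hexp : c⁻¹ * Real.exp (-(n : ℝ) ^ c) * ((W n).card : ℝ) ≤
          c'⁻¹ * Real.exp (-(n : ℝ) ^ c') * ((W n).card : ℝ) := by
        apply mul_le_mul_of_nonneg_right _ hcard
        apply mul_le_mul (inv_anti₀ hc' hc'c) _ (Real.exp_pos _).le (by positivity)
        apply Real.exp_le_exp.2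
        apply neg_le_neg
        exact Real.rpow_le_rpow_of_exponent_le hnR hc'c
      -- n ^ (ε / 2) ≥ 1 / c + 1
      have h4 : c⁻¹ + 1 ≤ (n : ℝ) ^ (ε / 2) := by
        have h5 : (c⁻¹ + 1) ^ (2 / ε) ≤ n := hn0.trans (by exact_mod_cast h3)
        have h6 := Real.rpow_le_rpow (by positivity) h5 (by positivity : 0 ≤ ε / 2)
        rwa [← Real.rpow_mul (by positivity), show 2 / ε * (ε / 2) = 1 by field_simp, Real.rpow_one] at h6
      have h5 : (n : ℝ) ^ (1 / a - ε) * (n : ℝ) ^ (ε / 2) = (n : ℝ) ^ (1 / a - ε / 2) := by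
        rw [← Real.rpow_add hn00]
        congr 1
        ring
      have h6 : (n : ℝ) ^ (1 / a + ε / 2) * (n : ℝ) ^ (ε / 2) = (n : ℝ) ^ (1 / a + ε) := by
        rw [← Real.rpow_add hn00]
        congr 1
        ring
      have h7 : (n : ℝ) ^ (1 / a - ε) ≤ c * (n : ℝ) ^ (1 / a - ε / 2) := by
        rw [← h5]
        have h8 : 0 < (n : ℝ) ^ (1 / a - ε) := by positivity
        have h9 : 1 ≤ c * (n : ℝ) ^ (ε / 2) := by
          calc (1 : ℝ) = c * c⁻¹ := (mul_inv_cancel₀ hc.ne').symm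
            _ ≤ c * (n : ℝ) ^ (ε / 2) := mul_le_mul_of_nonneg_left (by linarith) hc.le
        nlinarith
      have h8 : c⁻¹ * (n : ℝ) ^ (1 / a + ε / 2) ≤ (n : ℝ) ^ (1 / a + ε) := by
        rw [← h6]
        have h9 : 0 < (n : ℝ) ^ (1 / a + ε / 2) := by positivity
        nlinarith
      constructor
      · refine le_trans ?_ (h2a.trans hexp)
        have hs : (W n).filter (fun s => ∀ j : Fin (n + 1),
            ‖∑ i ∈ Finset.univ.filter (fun i : Fin n => (i : ℕ) < (j : ℕ)), f (i : ℕ) (s i)‖ ≤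
              (n : ℝ) ^ (1 / a - ε)) ⊆ (W n).filter (fun s => ∀ j : Fin (n + 1),
            ‖∑ i ∈ Finset.univ.filter (fun i : Fin n => (i : ℕ) < (j : ℕ)), f (i : ℕ) (s i)‖ ≤
              c * (n : ℝ) ^ (1 / a - ε / 2)) := by
          intro s hs
          rw [Finset.mem_filter] at hs ⊢
          exact ⟨hs.1, fun j => (hs.2 j).trans h7⟩
        exact_mod_cast Finset.card_le_card hs
      · refine le_trans ?_ (h2b.trans hexp)
        have hs : (W n).filter (fun s => ∃ j : Fin (n + 1), (n : ℝ) ^ (1 / a + ε) <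
            ‖∑ i ∈ Finset.univ.filter (fun i : Fin n => (i : ℕ) < (j : ℕ)), f (i : ℕ) (s i)‖) ⊆
            (W n).filter (fun s => ∃ j : Fin (n + 1), c⁻¹ * (n : ℝ) ^ (1 / a + ε / 2) <
            ‖∑ i ∈ Finset.univ.filter (fun i : Fin n => (i : ℕ) < (j : ℕ)), f (i : ℕ) (s i)‖) := by
          intro s hs
          rw [Finset.mem_filter] at hs ⊢
          obtain ⟨j, hj⟩ := hs.2
          exact ⟨hs.1, j, lt_of_le_of_lt h8 hj⟩
        exact_mod_cast Finset.card_le_card hs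

end T2

end HexObs
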