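import Pool.Agent.T2.Defs
import Pool.Agent.SDN.SplitP
import Pool.Agent.SDN.Frames
import Pool.Agent.SDN.Split
import Pool.Agent.Tight.LatT

/-!
T2, B3: infixes; the ends of the leaves are not wide.
-/

set_option autoImplicit false

namespace HexObs

namespace T2

open Finset TS SDN

open scoped ENNReal

theorem gf_infix (L : ℕ) (A : Set (List Bool)) :
    gf {t | t ∈ WL L ∧ ∃ w ∈ A, w <:+: t} ≤ gf (SAL (100 * 4 ^ L)) ^ 2 * gf A := by
  have h1 : gf {t | t ∈ WL L ∧ ∃ w ∈ A, w <:+: t} ≤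
      gf (SAL (100 * 4 ^ L)) * gf {s | ∃ w ∈ A, ∃ v ∈ SAL (100 * 4 ^ L), s = w ++ v} := by
    refine gf_le_mul ?_
    rintro t ⟨ht, w, hw, s, v, rfl⟩
    have hl := WL_length ht
    rw [List.length_append, List.length_append] at hl
    have hs : s ∈ SA := by
      have := SA_take ht.1 s.length
      rwa [List.append_assoc, List.take_left] at this
    have hv : v ∈ SA := by
      have := SA_drop ht.1 (s ++ w).length
      rwa [List.drop_left] at this
    exact ⟨s, ⟨hs, by omega⟩, w ++ v, ⟨w, hw, v, ⟨hv, by omega⟩, rfl⟩, by rw [List.append_assoc]⟩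
  have h2 : gf {s | ∃ w ∈ A, ∃ v ∈ SAL (100 * 4 ^ L), s = w ++ v} ≤ gf A * gf (SAL (100 * 4 ^ L)) :=
    gf_le_mul fun t ht => ht
  calc gf {t | t ∈ WL L ∧ ∃ w ∈ A, w <:+: t} ≤
      gf (SAL (100 * 4 ^ L)) * gf {s | ∃ w ∈ A, ∃ v ∈ SAL (100 * 4 ^ L), s = w ++ v} := h1
    _ ≤ gf (SAL (100 * 4 ^ L)) * (gf A * gf (SAL (100 * 4 ^ L))) := mul_le_mul_right h2 _
    _ = gf (SAL (100 * 4 ^ L)) ^ 2 * gf A := by ring

namespace Inx

/-- removing the last letter costs a factor 2 -/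
lemma gf_dropLast (P : Set (List Bool)) (hP : [] ∉ P) : gf {v | ∃ X ∈ P, v = X.dropLast} ≤ 2 * gf P := by
  obtain ⟨x1, -⟩ := xc_bounds
  have hx2 : 1 ≤ 2 * ENNReal.ofReal xc := by
    have e : (2 : ℝ≥0∞) * ENNReal.ofReal xc = ENNReal.ofReal (2 * xc) := by
      rw [ENNReal.ofReal_mul (by norm_num)]
      norm_num
    rw [e, ← ENNReal.ofReal_one]
    exact ENNReal.ofReal_le_ofReal x1
  have hch : ∀ v : List Bool, ∃ X : List Bool, v ∈ {v | ∃ X ∈ P, v = X.dropLast} → X ∈ P ∧ v = X.dropLast := by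
    intro v
    by_cases hv : v ∈ {v | ∃ X ∈ P, v = X.dropLast}
    · obtain ⟨X, h1, h2⟩ := hv
      exact ⟨X, fun _ => ⟨h1, h2⟩⟩
    · exact ⟨[], fun h => absurd h hv⟩
  choose φ hφ using hch
  refine gf_le_of_inj φ (fun t ht => (hφ t ht).1) ?_ 2 ?_
  · intro a ha b hb hab
    rw [(hφ a ha).2, (hφ b hb).2, hab]
  · intro t ht
    obtain ⟨h1, h2⟩ := hφ t ht
    have h3 : φ t ≠ [] := fun h => hP (h ▸ h1)
    have h4 : wE (φ t) = wE t * ENNReal.ofReal xc := by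
      unfold wE
      have h5 : (φ t).length = t.length + 1 := by
        have h6 := congrArg List.length h2
        rw [List.length_dropLast] at h6
        have := List.length_pos_iff.2 h3
        omega
      rw [h5, pow_succ, ENNReal.ofReal_mul (pow_nonneg xc_pos.le _)]
    rw [h4]
    calc wE t = wE t * 1 := (mul_one _).symm
      _ ≤ wE t * (2 * ENNReal.ofReal xc) := mul_le_mul_right hx2 _
      _ = 2 * (wE t * ENNReal.ofReal xc) := by ring

/-- an exponential of a power of two beats every power -/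
lemma ev {c ρ A B : ℝ} (hc : 0 < c) (hρ : 0 < ρ) : ∃ L0 : ℕ, ∀ L : ℕ, L0 ≤ L →
    A * L + B ≤ c * (2 : ℝ) ^ (ρ * L) := by
  have h1 : (1 : ℝ) < (2 : ℝ) ^ ρ := Real.one_lt_rpow (by norm_num) hρ
  have h2 := tendsto_pow_const_div_const_pow_of_one_lt 1 h1
  have h3 : Filter.Tendsto (fun n : ℕ => (|A| + |B|) * ((n : ℝ) ^ 1 / ((2 : ℝ) ^ ρ) ^ n)) Filter.atTop
      (nhds ((|A| + |B|) * 0)) := h2.const_mul _
  rw [mul_zero] at h3
  have h4 := (h3.eventually (gt_mem_nhds hc)).and (Filter.eventually_ge_atTop 1)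
  obtain ⟨L0, hL0⟩ := Filter.eventually_atTop.1 h4
  refine ⟨L0, fun L hL => ?_⟩
  obtain ⟨h5, h6⟩ := hL0 L hL
  have h7 : (0 : ℝ) < ((2 : ℝ) ^ ρ) ^ L := by positivity
  have h8 : (2 : ℝ) ^ (ρ * L) = ((2 : ℝ) ^ ρ) ^ L := by
    rw [Real.rpow_mul (by norm_num), Real.rpow_natCast]
  have h9 : (1 : ℝ) ≤ L := by exact_mod_cast h6
  rw [h8]
  have h10 : (|A| + |B|) * (L : ℝ) ≤ c * ((2 : ℝ) ^ ρ) ^ L := by
    rw [pow_one, ← mul_div_assoc, div_lt_iff₀ h7] at h5
    exact h5.le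
  have h11 : A * L ≤ |A| * L := mul_le_mul_of_nonneg_right (le_abs_self A) (by linarith)
  have h12 : B ≤ |B| * L := by
    have := le_abs_self B
    have := abs_nonneg B
    nlinarith
  calc A * L + B ≤ |A| * L + |B| * L := add_le_add h11 h12
    _ = (|A| + |B|) * L := by ring
    _ ≤ _ := h10

end Inx

theorem near_box {η κ Q : ℝ} (hη : 0 < η) (hη1 : η ≤ 1 / 8) (hκ : 0 < κ) (hQ : 0 < Q) : ∃ L0 : ℕ, ∀ L b : ℕ, L0 ≤ L →
    κ * L ≤ b → b ≤ L →
    gf {v | ∃ h X, X ∈ Brd h ∧ h ≤ 2 ^ (ee η b) ∧ ¬ InBox X (2 ^ (ff η b)) ∧ v = X.dropLast} ≤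
      ENNReal.ofReal ((2 : ℝ) ^ (-(Q * L))) := by
  obtain ⟨C, c, hc, hC⟩ := latTail
  obtain ⟨L1, hL1⟩ := Inx.ev (A := (1 + Q) * Real.log 2) (B := Real.log (2 * (|C| + 1))) hc
    (mul_pos hη hκ)
  obtain ⟨L2, hL2⟩ := exists_nat_ge (8 / κ)
  refine ⟨max L1 L2, fun L b hL h1 h2 => ?_⟩
  have hb8 : (8 : ℝ) ≤ b := by
    have h3 : (L2 : ℝ) ≤ L := by exact_mod_cast (le_max_right L1 L2).trans hL
    have h4 : 8 / κ ≤ L := hL2.trans h3
    rw [div_le_iff₀ hκ] at h4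
    linarith [mul_comm κ (L : ℝ)]
  have hbL : (b : ℝ) ≤ L := by exact_mod_cast h2
  have hLr : (0 : ℝ) ≤ L := Nat.cast_nonneg L
  -- the scales
  obtain ⟨x, hx⟩ : ∃ x, x = ⌊2 * η * b⌋₊ := ⟨_, rfl⟩
  obtain ⟨y, hy⟩ : ∃ y, y = ⌊η * b⌋₊ := ⟨_, rfl⟩
  have hx1 : (x : ℝ) ≤ 2 * η * b := by
    rw [hx]
    exact Nat.floor_le (by positivity)
  have hx2 : 2 * η * b < x + 1 := by
    rw [hx]
    exact Nat.lt_floor_add_one _
  have hy1 : (y : ℝ) ≤ η * b := by
    rw [hy]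
    exact Nat.floor_le (by positivity)
  have hxb : x + 5 ≤ b := by
    have h3 : (x : ℝ) + 5 ≤ b := by nlinarith
    exact_mod_cast h3
  have hyb : y ≤ b := by
    have h3 : (y : ℝ) ≤ b := by nlinarith
    exact_mod_cast h3
  have he : ee η b = b - 5 - x := by
    unfold ee
    rw [hx]
  have hf : ff η b = b - y := by
    unfold ff
    rw [hy]
  have hyx : y ≤ x + 5 := by
    have h3 : (y : ℝ) ≤ x + 5 := by nlinarith
    exact_mod_cast h3
  obtain ⟨d, hd⟩ : ∃ d, d = x + 5 - y := ⟨_, rfl⟩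
  have hfd : ff η b = ee η b + d := by omega
  have hdr : η * κ * L ≤ d := by
    have h3 : (d : ℝ) = x + 5 - y := by
      rw [hd, Nat.cast_sub hyx]
      push_cast
      ring
    rw [h3]
    have h4 : η * (κ * L) ≤ η * b := mul_le_mul_of_nonneg_left h1 hη.le
    nlinarith
  -- the cover
  have hcov : {v | ∃ h X, X ∈ Brd h ∧ h ≤ 2 ^ (ee η b) ∧ ¬ InBox X (2 ^ (ff η b)) ∧ v = X.dropLast} ⊆
      {v | ∃ X ∈ ⋃ h ∈ Finset.Ico 1 (2 ^ (ee η b) + 1), {X | X ∈ Brd h ∧ ¬ InBox X (2 ^ d * h)}, v = X.dropLast} := by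
    rintro v ⟨h, X, hX, hh, hb, rfl⟩
    refine ⟨X, ?_, rfl⟩
    rw [Set.mem_iUnion₂]
    have h0 : 1 ≤ h := by
      rcases Nat.eq_zero_or_pos h with h0 | h0
      · exfalso
        rw [h0, Brd_zero] at hX
        have hX' : X = [] := hX
        apply hb
        intro i hi
        rw [hX'] at hi ⊢
        have hi0 : i = 0 := by simpa using hi
        rw [hi0]
        have : lat ([] : List Bool) 0 = 0 := by decide
        rw [this]
        positivity
      · exact h0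
    refine ⟨h, Finset.mem_Ico.2 ⟨h0, by omega⟩, hX, fun hbox => hb ?_⟩
    intro i hi
    refine (hbox i hi).trans ?_
    have h3 : 2 ^ d * h ≤ 2 ^ (ff η b) := by
      rw [hfd, pow_add, mul_comm]
      exact Nat.mul_le_mul_right _ hh
    exact_mod_cast h3
  have hnil : [] ∉ ⋃ h ∈ Finset.Ico 1 (2 ^ (ee η b) + 1), {X | X ∈ Brd h ∧ ¬ InBox X (2 ^ d * h)} := by
    intro h
    rw [Set.mem_iUnion₂] at h
    obtain ⟨h, hh, -, hb⟩ := h
    apply hb
    intro i hi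
    have hi0 : i = 0 := by simpa using hi
    rw [hi0]
    have : lat ([] : List Bool) 0 = 0 := by decide
    rw [this]
    positivity
  obtain ⟨E, hE⟩ : ∃ E : ℝ, E = Real.exp (-(c * (2 : ℝ) ^ d)) := ⟨_, rfl⟩
  have hEpos : 0 < E := by
    rw [hE]
    exact Real.exp_pos _
  have hsum : gf (⋃ h ∈ Finset.Ico 1 (2 ^ (ee η b) + 1), {X | X ∈ Brd h ∧ ¬ InBox X (2 ^ d * h)}) ≤
      ENNReal.ofReal ((2 : ℝ) ^ (ee η b) * ((|C| + 1) * E)) := by
    have h3 : ∀ h ∈ Finset.Ico 1 (2 ^ (ee η b) + 1), gf {X | X ∈ Brd h ∧ ¬ InBox X (2 ^ d * h)} ≤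
        ENNReal.ofReal ((|C| + 1) * E) := by
      intro h hh
      refine (hC h (2 ^ d) (Finset.mem_Ico.1 hh).1).trans (ENNReal.ofReal_le_ofReal ?_)
      have h4 : Real.exp (-(c * ((2 ^ d : ℕ) : ℝ))) = E := by
        rw [hE]
        push_cast
        rfl
      rw [h4]
      have h5 := uu_le_one h
      have h6 := uu_pos h
      calc C * E * uu h ≤ (|C| + 1) * E * uu h := by
            apply mul_le_mul_of_nonneg_right _ h6.le
            apply mul_le_mul_of_nonneg_right _ hEpos.le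
            linarith [le_abs_self C]
        _ ≤ (|C| + 1) * E * 1 := mul_le_mul_of_nonneg_left h5 (by positivity)
        _ = (|C| + 1) * E := mul_one _
    refine (ENNReal.tsum_biUnion_le wE _ _).trans ((Finset.sum_le_sum h3).trans ?_)
    rw [Finset.sum_const, Nat.card_Ico, nsmul_eq_mul]
    have h4 : (((2 ^ (ee η b) + 1 - 1 : ℕ) : ℝ≥0∞)) = ENNReal.ofReal ((2 : ℝ) ^ (ee η b)) := by
      rw [Nat.add_sub_cancel]
      push_cast
      rw [ENNReal.ofReal_pow (by norm_num)]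
      norm_num
    rw [h4, ← ENNReal.ofReal_mul (by positivity)]
  refine (gf_mono hcov).trans ((Inx.gf_dropLast _ hnil).trans ?_)
  have h2e : (2 : ℝ≥0∞) = ENNReal.ofReal 2 := by norm_num
  refine (mul_le_mul_right hsum _).trans ?_
  rw [h2e, ← ENNReal.ofReal_mul (by norm_num)]
  apply ENNReal.ofReal_le_ofReal
  -- numbers
  have hln2 : 0 < Real.log 2 := Real.log_pos (by norm_num)
  have hD : (2 : ℝ) ^ (η * κ * L) ≤ (2 : ℝ) ^ d := by
    rw [← Real.rpow_natCast]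
    exact Real.rpow_le_rpow_of_exponent_le (by norm_num) hdr
  have h5 := hL1 L ((le_max_left L1 L2).trans hL)
  have h6 : (1 + Q) * Real.log 2 * L + Real.log (2 * (|C| + 1)) ≤ c * (2 : ℝ) ^ d :=
    h5.trans (mul_le_mul_of_nonneg_left hD hc.le)
  have h7 : (2 : ℝ) ^ (ee η b) ≤ Real.exp (Real.log 2 * L) := by
    rw [← Real.rpow_def_of_pos (by norm_num), Real.rpow_natCast]
    exact pow_le_pow_right₀ (by norm_num) (by omega)
  have h8 : (2 : ℝ) * (|C| + 1) = Real.exp (Real.log (2 * (|C| + 1))) := by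
    rw [Real.exp_log (by positivity)]
  calc 2 * ((2 : ℝ) ^ (ee η b) * ((|C| + 1) * E)) = (2 : ℝ) ^ (ee η b) * (2 * (|C| + 1)) * E := by ring
    _ ≤ Real.exp (Real.log 2 * L) * (2 * (|C| + 1)) * E := by
        apply mul_le_mul_of_nonneg_right _ hEpos.le
        exact mul_le_mul_of_nonneg_right h7 (by positivity)
    _ = Real.exp (Real.log 2 * L + Real.log (2 * (|C| + 1)) + -(c * (2 : ℝ) ^ d)) := by
        rw [Real.exp_add, Real.exp_add, ← h8, ← hE]
    _ ≤ Real.exp (Real.log 2 * (-(Q * L))) := by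
        apply Real.exp_le_exp.2
        linarith
    _ = (2 : ℝ) ^ (-(Q * L)) := by
        rw [Real.rpow_def_of_pos (by norm_num)]

end T2

end HexObs
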