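import Pool.Agent.T2.PowBase

/-!
T2, module E: walks in a box of size 2 ^ L with more than 2 ^ (β L) letters have a weight smaller than every power.
-/

set_option autoImplicit false

namespace HexObs

namespace T2

open Finset TS SDN

open scoped ENNReal

open PowS in
theorem pow_small {a C : ℝ} (ha : 1 ≤ a) (hC : 0 ≤ C) (h : MeanLen a C) {β Q : ℝ} (hβ : a < β) (hQ : 0 < Q) :
    ∃ L0 : ℕ, ∀ L : ℕ, L0 ≤ L → gf {t | t ∈ WL L ∧ (2 : ℝ) ^ (β * L) ≤ t.length} ≤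
      ENNReal.ofReal ((2 : ℝ) ^ (-(Q * L))) := by
  rcases lt_or_ge 2 β with hβ2 | hβ2
  · -- no such words
    obtain ⟨L0, hL0⟩ := exists_nat_gt (7 / (β - 2))
    refine ⟨L0, fun L hL => ?_⟩
    have hemp : {t | t ∈ WL L ∧ (2 : ℝ) ^ (β * L) ≤ t.length} = ∅ := by
      rw [Set.eq_empty_iff_forall_notMem]
      rintro t ⟨ht, hlen⟩
      have h1 : (t.length : ℝ) ≤ 100 * 4 ^ L := by exact_mod_cast WL_length ht
      have h2 : (7 : ℝ) < (β - 2) * L := by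
        have h3 : 7 / (β - 2) < L := lt_of_lt_of_le hL0 (by exact_mod_cast hL)
        rw [div_lt_iff₀ (by linarith)] at h3
        linarith
      have h3 : (100 : ℝ) * 4 ^ L < (2 : ℝ) ^ (β * L) := by
        have h4 : (2 : ℝ) ^ (β * L) = (2 : ℝ) ^ ((β - 2) * L) * 4 ^ L := by
          have h5 : (4 : ℝ) ^ L = (2 : ℝ) ^ (2 * (L : ℝ)) := by
            rw [Real.rpow_mul (by norm_num), Real.rpow_natCast]
            norm_num
          rw [h5, ← Real.rpow_add (by norm_num)]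
          congr 1
          ring
        rw [h4]
        apply mul_lt_mul_of_pos_right _ (by positivity)
        calc (100 : ℝ) < (2 : ℝ) ^ (7 : ℝ) := by norm_num
          _ < (2 : ℝ) ^ ((β - 2) * L) := Real.rpow_lt_rpow_of_exponent_lt (by norm_num) h2
      linarith
    rw [hemp]
    unfold gf
    rw [tsum_empty]
    exact zero_le
  -- parameters
  obtain ⟨g, hg⟩ : ∃ g : ℝ, g = (β - a) / 4 := ⟨_, rfl⟩
  have hg0 : 0 < g := by rw [hg]; linarith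
  obtain ⟨κ, hκ⟩ : ∃ κ : ℝ, κ = min (1 / 8) ((β - a) / 12) := ⟨_, rfl⟩
  have hκ0 : 0 < κ := by
    rw [hκ]
    exact lt_min (by norm_num) (by linarith)
  have hκ1 : κ ≤ 1 / 8 := by rw [hκ]; exact min_le_left _ _
  have hκ2 : κ ≤ (β - a) / 12 := by rw [hκ]; exact min_le_right _ _
  obtain ⟨Cp, hCp, hpoly⟩ := SAL_poly
  obtain ⟨Q', hQ'⟩ : ∃ Q' : ℝ, Q' = Q + 4 * Cp + 2 := ⟨_, rfl⟩
  have hQ'0 : 0 < Q' := by rw [hQ']; positivity
  obtain ⟨C1, hC1, hB1⟩ := few_leaves hQ'0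
  obtain ⟨η, hη, hη1, hB2⟩ := few_special (by linarith) hC h hg0
  obtain ⟨J1, hJ1⟩ := hB2 κ C1 Q' hκ0 hC1 hQ'0
  obtain ⟨μ, LD, hμ, hD⟩ := rec_num (a := a) (g := g) (κ := κ) (η := η) (C1 := C1) (J1 := J1) (by linarith)
    (by rw [hg]; linarith) hκ0 hκ1 hη hη1 hC1
  obtain ⟨L1, hL1⟩ := hB1 κ hκ0 μ
  obtain ⟨L2, hL2⟩ := hJ1 μ
  obtain ⟨L3, hL3⟩ := near_box hη hη1 hκ0 hQ'0
  obtain ⟨L4, hL4⟩ := exists_nat_gt (5 / κ)
  -- the final comparison
  obtain ⟨K, hK⟩ : ∃ K : ℝ, K = 5 * (Cp * 100 ^ Cp) ^ 2 := ⟨_, rfl⟩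
  have hK0 : 0 < K := by rw [hK]; positivity
  obtain ⟨L5, hL5⟩ := exists_nat_gt K
  refine ⟨max (max (max LD L1) (max L2 L3)) (max L4 (L5 + 1)), fun L hL => ?_⟩
  have hLD : LD ≤ L := by omega
  have hLL1 : L1 ≤ L := by omega
  have hLL2 : L2 ≤ L := by omega
  have hLL3 : L3 ≤ L := by omega
  have hLL4 : L4 ≤ L := by omega
  have hLL5 : L5 + 1 ≤ L := by omega
  have hLpos : 1 ≤ L := by omega
  have hb5 : ∀ b : ℕ, κ * L ≤ b → 5 ≤ b := by
    intro b hb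
    have h1 : 5 / κ < L := lt_of_lt_of_le hL4 (by exact_mod_cast hLL4)
    rw [div_lt_iff₀ hκ0] at h1
    have h2 : (5 : ℝ) < b := by linarith
    have h3 : 5 < b := by exact_mod_cast h2
    omega
  -- the bad scales
  classical
  obtain ⟨I, hI⟩ : ∃ I : Finset ℕ, I = (range (L + 1)).filter (fun b : ℕ => κ * (L : ℝ) ≤ (b : ℝ) ∧ b + μ ≤ L) := ⟨_, rfl⟩
  obtain ⟨bad, hbad⟩ : ∃ bad : ℕ → Set (List Bool), bad = fun b =>
    BB η C1 ((2 : ℝ) ^ ((a + g) * (b + μ : ℕ))) L b μ (J1 * (μ + 1)) := ⟨_, rfl⟩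
  have hsub : {t | t ∈ WL L ∧ (2 : ℝ) ^ (β * L) ≤ t.length} ⊆
      ⋃ b ∈ I, {t | t ∈ WL L ∧ ∃ w ∈ bad b, w <:+: t} := by
    rintro t ⟨ht, hlen⟩
    by_contra hcon
    have hgood : ∀ b : ℕ, κ * (L : ℝ) ≤ (b : ℝ) → b + μ ≤ L → ∀ w, w <:+: t → w ∉ bad b := by
      intro b hb1 hb2 w hw hwb
      apply hcon
      refine Set.mem_iUnion₂.2 ⟨b, ?_, ht, w, hwb, hw⟩
      rw [hI, Finset.mem_filter, Finset.mem_range]
      exact ⟨by omega, hb1, hb2⟩
    have hrec := hD L (fun l => (SS t l : ℝ)) hLD (fun l => Nat.cast_nonneg _) (fun l => by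
      obtain ⟨v, -, hv2, hv3⟩ := SS_ex ht.1 l
      rw [← hv3]
      exact_mod_cast WL_length hv2) (fun b hb1 hb2 => by
      have h1 := step (η := η) (C1 := C1) (lam := (2 : ℝ) ^ ((a + g) * (b + μ : ℕ))) hη hC1 (by positivity) (L := L)
        (J := J1 * (μ + 1)) (hb5 b hb1) ht.1 (fun w hw => by
          have h2 := hgood b hb1 hb2 w hw
          rw [hbad] at h2
          exact h2)
      exact h1)
    have h1 : (t.length : ℝ) ≤ SS t L := by exact_mod_cast SS_ge (List.infix_refl t) ht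
    have h2 : (2 : ℝ) ^ ((a + g + 3 * κ) * L) < (2 : ℝ) ^ (β * L) := by
      apply Real.rpow_lt_rpow_of_exponent_lt (by norm_num)
      have hL0 : (0 : ℝ) < L := by exact_mod_cast hLpos
      apply mul_lt_mul_of_pos_right _ hL0
      rw [hg]
      linarith
    have h3 : (SS t L : ℝ) ≤ (2 : ℝ) ^ ((a + g + 3 * κ) * L) := hrec
    linarith
  have hone : ∀ b ∈ I, gf {t | t ∈ WL L ∧ ∃ w ∈ bad b, w <:+: t} ≤
      ENNReal.ofReal ((Cp * 100 ^ Cp) ^ 2 * (2 : ℝ) ^ (4 * Cp * L) * (5 * (2 : ℝ) ^ (-(Q' * L)))) := by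
    intro b hbI
    rw [hI, Finset.mem_filter] at hbI
    obtain ⟨-, hb1, hb2⟩ := hbI
    refine (gf_infix L (bad b)).trans ?_
    have h1 : gf (bad b) ≤ 5 * ENNReal.ofReal ((2 : ℝ) ^ (-(Q' * L))) := by
      rw [hbad]
      exact gf_BB (fun dir => hL1 L b dir hLL1 hb1 hb2) (fun dir => hL2 L b dir hLL2 hb1 hb2)
        (hL3 L b hLL3 hb1 (by omega))
    have h2 : gf (SAL (100 * 4 ^ L)) ≤ ENNReal.ofReal (Cp * 100 ^ Cp * (2 : ℝ) ^ (2 * Cp * L)) := by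
      refine (hpoly (100 * 4 ^ L) ?_).trans (ENNReal.ofReal_le_ofReal (le_of_eq ?_))
      · have : 1 ≤ 4 ^ L := Nat.one_le_pow _ _ (by norm_num)
        omega
      · push_cast
        rw [Real.mul_rpow (by norm_num) (by positivity)]
        have h5 : ((4 : ℝ) ^ L) ^ Cp = (2 : ℝ) ^ (2 * Cp * L) := by
          rw [← Real.rpow_natCast 4 L, show (4 : ℝ) = (2 : ℝ) ^ (2 : ℝ) by norm_num, ← Real.rpow_mul (by norm_num),
            ← Real.rpow_mul (by norm_num)]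
          congr 1
          ring
        rw [h5]
        ring
    have h3 : (5 : ℝ≥0∞) * ENNReal.ofReal ((2 : ℝ) ^ (-(Q' * L))) = ENNReal.ofReal (5 * (2 : ℝ) ^ (-(Q' * L))) := by
      rw [ENNReal.ofReal_mul (by norm_num), ENNReal.ofReal_ofNat]
    rw [h3] at h1
    have h4 : gf (SAL (100 * 4 ^ L)) ^ 2 ≤ ENNReal.ofReal ((Cp * 100 ^ Cp) ^ 2 * (2 : ℝ) ^ (4 * Cp * L)) := by
      refine (pow_le_pow_left' h2 2).trans (le_of_eq ?_)
      rw [← ENNReal.ofReal_pow (by positivity), mul_pow]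
      congr 2
      rw [← Real.rpow_natCast ((2 : ℝ) ^ (2 * Cp * L)) 2, ← Real.rpow_mul (by norm_num)]
      congr 1
      push_cast
      ring
    refine (mul_le_mul' h4 h1).trans (le_of_eq ?_)
    rw [← ENNReal.ofReal_mul (by positivity)]
  refine (gf_mono hsub).trans ((ENNReal.tsum_biUnion_le wE I _).trans ((Finset.sum_le_sum hone).trans ?_))
  rw [Finset.sum_const, nsmul_eq_mul, ← ENNReal.ofReal_natCast, ← ENNReal.ofReal_mul (by positivity)]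
  apply ENNReal.ofReal_le_ofReal
  have hcard : (I.card : ℝ) ≤ (2 : ℝ) ^ (L : ℝ) := by
    have h1 : I.card ≤ L + 1 := by
      rw [hI]
      refine (Finset.card_filter_le _ _).trans ?_
      rw [Finset.card_range]
    have h2 : L + 1 ≤ 2 ^ L := Nat.lt_two_pow_self
    rw [Real.rpow_natCast]
    exact_mod_cast h1.trans h2
  have hKL : K ≤ (2 : ℝ) ^ (L : ℝ) := by
    have h1 : (L5 : ℝ) ≤ L := by
      have : L5 ≤ L := by omega
      exact_mod_cast this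
    have h2 : (L : ℝ) ≤ (2 : ℝ) ^ (L : ℝ) := by
      rw [Real.rpow_natCast]
      exact_mod_cast (Nat.lt_two_pow_self (n := L)).le
    linarith
  calc (I.card : ℝ) * ((Cp * 100 ^ Cp) ^ 2 * (2 : ℝ) ^ (4 * Cp * L) * (5 * (2 : ℝ) ^ (-(Q' * L)))) =
        I.card * (K * ((2 : ℝ) ^ (4 * Cp * L) * (2 : ℝ) ^ (-(Q' * L)))) := by
        rw [hK]
        ring
    _ ≤ (2 : ℝ) ^ (L : ℝ) * ((2 : ℝ) ^ (L : ℝ) * ((2 : ℝ) ^ (4 * Cp * L) * (2 : ℝ) ^ (-(Q' * L)))) := by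
        gcongr
    _ = (2 : ℝ) ^ (-(Q * L)) := by
        rw [← Real.rpow_add (by norm_num), ← Real.rpow_add (by norm_num), ← Real.rpow_add (by norm_num)]
        congr 1
        rw [hQ']
        ring

end T2

end HexObs
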