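import Pool.Agent.SDN.Defs

/-!
T2: from the mean length of the bridges to the end-to-end distance for every n. Definitions.
Text: doc proof/T2_h57, board/T2.
-/

set_option autoImplicit false

namespace HexObs

namespace T2

open Finset TS SDN

open scoped ENNReal

/-- the mean length of the bridges of height T is at most C T ^ a -/
def MeanLen (a C : ℝ) : Prop := ∀ T : ℕ, 1 ≤ T →
  ∑' t : Brd T, (t.1.length : ℝ≥0∞) * wE t.1 ≤ ENNReal.ofReal (C * (T : ℝ) ^ a) * BT T

/-- special leaves: every middle part between two ends of height at most 2 ^ e has at least lam letters -/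
def Sp (e : ℕ) (lam : ℝ) : Set (List Bool) :=
  {g | ∀ X ∈ BU, ∀ Z ∈ BU, ∀ Y ∈ BU, g = X ++ (Z ++ Y) → hgt X ≤ 2 ^ e → hgt Y ≤ 2 ^ e → lam ≤ (Z.length : ℝ)}

/-- scale of the ends of the leaves of the scale b -/
noncomputable def ee (η : ℝ) (b : ℕ) : ℕ := b - 5 - ⌊2 * η * b⌋₊

/-- scale of the boxes of the ends of the leaves of the scale b -/
noncomputable def ff (η : ℝ) (b : ℕ) : ℕ := b - ⌊η * b⌋₊

open Classical in
/-- number of special interior leaves -/
noncomputable def spc (e : ℕ) (lam : ℝ) (t : List Bool) (m : ℕ) (f : ℕ → ℕ) : ℕ :=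
  ((lws t f 1 (m - 2)).filter (fun g => decide (g ∈ Sp e lam))).length

end T2

end HexObs
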