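import Pool.Agent.T2.FrameT
import Pool.Agent.SDN.LeafW
import Pool.Agent.TightS.SBasic

/-!
T2, module C4: the leaves that are not special are short.
-/

set_option autoImplicit false

namespace HexObs

namespace T2

open Finset TS SDN

open scoped ENNReal

theorem not_special {b m u i e f : ℕ} {dir : Bool} {w : List Bool} {fo : ℕ → ℕ} {lam S2 : ℝ} (hw : w ∈ SA)
    (hb : 1 ≤ b) (hL : Lf dir b w m u fo) (h1 : 1 ≤ i) (h2 : i + 2 ≤ m)
    (hn : lw w (fo i) (fo (i + 1)) ∉ Sp e lam) (hef : e ≤ f)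
    (hbox : ∀ X h, X ∈ Brd h → h ≤ 2 ^ e → X.dropLast <:+: w → InBox X (2 ^ f))
    (hS2 : ∀ v, v <:+: w → v ∈ WL (f + 2) → (v.length : ℝ) ≤ S2) (hS : 0 ≤ S2) :
    (fo (i + 1) : ℝ) - fo i ≤ 2 * S2 + lam + 4 := by
  obtain ⟨c, M, -, -, -, r4, -, -, r7, -, -, -, r11, -⟩ := leaf_at hw hb hL h1 h2
  have hsub : (lw w (fo i) (fo (i + 1))).dropLast <:+: w := ⟨_, _, by rw [List.append_assoc]; exact r11.symm⟩
  have hlen : (fo (i + 1) : ℝ) = fo i + 1 + (lw w (fo i) (fo (i + 1))).length := by
    have : fo (i + 1) = fo i + 1 + (lw w (fo i) (fo (i + 1))).length := by omega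
    exact_mod_cast this
  generalize lw w (fo i) (fo (i + 1)) = g at hn hsub hlen
  simp only [Sp, Set.mem_ofPred_eq, not_forall, not_le] at hn
  obtain ⟨X, hX, Z, hZ, Y, hY, hg, hX1, hY1, hlt⟩ := hn
  have part : ∀ V, V ∈ BU → hgt V ≤ 2 ^ e → V.dropLast <:+: w → (V.length : ℝ) ≤ S2 + 1 := by
    intro V hV hV1 hV2
    obtain ⟨h, hh⟩ := hV
    rw [hgt_eq hh] at hV1
    have h3 := hS2 _ hV2 (box_WL hh hV1 hef (hbox V h hh hV1 hV2))
    rw [List.length_dropLast] at h3
    have h4 : (V.length : ℝ) ≤ ((V.length - 1 : ℕ) : ℝ) + 1 := by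
      have : V.length ≤ V.length - 1 + 1 := by omega
      exact_mod_cast this
    linarith
  have hXi : X.dropLast <:+: w := by
    rcases List.eq_nil_or_concat' X with rfl | ⟨X', a, rfl⟩
    · exact ⟨[], w, rfl⟩
    · rw [List.dropLast_concat]
      refine List.IsInfix.trans ?_ hsub
      rw [hg]
      rcases List.eq_nil_or_concat' (Z ++ Y) with h0 | ⟨W, c', h0⟩
      · rw [h0, List.append_nil, List.dropLast_concat]
      · rw [h0, List.append_assoc X' [a], ← List.append_assoc [a], ← List.append_assoc X', List.dropLast_concat]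
        exact ⟨[], [a] ++ W, by rw [List.nil_append]⟩
  have hYi : Y.dropLast <:+: w := by
    rcases List.eq_nil_or_concat' Y with rfl | ⟨Y', a, rfl⟩
    · exact ⟨[], w, rfl⟩
    · rw [List.dropLast_concat]
      refine List.IsInfix.trans ?_ hsub
      rw [hg, ← List.append_assoc, ← List.append_assoc, List.dropLast_concat]
      exact ⟨X ++ Z, [], by rw [List.append_nil]⟩
  have a1 := part X hX hX1 hXi
  have a2 := part Y hY hY1 hYi
  have a3 : (g.length : ℝ) = X.length + (Z.length + Y.length) := by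
    rw [hg, List.length_append, List.length_append]
    push_cast
    ring
  linarith

end T2

end HexObs
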