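import Pool.Agent.T2.FrameT
import Pool.Agent.SDN.SplitP
import Pool.Agent.SDN.MainA

/-!
T2, module F: from power small to exponentially small (pieces of length n = ceil (2 ^ (β0 (L + 3))) in WL (L + 3)).
-/

set_option autoImplicit false

namespace HexObs

namespace T2

open Finset TS SDN

open scoped ENNReal

namespace ExpSm

/-- words cut into pieces of length n -/
def PC (Λ n k : ℕ) (A : Set (List Bool)) : Set (List Bool) :=
  {t | t ∈ SAL Λ ∧ k * n ≤ t.length ∧ ∀ x, x + n ≤ t.length → (t.drop x).take n ∈ A}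

lemma gf_PC (Λ n : ℕ) (A : Set (List Bool)) (k : ℕ) : gf (PC Λ n k A) ≤ gf A ^ k * gf (SAL Λ) := by
  induction k with
  | zero =>
    rw [pow_zero, one_mul]
    exact gf_mono fun t ht => ht.1
  | succ k ih =>
    have h1 : gf (PC Λ n (k + 1) A) ≤ gf A * gf (PC Λ n k A) := by
      refine gf_le_mul ?_
      rintro t ⟨ht, hk, hA⟩
      have hk' : k * n + n ≤ t.length := by
        have : (k + 1) * n = k * n + n := by ring
        omega
      refine ⟨t.take n, ?_, t.drop n, ⟨⟨SA_drop ht.1 n, ?_⟩, ?_, ?_⟩, (List.take_append_drop n t).symm⟩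
      · have := hA 0 (by omega)
        rwa [List.drop_zero] at this
      · have h2 : t.length ≤ Λ := ht.2
        rw [List.length_drop]
        omega
      · rw [List.length_drop]
        omega
      · intro x hx
        rw [List.length_drop] at hx
        rw [List.drop_drop]
        exact hA (n + x) (by omega)
    calc gf (PC Λ n (k + 1) A) ≤ gf A * gf (PC Λ n k A) := h1
      _ ≤ gf A * (gf A ^ k * gf (SAL Λ)) := mul_le_mul_right ih _
      _ = gf A ^ (k + 1) * gf (SAL Λ) := by ring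

lemma piece {L x n : ℕ} {t : List Bool} (ht : t ∈ WL L) (hx : x + n ≤ t.length) : (t.drop x).take n ∈ WL (L + 3) := by
  have h := infix_WL (w := t) ht.1 (x := x) (y := x + n) (q := L + 1) (by omega) hx (by
    intro dir i j _ hi _ hj
    have h1 := ht.2 i (by omega) dir
    have h2 := ht.2 j (by omega) dir
    rw [abs_le] at h1 h2
    have : (2 : ℤ) ^ (L + 1) = 2 * 2 ^ L := by ring
    rw [this]
    omega)
  rwa [Nat.add_sub_cancel_left] at h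

end ExpSm

open ExpSm

theorem exp_small {β0 β : ℝ} (hβ0 : 1 ≤ β0) (hβ : β0 < β)
    (h : ∀ Q : ℝ, 0 < Q → ∃ L0 : ℕ, ∀ L : ℕ, L0 ≤ L → gf {t | t ∈ WL L ∧ (2 : ℝ) ^ (β0 * L) ≤ t.length} ≤
      ENNReal.ofReal ((2 : ℝ) ^ (-(Q * L)))) :
    ∃ (c : ℝ) (L0 : ℕ), 0 < c ∧ ∀ L : ℕ, L0 ≤ L →
      gf {t | t ∈ WL L ∧ (2 : ℝ) ^ (β * L) ≤ t.length} ≤ ENNReal.ofReal (Real.exp (-(2 : ℝ) ^ (c * L))) := by
  obtain ⟨C, hC, hpoly⟩ := SAL_poly
  obtain ⟨L1, hL1⟩ := h 1 one_pos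
  obtain ⟨s, hs⟩ : ∃ s, s = (β - β0) / 2 := ⟨_, rfl⟩
  have hs0 : 0 < s := by rw [hs]; linarith
  obtain ⟨C', hC'⟩ : ∃ C' : ℝ, C' = 2 * C + 100 ^ C * C := ⟨_, rfl⟩
  have hC'0 : 0 < C' := by rw [hC']; positivity
  obtain ⟨L2, hL2⟩ := MainA.asymp C' s hC'0 hs0
  obtain ⟨L3, hL3⟩ := exists_nat_ge ((3 * β0 + 3) / s)
  refine ⟨s / 2, L1 + L2 + L3 + 1, by positivity, fun L hL => ?_⟩
  have hLr : (0 : ℝ) ≤ L := Nat.cast_nonneg L
  -- the length of the pieces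
  obtain ⟨y, hy⟩ : ∃ y : ℝ, y = (2 : ℝ) ^ (β0 * ((L + 3 : ℕ) : ℝ)) := ⟨_, rfl⟩
  have hy1 : 1 ≤ y := by
    rw [hy]
    exact Real.one_le_rpow (by norm_num) (by positivity)
  obtain ⟨n, hn⟩ : ∃ n : ℕ, n = ⌈y⌉₊ := ⟨_, rfl⟩
  have hn1 : y ≤ n := by rw [hn]; exact Nat.le_ceil _
  have hn2 : (n : ℝ) ≤ 2 * y := by
    have := Nat.ceil_lt_add_one (by linarith : 0 ≤ y)
    rw [← hn] at this
    linarith
  have hn0 : (0 : ℝ) < n := by linarith
  obtain ⟨k, hk⟩ : ∃ k : ℕ, k = ⌊(2 : ℝ) ^ (β * L) / n⌋₊ := ⟨_, rfl⟩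
  have hk1 : (k : ℝ) * n ≤ (2 : ℝ) ^ (β * L) := by
    have h1 : (k : ℝ) ≤ (2 : ℝ) ^ (β * L) / n := by
      rw [hk]
      exact Nat.floor_le (by positivity)
    rwa [le_div_iff₀ hn0] at h1
  have hk2 : (2 : ℝ) ^ (s * L) ≤ k := by
    have h1 : (2 : ℝ) ^ (β * L) / n < k + 1 := by
      rw [hk]
      exact Nat.lt_floor_add_one _
    have h2 : (2 : ℝ) ^ (β * L) = (2 : ℝ) ^ (s * L) * (2 : ℝ) ^ (s * L - 3 * β0 - 2) * 4 * y := by
      rw [hy, show (4 : ℝ) = (2 : ℝ) ^ (2 : ℝ) by norm_num, ← Real.rpow_add (by norm_num), ← Real.rpow_add (by norm_num),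
        ← Real.rpow_add (by norm_num)]
      congr 1
      push_cast
      rw [hs]
      ring
    have h3 : 1 ≤ (2 : ℝ) ^ (s * L - 3 * β0 - 2) := by
      refine Real.one_le_rpow (by norm_num) ?_
      have h4 : (L3 : ℝ) ≤ L := by
        have : L3 ≤ L := by omega
        exact_mod_cast this
      have h5 : (3 * β0 + 3) / s ≤ L := hL3.trans h4
      rw [div_le_iff₀ hs0] at h5
      linarith [mul_comm s (L : ℝ)]
    have h6 : (1 : ℝ) ≤ (2 : ℝ) ^ (s * L) := Real.one_le_rpow (by norm_num) (by positivity)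
    have h7 : (2 : ℝ) ^ (s * L) * 2 ≤ (2 : ℝ) ^ (β * L) / n := by
      rw [le_div_iff₀ hn0, h2]
      calc (2 : ℝ) ^ (s * L) * 2 * n ≤ (2 : ℝ) ^ (s * L) * 2 * (2 * y) :=
            mul_le_mul_of_nonneg_left hn2 (by positivity)
        _ = (2 : ℝ) ^ (s * L) * 1 * 4 * y := by ring
        _ ≤ (2 : ℝ) ^ (s * L) * (2 : ℝ) ^ (s * L - 3 * β0 - 2) * 4 * y := by gcongr
    linarith
  -- the pieces
  obtain ⟨A, hA⟩ : ∃ A : Set (List Bool), A = {v | v ∈ WL (L + 3) ∧ (2 : ℝ) ^ (β0 * ((L + 3 : ℕ) : ℝ)) ≤ v.length} :=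
    ⟨_, rfl⟩
  have hgA : gf A ≤ ENNReal.ofReal (1 / 2) := by
    rw [hA]
    refine (hL1 (L + 3) (by omega)).trans (ENNReal.ofReal_le_ofReal ?_)
    rw [one_mul, show (1 / 2 : ℝ) = (2 : ℝ) ^ (-1 : ℝ) by rw [Real.rpow_neg_one]; norm_num]
    refine Real.rpow_le_rpow_of_exponent_le (by norm_num) ?_
    push_cast
    linarith
  have hsub : {t | t ∈ WL L ∧ (2 : ℝ) ^ (β * L) ≤ t.length} ⊆ PC (100 * 4 ^ L) n k A := by
    rintro t ⟨ht, hlen⟩
    refine ⟨⟨ht.1, WL_length ht⟩, ?_, fun x hx => ?_⟩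
    · have h1 : ((k * n : ℕ) : ℝ) ≤ (t.length : ℝ) := by
        push_cast
        exact hk1.trans hlen
      exact_mod_cast h1
    · rw [hA]
      refine ⟨piece ht hx, ?_⟩
      rw [List.length_take, List.length_drop, min_eq_left (by omega), ← hy]
      exact hn1
  refine (gf_mono hsub).trans ((gf_PC _ _ _ _).trans ?_)
  have h1 : gf A ^ k ≤ ENNReal.ofReal ((2 : ℝ) ^ (-(2 : ℝ) ^ (s * L))) := by
    calc gf A ^ k ≤ ENNReal.ofReal (1 / 2) ^ k := pow_le_pow_left' hgA k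
      _ = ENNReal.ofReal ((1 / 2) ^ k) := (ENNReal.ofReal_pow (by norm_num) k).symm
      _ ≤ _ := by
        refine ENNReal.ofReal_le_ofReal ?_
        rw [one_div, inv_pow, ← Real.rpow_natCast, ← Real.rpow_neg (by norm_num)]
        exact Real.rpow_le_rpow_of_exponent_le (by norm_num) (neg_le_neg hk2)
  have h2 : gf (SAL (100 * 4 ^ L)) ≤ ENNReal.ofReal (((2 : ℝ) ^ L) ^ C' * C') := by
    refine (hpoly _ (Nat.one_le_iff_ne_zero.2 (by positivity))).trans (ENNReal.ofReal_le_ofReal ?_)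
    push_cast
    have h3 : (4 : ℝ) ^ L = ((2 : ℝ) ^ L) ^ 2 := by
      rw [← pow_mul, mul_comm, pow_mul]; norm_num
    have h4 : (1 : ℝ) ≤ (2 : ℝ) ^ L := one_le_pow₀ (by norm_num)
    have h5 : (0 : ℝ) < 100 ^ C * C := by positivity
    rw [Real.mul_rpow (by norm_num) (by positivity), h3, ← Real.rpow_natCast ((2 : ℝ) ^ L) 2, ← Real.rpow_mul (by positivity)]
    have h6 : ((2 : ℝ) ^ L) ^ (((2 : ℕ) : ℝ) * C) ≤ ((2 : ℝ) ^ L) ^ C' := by
      refine Real.rpow_le_rpow_of_exponent_le h4 ?_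
      rw [hC']
      push_cast
      linarith
    calc (100 : ℝ) ^ C * ((2 : ℝ) ^ L) ^ (((2 : ℕ) : ℝ) * C) * C
        = ((2 : ℝ) ^ L) ^ (((2 : ℕ) : ℝ) * C) * (100 ^ C * C) := by ring
      _ ≤ ((2 : ℝ) ^ L) ^ C' * (100 ^ C * C) := mul_le_mul_of_nonneg_right h6 h5.le
      _ ≤ ((2 : ℝ) ^ L) ^ C' * C' := by
        refine mul_le_mul_of_nonneg_left ?_ (by positivity)
        rw [hC']
        linarith
  calc gf A ^ k * gf (SAL (100 * 4 ^ L))
      ≤ ENNReal.ofReal ((2 : ℝ) ^ (-(2 : ℝ) ^ (s * L))) * ENNReal.ofReal (((2 : ℝ) ^ L) ^ C' * C') := mul_le_mul' h1 h2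
    _ = ENNReal.ofReal (((2 : ℝ) ^ L) ^ C' * C' * (2 : ℝ) ^ (-(2 : ℝ) ^ (s * L))) := by
      rw [← ENNReal.ofReal_mul (by positivity)]
      congr 1
      ring
    _ ≤ _ := ENNReal.ofReal_le_ofReal (hL2 L (by omega))

end T2

end HexObs
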