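import Pool.Agent.T2.UpDefs
import Pool.Agent.T2.Infix
import Pool.Agent.SDN.CleanChain

/-!
T2, UP, U6b: the tall bridges without backtracks (last letter removed) have exponentially small weight.
-/

set_option autoImplicit false

namespace HexObs

namespace T2

open Finset TS SDN

open scoped ENNReal

theorem far_clean : ∃ (K : ℝ) (s : ℕ), 1 ≤ K ∧ ∀ b H : ℕ, 6 ≤ b → 2 ^ b ≤ H →
    gf {v | ∃ h X, X ∈ Brd h ∧ X ∈ CL b ∧ H ≤ h ∧ v = X.dropLast} ≤
      ENNReal.ofReal (K * 2 ^ b * (2 : ℝ) ^ (-((H : ℝ) / 2 ^ (b + s)))) := by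
  obtain ⟨K, s, hK, hcc⟩ := clean_chain
  refine ⟨8 * K, s, by linarith, fun b H hb hH => ?_⟩
  obtain ⟨k, rfl⟩ : ∃ k, b = k + 5 := ⟨b - 5, by omega⟩
  obtain ⟨P, hP⟩ : ∃ P : Set (List Bool), P = {X | ∃ h, X ∈ Brd h ∧ X ∈ CL (k + 5) ∧ H ≤ h} := ⟨_, rfl⟩
  have hH1 : 1 ≤ H := le_trans Nat.one_le_two_pow hH
  have hnil : [] ∉ P := by
    rw [hP]
    rintro ⟨h, h1, -, h2⟩
    have h3 := Brd_height h1 nil_mem_Brd
    omega
  have h1 : gf {v | ∃ h X, X ∈ Brd h ∧ X ∈ CL (k + 5) ∧ H ≤ h ∧ v = X.dropLast} ≤ 2 * gf P := by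
    refine le_trans (gf_mono ?_) (Inx.gf_dropLast P hnil)
    rintro v ⟨h, X, h1, h2, h3, rfl⟩
    refine ⟨X, ?_, rfl⟩
    rw [hP]
    exact ⟨h, h1, h2, h3⟩
  obtain ⟨V, hV⟩ : ∃ V, V = H / 2 ^ (k + s) := ⟨_, rfl⟩
  have h2 : gf P ≤ ENNReal.ofReal (K ^ 1 * Ub k / 2 ^ V) := by
    refine le_trans ?_ (hcc k 1 V le_rfl)
    have hmem : ∀ X ∈ P, ([X] : List (List Bool)).length = 1 ∧ ([X] : List (List Bool)).IsChain LFold ∧
        (∀ g ∈ ([X] : List (List Bool)), g ∈ CL (k + 5) ∧ g ∈ HB (2 ^ (k + 4))) ∧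
        V ≤ (([X] : List (List Bool)).map fun g => hgt g / 2 ^ (k + s)).sum := by
      intro X hX
      rw [hP] at hX
      obtain ⟨h, h1, h2, h3⟩ := hX
      refine ⟨rfl, List.isChain_singleton X, ?_, ?_⟩
      · intro g hg
        rw [List.mem_singleton] at hg
        subst hg
        refine ⟨h2, h, ?_, h1⟩
        have h4 : (2 : ℕ) ^ (k + 4) ≤ 2 ^ (k + 5) := Nat.pow_le_pow_right (by norm_num) (by omega)
        omega
      · simp only [List.map_cons, List.map_nil, List.sum_cons, List.sum_nil, add_zero]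
        rw [hV, hgt_eq h1]
        exact Nat.div_le_div_right h3
    unfold gf
    let φ : P → {gs : List (List Bool) // gs.length = 1 ∧ gs.IsChain LFold ∧
        (∀ g ∈ gs, g ∈ CL (k + 5) ∧ g ∈ HB (2 ^ (k + 4))) ∧ V ≤ (gs.map fun g => hgt g / 2 ^ (k + s)).sum} :=
      fun X => ⟨[X.1], hmem X.1 X.2⟩
    have hφ : Function.Injective φ := by
      intro X Y hXY
      have h3 : ([X.1] : List (List Bool)) = [Y.1] := congrArg Subtype.val hXY
      apply Subtype.ext
      simpa using h3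
    have h4 : ∑' t : P, wE t.1 = ∑' t : P, SDN.wl (φ t).1 := by
      refine tsum_congr fun t => ?_
      show wE t.1 = SDN.wl [t.1]
      unfold SDN.wl
      simp
    rw [h4]
    exact ENNReal.tsum_comp_le_tsum_of_injective hφ (fun gs => SDN.wl gs.1)
  refine h1.trans ((mul_le_mul_right h2 2).trans ?_)
  have e2 : (2 : ℝ≥0∞) = ENNReal.ofReal 2 := by norm_num
  rw [e2, ← ENNReal.ofReal_mul (by norm_num)]
  apply ENNReal.ofReal_le_ofReal
  have hU : Ub k ≤ 2 ^ (k + 5) := by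
    have h3 : Ub k ≤ (2 ^ k : ℕ) + 1 := by
      unfold Ub UU
      calc ∑ t ∈ range (2 ^ k + 1), uu t ≤ ∑ t ∈ range (2 ^ k + 1), (1 : ℝ) := by
            refine Finset.sum_le_sum fun t _ => ?_
            unfold uu
            have h5 : BT t ≤ 1 := by
              rcases Nat.eq_zero_or_pos t with h0 | h0
              · rw [h0, ← gf_Brd, Brd_zero]
                unfold gf
                rw [tsum_singleton (f := wE)]
                unfold wE
                simp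
              · exact BT_le_one h0
            have h6 := ENNReal.toReal_mono ENNReal.one_ne_top h5
            rwa [ENNReal.toReal_one] at h6
        _ = (2 ^ k : ℕ) + 1 := by
            rw [Finset.sum_const, card_range]
            push_cast
            ring
    have h4 : (1 : ℝ) ≤ 2 ^ k := one_le_pow₀ (by norm_num)
    push_cast at h3
    have h7 : (2 : ℝ) ^ (k + 5) = 32 * 2 ^ k := by
      rw [pow_add]
      norm_num
      ring
    rw [h7]
    linarith
  have hV2 : (1 : ℝ) / 2 ^ V ≤ 2 * (2 : ℝ) ^ (-((H : ℝ) / 2 ^ (k + 5 + s))) := by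
    have h3 : (H : ℝ) / 2 ^ (k + 5 + s) ≤ V + 1 := by
      have h4 : H < (V + 1) * 2 ^ (k + s) := by
        rw [hV, mul_comm]
        exact Nat.lt_mul_div_succ H (by positivity)
      have h5 : (H : ℝ) < (V + 1) * 2 ^ (k + s) := by exact_mod_cast h4
      rw [div_le_iff₀ (by positivity)]
      refine h5.le.trans ?_
      refine mul_le_mul_of_nonneg_left ?_ (by positivity)
      exact pow_le_pow_right₀ (by norm_num) (by omega)
    have h6 : (2 : ℝ) * (2 : ℝ) ^ (-((H : ℝ) / 2 ^ (k + 5 + s))) = (2 : ℝ) ^ (1 + -((H : ℝ) / 2 ^ (k + 5 + s))) := by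
      rw [Real.rpow_add (by norm_num), Real.rpow_one]
    have h7 : (1 : ℝ) / 2 ^ V = (2 : ℝ) ^ (-(V : ℝ)) := by
      rw [Real.rpow_neg (by norm_num), Real.rpow_natCast, one_div]
    rw [h6, h7]
    exact Real.rpow_le_rpow_of_exponent_le (by norm_num) (by linarith)
  have hUk := (Ub_pos k).le
  calc 2 * (K ^ 1 * Ub k / 2 ^ V) = 2 * K * Ub k * (1 / 2 ^ V) := by
        rw [pow_one]
        ring
    _ ≤ 2 * K * 2 ^ (k + 5) * (2 * (2 : ℝ) ^ (-((H : ℝ) / 2 ^ (k + 5 + s)))) := by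
        have hK0 : 0 ≤ K := by linarith
        gcongr
    _ ≤ 8 * K * 2 ^ (k + 5) * (2 : ℝ) ^ (-((H : ℝ) / 2 ^ (k + 5 + s))) := by
        have h8 : 0 ≤ K * 2 ^ (k + 5) * (2 : ℝ) ^ (-((H : ℝ) / 2 ^ (k + 5 + s))) := by positivity
        linarith

end T2

end HexObs
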