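import Pool.Agent.T2.UpDefs
import Pool.Agent.T2.Infix
import Pool.Agent.T2.FarClean
import Pool.Agent.SDN.Hyst

/-!
T2, UP, U6: few leaves and a large extent, from the geometric statement (tall).
-/

set_option autoImplicit false

namespace HexObs

namespace T2

open Finset TS SDN

open scoped ENNReal

/-- one of few leaves is tall -/
def TallSt : Prop := ∀ (dir : Bool) (b m u J L : ℕ) (w : List Bool) (fo : ℕ → ℕ) (i : ℕ), w ∈ SA → 1 ≤ b →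
  Lf dir b w m u fo → m < J → i ≤ w.length → (2 : ℤ) ^ L ≤ |row dir (vx oo up w i)| → b + J + 10 ≤ L →
  ∃ X h, X ∈ Brd h ∧ X ∈ CL (b + 1) ∧ 2 ^ L ≤ 8 * J * h ∧ X.dropLast <:+: w

theorem few_far_of (htall : TallSt) {δ Q : ℝ} (hδ : 0 < δ) (hδ1 : δ ≤ 1 / 2) (hQ : 0 < Q) (J : ℕ) : ∃ L0 : ℕ,
    ∀ L b : ℕ, L0 ≤ L → L ≤ 4 * b → (b : ℝ) ≤ (1 - δ) * L + 1 →
    gf {t | t ∈ WL (L + 8) ∧ Ext L t ∧ ∀ dir m u e, Lf dir b t m u e → m < J} ≤
      ENNReal.ofReal ((2 : ℝ) ^ (-(Q * L))) := by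
  obtain ⟨K, s, hK, hfc⟩ := far_clean
  obtain ⟨C, hC, hpoly⟩ := SAL_poly
  obtain ⟨c, hc⟩ : ∃ c : ℝ, c = 1 / (64 * (J + 1) * 2 ^ s) := ⟨_, rfl⟩
  have hc0 : 0 < c := by
    rw [hc]
    positivity
  obtain ⟨L1, hL1⟩ := Inx.ev (A := 4 * C + 1 + Q) (B := 46 * C + C ^ 2 * K + 1) hc0 hδ
  obtain ⟨L2, hL2⟩ := exists_nat_ge ((J + 11) / δ)
  refine ⟨max (max L1 L2) 24, fun L b hL h4b hb => ?_⟩
  have hLL1 : L1 ≤ L := (le_max_left _ _).trans ((le_max_left _ _).trans hL)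
  have hLL2 : L2 ≤ L := (le_max_right _ _).trans ((le_max_left _ _).trans hL)
  have hL24 : 24 ≤ L := (le_max_right _ _).trans hL
  have hb6 : 6 ≤ b := by omega
  have hδL : (J : ℝ) + 11 ≤ δ * L := by
    have h1 : ((J : ℝ) + 11) / δ ≤ L := hL2.trans (by exact_mod_cast hLL2)
    rw [div_le_iff₀ hδ] at h1
    linarith
  have hbJ : b + J + 10 ≤ L := by
    have h1 : ((b + J + 10 : ℕ) : ℝ) ≤ L := by
      push_cast
      linarith
    exact_mod_cast h1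
  obtain ⟨H, hH⟩ : ∃ H, H = 2 ^ L / (8 * (J + 1)) := ⟨_, rfl⟩
  have hJ2 : J + 1 ≤ 2 ^ (J + 1) := Nat.lt_two_pow_self.le
  have hpos : 0 < 8 * (J + 1) := by omega
  have hHb : 2 ^ (b + 1) ≤ H := by
    rw [hH, Nat.le_div_iff_mul_le hpos]
    calc 2 ^ (b + 1) * (8 * (J + 1)) ≤ 2 ^ (b + 1) * (8 * 2 ^ (J + 1)) :=
          Nat.mul_le_mul_left _ (Nat.mul_le_mul_left _ hJ2)
      _ = 2 ^ (b + 1 + 3 + (J + 1)) := by
          rw [pow_add, pow_add]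
          ring
      _ ≤ 2 ^ L := Nat.pow_le_pow_right (by norm_num) (by omega)
  -- the event
  have hsub : {t | t ∈ WL (L + 8) ∧ Ext L t ∧ ∀ dir m u e, Lf dir b t m u e → m < J} ⊆
      {t | t ∈ WL (L + 8) ∧ ∃ w ∈ {v | ∃ h X, X ∈ Brd h ∧ X ∈ CL (b + 1) ∧ H ≤ h ∧ v = X.dropLast}, w <:+: t} := by
    rintro t ⟨ht, ⟨i, hi, dir, hE⟩, hm⟩
    obtain ⟨m, u, e, hLf⟩ := lf_exists dir b t
    obtain ⟨X, h, hX, hCL, hh, hin⟩ := htall dir b m u J L t e i ht.1 (by omega) hLf (hm dir m u e hLf) hi hE hbJ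
    refine ⟨ht, X.dropLast, ⟨h, X, hX, hCL, ?_, rfl⟩, hin⟩
    rw [hH]
    have h1 : 2 ^ L ≤ 8 * (J + 1) * h := hh.trans (Nat.mul_le_mul_right _ (by omega))
    calc 2 ^ L / (8 * (J + 1)) ≤ 8 * (J + 1) * h / (8 * (J + 1)) := Nat.div_le_div_right h1
      _ = h := Nat.mul_div_cancel_left h hpos
  refine (gf_mono hsub).trans ((gf_infix (L + 8) _).trans ?_)
  have hA := hfc (b + 1) H (by omega) hHb
  have hP := hpoly (100 * 4 ^ (L + 8)) (Nat.one_le_iff_ne_zero.2 (by positivity))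
  refine (mul_le_mul' (pow_le_pow_left₀ (zero_le) hP 2) hA).trans ?_
  rw [← ENNReal.ofReal_pow (by positivity), ← ENNReal.ofReal_mul (by positivity)]
  apply ENNReal.ofReal_le_ofReal
  -- numbers
  have n1 : (((100 * 4 ^ (L + 8) : ℕ) : ℝ)) ^ C ≤ (2 : ℝ) ^ (C * (2 * L + 23)) := by
    have h1 : (((100 * 4 ^ (L + 8) : ℕ) : ℝ)) ≤ (2 : ℝ) ^ ((2 : ℝ) * L + 23) := by
      have h2 : (2 : ℝ) ^ ((2 : ℝ) * L + 23) = (2 : ℝ) ^ (2 * L + 23 : ℕ) := by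
        rw [← Real.rpow_natCast]
        push_cast
        rfl
      rw [h2]
      push_cast
      have h3 : (4 : ℝ) ^ (L + 8) = 2 ^ (2 * L + 16) := by
        rw [show (4 : ℝ) = 2 ^ 2 by norm_num, ← pow_mul]
        congr 1
      have h4 : (2 : ℝ) ^ (2 * L + 23) = 128 * 2 ^ (2 * L + 16) := by
        rw [show 2 * L + 23 = 7 + (2 * L + 16) by ring, pow_add]
        norm_num
      rw [h3, h4]
      have : (0 : ℝ) ≤ 2 ^ (2 * L + 16) := by positivity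
      linarith
    calc (((100 * 4 ^ (L + 8) : ℕ) : ℝ)) ^ C ≤ ((2 : ℝ) ^ ((2 : ℝ) * L + 23)) ^ C :=
          Real.rpow_le_rpow (by positivity) h1 hC.le
      _ = (2 : ℝ) ^ (C * (2 * L + 23)) := by
          rw [← Real.rpow_mul (by norm_num)]
          congr 1
          ring
  have n2 : ∀ x : ℝ, 0 ≤ x → x ≤ (2 : ℝ) ^ x := by
    intro x hx
    have h1 : 1 + x * Real.log 2 ≤ Real.exp (x * Real.log 2) := by
      have := Real.add_one_le_exp (x * Real.log 2)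
      linarith
    have h2 : (2 : ℝ) ^ x = Real.exp (x * Real.log 2) := by
      rw [Real.rpow_def_of_pos (by norm_num), mul_comm]
    have h3 : (0.69 : ℝ) < Real.log 2 := by
      have := Real.log_two_gt_d9
      linarith
    rcases le_or_gt x 1 with h4 | h4
    · calc x ≤ 1 := h4
        _ ≤ (2 : ℝ) ^ x := Real.one_le_rpow (by norm_num) hx
    · -- x ≥ 1: 2 ^ x = 2 * 2 ^ (x - 1) ≥ 2 (1 + (x - 1) log 2) ≥ x
      have h5 : (2 : ℝ) ^ x = 2 * (2 : ℝ) ^ (x - 1) := by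
        rw [Real.rpow_sub (by norm_num), Real.rpow_one]
        ring
      have h6 : 1 + (x - 1) * Real.log 2 ≤ (2 : ℝ) ^ (x - 1) := by
        have := Real.add_one_le_exp ((x - 1) * Real.log 2)
        rw [Real.rpow_def_of_pos (by norm_num), mul_comm (Real.log 2)]
        linarith
      rw [h5]
      nlinarith
  have n3 : (H : ℝ) / 2 ^ (b + 1 + s) ≥ c * (2 : ℝ) ^ (δ * L) := by
    have h1 : (2 : ℝ) ^ L / (16 * (J + 1)) ≤ H := by
      have h2 : 2 ^ L < 8 * (J + 1) * (H + 1) := by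
        rw [hH]
        exact Nat.lt_mul_div_succ (2 ^ L) hpos
      have h3 : (1 : ℝ) ≤ H := by
        exact_mod_cast le_trans Nat.one_le_two_pow hHb
      have h4 : (2 : ℝ) ^ L < 8 * (J + 1) * (H + 1) := by exact_mod_cast h2
      rw [div_le_iff₀ (by positivity)]
      have h5 : 8 * ((J : ℝ) + 1) * (H + 1) ≤ 8 * (J + 1) * (H + H) := by
        gcongr
      linarith
    have h6 : (2 : ℝ) ^ (δ * L) * 2 ^ b ≤ 2 * (2 : ℝ) ^ L := by
      have h7 : (2 : ℝ) * (2 : ℝ) ^ L = (2 : ℝ) ^ (1 + (L : ℝ)) := by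
        rw [Real.rpow_add (by norm_num), Real.rpow_one, Real.rpow_natCast]
      rw [h7, ← Real.rpow_natCast, ← Real.rpow_add (by norm_num)]
      exact Real.rpow_le_rpow_of_exponent_le (by norm_num) (by linarith)
    rw [ge_iff_le, le_div_iff₀ (by positivity)]
    refine le_trans ?_ h1
    rw [le_div_iff₀ (by positivity), hc]
    calc 1 / (64 * ((J : ℝ) + 1) * 2 ^ s) * (2 : ℝ) ^ (δ * L) * 2 ^ (b + 1 + s) * (16 * (J + 1)) =
        (1 / 2) * ((2 : ℝ) ^ (δ * L) * 2 ^ b) := by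
          rw [pow_add, pow_add, pow_one]
          field_simp
          ring
      _ ≤ (1 / 2) * (2 * (2 : ℝ) ^ L) := mul_le_mul_of_nonneg_left h6 (by norm_num)
      _ = (2 : ℝ) ^ L := by ring
  have n4 := hL1 L hLL1
  have hK0 : 0 ≤ K := by linarith
  have n5 : C ^ 2 * K ≤ (2 : ℝ) ^ (C ^ 2 * K) := n2 _ (by positivity)
  have n6 : (2 : ℝ) ^ (b + 1) ≤ (2 : ℝ) ^ ((L : ℝ) + 1) := by
    rw [← Real.rpow_natCast]
    refine Real.rpow_le_rpow_of_exponent_le (by norm_num) ?_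
    push_cast
    have : (b : ℝ) ≤ L := by exact_mod_cast (by omega : b ≤ L)
    linarith
  calc (((100 * 4 ^ (L + 8) : ℕ) : ℝ) ^ C * C) ^ 2 * (K * 2 ^ (b + 1) * (2 : ℝ) ^ (-((H : ℝ) / 2 ^ (b + 1 + s))))
      ≤ ((2 : ℝ) ^ (C * (2 * L + 23)) * C) ^ 2 * (K * (2 : ℝ) ^ ((L : ℝ) + 1) * (2 : ℝ) ^ (-(c * (2 : ℝ) ^ (δ * L)))) := by
        gcongr
        · norm_num
    _ = ((2 : ℝ) ^ (C * (2 * L + 23))) ^ 2 * (C ^ 2 * K) * (2 : ℝ) ^ ((L : ℝ) + 1) * (2 : ℝ) ^ (-(c * (2 : ℝ) ^ (δ * L))) := by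
        ring
    _ ≤ ((2 : ℝ) ^ (C * (2 * L + 23))) ^ 2 * (2 : ℝ) ^ (C ^ 2 * K) * (2 : ℝ) ^ ((L : ℝ) + 1) *
        (2 : ℝ) ^ (-(c * (2 : ℝ) ^ (δ * L))) := by
        gcongr
    _ = (2 : ℝ) ^ (2 * (C * (2 * L + 23)) + C ^ 2 * K + ((L : ℝ) + 1) + -(c * (2 : ℝ) ^ (δ * L))) := by
        have e1 : ((2 : ℝ) ^ (C * (2 * (L : ℝ) + 23))) ^ 2 = (2 : ℝ) ^ (2 * (C * (2 * L + 23))) := by
          rw [two_mul (C * (2 * (L : ℝ) + 23)), Real.rpow_add (by norm_num), sq]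
        rw [e1, ← Real.rpow_add (by norm_num), ← Real.rpow_add (by norm_num), ← Real.rpow_add (by norm_num)]
    _ ≤ (2 : ℝ) ^ (-(Q * L)) := by
        refine Real.rpow_le_rpow_of_exponent_le (by norm_num) ?_
        linarith

end T2

end HexObs
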