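import Pool.Agent.T2.Tall
import Pool.Agent.T2.FewFarOf

/-!
T2, UP, U6: few leaves and a large extent.
-/

set_option autoImplicit false

namespace HexObs

namespace T2

open Finset TS SDN

open scoped ENNReal

theorem few_far {δ Q : ℝ} (hδ : 0 < δ) (hδ1 : δ ≤ 1 / 2) (hQ : 0 < Q) (J : ℕ) : ∃ L0 : ℕ,
    ∀ L b : ℕ, L0 ≤ L → L ≤ 4 * b → (b : ℝ) ≤ (1 - δ) * L + 1 →
    gf {t | t ∈ WL (L + 8) ∧ Ext L t ∧ ∀ dir m u e, Lf dir b t m u e → m < J} ≤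
      ENNReal.ofReal ((2 : ℝ) ^ (-(Q * L))) :=
  few_far_of (fun _ _ _ _ _ _ _ _ _ hw hb hL hm hi hE hbL => tall hw hb hL hm hi hE hbL) hδ hδ1 hQ J

end T2

end HexObs
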