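import Pool.Agent.T2.ANormT
import Pool.Agent.SDN.Peierls2
import Pool.Agent.SDN.Peierls1M
import Pool.Agent.SDN.WordNb

/-!
UP, module U5: a short walk in the box of radius 2 ^ (L + 8) has few leaves of the scale b, b close to L.
-/

set_option autoImplicit false

namespace HexObs

namespace T2

open Finset TS SDN

open scoped ENNReal

namespace MS

/-- a leaf is not longer than the walk -/
lemma lw_len' {t : List Bool} {a b : ℕ} (h : a < t.length) : (lw t a b).length ≤ t.length := by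
  unfold lw
  rw [List.length_append, List.length_take, List.length_drop, List.length_singleton]
  omega

/-- the doublings of a chain in a box -/
lemma dbl_le {b N l : ℕ} {gs : List (List Bool)} (hgs : ∀ g ∈ gs, g ∈ BrR (2 ^ (b - 1)) N)
    (hN : N ≤ 2 ^ l * 2 ^ (b - 1)) : dbl (2 ^ (b - 1)) gs ≤ gs.length * l := by
  have h1 : ∀ x ∈ gs.map (fun g => Nat.log 2 (hgt g / 2 ^ (b - 1))), x ≤ l := by
    intro x hx
    rw [List.mem_map] at hx
    obtain ⟨g, hg, rfl⟩ := hx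
    obtain ⟨k, _, hk2, hk3⟩ := hgs g hg
    rw [hgt_eq hk3]
    have h2 : k / 2 ^ (b - 1) ≤ 2 ^ l := by
      apply Nat.div_le_of_le_mul
      refine (hk2.trans hN).trans (le_of_eq ?_)
      ring
    calc Nat.log 2 (k / 2 ^ (b - 1)) ≤ Nat.log 2 (2 ^ l) := Nat.log_mono_right h2
      _ = l := Nat.log_pow (by norm_num) _
  unfold dbl
  refine (List.sum_le_card_nsmul _ _ h1).trans ?_
  rw [List.length_map, smul_eq_mul]

/-- a short walk with many leaves contains a chain of short leaves -/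
lemma short_word {L b m u n : ℕ} {dir : Bool} {t : List Bool} {e : ℕ → ℕ} {lam : ℝ} (ht : t ∈ WL (L + 8))
    (hb : 1 ≤ b) (hbL : b ≤ L) (hn : 1 ≤ n) (hlam : (t.length : ℝ) < lam) (h : Lf dir b t m u e) (hm : n + 2 ≤ m) :
    ∃ s ∈ SAL (100 * 4 ^ (L + 8)), ∃ gs ∈ {gs : List (List Bool) | gs ∈ C2 (2 ^ (b - 1)) (2 ^ (L + 9)) n n
      {g | (g.length : ℝ) < lam} ∧ dbl (2 ^ (b - 1)) gs ≤ n * (L + 10 - b)}, ∃ r ∈ SAL (100 * 4 ^ (L + 8)),
      t = s ++ ((unf gs).dropLast ++ r) := by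
  classical
  obtain ⟨w1, w2, -⟩ := lws_word ht.1 hb h (j := 1) (n := n) le_rfl hn (by omega)
  have hBr : ∀ g ∈ lws t e 1 n, g ∈ BrR (2 ^ (b - 1)) (2 ^ (L + 9)) := PE.lws_BrR ht hb h (le_refl 1)
    (by omega : 1 + n + 1 ≤ m)
  have hlen := WL_length ht
  have hW : ∀ g ∈ lws t e 1 n, (g.length : ℝ) < lam := by
    intro g hg
    unfold lws at hg
    rw [List.mem_map] at hg
    obtain ⟨i, hi, rfl⟩ := hg
    rw [List.mem_range] at hi
    have h1 := h.lt (1 + i) (by omega)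
    have h2 := PE.e_le h (1 + i + 1) (by omega)
    have h3 := lw_len' (t := t) (a := e (1 + i)) (b := e (1 + i + 1)) (by omega)
    have h4 : ((lw t (e (1 + i)) (e (1 + i + 1))).length : ℝ) ≤ t.length := by exact_mod_cast h3
    linarith
  refine ⟨t.take (e 1 + 1), ⟨SA_take ht.1 _, ?_⟩, lws t e 1 n, ⟨⟨PE.lws_length _ _ _ _, w2, hBr, ?_⟩, ?_⟩,
    t.drop (e (1 + n) - 1), ⟨SA_drop ht.1 _, ?_⟩, w1⟩
  · rw [List.length_take]
    omega
  · rw [List.filter_eq_self.2]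
    · rw [PE.lws_length]
    · intro g hg
      exact decide_eq_true (hW g hg)
  · have h1 := dbl_le (b := b) (l := L + 10 - b) hBr (by
      rw [← pow_add]
      exact Nat.pow_le_pow_right (by norm_num) (by omega))
    rw [PE.lws_length] at h1
    exact h1
  · rw [List.length_drop]
    omega

end MS

open MS in
/-- many leaves of the scale b, one scale -/
theorem many_short1 {g : ℝ} (hg : 0 < g) : ∃ δ : ℝ, 0 < δ ∧ δ ≤ 1 / 2 ∧ ∀ Q : ℝ, 0 < Q → ∃ J L0 : ℕ,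
    ∀ (L b : ℕ) (dir : Bool) (lam : ℝ), L0 ≤ L → (1 - δ) * L ≤ b → b ≤ L →
    Short (2 ^ (L + 9)) lam ((2 : ℝ) ^ (-(g * b))) →
    gf {t | t ∈ WL (L + 8) ∧ (t.length : ℝ) < lam ∧ ∃ m u e, Lf dir b t m u e ∧ J ≤ m} ≤
      ENNReal.ofReal ((2 : ℝ) ^ (-(Q * L))) := by
  obtain ⟨η, δx, b0, hη0, hη8, hδx, hb06, hx⟩ := xW_small hg
  obtain ⟨K, hK, hxA⟩ := x_tA
  obtain ⟨K1, hK1, hxT⟩ := x_tot
  obtain ⟨Cp, hCp, hpoly⟩ := SAL_poly
  obtain ⟨δ, hδ⟩ : ∃ δ : ℝ, δ = min (η / 16) (min δx 1 / 4) := ⟨_, rfl⟩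
  have hmin : 0 < min δx 1 := lt_min hδx one_pos
  have hδ0 : 0 < δ := by
    rw [hδ]
    exact lt_min (by positivity) (by positivity)
  have hδη : δ ≤ η / 16 := by
    rw [hδ]
    exact min_le_left _ _
  have hδδ : δ ≤ δx / 4 := by
    have h1 : min δx 1 ≤ δx := min_le_left _ _
    have h2 : δ ≤ min δx 1 / 4 := by
      rw [hδ]
      exact min_le_right _ _
    linarith
  have hδ1 : δ ≤ 1 / 4 := by
    have h1 : min δx 1 ≤ 1 := min_le_right _ _
    have h2 : δ ≤ min δx 1 / 4 := by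
      rw [hδ]
      exact min_le_right _ _
    linarith
  refine ⟨δ, hδ0, by linarith, fun Q hQ => ?_⟩
  obtain ⟨n, hn⟩ : ∃ n : ℕ, n = ⌈4 * (Q + 4 * Cp + 3) / η⌉₊ + 1 := ⟨_, rfl⟩
  have hn1 : 1 ≤ n := by omega
  have hnη : 4 * (Q + 4 * Cp + 3) ≤ η * n := by
    have h1 := Nat.le_ceil (4 * (Q + 4 * Cp + 3) / η)
    rw [div_le_iff₀ hη0] at h1
    have h2 : (n : ℝ) = (⌈4 * (Q + 4 * Cp + 3) / η⌉₊ : ℝ) + 1 := by
      rw [hn]
      push_cast
      ring
    rw [h2]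
    nlinarith
  obtain ⟨B, hB⟩ : ∃ B : ℝ, B = 4 * (Cp * (100 * 4 ^ 8) ^ Cp) ^ 2 * K1 * (2 * K) ^ n * 4 ^ (10 * n) := ⟨_, rfl⟩
  have hB0 : 0 < B := by
    rw [hB]
    positivity
  refine ⟨n + 2, ⌈B⌉₊ + 2 * b0 + ⌈18 / δx⌉₊ + 1, fun L b dir lam hL hb hbL hS => ?_⟩
  have hL1 : (1 : ℝ) ≤ L := by exact_mod_cast (by omega : 1 ≤ L)
  have hLB : B ≤ L := by
    have h1 : (⌈B⌉₊ : ℝ) ≤ L := by exact_mod_cast (by omega : ⌈B⌉₊ ≤ L)
    exact (Nat.le_ceil B).trans h1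
  have hLx : 18 ≤ δx * L := by
    have h1 : (⌈18 / δx⌉₊ : ℝ) ≤ L := by exact_mod_cast (by omega : ⌈18 / δx⌉₊ ≤ L)
    have h2 := (Nat.le_ceil (18 / δx)).trans h1
    rw [div_le_iff₀ hδx] at h2
    linarith
  have hbL2 : (L : ℝ) / 2 ≤ b := by nlinarith
  have hbb0 : b0 ≤ b := by
    have h1 : ((2 * b0 : ℕ) : ℝ) ≤ L := by exact_mod_cast (by omega : 2 * b0 ≤ L)
    push_cast at h1
    have h2 : (b0 : ℝ) ≤ b := by linarith
    exact_mod_cast h2
  have hbLr : (b : ℝ) ≤ L := by exact_mod_cast hbL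
  obtain ⟨k, rfl⟩ : ∃ k, b = k + 5 := ⟨b - 5, by omega⟩
  obtain ⟨W, hW⟩ : ∃ W : Set (List Bool), W = {g | (g.length : ℝ) < lam} := ⟨_, rfl⟩
  obtain ⟨N, hN⟩ : ∃ N : ℕ, N = 2 ^ (L + 9) := ⟨_, rfl⟩
  obtain ⟨d, hd⟩ : ∃ d : ℝ, d = (2 : ℝ) ^ (-(η * ((k + 5 : ℕ) : ℝ))) := ⟨_, rfl⟩
  have hd0 : 0 < d := by
    rw [hd]
    exact Real.rpow_pos_of_pos (by norm_num) _
  have hd1 : d ≤ 1 := by
    rw [hd]
    apply Real.rpow_le_one_of_one_le_of_nonpos (by norm_num)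
    have : 0 ≤ η * ((k + 5 : ℕ) : ℝ) := by positivity
    linarith
  have hNb : (N : ℝ) ≤ (2 : ℝ) ^ ((1 + δx) * ((k + 5 : ℕ) : ℝ)) := by
    rw [hN]
    push_cast
    rw [← Real.rpow_natCast]
    apply Real.rpow_le_rpow_of_exponent_le (by norm_num)
    push_cast
    push_cast at hb
    have h1 : (1 + δx) * ((1 - δ) * L) ≤ (1 + δx) * ((k : ℝ) + 5) := by
      apply mul_le_mul_of_nonneg_left hb (by linarith)
    have h2 : (1 + δx / 2) * (L : ℝ) ≤ (1 + δx) * ((1 - δ) * L) := by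
      have h3 : 1 + δx / 2 ≤ (1 + δx) * (1 - δ) := by nlinarith
      calc (1 + δx / 2) * (L : ℝ) ≤ (1 + δx) * (1 - δ) * L := by gcongr
        _ = (1 + δx) * ((1 - δ) * L) := by ring
    linarith
  have hF : ∀ Φ, Hered Φ → xT (2 ^ (k + 4)) k (tF (2 ^ (k + 4)) N W LFold Φ) ≤
      ENNReal.ofReal d * xT (2 ^ (k + 4)) k Φ := by
    intro Φ hΦ
    rw [← hN] at hS
    have h1 := hx (k + 5) N W Φ hbb0 (by rw [hN]; exact Nat.one_le_two_pow) hNb hΦ (by
      rw [hW]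
      exact EZ_short hS)
    rw [hd]
    exact h1
  have hch := chain_fill hK hK1 hd0.le hd1 (fun Φ hΦ => hxT k N Φ hΦ) (fun Φ hΦ => hxA k N Φ hΦ) hF n n
  obtain ⟨l, hl⟩ : ∃ l, l = n * (L + 10 - (k + 5)) := ⟨_, rfl⟩
  obtain ⟨P, hP⟩ : ∃ P : Set (List (List Bool)), P = {gs | gs ∈ C2 (2 ^ (k + 4)) N n n W ∧
    dbl (2 ^ (k + 4)) gs ≤ l} := ⟨_, rfl⟩
  have hsplit := sum_split {t | t ∈ WL (L + 8) ∧ (t.length : ℝ) < lam ∧ ∃ m u e, Lf dir (k + 5) t m u e ∧ n + 2 ≤ m}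
    (100 * 4 ^ (L + 8)) P (by
      intro gs hgs
      rw [hP] at hgs
      obtain ⟨⟨g1, -, g3, -⟩, -⟩ := hgs
      refine ⟨?_, fun g hg => ?_⟩
      · rintro rfl
        rw [List.length_nil] at g1
        omega
      · obtain ⟨h, hh, -, hh'⟩ := g3 g hg
        exact ⟨h, le_trans Nat.one_le_two_pow hh, hh'⟩) (by
      rintro t ⟨ht, hlam, m, u, e, hLf, hm⟩
      rw [hP, hN, hW, hl]
      exact short_word ht (by omega) hbL hn1 hlam hLf hm)
  have hwl : ∑' gs : {gs // gs ∈ P}, SDN.wl gs.1 ≤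
      4 ^ l * ENNReal.ofReal (2 * (K1 * Ub (k + 4)) * (2 * K) ^ n * d ^ (n - 1)) := by
    rw [hP]
    exact (untilt (2 ^ (k + 4)) l (C2 (2 ^ (k + 4)) N n n W)).trans (by gcongr)
  obtain ⟨G, hG⟩ : ∃ G : ℝ, G = ((100 * 4 ^ (L + 8) : ℕ) : ℝ) ^ Cp * Cp := ⟨_, rfl⟩
  have hGp : 0 < G := by
    rw [hG]
    have : (0 : ℝ) < ((100 * 4 ^ (L + 8) : ℕ) : ℝ) := by positivity
    positivity
  have hp : gf (SAL (100 * 4 ^ (L + 8))) ≤ ENNReal.ofReal G := by
    rw [hG]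
    exact hpoly _ (Nat.mul_pos (by norm_num) (by positivity))
  have hU := (Ub_pos (k + 4)).le
  refine hsplit.trans ?_
  have e4 : (4 : ℝ≥0∞) ^ l = ENNReal.ofReal (4 ^ l) := by
    rw [ENNReal.ofReal_pow (by norm_num), ENNReal.ofReal_ofNat]
  calc 2 * gf (SAL (100 * 4 ^ (L + 8))) ^ 2 * ∑' gs : {gs // gs ∈ P}, SDN.wl gs.1 ≤
        2 * ENNReal.ofReal G ^ 2 *
          (4 ^ l * ENNReal.ofReal (2 * (K1 * Ub (k + 4)) * (2 * K) ^ n * d ^ (n - 1))) := by gcongr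
    _ = ENNReal.ofReal (2 * G ^ 2 * (4 ^ l * (2 * (K1 * Ub (k + 4)) * (2 * K) ^ n * d ^ (n - 1)))) := by
        have e2 : (2 : ℝ≥0∞) = ENNReal.ofReal 2 := by norm_num
        rw [e4, e2, ← ENNReal.ofReal_pow hGp.le, ← ENNReal.ofReal_mul (by norm_num), ← ENNReal.ofReal_mul (by positivity),
          ← ENNReal.ofReal_mul (by positivity)]
    _ ≤ _ := by
        apply ENNReal.ofReal_le_ofReal
        -- numbers
        have hG2 : G = Cp * (100 * 4 ^ 8) ^ Cp * (2 : ℝ) ^ (2 * Cp * L) := by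
          rw [hG]
          push_cast
          have h1 : (100 : ℝ) * 4 ^ (L + 8) = 100 * 4 ^ 8 * 4 ^ L := by ring
          rw [h1, Real.mul_rpow (by positivity) (by positivity)]
          have h2 : ((4 : ℝ) ^ L) ^ Cp = (2 : ℝ) ^ (2 * Cp * L) := by
            have h3 : (4 : ℝ) ^ L = (2 : ℝ) ^ (2 * (L : ℝ)) := by
              rw [Real.rpow_mul (by norm_num), Real.rpow_two, Real.rpow_natCast]
              norm_num
            rw [h3, ← Real.rpow_mul (by norm_num)]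
            congr 1
            ring
          rw [h2]
          ring
        have hU2 : Ub (k + 4) ≤ (2 : ℝ) ^ (L : ℝ) := by
          rw [Real.rpow_natCast]
          refine (Ub_le _).trans ?_
          exact pow_le_pow_right₀ (by norm_num) (by omega)
        have hl2 : (4 : ℝ) ^ l ≤ 4 ^ (10 * n) * (2 : ℝ) ^ (2 * n * (δ * L)) := by
          have h1 : (l : ℝ) ≤ 10 * n + n * (δ * L) := by
            have h2 : ((L + 10 - (k + 5) : ℕ) : ℝ) = (L : ℝ) + 10 - ((k + 5 : ℕ) : ℝ) := by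
              rw [Nat.cast_sub (show k + 5 ≤ L + 10 by omega)]
              push_cast
              ring
            have h3 : ((L + 10 - (k + 5) : ℕ) : ℝ) ≤ 10 + δ * L := by
              rw [h2]
              linarith
            have h4 : (n : ℝ) * ((L + 10 - (k + 5) : ℕ) : ℝ) ≤ n * (10 + δ * L) := by gcongr
            rw [hl, Nat.cast_mul]
            linarith
          have h2 : (4 : ℝ) ^ l = (4 : ℝ) ^ (l : ℝ) := (Real.rpow_natCast _ _).symm
          rw [h2]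
          refine (Real.rpow_le_rpow_of_exponent_le (by norm_num) h1).trans (le_of_eq ?_)
          rw [Real.rpow_add (by norm_num)]
          congr 1
          · rw [← Real.rpow_natCast]
            push_cast
            rfl
          · have h3 : (4 : ℝ) = (2 : ℝ) ^ (2 : ℝ) := by norm_num
            rw [h3, ← Real.rpow_mul (by norm_num)]
            congr 1
            ring
        have hd2 : d ^ (n - 1) = (2 : ℝ) ^ (-(η * ((k + 5 : ℕ) : ℝ) * (n - 1))) := by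
          rw [hd, ← Real.rpow_natCast, ← Real.rpow_mul (by norm_num)]
          congr 1
          push_cast [Nat.cast_sub hn1]
          ring
        have hexp : 2 * (2 * Cp * L) + 2 * n * (δ * L) + L + -(η * ((k + 5 : ℕ) : ℝ) * (n - 1)) + L ≤ -(Q * L) := by
          have h1 : η * (L / 2) * ((n : ℝ) - 1) ≤ η * ((k + 5 : ℕ) : ℝ) * (n - 1) := by
            have h2 : (0 : ℝ) ≤ (n : ℝ) - 1 := by
              have : (1 : ℝ) ≤ n := by exact_mod_cast hn1
              linarith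
            gcongr
          have h3 : 2 * (n : ℝ) * (δ * L) ≤ 2 * n * (η / 16 * L) := by gcongr
          have h4 : 4 * (Q + 4 * Cp + 3) * (L : ℝ) ≤ η * n * L := by gcongr
          have h5 : η * (L : ℝ) ≤ 1 / 8 * L := by gcongr
          nlinarith
        calc 2 * G ^ 2 * (4 ^ l * (2 * (K1 * Ub (k + 4)) * (2 * K) ^ n * d ^ (n - 1)))
            ≤ 2 * G ^ 2 * ((4 ^ (10 * n) * (2 : ℝ) ^ (2 * n * (δ * L))) *
              (2 * (K1 * (2 : ℝ) ^ (L : ℝ)) * (2 * K) ^ n * d ^ (n - 1))) := by gcongr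
          _ = B * ((2 : ℝ) ^ (2 * (2 * Cp * L)) * (2 : ℝ) ^ (2 * n * (δ * L)) * (2 : ℝ) ^ (L : ℝ) *
              (2 : ℝ) ^ (-(η * ((k + 5 : ℕ) : ℝ) * (n - 1)))) := by
              have h1 : (2 : ℝ) ^ (2 * (2 * Cp * L)) = ((2 : ℝ) ^ (2 * Cp * L)) ^ 2 := by
                rw [← Real.rpow_natCast, ← Real.rpow_mul (by norm_num)]
                congr 1
                push_cast
                ring
              rw [hG2, hd2, hB, h1]
              ring
          _ ≤ (2 : ℝ) ^ (L : ℝ) * ((2 : ℝ) ^ (2 * (2 * Cp * L)) * (2 : ℝ) ^ (2 * n * (δ * L)) * (2 : ℝ) ^ (L : ℝ) *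
              (2 : ℝ) ^ (-(η * ((k + 5 : ℕ) : ℝ) * (n - 1)))) := by
              have h2L : (L : ℝ) ≤ (2 : ℝ) ^ (L : ℝ) := by
                rw [Real.rpow_natCast]
                exact_mod_cast (Nat.lt_two_pow_self (n := L)).le
              have h1 := hLB.trans h2L
              gcongr
          _ = (2 : ℝ) ^ (2 * (2 * Cp * L) + 2 * n * (δ * L) + L + -(η * ((k + 5 : ℕ) : ℝ) * (n - 1)) + L) := by
              rw [Real.rpow_add (by norm_num), Real.rpow_add (by norm_num), Real.rpow_add (by norm_num),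
                Real.rpow_add (by norm_num)]
              ring
          _ ≤ (2 : ℝ) ^ (-(Q * L)) := Real.rpow_le_rpow_of_exponent_le (by norm_num) hexp

end T2

end HexObs
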