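import Pool.Agent.T2.UpDefs
import Pool.Agent.TightS.Params

/-!
UP, U4: short bridges are rare at the scale b, if the tail bound fails at a smaller scale (growth of the mass).
-/

set_option autoImplicit false

namespace HexObs

namespace T2

open Finset TS SDN

open scoped ENNReal

theorem short_one {τ1 : ℝ} (hτ1 : 0 < τ1)
    (hf : ∀ τ κ g : ℝ, 0 ≤ τ → τ < τ1 → 0 < κ → κ ≤ 1 / 8 → κ ≤ (τ1 - τ) / 16 → 0 < g → ∃ μ L0 : ℕ, ∀ L : ℕ, L0 ≤ L →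
      ∃ b : ℕ, κ * L ≤ b ∧ b + μ ≤ L ∧
        ¬ Tail (2 ^ (b + μ + 1)) ((2 : ℝ) ^ (((b + μ : ℕ) : ℝ) + τ * L)) ((2 : ℝ) ^ (-(g * b))))
    (hamp : ∀ (N0 : ℕ) (lam q : ℝ), 0 < q → ¬ Tail N0 lam q → ∀ N : ℕ,
      ∑ h ∈ Finset.range (N + 1), gf {Z | Z ∈ Brd h ∧ (Z.length : ℝ) < lam} ≤ ENNReal.ofReal (UU N0 / q))
    {τ ε : ℝ} (hτ : 0 ≤ τ) (hττ : τ < τ1) (hε : 0 < ε) (hε1 : ε ≤ 1 / 2) : ∃ (g κ : ℝ) (L0 : ℕ), 0 < g ∧ 0 < κ ∧ κ ≤ 1 / 8 ∧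
    ∀ L : ℕ, L0 ≤ L → ∃ b : ℕ, κ * L ≤ b ∧ (b : ℝ) ≤ (1 + ε) * L ∧ ∀ N : ℕ, 2 ^ b ≤ N →
      Short N ((2 : ℝ) ^ ((b : ℝ) + τ * L - ε * L)) ((2 : ℝ) ^ (-(g * b))) := by
  have _ := hτ1
  obtain ⟨θ, hθ, hdown⟩ := UU_ratio_down
  obtain ⟨g, hg⟩ : ∃ g : ℝ, g = θ * ε / 16 := ⟨_, rfl⟩
  have hg0 : 0 < g := by
    rw [hg]
    positivity
  obtain ⟨κ, hκ⟩ : ∃ κ : ℝ, κ = min (1 / 8) ((τ1 - τ) / 16) := ⟨_, rfl⟩
  have hκ0 : 0 < κ := by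
    rw [hκ]
    exact lt_min (by norm_num) (by linarith)
  have hκ1 : κ ≤ 1 / 8 := by
    rw [hκ]
    exact min_le_left _ _
  have hκ2 : κ ≤ (τ1 - τ) / 16 := by
    rw [hκ]
    exact min_le_right _ _
  obtain ⟨μ, L1, h1⟩ := hf τ κ g hτ hττ hκ0 hκ1 hκ2 hg0
  obtain ⟨A, hA⟩ : ∃ A : ℝ, A = (1 + θ * (μ + 2)) * 16 / (5 * (θ * ε)) := ⟨_, rfl⟩
  have hθε : 0 < θ * ε := mul_pos hθ hε
  obtain ⟨L2, hL2⟩ := exists_nat_ge (A / κ)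
  obtain ⟨L3, hL3⟩ := exists_nat_ge (2 / ε)
  refine ⟨g, κ, max L1 (max L2 L3), hg0, hκ0, hκ1, fun L hL => ?_⟩
  obtain ⟨b0, hb1, hb2, hb3⟩ := h1 L ((le_max_left _ _).trans hL)
  have hLr2 : A / κ ≤ L := hL2.trans (by exact_mod_cast (le_max_left L2 L3).trans ((le_max_right _ _).trans hL))
  have hLr3 : 2 / ε ≤ L := hL3.trans (by exact_mod_cast (le_max_right L2 L3).trans ((le_max_right _ _).trans hL))
  have hb0A : A ≤ b0 := by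
    rw [div_le_iff₀ hκ0] at hLr2
    linarith [mul_comm κ (L : ℝ)]
  have hεL : 1 ≤ ε * L / 2 := by
    rw [div_le_iff₀ hε] at hLr3
    linarith [mul_comm ε (L : ℝ)]
  have hbL : (b0 : ℝ) + μ ≤ L := by exact_mod_cast hb2
  have hμ0 : (0 : ℝ) ≤ μ := Nat.cast_nonneg μ
  have hb00 : (0 : ℝ) ≤ b0 := Nat.cast_nonneg b0
  obtain ⟨d, hd⟩ : ∃ d : ℕ, d = ⌈ε * b0 / 2⌉₊ := ⟨_, rfl⟩
  have hd1 : ε * b0 / 2 ≤ d := by
    rw [hd]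
    exact Nat.le_ceil _
  have hd2 : (d : ℝ) < ε * b0 / 2 + 1 := by
    rw [hd]
    exact Nat.ceil_lt_add_one (by positivity)
  have hεb : ε * b0 ≤ ε * L := mul_le_mul_of_nonneg_left (by linarith) hε.le
  -- the main number
  have hkey : 1 + θ * (μ + 2) ≤ 5 / 16 * (θ * ε) * b0 := by
    rw [hA, div_le_iff₀ (by positivity)] at hb0A
    linarith
  have hεb1 : ε * b0 ≤ b0 / 2 := by nlinarith
  have hgb : g * (b0 + (b0 + d)) ≤ θ * ε * (3 * b0 + 1) / 16 := by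
    rw [hg]
    have h2 : (b0 : ℝ) + (b0 + d) ≤ 3 * b0 + 1 := by linarith
    have h3 := mul_le_mul_of_nonneg_left h2 (by positivity : (0 : ℝ) ≤ θ * ε / 16)
    linarith
  have hμd : (μ : ℝ) + 1 ≤ d := by
    have h2 : θ * (μ + 2) ≤ θ * (ε * b0 / 2) := by nlinarith
    have h3 := le_of_mul_le_mul_left h2 hθ
    linarith
  have hμd' : μ + 1 ≤ d := by exact_mod_cast hμd
  obtain ⟨m, hm⟩ : ∃ m : ℕ, d = μ + 1 + m := ⟨d - (μ + 1), by omega⟩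
  have hmr : (m : ℝ) = d - (μ + 1) := by
    rw [hm]
    push_cast
    ring
  refine ⟨b0 + d, ?_, ?_, fun N hN => ?_⟩
  · push_cast
    have : (0 : ℝ) ≤ d := Nat.cast_nonneg d
    linarith
  · push_cast
    linarith
  · unfold Short
    have h2 : ∑ h ∈ Finset.range (N + 1), gf {Z | Z ∈ Brd h ∧ (Z.length : ℝ) <
        (2 : ℝ) ^ (((b0 + d : ℕ) : ℝ) + τ * L - ε * L)} ≤ ∑ h ∈ Finset.range (N + 1), gf {Z | Z ∈ Brd h ∧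
          (Z.length : ℝ) < (2 : ℝ) ^ (((b0 + μ : ℕ) : ℝ) + τ * L)} := by
      refine Finset.sum_le_sum fun h _ => gf_mono ?_
      rintro Z ⟨hZ, hl⟩
      refine ⟨hZ, lt_of_lt_of_le hl ?_⟩
      apply Real.rpow_le_rpow_of_exponent_le (by norm_num)
      push_cast
      linarith
    have hq : (0 : ℝ) < (2 : ℝ) ^ (-(g * b0)) := Real.rpow_pos_of_pos (by norm_num) _
    refine h2.trans ((hamp _ _ _ hq hb3 N).trans (ENNReal.ofReal_le_ofReal ?_))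
    rw [div_le_iff₀ hq]
    have hU := Num2Aux.UU_pos (2 ^ (b0 + d))
    have h3 : UU (2 ^ (b0 + μ + 1)) ≤ 2 * (2 : ℝ) ^ (-(θ * m)) * UU (2 ^ (b0 + d)) := by
      have h4 := hdown (b0 + μ + 1) m
      have h5 : b0 + μ + 1 + m = b0 + d := by omega
      rw [h5, div_le_iff₀ hU] at h4
      exact h4
    have h6 : UU (2 ^ (b0 + d)) ≤ UU N := Num2Aux.UU_mono hN
    have h7 : 2 * (2 : ℝ) ^ (-(θ * m)) ≤ (2 : ℝ) ^ (-(g * ((b0 + d : ℕ) : ℝ))) * (2 : ℝ) ^ (-(g * b0)) := by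
      have h8 : (2 : ℝ) * (2 : ℝ) ^ (-(θ * m)) = (2 : ℝ) ^ (1 - θ * m) := by
        rw [sub_eq_add_neg, Real.rpow_add (by norm_num), Real.rpow_one]
      rw [h8, ← Real.rpow_add (by norm_num)]
      apply Real.rpow_le_rpow_of_exponent_le (by norm_num)
      push_cast
      rw [hmr]
      have h9 : θ * (ε * b0 / 2) ≤ θ * d := mul_le_mul_of_nonneg_left hd1 hθ.le
      have h10 : θ * ε ≤ θ * 1 := mul_le_mul_of_nonneg_left (by linarith) hθ.le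
      linarith
    have hN0 : 0 ≤ UU N := (Num2Aux.UU_pos N).le
    have hp : (0 : ℝ) ≤ 2 * (2 : ℝ) ^ (-(θ * m)) := by positivity
    calc UU (2 ^ (b0 + μ + 1)) ≤ 2 * (2 : ℝ) ^ (-(θ * m)) * UU (2 ^ (b0 + d)) := h3
      _ ≤ 2 * (2 : ℝ) ^ (-(θ * m)) * UU N := mul_le_mul_of_nonneg_left h6 hp
      _ ≤ (2 : ℝ) ^ (-(g * ((b0 + d : ℕ) : ℝ))) * (2 : ℝ) ^ (-(g * b0)) * UU N := mul_le_mul_of_nonneg_right h7 hN0
      _ = (2 : ℝ) ^ (-(g * ((b0 + d : ℕ) : ℝ))) * UU N * (2 : ℝ) ^ (-(g * b0)) := by ring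

end T2

end HexObs
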