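import Pool.Agent.T2.Window
import Pool.Agent.T2.Amplify
import Pool.Agent.T2.ShortOne
import Pool.Agent.T2.ManyShort
import Pool.Agent.T2.FewFar

/-!
UP, module U7: the short walks that leave a box, at one scale.
-/

set_option autoImplicit false

namespace HexObs

namespace T2

open Finset TS SDN

open scoped ENNReal

theorem pow_up {τ1 : ℝ} (hτ1 : 0 < τ1) (hL : LongWalks τ1) {τ ε : ℝ} (hτ : 0 ≤ τ) (hττ : τ < τ1) (hε : 0 < ε)
    (hε1 : ε ≤ 1 / 2) : ∃ κ : ℝ, 0 < κ ∧ κ ≤ 1 / 8 ∧ ∀ Q : ℝ, 0 < Q → ∃ L0 : ℕ, ∀ L : ℕ, L0 ≤ L →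
      ∃ l : ℕ, κ * L ≤ l ∧ (l : ℝ) ≤ (1 + ε) * L ∧
        gf {t | t ∈ WL (l + 8) ∧ Ext l t ∧ (t.length : ℝ) < (2 : ℝ) ^ ((l : ℝ) + τ * L - ε * L)} ≤
          ENNReal.ofReal ((2 : ℝ) ^ (-(Q * L))) := by
  obtain ⟨g, κ, L1, hg, hκ, hκ1, hL1⟩ := short_one hτ1
    (fun τ κ g hτ hτ1 hκ hκ1 hκ2 hg => fail hτ hτ1 hκ hκ1 hκ2 hg hL) (fun N0 lam q hq h N => amplify hq h N)
    hτ hττ (ε := ε / 4) (by linarith) (by linarith)
  refine ⟨κ, hκ, hκ1, fun Q hQ => ?_⟩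
  obtain ⟨δ0, hδ0, hδ01, hms⟩ := many_short1 hg
  obtain ⟨δ, hδ⟩ : ∃ δ : ℝ, δ = min δ0 (ε / 8) := ⟨_, rfl⟩
  have hδp : 0 < δ := by rw [hδ]; exact lt_min hδ0 (by linarith)
  have hδ1 : δ ≤ δ0 := by rw [hδ]; exact min_le_left _ _
  have hδ2 : δ ≤ ε / 8 := by rw [hδ]; exact min_le_right _ _
  have hδ3 : δ ≤ 1 / 16 := by linarith
  obtain ⟨Q', hQ'⟩ : ∃ Q' : ℝ, Q' = (Q + 2) / κ := ⟨_, rfl⟩
  have hQ'0 : 0 < Q' := by rw [hQ']; positivity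
  obtain ⟨J, L2, hms⟩ := hms Q' hQ'0
  obtain ⟨L3, hff⟩ := few_far hδp (by linarith) hQ'0 J
  obtain ⟨L4, hL4⟩ := exists_nat_gt (((max L2 L3 : ℕ) : ℝ) / κ)
  refine ⟨max (max L1 L4) 1, fun L hLL => ?_⟩
  have hLpos : 1 ≤ L := by omega
  have hLR : (1 : ℝ) ≤ L := by exact_mod_cast hLpos
  obtain ⟨b, hb1, hb2, hS⟩ := hL1 L (by omega)
  have h1δ : 0 < 1 - δ := by linarith
  obtain ⟨l, hl⟩ : ∃ l : ℕ, l = ⌊(b : ℝ) / (1 - δ)⌋₊ := ⟨_, rfl⟩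
  have hb0 : (0 : ℝ) ≤ b := Nat.cast_nonneg _
  have hl1 : (l : ℝ) ≤ b / (1 - δ) := by rw [hl]; exact Nat.floor_le (by positivity)
  have hl1' : (1 - δ) * l ≤ b := by
    rw [le_div_iff₀ h1δ] at hl1
    linarith
  have hl2 : (b : ℝ) / (1 - δ) < l + 1 := by rw [hl]; exact Nat.lt_floor_add_one _
  have hl2' : (b : ℝ) < (1 - δ) * (l + 1) := by
    rw [div_lt_iff₀ h1δ] at hl2
    linarith
  have hbl : b ≤ l := by
    rw [hl]
    apply Nat.le_floor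
    rw [le_div_iff₀ h1δ]
    nlinarith
  have hblR : (b : ℝ) ≤ l := by exact_mod_cast hbl
  have hl0 : (0 : ℝ) ≤ l := Nat.cast_nonneg _
  have hlε : (l : ℝ) ≤ (1 + ε) * L := by
    have h1 : (1 - ε / 8) * l ≤ (1 + ε / 4) * L := by
      have h2 : (1 - ε / 8) * l ≤ (1 - δ) * l := mul_le_mul_of_nonneg_right (by linarith) hl0
      linarith
    have h3 : (1 + ε / 4) * L ≤ (1 - ε / 8) * ((1 + ε) * L) := by
      have h4 : (1 + ε / 4) ≤ (1 - ε / 8) * (1 + ε) := by nlinarith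
      nlinarith
    have h5 : 0 < 1 - ε / 8 := by linarith
    exact le_of_mul_le_mul_left (h1.trans h3) h5
  have hlmax : max L2 L3 ≤ l := by
    have h1 : ((max L2 L3 : ℕ) : ℝ) / κ < L := lt_of_lt_of_le hL4 (by exact_mod_cast (by omega : L4 ≤ L))
    rw [div_lt_iff₀ hκ] at h1
    have h2 : ((max L2 L3 : ℕ) : ℝ) < l := by linarith
    have h3 : max L2 L3 < l := by exact_mod_cast h2
    exact h3.le
  obtain ⟨lam, hlam⟩ : ∃ lam : ℝ, lam = (2 : ℝ) ^ ((b : ℝ) + τ * L - ε / 4 * L) := ⟨_, rfl⟩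
  have hlame : (2 : ℝ) ^ ((l : ℝ) + τ * L - ε * L) ≤ lam := by
    rw [hlam]
    apply Real.rpow_le_rpow_of_exponent_le (by norm_num)
    have h1 : (l : ℝ) - b ≤ δ * l := by linarith
    have h2 : δ * l ≤ ε / 8 * ((1 + ε) * L) := mul_le_mul hδ2 hlε hl0 (by linarith)
    have h3 : ε / 8 * ((1 + ε) * L) ≤ ε / 8 * (2 * L) := by
      apply mul_le_mul_of_nonneg_left _ (by linarith)
      nlinarith
    nlinarith
  have hQ2 : (2 : ℝ) ^ (-(Q' * l)) ≤ (2 : ℝ) ^ (-((Q + 2) * L)) := by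
    apply Real.rpow_le_rpow_of_exponent_le (by norm_num)
    have h1 : (Q + 2) * L ≤ Q' * l := by
      rw [hQ']
      have h2 : (Q + 2) / κ * (κ * L) ≤ (Q + 2) / κ * l := mul_le_mul_of_nonneg_left (by linarith) (by positivity)
      have h3 : (Q + 2) / κ * (κ * L) = (Q + 2) * L := by field_simp
      linarith
    linarith
  refine ⟨l, by linarith, hlε, ?_⟩
  have hsub : {t | t ∈ WL (l + 8) ∧ Ext l t ∧ (t.length : ℝ) < (2 : ℝ) ^ ((l : ℝ) + τ * L - ε * L)} ⊆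
      ({t | t ∈ WL (l + 8) ∧ (t.length : ℝ) < lam ∧ ∃ m u e, Lf false b t m u e ∧ J ≤ m} ∪
        {t | t ∈ WL (l + 8) ∧ (t.length : ℝ) < lam ∧ ∃ m u e, Lf true b t m u e ∧ J ≤ m}) ∪
        {t | t ∈ WL (l + 8) ∧ Ext l t ∧ ∀ dir m u e, Lf dir b t m u e → m < J} := by
    rintro t ⟨h1, h2, h3⟩
    have h4 : (t.length : ℝ) < lam := lt_of_lt_of_le h3 hlame
    by_cases h5 : ∀ dir m u e, Lf dir b t m u e → m < J
    · exact Or.inr ⟨h1, h2, h5⟩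
    · push Not at h5
      obtain ⟨dir, m, u, e, h6, h7⟩ := h5
      cases dir with
      | false => exact Or.inl (Or.inl ⟨h1, h4, m, u, e, h6, h7⟩)
      | true => exact Or.inl (Or.inr ⟨h1, h4, m, u, e, h6, h7⟩)
  have hA : ∀ dir, gf {t | t ∈ WL (l + 8) ∧ (t.length : ℝ) < lam ∧ ∃ m u e, Lf dir b t m u e ∧ J ≤ m} ≤
      ENNReal.ofReal ((2 : ℝ) ^ (-((Q + 2) * L))) := by
    intro dir
    refine (hms l b dir lam (by omega) ?_ hbl ?_).trans (ENNReal.ofReal_le_ofReal hQ2)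
    · have : (1 - δ0) * l ≤ (1 - δ) * l := mul_le_mul_of_nonneg_right (by linarith) hl0
      linarith
    · rw [hlam]
      exact hS _ (Nat.pow_le_pow_right (by norm_num) (by omega))
  have hB : gf {t | t ∈ WL (l + 8) ∧ Ext l t ∧ ∀ dir m u e, Lf dir b t m u e → m < J} ≤
      ENNReal.ofReal ((2 : ℝ) ^ (-((Q + 2) * L))) := by
    refine (hff l b (by omega) ?_ (by linarith)).trans (ENNReal.ofReal_le_ofReal hQ2)
    have h1 : (l : ℝ) ≤ 4 * b := by nlinarith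
    exact_mod_cast h1
  refine (gf_mono hsub).trans ((gf_union_le _ _).trans ((add_le_add ((gf_union_le _ _).trans
    (add_le_add (hA false) (hA true))) hB).trans ?_))
  rw [← ENNReal.ofReal_add (by positivity) (by positivity), ← ENNReal.ofReal_add (by positivity) (by positivity)]
  apply ENNReal.ofReal_le_ofReal
  have h1 : (2 : ℝ) ^ (-((Q + 2) * L)) = (2 : ℝ) ^ (-(2 * (L : ℝ))) * (2 : ℝ) ^ (-(Q * L)) := by
    rw [← Real.rpow_add (by norm_num)]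
    congr 1
    ring
  have h2 : (2 : ℝ) ^ (-(2 * (L : ℝ))) ≤ 1 / 4 := by
    calc (2 : ℝ) ^ (-(2 * (L : ℝ))) ≤ (2 : ℝ) ^ (-(2 : ℝ)) :=
          Real.rpow_le_rpow_of_exponent_le (by norm_num) (by linarith)
      _ = 1 / 4 := by norm_num
  have h3 : 0 < (2 : ℝ) ^ (-(Q * L)) := by positivity
  rw [h1]
  nlinarith

end T2

end HexObs
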