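import Pool.Agent.T2.ResUp

/-!
UP: the mean of the square of the maximal displacement, from the large deviation bound.
-/

set_option autoImplicit false
open scoped Classical

namespace HexObs

namespace T2

private lemma pow_exp_bd (c : ℝ) (hc : 0 < c) : ∃ C : ℝ, 0 < C ∧ ∀ n : ℕ, 1 ≤ n →
    (n : ℝ) ^ 2 * Real.exp (-(n : ℝ) ^ c) ≤ C := by
  have h1 : Filter.Tendsto (fun x : ℝ => x ^ (2 / c) * Real.exp (-x)) Filter.atTop (nhds 0) := by
    have := tendsto_rpow_mul_exp_neg_mul_atTop_nhds_zero (2 / c) 1 one_pos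
    simpa using this
  have h2 : Filter.Tendsto (fun n : ℕ => ((n : ℝ) ^ c)) Filter.atTop Filter.atTop :=
    (tendsto_rpow_atTop hc).comp tendsto_natCast_atTop_atTop
  have h3 := h1.comp h2
  obtain ⟨C, hC⟩ := h3.bddAbove_range
  refine ⟨max C 1, lt_of_lt_of_le one_pos (le_max_right _ _), fun n hn => ?_⟩
  have h4 : ((n : ℝ) ^ c) ^ (2 / c) * Real.exp (-(n : ℝ) ^ c) ≤ C := hC ⟨n, rfl⟩
  have h5 : ((n : ℝ) ^ c) ^ (2 / c) = (n : ℝ) ^ 2 := by
    rw [← Real.rpow_mul (Nat.cast_nonneg n), mul_div_cancel₀ _ hc.ne', Real.rpow_two]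
  rw [h5] at h4
  exact h4.trans (le_max_left _ _)

/-- version with the maximal displacement -/
theorem result_max {p : ℝ} (hp : 0 < p)
    (h : ∃ c : ℝ, 0 < c ∧ ∀ f : ℕ → Fin 3 → ℂ,
      (∀ i a, f i a = (-1 : ℂ) ^ i * Complex.exp (2 * (Real.pi : ℂ) * Complex.I * ((a : ℕ) : ℂ) / 3)) →
      ∀ n : ℕ, 1 ≤ n → ∀ W : Finset (Fin n → Fin 3),
        W = Finset.univ.filter (fun s : Fin n → Fin 3 => ∀ j₁ j₂ : Fin (n + 1),
          (∑ i ∈ Finset.univ.filter (fun i : Fin n => (i : ℕ) < (j₁ : ℕ)), f (i : ℕ) (s i)) =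
          (∑ i ∈ Finset.univ.filter (fun i : Fin n => (i : ℕ) < (j₂ : ℕ)), f (i : ℕ) (s i)) →
          j₁ = j₂) →
        ((W.filter (fun s => ∃ j : Fin (n + 1), c⁻¹ * (n : ℝ) ^ (p / 2) <
          ‖∑ i ∈ Finset.univ.filter (fun i : Fin n => (i : ℕ) < (j : ℕ)), f (i : ℕ) (s i)‖)).card : ℝ) ≤
            c⁻¹ * Real.exp (-(n : ℝ) ^ c) * (W.card : ℝ)) :
    ∃ c : ℝ, 0 < c ∧ ∀ f : ℕ → Fin 3 → ℂ,
      (∀ i a, f i a = (-1 : ℂ) ^ i * Complex.exp (2 * (Real.pi : ℂ) * Complex.I * ((a : ℕ) : ℂ) / 3)) →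
      ∀ n : ℕ, 1 ≤ n → ∀ W : Finset (Fin n → Fin 3),
        W = Finset.univ.filter (fun s : Fin n → Fin 3 => ∀ j₁ j₂ : Fin (n + 1),
          (∑ i ∈ Finset.univ.filter (fun i : Fin n => (i : ℕ) < (j₁ : ℕ)), f (i : ℕ) (s i)) =
          (∑ i ∈ Finset.univ.filter (fun i : Fin n => (i : ℕ) < (j₂ : ℕ)), f (i : ℕ) (s i)) →
          j₁ = j₂) →
        (∑ s ∈ W, Finset.univ.sup' Finset.univ_nonempty (fun j : Fin (n + 1) =>
          ‖∑ i ∈ Finset.univ.filter (fun i : Fin n => (i : ℕ) < (j : ℕ)), f (i : ℕ) (s i)‖ ^ 2)) / (W.card : ℝ) ≤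
            c⁻¹ * (n : ℝ) ^ p ∧
        ((W.filter (fun s => ∃ j : Fin (n + 1), c⁻¹ * (n : ℝ) ^ (p / 2) <
          ‖∑ i ∈ Finset.univ.filter (fun i : Fin n => (i : ℕ) < (j : ℕ)), f (i : ℕ) (s i)‖)).card : ℝ) ≤
            c⁻¹ * Real.exp (-(n : ℝ) ^ c) * (W.card : ℝ) := by
  obtain ⟨c, hc, h⟩ := h
  obtain ⟨C, hC, hCb⟩ := pow_exp_bd c hc
  obtain ⟨K, hK⟩ : ∃ K : ℝ, K = c⁻¹ ^ 2 + c⁻¹ * C := ⟨_, rfl⟩
  have hK0 : 0 < K := by rw [hK]; positivity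
  obtain ⟨c', hc'⟩ : ∃ c' : ℝ, c' = min c K⁻¹ := ⟨_, rfl⟩
  have hc'0 : 0 < c' := by rw [hc']; exact lt_min hc (by positivity)
  have hc'c : c' ≤ c := by rw [hc']; exact min_le_left _ _
  have hc'K : K ≤ c'⁻¹ := by
    rw [le_inv_comm₀ hK0 hc'0, hc']
    exact min_le_right _ _
  have hinv : c⁻¹ ≤ c'⁻¹ := inv_anti₀ hc'0 hc'c
  refine ⟨c', hc'0, fun f hf n hn W hW => ?_⟩
  have h0 := h f hf n hn W hW
  have hnR : (1 : ℝ) ≤ n := by exact_mod_cast hn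
  have hn0 : (0 : ℝ) < n := by linarith
  have hW0 : (0 : ℝ) ≤ W.card := Nat.cast_nonneg _
  have hf1 : ∀ i a, ‖f i a‖ = 1 := by
    intro i a
    rw [hf]
    have h2 : (2 * (Real.pi : ℂ) * Complex.I * ((a : ℕ) : ℂ) / 3) = ((2 * Real.pi * (a : ℕ) / 3 : ℝ) : ℂ) * Complex.I := by
      push_cast
      ring
    rw [norm_mul, h2, Complex.norm_exp_ofReal_mul_I, norm_pow, norm_neg, norm_one, one_pow, one_mul]
  have hlen : ∀ (s : Fin n → Fin 3) (j : Fin (n + 1)),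
      ‖∑ i ∈ Finset.univ.filter (fun i : Fin n => (i : ℕ) < (j : ℕ)), f (i : ℕ) (s i)‖ ≤ n := by
    intro s j
    refine (norm_sum_le _ _).trans ?_
    calc ∑ i ∈ Finset.univ.filter (fun i : Fin n => (i : ℕ) < (j : ℕ)), ‖f (i : ℕ) (s i)‖
        ≤ ∑ _i ∈ (Finset.univ : Finset (Fin n)), (1 : ℝ) := by
          rw [Finset.sum_congr rfl (fun (i : Fin n) _ => hf1 (i : ℕ) (s i))]
          exact Finset.sum_le_sum_of_subset_of_nonneg (Finset.filter_subset _ _) (fun _ _ _ => by norm_num)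
      _ = n := by simp
  obtain ⟨A, hA⟩ : ∃ A : Finset (Fin n → Fin 3), A = W.filter (fun s => ∃ j : Fin (n + 1),
      c⁻¹ * (n : ℝ) ^ (p / 2) <
        ‖∑ i ∈ Finset.univ.filter (fun i : Fin n => (i : ℕ) < (j : ℕ)), f (i : ℕ) (s i)‖) := ⟨_, rfl⟩
  have hp2 : ((n : ℝ) ^ (p / 2)) ^ 2 = (n : ℝ) ^ p := by
    rw [← Real.rpow_natCast, ← Real.rpow_mul hn0.le]
    norm_num
  have hnp : (1 : ℝ) ≤ (n : ℝ) ^ p := Real.one_le_rpow hnR hp.le
  have hterm : ∀ s ∈ W, Finset.univ.sup' Finset.univ_nonempty (fun j : Fin (n + 1) =>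
      ‖∑ i ∈ Finset.univ.filter (fun i : Fin n => (i : ℕ) < (j : ℕ)), f (i : ℕ) (s i)‖ ^ 2) ≤
      c⁻¹ ^ 2 * (n : ℝ) ^ p + if s ∈ A then (n : ℝ) ^ 2 else 0 := by
    intro s hs
    apply Finset.sup'_le
    intro j _
    by_cases hsA : s ∈ A
    · rw [if_pos hsA]
      have h1 := pow_le_pow_left₀ (norm_nonneg _) (hlen s j) 2
      have h2 : 0 ≤ c⁻¹ ^ 2 * (n : ℝ) ^ p := by positivity
      linarith
    · rw [if_neg hsA, add_zero]
      have h1 : ‖∑ i ∈ Finset.univ.filter (fun i : Fin n => (i : ℕ) < (j : ℕ)), f (i : ℕ) (s i)‖ ≤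
          c⁻¹ * (n : ℝ) ^ (p / 2) := by
        by_contra hcon
        push Not at hcon
        exact hsA (by rw [hA, Finset.mem_filter]; exact ⟨hs, j, hcon⟩)
      have h2 := pow_le_pow_left₀ (norm_nonneg _) h1 2
      rw [mul_pow, hp2] at h2
      exact h2
  have hsum : (∑ s ∈ W, Finset.univ.sup' Finset.univ_nonempty (fun j : Fin (n + 1) =>
      ‖∑ i ∈ Finset.univ.filter (fun i : Fin n => (i : ℕ) < (j : ℕ)), f (i : ℕ) (s i)‖ ^ 2)) ≤
      c'⁻¹ * (n : ℝ) ^ p * W.card := by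
    refine (Finset.sum_le_sum hterm).trans ?_
    rw [Finset.sum_add_distrib, Finset.sum_const, nsmul_eq_mul, ← Finset.sum_filter]
    have h1 : W.filter (fun s => s ∈ A) = A := by
      rw [Finset.filter_mem_eq_inter]
      exact Finset.inter_eq_right.2 (by rw [hA]; exact Finset.filter_subset _ _)
    rw [h1, Finset.sum_const, nsmul_eq_mul]
    have h2 : (A.card : ℝ) * (n : ℝ) ^ 2 ≤ c⁻¹ * C * W.card := by
      rw [← hA] at h0
      calc (A.card : ℝ) * (n : ℝ) ^ 2 ≤ (c⁻¹ * Real.exp (-(n : ℝ) ^ c) * (W.card : ℝ)) * (n : ℝ) ^ 2 :=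
            mul_le_mul_of_nonneg_right h0 (by positivity)
        _ = c⁻¹ * ((n : ℝ) ^ 2 * Real.exp (-(n : ℝ) ^ c)) * W.card := by ring
        _ ≤ c⁻¹ * C * W.card := by
            apply mul_le_mul_of_nonneg_right _ hW0
            exact mul_le_mul_of_nonneg_left (hCb n hn) (by positivity)
    have h3 : c⁻¹ * C * W.card ≤ c⁻¹ * C * (n : ℝ) ^ p * W.card := by
      apply mul_le_mul_of_nonneg_right _ hW0
      exact le_mul_of_one_le_right (by positivity) hnp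
    calc (W.card : ℝ) * (c⁻¹ ^ 2 * (n : ℝ) ^ p) + (A.card : ℝ) * (n : ℝ) ^ 2
        ≤ (W.card : ℝ) * (c⁻¹ ^ 2 * (n : ℝ) ^ p) + c⁻¹ * C * (n : ℝ) ^ p * W.card := by linarith
      _ = K * (n : ℝ) ^ p * W.card := by rw [hK]; ring
      _ ≤ c'⁻¹ * (n : ℝ) ^ p * W.card := by
          apply mul_le_mul_of_nonneg_right _ hW0
          exact mul_le_mul_of_nonneg_right hc'K (by positivity)
  refine ⟨?_, ?_⟩
  · rcases hW0.eq_or_lt with h1 | h1
    · rw [← h1, div_zero]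
      positivity
    · rw [div_le_iff₀ h1]
      exact hsum
  · refine le_trans ?_ (h0.trans ?_)
    · refine Nat.cast_le.2 (Finset.card_le_card fun s hs => ?_)
      rw [Finset.mem_filter] at hs ⊢
      obtain ⟨h3, j, h4⟩ := hs
      exact ⟨h3, j, lt_of_le_of_lt (mul_le_mul_of_nonneg_right hinv (by positivity)) h4⟩
    · refine mul_le_mul_of_nonneg_right (mul_le_mul hinv ?_ (Real.exp_pos _).le (by positivity)) hW0
      apply Real.exp_le_exp.2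
      apply neg_le_neg
      exact Real.rpow_le_rpow_of_exponent_le hnR hc'c

end T2

end HexObs
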