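import Pool.Agent.T2.Defs

/-!
T2, module D: the numbers of the recursion over the scales (general form gen, also used for the upper size bound).
-/

set_option autoImplicit false

namespace HexObs

namespace T2

open Filter Topology

namespace RN

/-- linear functions against exponentials -/
lemma lin_small (A B : ℝ) {c ε : ℝ} (hc : 0 < c) (hε : 0 < ε) :
    ∃ L0 : ℕ, ∀ L : ℕ, L0 ≤ L → (A * L + B) * (2 : ℝ) ^ (-(c * L)) ≤ ε := by
  obtain ⟨r, hr⟩ : ∃ r : ℝ, r = (2 : ℝ) ^ (-c) := ⟨_, rfl⟩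
  have hr0 : 0 ≤ r := by
    rw [hr]
    positivity
  have hr1 : r < 1 := by
    rw [hr]
    exact Real.rpow_lt_one_of_one_lt_of_neg (by norm_num) (by linarith)
  have h1 : Tendsto (fun n : ℕ => A * ((n : ℝ) * r ^ n) + B * r ^ n) atTop (𝓝 (A * 0 + B * 0)) :=
    ((tendsto_self_mul_const_pow_of_lt_one hr0 hr1).const_mul A).add
      ((tendsto_pow_atTop_nhds_zero_of_lt_one hr0 hr1).const_mul B)
  rw [mul_zero, mul_zero, add_zero] at h1
  obtain ⟨L0, hL0⟩ := eventually_atTop.1 (h1.eventually (gt_mem_nhds hε))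
  refine ⟨L0, fun L hL => ?_⟩
  have h2 := hL0 L hL
  have h3 : (2 : ℝ) ^ (-(c * L)) = r ^ L := by
    rw [hr, ← Real.rpow_natCast, ← Real.rpow_mul (by norm_num)]
    congr 1
    ring
  rw [h3]
  have h4 : (A * (L : ℝ) + B) * r ^ L = A * ((L : ℝ) * r ^ L) + B * r ^ L := by ring
  rw [h4]
  exact h2.le

/-- the choice of μ -/
lemma choose_mu (J1 : ℕ) (K : ℝ) {s ε : ℝ} (hs : 0 < s) (hε : 0 < ε) :
    ∃ μ : ℕ, 6 ≤ μ ∧ ((J1 * (μ + 1) : ℕ) + 4 : ℝ) ^ 2 * K * (2 : ℝ) ^ (-(s * μ)) ≤ ε := by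
  obtain ⟨r, hr⟩ : ∃ r : ℝ, r = (2 : ℝ) ^ (-s) := ⟨_, rfl⟩
  have hr0 : 0 < r := by
    rw [hr]
    positivity
  have hr1 : r < 1 := by
    rw [hr]
    exact Real.rpow_lt_one_of_one_lt_of_neg (by norm_num) (by linarith)
  have h1 : Tendsto (fun n : ℕ => (((J1 : ℝ) + 4) ^ 2 * |K| / r) * (((n + 1 : ℕ) : ℝ) ^ 2 * r ^ (n + 1))) atTop
      (𝓝 ((((J1 : ℝ) + 4) ^ 2 * |K| / r) * 0)) :=
    (((tendsto_pow_const_mul_const_pow_of_lt_one 2 hr0.le hr1).comp (tendsto_add_atTop_nat 1))).const_mul _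
  rw [mul_zero] at h1
  obtain ⟨m0, hm0⟩ := eventually_atTop.1 (h1.eventually (gt_mem_nhds hε))
  refine ⟨max 6 m0, le_max_left _ _, ?_⟩
  obtain ⟨μ, hμ⟩ : ∃ μ, μ = max 6 m0 := ⟨_, rfl⟩
  rw [← hμ]
  have h2 := hm0 μ (by omega)
  have h3 : (2 : ℝ) ^ (-(s * μ)) = r ^ μ := by
    rw [hr, ← Real.rpow_natCast, ← Real.rpow_mul (by norm_num)]
    congr 1
    ring
  have h4 : (((J1 * (μ + 1) : ℕ) : ℝ) + 4) ≤ ((J1 : ℝ) + 4) * ((μ + 1 : ℕ) : ℝ) := by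
    push_cast
    have : (0 : ℝ) ≤ μ := Nat.cast_nonneg _
    nlinarith
  have h5 : (((J1 * (μ + 1) : ℕ) : ℝ) + 4) ^ 2 ≤ (((J1 : ℝ) + 4) * ((μ + 1 : ℕ) : ℝ)) ^ 2 :=
    pow_le_pow_left₀ (by positivity) h4 2
  rw [h3]
  calc (((J1 * (μ + 1) : ℕ) : ℝ) + 4) ^ 2 * K * r ^ μ ≤ (((J1 * (μ + 1) : ℕ) : ℝ) + 4) ^ 2 * |K| * r ^ μ := by
        gcongr
        exact le_abs_self K
    _ ≤ (((J1 : ℝ) + 4) * ((μ + 1 : ℕ) : ℝ)) ^ 2 * |K| * r ^ μ := by gcongr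
    _ = (((J1 : ℝ) + 4) ^ 2 * |K| / r) * (((μ + 1 : ℕ) : ℝ) ^ 2 * r ^ (μ + 1)) := by
        rw [pow_succ r μ]
        field_simp
    _ ≤ ε := h2.le

lemma ff_le (η : ℝ) (b : ℕ) : ff η b ≤ b := Nat.sub_le _ _

lemma ff_real {η : ℝ} (hη : 0 < η) (hη1 : η ≤ 1 / 8) (b : ℕ) : ((ff η b : ℕ) : ℝ) ≤ b - η * b + 1 := by
  unfold ff
  have h0 : (0 : ℝ) ≤ b := Nat.cast_nonneg _
  have h1 : (⌊η * b⌋₊ : ℝ) ≤ η * b := Nat.floor_le (by positivity)
  have h2 : η * b < ⌊η * b⌋₊ + 1 := Nat.lt_floor_add_one _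
  have h3 : ⌊η * b⌋₊ ≤ b := by
    have h4 : (⌊η * b⌋₊ : ℝ) ≤ b := by nlinarith
    exact_mod_cast h4
  rw [Nat.cast_sub h3]
  linarith

/-- the recursion, general form -/
theorem gen {α κ η C1 : ℝ} {J1 : ℕ} (hα : 1 < α) (hα2 : α ≤ 2) (hκ : 0 < κ) (hη : 0 < η) (hη1 : η ≤ 1 / 8)
    (hC1 : 0 < C1) : ∃ μ L0 : ℕ, 6 ≤ μ ∧ ∀ (L : ℕ) (τ : ℝ) (S : ℕ → ℝ), L0 ≤ L → 0 ≤ τ →
      (∀ l, S l ≤ 100 * 4 ^ l) →
      (∀ b : ℕ, κ * L ≤ b → b + μ ≤ L → S (b + μ) ≤ 2 * (C1 * L + 2) * (2 * S (ff η b + 2) +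
        (2 : ℝ) ^ (α * (b + μ : ℕ) + τ * L) + 4) +
        ((J1 * (μ + 1) : ℕ) + 4) ^ 2 * (2 ^ (μ + 5) * (S (b + 4) + 1))) →
      ∀ l : ℕ, l ≤ L → S l ≤ (2 : ℝ) ^ (α * l + τ * L + 3 * κ * L) := by
  obtain ⟨μ, hμ6, hμ⟩ := choose_mu J1 ((2 : ℝ) ^ (6 + 4 * α)) (show 0 < α - 1 by linarith)
    (show (0 : ℝ) < 1 / 2 by norm_num)
  obtain ⟨L1, hL1⟩ := lin_small (4 * C1) 8 (show 0 < η * κ by positivity) (show (0 : ℝ) < 1 / 8 by norm_num)
  obtain ⟨L2, hL2⟩ := lin_small C1 2 (show 0 < 2 * κ by positivity) (show (0 : ℝ) < 1 by norm_num)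
  obtain ⟨L3, hL3⟩ := lin_small 0 100 hκ (show (0 : ℝ) < 1 by norm_num)
  refine ⟨μ, L1 + L2 + L3 + ⌈μ / κ⌉₊, hμ6, fun L τ S hL hτ hS4 hrec => ?_⟩
  have hLμ : (μ : ℝ) ≤ κ * L := by
    have h1 : (⌈(μ : ℝ) / κ⌉₊ : ℝ) ≤ L := by exact_mod_cast (by omega : ⌈(μ : ℝ) / κ⌉₊ ≤ L)
    have h2 := (Nat.le_ceil ((μ : ℝ) / κ)).trans h1
    rw [div_le_iff₀ hκ] at h2
    linarith
  have hL0 : (0 : ℝ) ≤ L := Nat.cast_nonneg _
  have hτL : 0 ≤ τ * L := by positivity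
  -- the bound
  obtain ⟨H, hH⟩ : ∃ H : ℕ → ℝ, H = fun l : ℕ => 100 * (2 : ℝ) ^ (α * (l : ℝ) + τ * L + 2 * κ * L) := ⟨_, rfl⟩
  have hHl : ∀ l, H l = 100 * (2 : ℝ) ^ (α * l + τ * L + 2 * κ * L) := fun l => by rw [hH]
  have hHp : ∀ l, 0 < H l := fun l => by
    rw [hHl]
    positivity
  have key : ∀ l : ℕ, l ≤ L → S l ≤ H l := by
    intro l
    induction l using Nat.strong_induction_on with
    | _ l ih =>
    intro hlL
    have hl0 : (0 : ℝ) ≤ l := Nat.cast_nonneg _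
    by_cases hcase : (l : ℝ) < κ * L + μ
    · refine (hS4 l).trans ?_
      rw [hHl]
      have h1 : (4 : ℝ) ^ l = (2 : ℝ) ^ (2 * (l : ℝ)) := by
        rw [Real.rpow_mul (by norm_num), Real.rpow_two, Real.rpow_natCast]
        norm_num
      rw [h1]
      have h2 : (2 : ℝ) ^ (2 * (l : ℝ)) ≤ (2 : ℝ) ^ (α * l + τ * L + 2 * κ * L) := by
        apply Real.rpow_le_rpow_of_exponent_le (by norm_num)
        have h3 : (2 - α) * l ≤ 1 * l := mul_le_mul_of_nonneg_right (by linarith) hl0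
        nlinarith
      linarith
    · push Not at hcase
      have hμl : μ ≤ l := by
        have h1 : (μ : ℝ) ≤ l := by
          have : 0 ≤ κ * L := by positivity
          linarith
        exact_mod_cast h1
      obtain ⟨b, rfl⟩ : ∃ b, l = b + μ := ⟨l - μ, by omega⟩
      have hκb : κ * L ≤ b := by
        push_cast at hcase
        linarith
      have hb0 : (0 : ℝ) ≤ b := Nat.cast_nonneg _
      have hr := hrec b hκb hlL
      have hff := ff_le η b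
      have h1 : S (ff η b + 2) ≤ H (ff η b + 2) := ih _ (by omega) (by omega)
      have h2 : S (b + 4) ≤ H (b + 4) := ih _ (by omega) (by omega)
      -- the values of H
      have h3 : H (ff η b + 2) ≤ (2 : ℝ) ^ (-(η * κ * L)) * H (b + μ) := by
        rw [hHl, hHl]
        have h4 : (2 : ℝ) ^ (α * ((ff η b + 2 : ℕ) : ℝ) + τ * L + 2 * κ * L) ≤
            (2 : ℝ) ^ (-(η * κ * L) + (α * ((b + μ : ℕ) : ℝ) + τ * L + 2 * κ * L)) := by
          apply Real.rpow_le_rpow_of_exponent_le (by norm_num)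
          have h5 := ff_real hη hη1 b
          have h6 : (6 : ℝ) ≤ μ := by exact_mod_cast hμ6
          have h7 : α * ((ff η b + 2 : ℕ) : ℝ) ≤ α * (b - η * b + 3) := by
            apply mul_le_mul_of_nonneg_left _ (by linarith)
            push_cast
            linarith
          have h8 : η * (κ * L) ≤ α * (η * b) := by
            have h9 : η * (κ * L) ≤ η * b := mul_le_mul_of_nonneg_left hκb hη.le
            have h10 : 1 * (η * b) ≤ α * (η * b) := mul_le_mul_of_nonneg_right hα.le (by positivity)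
            linarith
          have h11 : α * 3 ≤ α * μ := mul_le_mul_of_nonneg_left (by linarith) (by linarith)
          push_cast at h7 ⊢
          nlinarith
        rw [Real.rpow_add (by norm_num) (-(η * κ * L))] at h4
        linarith
      have h4 : H (b + 4) = (2 : ℝ) ^ (α * 4 - α * μ) * H (b + μ) := by
        rw [hHl, hHl, mul_left_comm, ← Real.rpow_add (by norm_num)]
        congr 2
        push_cast
        ring
      have h5 : (2 : ℝ) ^ (α * ((b + μ : ℕ) : ℝ) + τ * L) = (2 : ℝ) ^ (-(2 * κ * L)) * H (b + μ) / 100 := by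
        rw [hHl]
        have : (2 : ℝ) ^ (-(2 * κ * L)) * (100 * (2 : ℝ) ^ (α * ((b + μ : ℕ) : ℝ) + τ * L + 2 * κ * L)) / 100 =
            (2 : ℝ) ^ (-(2 * κ * L)) * (2 : ℝ) ^ (α * ((b + μ : ℕ) : ℝ) + τ * L + 2 * κ * L) := by ring
        rw [this, ← Real.rpow_add (by norm_num)]
        congr 1
        ring
      have hHp' := hHp (b + μ)
      have hC0 : 0 ≤ C1 * L + 2 := by positivity
      -- the three terms
      have t1 : 2 * (C1 * L + 2) * (2 * S (ff η b + 2)) ≤ 1 / 8 * H (b + μ) := by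
        have h6 := hL1 L (by omega)
        calc 2 * (C1 * L + 2) * (2 * S (ff η b + 2)) ≤
              2 * (C1 * L + 2) * (2 * ((2 : ℝ) ^ (-(η * κ * L)) * H (b + μ))) := by
                apply mul_le_mul_of_nonneg_left _ (by positivity)
                linarith
          _ = (4 * C1 * L + 8) * (2 : ℝ) ^ (-(η * κ * L)) * H (b + μ) := by ring
          _ ≤ 1 / 8 * H (b + μ) := mul_le_mul_of_nonneg_right h6 hHp'.le
      have t2 : 2 * (C1 * L + 2) * ((2 : ℝ) ^ (α * ((b + μ : ℕ) : ℝ) + τ * L) + 4) ≤ 1 / 8 * H (b + μ) := by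
        have h6 := hL2 L (by omega)
        have h7 : (1 : ℝ) ≤ (2 : ℝ) ^ (α * ((b + μ : ℕ) : ℝ) + τ * L) := by
          apply Real.one_le_rpow (by norm_num)
          have : 0 ≤ α * ((b + μ : ℕ) : ℝ) := by positivity
          linarith
        calc 2 * (C1 * L + 2) * ((2 : ℝ) ^ (α * ((b + μ : ℕ) : ℝ) + τ * L) + 4) ≤
              2 * (C1 * L + 2) * (5 * (2 : ℝ) ^ (α * ((b + μ : ℕ) : ℝ) + τ * L)) := by
                apply mul_le_mul_of_nonneg_left _ (by positivity)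
                linarith
          _ = 1 / 10 * ((C1 * L + 2) * (2 : ℝ) ^ (-(2 * κ * L)) * H (b + μ)) := by
                rw [h5]
                ring
          _ ≤ 1 / 10 * (1 * H (b + μ)) := by gcongr
          _ ≤ 1 / 8 * H (b + μ) := by linarith
      have t3 : ((J1 * (μ + 1) : ℕ) + 4 : ℝ) ^ 2 * (2 ^ (μ + 5) * (S (b + 4) + 1)) ≤ 1 / 2 * H (b + μ) := by
        have h6 : (1 : ℝ) ≤ H (b + 4) := by
          rw [hHl]
          have : (1 : ℝ) ≤ (2 : ℝ) ^ (α * ((b + 4 : ℕ) : ℝ) + τ * L + 2 * κ * L) := by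
            apply Real.one_le_rpow (by norm_num)
            positivity
          linarith
        have h7 : (2 : ℝ) ^ (μ + 6) * (2 : ℝ) ^ (α * 4 - α * μ) =
            (2 : ℝ) ^ (6 + 4 * α) * (2 : ℝ) ^ (-((α - 1) * μ)) := by
          rw [← Real.rpow_natCast, ← Real.rpow_add (by norm_num), ← Real.rpow_add (by norm_num)]
          congr 1
          push_cast
          ring
        calc ((J1 * (μ + 1) : ℕ) + 4 : ℝ) ^ 2 * (2 ^ (μ + 5) * (S (b + 4) + 1)) ≤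
              ((J1 * (μ + 1) : ℕ) + 4 : ℝ) ^ 2 * (2 ^ (μ + 5) * (2 * H (b + 4))) := by
                apply mul_le_mul_of_nonneg_left _ (by positivity)
                apply mul_le_mul_of_nonneg_left _ (by positivity)
                linarith
          _ = ((J1 * (μ + 1) : ℕ) + 4 : ℝ) ^ 2 * ((2 : ℝ) ^ (μ + 6) * (2 : ℝ) ^ (α * 4 - α * μ)) * H (b + μ) := by
                rw [h4]
                ring
          _ = ((J1 * (μ + 1) : ℕ) + 4 : ℝ) ^ 2 * (2 : ℝ) ^ (6 + 4 * α) * (2 : ℝ) ^ (-((α - 1) * μ)) * H (b + μ) := by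
                rw [h7]
                ring
          _ ≤ 1 / 2 * H (b + μ) := mul_le_mul_of_nonneg_right hμ hHp'.le
      have h8 : 2 * (C1 * L + 2) * (2 * S (ff η b + 2) + (2 : ℝ) ^ (α * ((b + μ : ℕ) : ℝ) + τ * L) + 4) =
          2 * (C1 * L + 2) * (2 * S (ff η b + 2)) +
            2 * (C1 * L + 2) * ((2 : ℝ) ^ (α * ((b + μ : ℕ) : ℝ) + τ * L) + 4) := by ring
      rw [h8] at hr
      linarith
  intro l hl
  refine (key l hl).trans ?_
  rw [hHl]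
  have h6 := hL3 L (by omega)
  have h7 : (2 : ℝ) ^ (-(κ * L)) * (2 : ℝ) ^ (α * l + τ * L + 3 * κ * L) = (2 : ℝ) ^ (α * l + τ * L + 2 * κ * L) := by
    rw [← Real.rpow_add (by norm_num)]
    congr 1
    ring
  have h8 : (0 : ℝ) < (2 : ℝ) ^ (α * l + τ * L + 3 * κ * L) := by positivity
  rw [← h7]
  have h9 : (0 * (L : ℝ) + 100) * (2 : ℝ) ^ (-(κ * L)) * (2 : ℝ) ^ (α * l + τ * L + 3 * κ * L) ≤
      1 * (2 : ℝ) ^ (α * l + τ * L + 3 * κ * L) := mul_le_mul_of_nonneg_right h6 h8.le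
  linarith

end RN

/-- D: the numbers of the recursion -/
theorem rec_num {a g κ η C1 : ℝ} {J1 : ℕ} (hag : 1 < a + g) (hg2 : a + g ≤ 2) (hκ : 0 < κ) (hκ1 : κ ≤ 1 / 8) (hη : 0 < η)
    (hη1 : η ≤ 1 / 8) (hC1 : 0 < C1) : ∃ μ L0 : ℕ, 6 ≤ μ ∧ ∀ (L : ℕ) (S : ℕ → ℝ), L0 ≤ L → (∀ l, 0 ≤ S l) →
      (∀ l, S l ≤ 100 * 4 ^ l) →
      (∀ b : ℕ, κ * L ≤ b → b + μ ≤ L → S (b + μ) ≤ 2 * (C1 * L + 2) * (2 * S (ff η b + 2) +
        (2 : ℝ) ^ ((a + g) * (b + μ : ℕ)) + 4) + ((J1 * (μ + 1) : ℕ) + 4) ^ 2 * (2 ^ (μ + 5) * (S (b + 4) + 1))) →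
      S L ≤ (2 : ℝ) ^ ((a + g + 3 * κ) * L) := by
  obtain ⟨μ, L0, hμ, h⟩ := RN.gen (J1 := J1) hag hg2 hκ hη hη1 hC1
  refine ⟨μ, L0, hμ, fun L S hL _ hS4 hrec => ?_⟩
  have h1 := h L 0 S hL le_rfl hS4 (fun b hb hbL => by
    have h2 := hrec b hb hbL
    rw [zero_mul, add_zero]
    exact h2) L le_rfl
  refine h1.trans (le_of_eq ?_)
  congr 1
  ring

end T2

end HexObs
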