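import Mathlib

/-!
T2, module C1: two functions that are monotone up to backtracks.
-/

set_option autoImplicit false

namespace HexObs

namespace T2

open Finset

/-- the discretised running maximum -/
theorem run_max {g : ℕ → ℤ} {R : ℤ} (hR : 1 ≤ R) {N V : ℕ}
    (hq : ∀ i j, i ≤ j → j ≤ N → g i - g j < R) (hV : ∀ i, i ≤ N → g i - g 0 ≤ V * R) :
    ∃ c : ℕ → ℕ, (∀ i j, i ≤ j → c i ≤ c j) ∧ (∀ i, i ≤ N → c i ≤ V) ∧
      ∀ i j, i ≤ N → j ≤ N → c i = c j → g i - g j < 2 * R := by
  have hR0 : 0 < R := by omega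
  have h0 : ∀ k, 0 ≤ partialSups g k - g 0 := fun k => by
    have := le_partialSups_of_le g (Nat.zero_le k)
    omega
  have hmono : ∀ i j, i ≤ j → partialSups g i ≤ partialSups g j := fun i j h =>
    (partialSups g).monotone h
  refine ⟨fun k => ((partialSups g k - g 0) / R).toNat, fun i j h => ?_, fun i hi => ?_,
    fun i j hi hj h => ?_⟩
  · apply Int.toNat_le_toNat
    exact Int.ediv_le_ediv hR0 (by have := hmono i j h; omega)
  · have h1 : partialSups g i ≤ g 0 + V * R := by
      rw [partialSups_le_iff]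
      intro k hk
      have := hV k (hk.trans hi)
      omega
    have h2 : (partialSups g i - g 0) / R ≤ V := by
      have h3 : (partialSups g i - g 0) / R ≤ (V * R) / R :=
        Int.ediv_le_ediv hR0 (by omega)
      rwa [Int.mul_ediv_cancel _ hR0.ne'] at h3
    exact Int.toNat_le.2 h2
  · have h1 : 0 ≤ (partialSups g i - g 0) / R := Int.ediv_nonneg (h0 i) hR0.le
    have h2 : 0 ≤ (partialSups g j - g 0) / R := Int.ediv_nonneg (h0 j) hR0.le
    have h3 : (partialSups g i - g 0) / R = (partialSups g j - g 0) / R := by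
      have := congrArg (fun n : ℕ => (n : ℤ)) h
      simp only [Int.toNat_of_nonneg h1, Int.toNat_of_nonneg h2] at this
      exact this
    have h4 := Int.emod_add_mul_ediv (partialSups g i - g 0) R
    have h5 := Int.emod_add_mul_ediv (partialSups g j - g 0) R
    have h6 := Int.emod_nonneg (partialSups g i - g 0) hR0.ne'
    have h7 := Int.emod_lt_of_pos (partialSups g i - g 0) hR0
    have h8 := Int.emod_nonneg (partialSups g j - g 0) hR0.ne'
    have h9 := Int.emod_lt_of_pos (partialSups g j - g 0) hR0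
    rw [h3] at h4
    have h10 : partialSups g i - partialSups g j < R := by omega
    have h11 : g i ≤ partialSups g i := le_partialSups g i
    have h12 : partialSups g j < g j + R := by
      obtain ⟨k, hk, hk'⟩ : ∃ k, k ≤ j ∧ partialSups g j = g k := by
        rw [partialSups_eq_sup'_range]
        obtain ⟨k, hk, e⟩ := Finset.exists_mem_eq_sup' (s := Finset.range (j + 1))
          Finset.nonempty_range_add_one g
        exact ⟨k, by simpa [Nat.lt_succ_iff] using hk, e⟩
      have := hq k j hk hj
      omega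
    omega

theorem bimono_cut {f0 f1 : ℕ → ℤ} {R : ℤ} (hR : 1 ≤ R) {V : ℕ} {x y : ℕ} (hxy : x ≤ y) {s0 s1 : ℤ}
    (hs0 : s0 = 1 ∨ s0 = -1) (hs1 : s1 = 1 ∨ s1 = -1)
    (hq0 : ∀ i j, x ≤ i → i ≤ j → j ≤ y → s0 * f0 i - s0 * f0 j < R)
    (hq1 : ∀ i j, x ≤ i → i ≤ j → j ≤ y → s1 * f1 i - s1 * f1 j < R)
    (hV0 : ∀ i j, x ≤ i → i ≤ y → x ≤ j → j ≤ y → f0 i - f0 j ≤ V * R)
    (hV1 : ∀ i j, x ≤ i → i ≤ y → x ≤ j → j ≤ y → f1 i - f1 j ≤ V * R) {S : ℝ}
    (hS : ∀ x' y', x ≤ x' → x' ≤ y' → y' ≤ y → (∀ i j, x' ≤ i → i ≤ y' → x' ≤ j → j ≤ y' → f0 i - f0 j < 2 * R) →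
      (∀ i j, x' ≤ i → i ≤ y' → x' ≤ j → j ≤ y' → f1 i - f1 j < 2 * R) → (y' : ℝ) - x' ≤ S) :
    (y : ℝ) - x ≤ (2 * V + 1) * (S + 1) := by
  obtain ⟨N, rfl⟩ : ∃ N, y = x + N := ⟨y - x, by omega⟩
  -- one function
  have key : ∀ (f : ℕ → ℤ) (s : ℤ), (s = 1 ∨ s = -1) →
      (∀ i j, x ≤ i → i ≤ j → j ≤ x + N → s * f i - s * f j < R) →
      (∀ i j, x ≤ i → i ≤ x + N → x ≤ j → j ≤ x + N → f i - f j ≤ V * R) →
      ∃ c : ℕ → ℕ, (∀ i j, i ≤ j → c i ≤ c j) ∧ (∀ i, i ≤ N → c i ≤ V) ∧
        ∀ i j, i ≤ N → j ≤ N → c i = c j → f (x + i) - f (x + j) < 2 * R := by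
    intro f s hs hq hV
    obtain ⟨c, h1, h2, h3⟩ := run_max (g := fun k => s * f (x + k)) hR (N := N) (V := V)
      (fun i j hij hj => hq (x + i) (x + j) (by omega) (by omega) (by omega))
      (fun i hi => by
        have ha := hV (x + i) (x + 0) (by omega) (by omega) (by omega) (by omega)
        have hb := hV (x + 0) (x + i) (by omega) (by omega) (by omega) (by omega)
        rcases hs with rfl | rfl
        · simp only [one_mul]
          exact ha
        · simp only [neg_mul, one_mul]
          linarith)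
    refine ⟨c, h1, h2, fun i j hi hj e => ?_⟩
    have ha := h3 i j hi hj e
    have hb := h3 j i hj hi e.symm
    rcases hs with rfl | rfl
    · simpa only [one_mul] using ha
    · simp only [neg_mul, one_mul] at hb
      linarith
  obtain ⟨c0, m0, b0, r0⟩ := key f0 s0 hs0 hq0 hV0
  obtain ⟨c1, m1, b1, r1⟩ := key f1 s1 hs1 hq1 hV1
  have hS0 : 0 ≤ S := by
    have := hS x x le_rfl le_rfl (by omega)
      (fun i j h1 h2 h3 h4 => by
        have e1 : i = x := by omega
        have e2 : j = x := by omega
        subst e1; subst e2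
        omega)
      (fun i j h1 h2 h3 h4 => by
        have e1 : i = x := by omega
        have e2 : j = x := by omega
        subst e1; subst e2
        omega)
    linarith
  set c : ℕ → ℕ := fun k => c0 k + c1 k with hc
  have hfib : ∀ v, (((range (N + 1)).filter fun k => c k = v).card : ℝ) ≤ S + 1 := by
    intro v
    rcases ((range (N + 1)).filter fun k => c k = v).eq_empty_or_nonempty with he | hne
    · rw [he]
      simp only [card_empty, Nat.cast_zero]
      linarith
    · set F := (range (N + 1)).filter fun k => c k = v with hF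
      set a := F.min' hne with ha
      set b := F.max' hne with hb
      have haF : a ∈ F := F.min'_mem hne
      have hbF : b ∈ F := F.max'_mem hne
      rw [hF, mem_filter, mem_range] at haF hbF
      have hab : a ≤ b := F.min'_le _ (F.max'_mem hne)
      have hmid : ∀ k, a ≤ k → k ≤ b → c0 k = c0 a ∧ c1 k = c1 a := by
        intro k h1 h2
        have e1 := m0 a k h1
        have e2 := m1 a k h1
        have e3 := m0 k b h2
        have e4 := m1 k b h2
        have e5 : c0 a + c1 a = c0 b + c1 b := haF.2.trans hbF.2.symm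
        omega
      have h1 : (b : ℝ) - a ≤ S := by
        have := hS (x + a) (x + b) (by omega) (by omega) (by omega)
          (fun i j h1 h2 h3 h4 => by
            obtain ⟨i, rfl⟩ : ∃ i', i = x + i' := ⟨i - x, by omega⟩
            obtain ⟨j, rfl⟩ : ∃ j', j = x + j' := ⟨j - x, by omega⟩
            refine r0 i j (by omega) (by omega) ?_
            rw [(hmid i (by omega) (by omega)).1, (hmid j (by omega) (by omega)).1])
          (fun i j h1 h2 h3 h4 => by
            obtain ⟨i, rfl⟩ : ∃ i', i = x + i' := ⟨i - x, by omega⟩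
            obtain ⟨j, rfl⟩ : ∃ j', j = x + j' := ⟨j - x, by omega⟩
            refine r1 i j (by omega) (by omega) ?_
            rw [(hmid i (by omega) (by omega)).2, (hmid j (by omega) (by omega)).2])
        push_cast at this
        linarith
      have h2 : F ⊆ Icc a b := fun k hk => mem_Icc.2 ⟨F.min'_le _ hk, F.le_max' _ hk⟩
      have h3 : F.card ≤ b + 1 - a := by
        have := card_le_card h2
        rwa [Nat.card_Icc] at this
      have h4 : (F.card : ℝ) ≤ ((b + 1 - a : ℕ) : ℝ) := by exact_mod_cast h3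
      rw [Nat.cast_sub (by omega)] at h4
      push_cast at h4
      linarith
  have hmap : ∀ k ∈ range (N + 1), c k ∈ range (2 * V + 1) := by
    intro k hk
    rw [mem_range] at hk ⊢
    have e1 := b0 k (by omega)
    have e2 := b1 k (by omega)
    show c0 k + c1 k < 2 * V + 1
    omega
  have hcard := card_eq_sum_card_fiberwise (s := range (N + 1)) (t := range (2 * V + 1)) (f := c)
    (by intro k hk; exact_mod_cast hmap k (by simpa using hk))
  rw [card_range] at hcard
  have h1 : ((N + 1 : ℕ) : ℝ) ≤ (2 * V + 1) * (S + 1) := by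
    rw [hcard]
    push_cast
    calc (∑ v ∈ range (2 * V + 1), (((range (N + 1)).filter fun k => c k = v).card : ℝ))
        ≤ ∑ _v ∈ range (2 * V + 1), (S + 1) := sum_le_sum fun v _ => hfib v
      _ = (2 * V + 1) * (S + 1) := by
        rw [sum_const, card_range, nsmul_eq_mul]
        push_cast
        ring
  push_cast at h1 ⊢
  linarith

end T2

end HexObs
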