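import Pool.Agent.T2.Few
import Pool.Agent.T2.ANorm
import Pool.Agent.SDN.Peierls2

/-!
T2, B2: a walk in a box of the size 2 ^ μ times the scale 2 ^ b has few special leaves of the scale b.
-/

set_option autoImplicit false

namespace HexObs

namespace T2

open Finset TS SDN

open scoped ENNReal

namespace Few

open Classical in
/-- the walks in a box with m leaves, at least s of them in W; the exponents do not depend on W, μ -/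
theorem fill_box : ∃ (C : ℝ) (l0 : ℕ), 0 < C ∧ ∀ (b μ m s : ℕ) (dir : Bool) (W : Set (List Bool)) (δ : ℝ), 5 ≤ b →
    0 ≤ δ → δ ≤ 1 → 1 ≤ s →
    (∀ Φ : List Bool → ℝ≥0∞, Hered Φ → xT (2 ^ (b - 1)) (b - 5) (tF (2 ^ (b - 1)) (2 ^ (b + μ + 1)) W LFold Φ) ≤
      ENNReal.ofReal δ * xT (2 ^ (b - 1)) (b - 5) Φ) →
    gf {t | t ∈ WL (b + μ) ∧ ∃ u e, Lf dir b t m u e ∧
      s ≤ ((lws t e 1 (m - 2)).filter (fun g => decide (g ∈ W))).length} ≤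
      ENNReal.ofReal (((2 : ℝ) ^ (b + μ)) ^ C * C * (4 ^ ((μ + 3) * m) * 2 ^ (l0 * m) * δ ^ (s - 1))) := by
  obtain ⟨K, hK, hxA⟩ := x_tA
  obtain ⟨K1, hK1, hxT⟩ := x_tot
  obtain ⟨Cp, hCp, hpoly⟩ := SAL_poly
  obtain ⟨l0, hl0⟩ : ∃ l0 : ℕ, 2 * K ≤ 2 ^ l0 := by
    obtain ⟨l, hl⟩ := pow_unbounded_of_one_lt (2 * K) (show (1 : ℝ) < 2 by norm_num)
    exact ⟨l, hl.le⟩
  obtain ⟨G, hG⟩ : ∃ G : ℕ → ℝ, G = fun L => ((100 * 4 ^ L : ℕ) : ℝ) ^ Cp * Cp := ⟨_, rfl⟩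
  have hGp : ∀ L, 0 < G L := by
    intro L
    rw [hG]
    have : (0 : ℝ) < ((100 * 4 ^ L : ℕ) : ℝ) := by positivity
    positivity
  have hGe : ∀ L, G L = Cp * 100 ^ Cp * ((2 : ℝ) ^ L) ^ (2 * Cp) := by
    intro L
    rw [hG]
    simp only
    push_cast
    rw [Real.mul_rpow (by norm_num) (by positivity), Real.rpow_mul (by positivity)]
    have : (((2 : ℝ) ^ L) ^ (2 : ℝ)) = 4 ^ L := by
      rw [Real.rpow_two, ← pow_mul, mul_comm L 2, pow_mul]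
      norm_num
    rw [this]
    ring
  have h100 : (0 : ℝ) < Cp * 100 ^ Cp := by positivity
  obtain ⟨C, hC⟩ : ∃ C : ℝ, C = (4 * Cp + 1) + 4 * (Cp * 100 ^ Cp) ^ 2 * K1 := ⟨_, rfl⟩
  have hC1 : 4 * Cp + 1 ≤ C := by
    rw [hC]
    have : 0 ≤ 4 * (Cp * 100 ^ Cp) ^ 2 * K1 := by positivity
    linarith
  have hC2 : 4 * (Cp * 100 ^ Cp) ^ 2 * K1 ≤ C := by
    rw [hC]
    linarith
  have hCpos : 0 < C := by linarith
  refine ⟨C, l0, hCpos, ?_⟩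
  intro b μ m s dir W δ hb hδ0 hδ1 hs hF
  obtain ⟨k, rfl⟩ : ∃ k, b = k + 5 := ⟨b - 5, by omega⟩
  have e5 : k + 5 - 1 = k + 4 := rfl
  have e6 : k + 5 - 5 = k := rfl
  rw [e5, e6] at hF
  rcases Nat.lt_or_ge m 3 with hm3 | hm3
  · -- no interior leaf
    have h1 : {t | t ∈ WL (k + 5 + μ) ∧ ∃ u e, Lf dir (k + 5) t m u e ∧
        s ≤ ((lws t e 1 (m - 2)).filter (fun g => decide (g ∈ W))).length} = ∅ := by
      rw [Set.eq_empty_iff_forall_notMem]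
      rintro t ⟨-, u, e, -, h⟩
      have e1 : m - 2 = 0 := by omega
      rw [e1] at h
      have e2 : lws t e 1 0 = [] := rfl
      rw [e2, List.filter_nil, List.length_nil] at h
      omega
    rw [h1]
    unfold gf
    rw [tsum_empty]
    exact zero_le
  obtain ⟨l, hl⟩ : ∃ l, l = k + 5 + μ := ⟨_, rfl⟩
  obtain ⟨N, hN⟩ : ∃ N, N = 2 ^ (k + 5 + μ + 1) := ⟨_, rfl⟩
  rw [← hN] at hF
  rw [← hl]
  obtain ⟨P, hPe⟩ : ∃ P : Set (List (List Bool)), P = {gs | gs ∈ C2 (2 ^ (k + 4)) N (m - 2) s W ∧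
    dbl (2 ^ (k + 4)) gs ≤ (μ + 3) * m} := ⟨_, rfl⟩
  have hsplit := sum_split {t | t ∈ WL l ∧ ∃ u e, Lf dir (k + 5) t m u e ∧
      s ≤ ((lws t e 1 (m - 2)).filter (fun g => decide (g ∈ W))).length} (100 * 4 ^ l) P (by
    intro gs hgs
    rw [hPe] at hgs
    obtain ⟨⟨g1, -, g3, -⟩, -⟩ := hgs
    refine ⟨?_, fun g hg => ?_⟩
    · rintro rfl
      rw [List.length_nil] at g1
      omega
    · obtain ⟨h, hh, -, hh'⟩ := g3 g hg
      exact ⟨h, le_trans Nat.one_le_two_pow hh, hh'⟩) (by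
    rintro t ⟨ht, u, e, hLf, hfil⟩
    have htS : t ∈ SA := ht.1
    have htL : t.length ≤ 100 * 4 ^ l := WL_length ht
    obtain ⟨w1, w2, w3⟩ := lws_word htS (by omega) hLf (j := 1) (n := m - 2) le_rfl (by omega) (by omega)
    have hBr := PE.lws_BrR ht (by omega : 1 ≤ k + 5) hLf (le_refl 1) (by omega : 1 + (m - 2) + 1 ≤ m)
    refine ⟨t.take (e 1 + 1), ⟨SA_take htS _, by rw [List.length_take]; omega⟩, lws t e 1 (m - 2), ?_,
      t.drop (e (1 + (m - 2)) - 1), ⟨SA_drop htS _, by rw [List.length_drop]; omega⟩, w1⟩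
    rw [hPe]
    refine ⟨⟨by rw [lws, List.length_map, List.length_range], w2, ?_, hfil⟩, ?_⟩
    · intro g hg
      have h1 := hBr g hg
      rw [e5, hl, ← hN] at h1
      exact h1
    · rw [hl] at ht
      exact dbl_box ht (by omega) hLf)
  refine hsplit.trans ?_
  have h2 : ∑' gs : {gs // gs ∈ P}, SDN.wl gs.1 ≤
      4 ^ ((μ + 3) * m) * ∑' gs : {gs // gs ∈ C2 (2 ^ (k + 4)) N (m - 2) s W}, SDN.wt (2 ^ (k + 4)) gs.1 := by
    rw [hPe]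
    exact untilt (2 ^ (k + 4)) ((μ + 3) * m) _
  have h3 : ∑' gs : {gs // gs ∈ C2 (2 ^ (k + 4)) N (m - 2) s W}, SDN.wt (2 ^ (k + 4)) gs.1 ≤
      ENNReal.ofReal (2 * (K1 * Ub (k + 4)) * (2 * K) ^ (m - 2) * δ ^ (s - 1)) :=
    chain_fill hK hK1 hδ0 hδ1 (fun Φ hΦ => hxT k N Φ hΦ) (fun Φ hΦ => hxA k N Φ hΦ) hF (m - 2) s
  have hp := hpoly (100 * 4 ^ l) (Nat.mul_pos (by norm_num) (by positivity))
  have hp' : gf (SAL (100 * 4 ^ l)) ≤ ENNReal.ofReal (G l) := by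
    rw [hG]
    exact hp
  have hU := (Ub_pos (k + 4)).le
  have e0 : ENNReal.ofReal (4 ^ ((μ + 3) * m)) = 4 ^ ((μ + 3) * m) := by
    rw [ENNReal.ofReal_pow (by norm_num), ENNReal.ofReal_ofNat]
  have hGl := hGp l
  calc 2 * gf (SAL (100 * 4 ^ l)) ^ 2 * ∑' gs : {gs // gs ∈ P}, SDN.wl gs.1 ≤
        2 * ENNReal.ofReal (G l) ^ 2 * (4 ^ ((μ + 3) * m) *
          ENNReal.ofReal (2 * (K1 * Ub (k + 4)) * (2 * K) ^ (m - 2) * δ ^ (s - 1))) := by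
        gcongr
        exact h2.trans (mul_le_mul_right h3 _)
    _ = ENNReal.ofReal (2 * G l ^ 2 * (4 ^ ((μ + 3) * m) *
          (2 * (K1 * Ub (k + 4)) * (2 * K) ^ (m - 2) * δ ^ (s - 1)))) := by
        have e2 : (2 : ℝ≥0∞) = ENNReal.ofReal 2 := by norm_num
        rw [ENNReal.ofReal_mul (p := 2 * G l ^ 2) (by positivity), ENNReal.ofReal_mul (p := 2) (by norm_num),
          ENNReal.ofReal_mul (p := (4 : ℝ) ^ ((μ + 3) * m)) (by positivity), e0, ENNReal.ofReal_pow hGl.le, ← e2]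
    _ ≤ _ := by
        apply ENNReal.ofReal_le_ofReal
        have h3 : Ub (k + 4) ≤ 2 ^ l := by
          refine (Ub_le _).trans ?_
          exact pow_le_pow_right₀ (by norm_num) (by omega)
        rw [hGe l]
        have h5 : (((2 : ℝ) ^ l) ^ (2 * Cp)) ^ 2 * 2 ^ l = ((2 : ℝ) ^ l) ^ (4 * Cp + 1) := by
          rw [Real.rpow_add (by positivity), Real.rpow_one, ← Real.rpow_natCast (((2 : ℝ) ^ l) ^ (2 * Cp)) 2,
            ← Real.rpow_mul (by positivity)]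
          congr 2
          push_cast
          ring
        have h6 : (2 * K) ^ (m - 2) ≤ 2 ^ (l0 * m) := by
          calc (2 * K) ^ (m - 2) ≤ (2 ^ l0) ^ (m - 2) := by gcongr
            _ = 2 ^ (l0 * (m - 2)) := by rw [pow_mul]
            _ ≤ 2 ^ (l0 * m) := by
                apply pow_le_pow_right₀ (by norm_num)
                exact Nat.mul_le_mul_left _ (by omega)
        have h7 : (1 : ℝ) ≤ 2 ^ l := one_le_pow₀ (by norm_num)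
        have hδs : 0 ≤ δ ^ (s - 1) := by positivity
        calc 2 * (Cp * 100 ^ Cp * ((2 : ℝ) ^ l) ^ (2 * Cp)) ^ 2 * (4 ^ ((μ + 3) * m) *
              (2 * (K1 * Ub (k + 4)) * (2 * K) ^ (m - 2) * δ ^ (s - 1))) ≤
              2 * (Cp * 100 ^ Cp * ((2 : ℝ) ^ l) ^ (2 * Cp)) ^ 2 * (4 ^ ((μ + 3) * m) *
              (2 * (K1 * 2 ^ l) * 2 ^ (l0 * m) * δ ^ (s - 1))) := by gcongr
          _ = ((((2 : ℝ) ^ l) ^ (2 * Cp)) ^ 2 * 2 ^ l) * (4 * (Cp * 100 ^ Cp) ^ 2 * K1) *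
              (4 ^ ((μ + 3) * m) * 2 ^ (l0 * m) * δ ^ (s - 1)) := by ring
          _ = ((2 : ℝ) ^ l) ^ (4 * Cp + 1) * (4 * (Cp * 100 ^ Cp) ^ 2 * K1) *
              (4 ^ ((μ + 3) * m) * 2 ^ (l0 * m) * δ ^ (s - 1)) := by rw [h5]
          _ ≤ ((2 : ℝ) ^ l) ^ C * C * (4 ^ ((μ + 3) * m) * 2 ^ (l0 * m) * δ ^ (s - 1)) := by
              apply mul_le_mul_of_nonneg_right _ (by positivity)
              apply mul_le_mul _ hC2 (by positivity) (by positivity)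
              exact Real.rpow_le_rpow_of_exponent_le h7 hC1

open Classical in
/-- few leaves in W, when the sum over the leaves in W is a small operator (at this scale) -/
theorem few_of {η κ C1 Q : ℝ} (hη : 0 < η) (hκ : 0 < κ) (hC1 : 0 < C1) (hQ : 0 < Q) : ∃ J1 : ℕ, ∀ μ : ℕ, ∃ L0 : ℕ,
    ∀ (L b : ℕ) (dir : Bool) (W : Set (List Bool)), L0 ≤ L → κ * L ≤ b → b + μ ≤ L →
    (∀ Φ : List Bool → ℝ≥0∞, Hered Φ → xT (2 ^ (b - 1)) (b - 5) (tF (2 ^ (b - 1)) (2 ^ (b + μ + 1)) W LFold Φ) ≤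
      ENNReal.ofReal ((2 : ℝ) ^ (-(η * b))) * xT (2 ^ (b - 1)) (b - 5) Φ) →
    gf {t | t ∈ WL (b + μ) ∧ ∃ m u e, Lf dir b t m u e ∧ m ≤ C1 * L ∧
      J1 * (μ + 1) < ((lws t e 1 (m - 2)).filter (fun g => decide (g ∈ W))).length} ≤
      ENNReal.ofReal ((2 : ℝ) ^ (-(Q * L))) := by
  obtain ⟨C, l0, hC, hbox⟩ := fill_box
  obtain ⟨M, hM⟩ : ∃ M : ℝ, M = Q + C + 2 + 6 * C1 + l0 * C1 := ⟨_, rfl⟩
  have hM0 : 0 < M := by
    rw [hM]
    positivity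
  refine ⟨⌈M / (η * κ)⌉₊, fun μ => ?_⟩
  obtain ⟨J1, hJ1⟩ : ∃ J1 : ℕ, J1 = ⌈M / (η * κ)⌉₊ := ⟨_, rfl⟩
  have hJM : M ≤ η * κ * J1 := by
    have h1 : M / (η * κ) ≤ J1 := by
      rw [hJ1]
      exact Nat.le_ceil _
    rw [div_le_iff₀ (by positivity)] at h1
    linarith
  rw [← hJ1]
  refine ⟨⌈(C1 + 1) * C⌉₊ + ⌈5 / κ⌉₊ + 1, fun L b dir W hL hb hbL hF => ?_⟩
  have hL1 : (1 : ℝ) ≤ L := by
    have : 1 ≤ L := by omega
    exact_mod_cast this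
  have hLC : (C1 + 1) * C ≤ L := by
    have h1 : (⌈(C1 + 1) * C⌉₊ : ℝ) ≤ L := by exact_mod_cast (by omega : ⌈(C1 + 1) * C⌉₊ ≤ L)
    exact (Nat.le_ceil _).trans h1
  have hb5 : 5 ≤ b := by
    have h1 : (⌈5 / κ⌉₊ : ℝ) ≤ L := by exact_mod_cast (by omega : ⌈5 / κ⌉₊ ≤ L)
    have h2 := (Nat.le_ceil (5 / κ)).trans h1
    rw [div_le_iff₀ hκ] at h2
    have h3 : (5 : ℝ) ≤ b := by linarith
    exact_mod_cast h3
  obtain ⟨I, hI⟩ : ∃ I : Finset ℕ, I = range (⌊C1 * L⌋₊ + 1) := ⟨_, rfl⟩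
  have hsub : {t | t ∈ WL (b + μ) ∧ ∃ m u e, Lf dir b t m u e ∧ m ≤ C1 * L ∧
      J1 * (μ + 1) < ((lws t e 1 (m - 2)).filter (fun g => decide (g ∈ W))).length} ⊆
      ⋃ m ∈ I, {t | t ∈ WL (b + μ) ∧ ∃ u e, Lf dir b t m u e ∧
        J1 * (μ + 1) + 1 ≤ ((lws t e 1 (m - 2)).filter (fun g => decide (g ∈ W))).length} := by
    rintro t ⟨ht, m, u, e, hLf, hm, hJ⟩
    rw [Set.mem_iUnion₂]
    refine ⟨m, ?_, ht, u, e, hLf, hJ⟩
    rw [hI, Finset.mem_range, Nat.lt_succ_iff]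
    exact Nat.le_floor hm
  refine (gf_mono hsub).trans ((gf_bU' _ _).trans ?_)
  obtain ⟨δ, hδ⟩ : ∃ δ : ℝ, δ = (2 : ℝ) ^ (-(η * b)) := ⟨_, rfl⟩
  have hδ0 : 0 < δ := by
    rw [hδ]
    positivity
  have hδ1 : δ ≤ 1 := by
    rw [hδ]
    apply Real.rpow_le_one_of_one_le_of_nonpos (by norm_num)
    have : 0 ≤ η * b := by positivity
    linarith
  rw [← hδ] at hF
  -- each term
  have hterm : ∀ m ∈ I, gf {t | t ∈ WL (b + μ) ∧ ∃ u e, Lf dir b t m u e ∧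
        J1 * (μ + 1) + 1 ≤ ((lws t e 1 (m - 2)).filter (fun g => decide (g ∈ W))).length} ≤
      ENNReal.ofReal (C * (2 : ℝ) ^ (-((Q + 2) * L))) := by
    intro m hm
    rw [hI, Finset.mem_range, Nat.lt_succ_iff] at hm
    have hmL : (m : ℝ) ≤ C1 * L := by
      have h1 : (m : ℝ) ≤ ⌊C1 * L⌋₊ := by exact_mod_cast hm
      exact h1.trans (Nat.floor_le (by positivity))
    refine (hbox b μ m (J1 * (μ + 1) + 1) dir W δ hb5 hδ0.le hδ1 (by omega) hF).trans ?_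
    apply ENNReal.ofReal_le_ofReal
    rw [Nat.add_sub_cancel]
    have h1 : ((2 : ℝ) ^ (b + μ)) ^ C ≤ (2 : ℝ) ^ (C * L) := by
      rw [← Real.rpow_natCast, ← Real.rpow_mul (by norm_num)]
      apply Real.rpow_le_rpow_of_exponent_le (by norm_num)
      have h2 : ((b + μ : ℕ) : ℝ) ≤ L := by exact_mod_cast hbL
      nlinarith
    have h3 : (4 : ℝ) ^ ((μ + 3) * m) ≤ (2 : ℝ) ^ (2 * ((μ : ℝ) + 3) * (C1 * L)) := by
      have h4 : (4 : ℝ) ^ ((μ + 3) * m) = (2 : ℝ) ^ (2 * ((μ : ℝ) + 3) * m) := by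
        rw [show (2 : ℝ) * ((μ : ℝ) + 3) * m = 2 * (((μ + 3) * m : ℕ) : ℝ) by push_cast; ring,
          Real.rpow_mul (by norm_num), Real.rpow_two, Real.rpow_natCast]
        norm_num
      rw [h4]
      apply Real.rpow_le_rpow_of_exponent_le (by norm_num)
      gcongr
    have h5 : (2 : ℝ) ^ (l0 * m) ≤ (2 : ℝ) ^ ((l0 : ℝ) * (C1 * L)) := by
      have h4 : (2 : ℝ) ^ (l0 * m) = (2 : ℝ) ^ ((l0 : ℝ) * m) := by
        rw [← Real.rpow_natCast]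
        push_cast
        rfl
      rw [h4]
      apply Real.rpow_le_rpow_of_exponent_le (by norm_num)
      gcongr
    have h6 : δ ^ (J1 * (μ + 1)) ≤ (2 : ℝ) ^ (-(M * (μ + 1) * L)) := by
      have h7 : δ ^ (J1 * (μ + 1)) = (2 : ℝ) ^ (-(η * b) * ((J1 : ℝ) * (μ + 1))) := by
        rw [hδ, ← Real.rpow_natCast, ← Real.rpow_mul (by norm_num)]
        push_cast
        rfl
      rw [h7]
      apply Real.rpow_le_rpow_of_exponent_le (by norm_num)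
      have h8 : M * (μ + 1) * L ≤ η * b * (J1 * (μ + 1)) := by
        calc M * (μ + 1) * L ≤ η * κ * J1 * (μ + 1) * L := by gcongr
          _ = η * (κ * L) * (J1 * (μ + 1)) := by ring
          _ ≤ η * b * (J1 * (μ + 1)) := by gcongr
      linarith
    calc ((2 : ℝ) ^ (b + μ)) ^ C * C * (4 ^ ((μ + 3) * m) * 2 ^ (l0 * m) * δ ^ (J1 * (μ + 1))) ≤
          (2 : ℝ) ^ (C * L) * C * ((2 : ℝ) ^ (2 * ((μ : ℝ) + 3) * (C1 * L)) * (2 : ℝ) ^ ((l0 : ℝ) * (C1 * L)) *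
            (2 : ℝ) ^ (-(M * (μ + 1) * L))) := by gcongr
      _ = C * ((2 : ℝ) ^ (C * L) * ((2 : ℝ) ^ (2 * ((μ : ℝ) + 3) * (C1 * L)) * (2 : ℝ) ^ ((l0 : ℝ) * (C1 * L)) *
            (2 : ℝ) ^ (-(M * (μ + 1) * L)))) := by ring
      _ ≤ C * (2 : ℝ) ^ (-((Q + 2) * L)) := by
          apply mul_le_mul_of_nonneg_left _ hC.le
          rw [← Real.rpow_add (by norm_num), ← Real.rpow_add (by norm_num), ← Real.rpow_add (by norm_num)]
          apply Real.rpow_le_rpow_of_exponent_le (by norm_num)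
          have hμ0 : (0 : ℝ) ≤ μ := Nat.cast_nonneg μ
          have h9 : C * L + (2 * ((μ : ℝ) + 3) * (C1 * L) + (l0 : ℝ) * (C1 * L) + -(M * (μ + 1) * L)) =
              -((Q + 2) * L) - ((Q + C + 2 + 4 * C1 + l0 * C1) * μ) * L := by
            rw [hM]
            ring
          rw [h9]
          have h10 : 0 ≤ ((Q + C + 2 + 4 * C1 + l0 * C1) * μ) * L := by positivity
          linarith
  refine (Finset.sum_le_card_nsmul _ _ _ hterm).trans ?_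
  rw [nsmul_eq_mul]
  have hcard : (I.card : ℝ) ≤ C1 * L + 1 := by
    rw [hI, Finset.card_range]
    push_cast
    have := Nat.floor_le (show 0 ≤ C1 * (L : ℝ) by positivity)
    linarith
  have e1 : (I.card : ℝ≥0∞) = ENNReal.ofReal (I.card : ℝ) := by
    rw [ENNReal.ofReal_natCast]
  rw [e1, ← ENNReal.ofReal_mul (Nat.cast_nonneg _)]
  apply ENNReal.ofReal_le_ofReal
  have h2L : (L : ℝ) ≤ (2 : ℝ) ^ (L : ℝ) := by
    rw [Real.rpow_natCast]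
    exact_mod_cast (Nat.lt_two_pow_self (n := L)).le
  have hpos : (0 : ℝ) < (2 : ℝ) ^ (-((Q + 2) * L)) := Real.rpow_pos_of_pos (by norm_num) _
  have hcc : (I.card : ℝ) * C ≤ (2 : ℝ) ^ (L : ℝ) * (2 : ℝ) ^ (L : ℝ) := by
    calc (I.card : ℝ) * C ≤ (C1 * L + 1) * C := by gcongr
      _ ≤ (C1 * L + L) * C := by gcongr
      _ = (C1 + 1) * C * L := by ring
      _ ≤ L * L := by gcongr
      _ ≤ _ := by gcongr
  calc (I.card : ℝ) * (C * (2 : ℝ) ^ (-((Q + 2) * L))) = ((I.card : ℝ) * C) * (2 : ℝ) ^ (-((Q + 2) * L)) := by ring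
    _ ≤ ((2 : ℝ) ^ (L : ℝ) * (2 : ℝ) ^ (L : ℝ)) * (2 : ℝ) ^ (-((Q + 2) * L)) := by gcongr
    _ = (2 : ℝ) ^ (-(Q * L)) := by
        rw [← Real.rpow_add (by norm_num), ← Real.rpow_add (by norm_num)]
        congr 1
        ring

end Few

open Few in
theorem few_special {a C g : ℝ} (ha : 0 ≤ a) (hC : 0 ≤ C) (h : MeanLen a C) (hg : 0 < g) :
    ∃ η : ℝ, 0 < η ∧ η ≤ 1 / 8 ∧ ∀ κ C1 Q : ℝ, 0 < κ → 0 < C1 → 0 < Q → ∃ J1 : ℕ, ∀ μ : ℕ, ∃ L0 : ℕ,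
    ∀ (L b : ℕ) (dir : Bool), L0 ≤ L → κ * L ≤ b → b + μ ≤ L →
    gf {t | t ∈ WL (b + μ) ∧ ∃ m u e, Lf dir b t m u e ∧ m ≤ C1 * L ∧
      J1 * (μ + 1) < spc (ee η b) ((2 : ℝ) ^ ((a + g) * (b + μ : ℕ))) t m e} ≤ ENNReal.ofReal ((2 : ℝ) ^ (-(Q * L))) := by
  obtain ⟨η, hη, hη8, hx⟩ := x_sp_small ha hC h hg
  refine ⟨η, hη, hη8, fun κ C1 Q hκ hC1 hQ => ?_⟩
  obtain ⟨J1, hJ⟩ := few_of hη hκ hC1 hQ
  refine ⟨J1, fun μ => ?_⟩
  obtain ⟨L0, hL0⟩ := hJ μ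
  obtain ⟨b0, _, hb0⟩ := hx μ
  refine ⟨L0 + ⌈b0 / κ⌉₊, fun L b dir hL hb hbL => ?_⟩
  have hLb : b0 ≤ b := by
    have h1 : (⌈b0 / κ⌉₊ : ℝ) ≤ L := by exact_mod_cast (by omega : ⌈b0 / κ⌉₊ ≤ L)
    have h2 := (Nat.le_ceil (b0 / κ)).trans h1
    rw [div_le_iff₀ hκ] at h2
    have h3 : (b0 : ℝ) ≤ b := by linarith
    exact_mod_cast h3
  exact hL0 L b dir (Sp (ee η b) ((2 : ℝ) ^ ((a + g) * (b + μ : ℕ)))) (by omega) hb hbL
    (fun Φ hΦ => hb0 b Φ hLb hΦ)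

end T2

end HexObs
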