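import Pool.Agent.T2.FewSp
import Pool.Agent.T2.ANormT

/-!
T2, module B': few special leaves, with the hypothesis Tail at one scale.
-/

set_option autoImplicit false

namespace HexObs

namespace T2

open Finset TS SDN

open scoped ENNReal

theorem few_special_T {g : ℝ} (hg : 0 < g) :
    ∃ η : ℝ, 0 < η ∧ η ≤ 1 / 8 ∧ ∀ κ C1 Q : ℝ, 0 < κ → 0 < C1 → 0 < Q → ∃ J1 : ℕ, ∀ μ : ℕ, ∃ L0 : ℕ,
    ∀ (L b : ℕ) (dir : Bool) (lam : ℝ), L0 ≤ L → κ * L ≤ b → b + μ ≤ L →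
    Tail (2 ^ (b + μ + 1)) lam ((2 : ℝ) ^ (-(g * b))) →
    gf {t | t ∈ WL (b + μ) ∧ ∃ m u e, Lf dir b t m u e ∧ m ≤ C1 * L ∧ J1 * (μ + 1) < spc (ee η b) lam t m e} ≤
      ENNReal.ofReal ((2 : ℝ) ^ (-(Q * L))) := by
  obtain ⟨η, δ, b0, hη, hη8, hδ, -, hx⟩ := xW_small hg
  refine ⟨η, hη, hη8, fun κ C1 Q hκ hC1 hQ => ?_⟩
  obtain ⟨J1, hJ⟩ := Few.few_of hη hκ hC1 hQ
  refine ⟨J1, fun μ => ?_⟩
  obtain ⟨L0, hL0⟩ := hJ μ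
  refine ⟨L0 + ⌈b0 / κ⌉₊ + ⌈(μ + 1) / δ / κ⌉₊, fun L b dir lam hL hb hbL hT => ?_⟩
  have hLb : b0 ≤ b := by
    have h1 : (⌈b0 / κ⌉₊ : ℝ) ≤ L := by exact_mod_cast (by omega : ⌈b0 / κ⌉₊ ≤ L)
    have h2 := (Nat.le_ceil (b0 / κ)).trans h1
    rw [div_le_iff₀ hκ] at h2
    have h3 : (b0 : ℝ) ≤ b := by linarith
    exact_mod_cast h3
  have hbN : ((2 ^ (b + μ + 1) : ℕ) : ℝ) ≤ (2 : ℝ) ^ ((1 + δ) * b) := by
    have h1 : (⌈(μ + 1) / δ / κ⌉₊ : ℝ) ≤ L := by exact_mod_cast (by omega : ⌈(μ + 1) / δ / κ⌉₊ ≤ L)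
    have h2 := (Nat.le_ceil ((μ + 1) / δ / κ)).trans h1
    rw [div_le_iff₀ hκ, div_le_iff₀ hδ] at h2
    have h3 : (μ : ℝ) + 1 ≤ b * δ := by nlinarith
    rw [Nat.cast_pow, Nat.cast_ofNat, ← Real.rpow_natCast]
    apply Real.rpow_le_rpow_of_exponent_le (by norm_num)
    push_cast
    linarith
  exact hL0 L b dir (Sp (ee η b) lam) (by omega) hb hbL
    (fun Φ hΦ => hx b (2 ^ (b + μ + 1)) _ Φ hLb Nat.one_le_two_pow hbN hΦ (EZ_tail hT))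

end T2

end HexObs
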