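import Pool.Agent.CMP.MeanC
import Pool.Agent.CMP.WallsHit
import Pool.Agent.CMP.LatTail
import Pool.Agent.CMP.WWle
import Pool.Agent.CMP.Ana
import Pool.Agent.SDN.SplitP
import Pool.Agent.T2.UpDefs

/-!
UP, module LB: long walks in a box. The length-weighted sum over the words of the strip of height 3 h that leave the
strip of height h is at least h (CMP), their weight is at most the weight uu h of the bridges of height h, so the long
ones are not rarer than a power of the size of the box.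
-/

set_option autoImplicit false

namespace HexObs

namespace T2

open Finset TS SDN CMP LP

open scoped ENNReal

lemma sum_le_gf {A : Finset (List Bool)} {P : Set (List Bool)} (h : ∀ t ∈ A, t ∈ P) : ∑ t ∈ A, wE t ≤ gf P := by
  have h1 : ∑ t ∈ A, wE t = ∑' t : (A : Set (List Bool)), wE t.1 := by
    rw [← Finset.sum_coe_sort A wE, ← tsum_fintype (L := .unconditional _)]
    rfl
  rw [h1]
  exact ENNReal.tsum_mono_subtype wE (fun t ht => h t ht)

/-- the words of the strip in a box -/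
lemma ww_mem_WL {T h R L : ℕ} (hT : T ≤ R) (hR1 : 1 ≤ R) (hR : 2 * R + 1 ≤ 2 ^ L) {t : List Bool}
    (ht : t ∈ WW T h R) : t ∈ WL L := by
  classical
  unfold WW at ht
  obtain ⟨ha, _⟩ := mem_exits.1 (Finset.mem_filter.1 ht).1
  have hT' : (T : ℤ) ≤ R := by exact_mod_cast hT
  have hR' : (1 : ℤ) ≤ R := by exact_mod_cast hR1
  have hL : (2 * (R : ℤ) + 1) ≤ 2 ^ L := by exact_mod_cast hR
  refine ⟨⟨fun _ _ _ => trivial, ha.inj⟩, ?_⟩
  intro i hi dir
  have hb : 0 ≤ (vx oo up t i).1 + 2 * (vx oo up t i).2 ∧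
      (vx oo up t i).1 + 2 * (vx oo up t i).2 ≤ 3 * R + 1 ∧ (vx oo up t i).2 - (vx oo up t i).1 < 3 * R ∧
      (vx oo up t i).1 - (vx oo up t i).2 < 3 * R - 1 := by
    rcases Nat.eq_zero_or_pos i with h0 | h0
    · subst h0
      have e1 : vx oo up t 0 = oo := rfl
      rw [e1]
      have e2 : oo = (0, 0) := rfl
      rw [e2]
      dsimp only
      omega
    · have h1 := ha.mem i h0 (by omega)
      rw [arcA_par] at h1
      obtain ⟨_, h2, h3, h4, h5⟩ := h1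
      omega
  obtain ⟨b1, b2, b3, b4⟩ := hb
  unfold row
  cases dir
  · have e1 : lvl false (vx oo up t i) = (vx oo up t i).1 + 2 * (vx oo up t i).2 := by
      have h1 : lvl false (vx oo up t i) = 2 * ((vx oo up t i).1 * 0 + (vx oo up t i).2 * 1) +
        (vx oo up t i).1 * 1 + (vx oo up t i).2 * 0 := rfl
      rw [h1]
      ring
    rw [e1, abs_le]
    constructor <;> omega
  · rw [lvl_true_eq, abs_le]
    constructor <;> omega

lemma cw_nonneg_WW {T h R : ℕ} (hT : 1 ≤ T) (hR : 1 ≤ R) {t : List Bool} (ht : t ∈ WW T h R) : 0 ≤ cw t := by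
  classical
  unfold WW at ht
  rw [Finset.mem_filter] at ht
  have h := Tube.dm_wind upd true (by omega) hR hR ht.1
  apply cw_nn4
  rw [abs_le]
  omega

/-- numbers: a power of L against an exponential -/
lemma num_pow {p ε K D : ℝ} (hp : 0 ≤ p) (hε : 0 < ε) (hK : 1 ≤ K) (hD : 0 < D) :
    ∃ L0 : ℕ, ∀ L : ℕ, L0 ≤ L → D * (K * ((L : ℝ) + 1)) ^ p ≤ (2 : ℝ) ^ (ε * L) := by
  obtain ⟨d, hd⟩ := exists_nat_ge p
  have hs : (0 : ℝ) < 2 ^ (-(ε / 2)) := by positivity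
  have hs1 : (2 : ℝ) ^ (-(ε / 2)) < 1 := Real.rpow_lt_one_of_one_lt_of_neg (by norm_num) (by linarith)
  obtain ⟨B, hB, hg⟩ := poly_geom hs hs1 d
  obtain ⟨m, hm⟩ := exists_nat_ge (D * K ^ d * B)
  obtain ⟨L0, hL0⟩ := exists_nat_ge (2 * (m : ℝ) / ε)
  refine ⟨L0, fun L hL => ?_⟩
  have hL1 : (L0 : ℝ) ≤ L := by exact_mod_cast hL
  have hLK : 1 ≤ K * ((L : ℝ) + 1) := by
    have : (0 : ℝ) ≤ L := Nat.cast_nonneg L
    nlinarith
  have h1 : (K * ((L : ℝ) + 1)) ^ p ≤ (K * ((L : ℝ) + 1)) ^ d := by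
    rw [← Real.rpow_natCast]
    exact Real.rpow_le_rpow_of_exponent_le hLK hd
  have h2 := hg L
  have h3 : ((2 : ℝ) ^ (-(ε / 2))) ^ L = ((2 : ℝ) ^ (ε / 2 * L))⁻¹ := by
    rw [← Real.rpow_natCast, ← Real.rpow_mul (by norm_num), neg_mul, Real.rpow_neg (by norm_num)]
  rw [h3] at h2
  have hpos : (0 : ℝ) < 2 ^ (ε / 2 * L) := by positivity
  have h4 : ((L : ℝ) + 1) ^ d ≤ B * 2 ^ (ε / 2 * L) := by
    rwa [← div_eq_mul_inv, div_le_iff₀ hpos] at h2
  have h5 : D * K ^ d * B ≤ 2 ^ (ε / 2 * L) := by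
    refine hm.trans ?_
    have h6 : (m : ℝ) ≤ 2 ^ m := by exact_mod_cast (Nat.lt_two_pow_self (n := m)).le
    refine h6.trans ?_
    rw [← Real.rpow_natCast]
    apply Real.rpow_le_rpow_of_exponent_le (by norm_num)
    have h7 : 2 * (m : ℝ) / ε ≤ L := hL0.trans hL1
    rw [div_le_iff₀ hε] at h7
    linarith
  have h8 : (2 : ℝ) ^ (ε * L) = 2 ^ (ε / 2 * L) * 2 ^ (ε / 2 * L) := by
    rw [← Real.rpow_add (by norm_num)]
    congr 1
    ring
  rw [h8]
  have hK0 : 0 < K := by linarith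
  calc D * (K * ((L : ℝ) + 1)) ^ p ≤ D * (K * ((L : ℝ) + 1)) ^ d := mul_le_mul_of_nonneg_left h1 hD.le
    _ = D * K ^ d * ((L : ℝ) + 1) ^ d := by rw [mul_pow]; ring
    _ ≤ D * K ^ d * (B * 2 ^ (ε / 2 * L)) := mul_le_mul_of_nonneg_left h4 (by positivity)
    _ = D * K ^ d * B * 2 ^ (ε / 2 * L) := by ring
    _ ≤ 2 ^ (ε / 2 * L) * 2 ^ (ε / 2 * L) := mul_le_mul_of_nonneg_right h5 hpos.le

/-- the length-weighted sum against the weight, in a box -/
lemma split_sum {h M L : ℕ} (hh : 1 ≤ h) (hM : 1 ≤ M) (hR : 2 * (M * (3 * h)) + 1 ≤ 2 ^ L) {Λ : ℝ} (hΛ : 0 ≤ Λ) :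
    ∑ t ∈ WW (3 * h) h (M * (3 * h)), cw t * t.length ≤
      Λ * uu h + 100 * 4 ^ L * (gf {t | t ∈ WL L ∧ Λ ≤ t.length}).toReal := by
  classical
  have hR1 : 1 ≤ M * (3 * h) := Nat.mul_pos hM (by omega)
  have hTR : 3 * h ≤ M * (3 * h) := Nat.le_mul_of_pos_left _ (by omega)
  set W := WW (3 * h) h (M * (3 * h)) with hW
  have hnn : ∀ t ∈ W, 0 ≤ cw t := fun t ht => cw_nonneg_WW (by omega) hR1 ht
  have hle : ∀ t : List Bool, cw t ≤ xc ^ t.length := fun t => cw_le_pow t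
  have hu : ∑ t ∈ W, cw t ≤ uu h := ww_le hh (by omega) hR1
  rw [← Finset.sum_filter_add_sum_filter_not W (fun t => Λ ≤ (t.length : ℝ))]
  have h1 : ∑ t ∈ W.filter (fun t => ¬ Λ ≤ (t.length : ℝ)), cw t * t.length ≤ Λ * uu h := by
    calc _ ≤ ∑ t ∈ W.filter (fun t => ¬ Λ ≤ (t.length : ℝ)), cw t * Λ := by
          refine Finset.sum_le_sum fun t ht => ?_
          rw [Finset.mem_filter, not_le] at ht
          exact mul_le_mul_of_nonneg_left ht.2.le (hnn t ht.1)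
      _ = (∑ t ∈ W.filter (fun t => ¬ Λ ≤ (t.length : ℝ)), cw t) * Λ := by rw [Finset.sum_mul]
      _ ≤ uu h * Λ := by
          refine mul_le_mul_of_nonneg_right ?_ hΛ
          refine le_trans ?_ hu
          exact Finset.sum_le_sum_of_subset_of_nonneg (Finset.filter_subset _ _) (fun t ht _ => hnn t ht)
      _ = Λ * uu h := mul_comm _ _
  have h2 : ∑ t ∈ W.filter (fun t => Λ ≤ (t.length : ℝ)), cw t * t.length ≤
      100 * 4 ^ L * ∑ t ∈ W.filter (fun t => Λ ≤ (t.length : ℝ)), xc ^ t.length := by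
    rw [Finset.mul_sum]
    refine Finset.sum_le_sum fun t ht => ?_
    rw [Finset.mem_filter] at ht
    have h3 : t ∈ WL L := ww_mem_WL hTR hR1 hR ht.1
    have h4 : (t.length : ℝ) ≤ 100 * 4 ^ L := by exact_mod_cast WL_length h3
    have hx := pow_nonneg xc_pos.le t.length
    have hlen : (0 : ℝ) ≤ t.length := Nat.cast_nonneg _
    calc cw t * t.length ≤ xc ^ t.length * t.length := mul_le_mul_of_nonneg_right (hle t) hlen
      _ ≤ xc ^ t.length * (100 * 4 ^ L) := mul_le_mul_of_nonneg_left h4 hx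
      _ = 100 * 4 ^ L * xc ^ t.length := mul_comm _ _
  have h5 : ∑ t ∈ W.filter (fun t => Λ ≤ (t.length : ℝ)), xc ^ t.length ≤
      (gf {t | t ∈ WL L ∧ Λ ≤ t.length}).toReal := by
    have h6 : ∑ t ∈ W.filter (fun t => Λ ≤ (t.length : ℝ)), wE t ≤ gf {t | t ∈ WL L ∧ Λ ≤ t.length} := by
      refine sum_le_gf fun t ht => ?_
      rw [Finset.mem_filter] at ht
      exact ⟨ww_mem_WL hTR hR1 hR ht.1, ht.2⟩
    have h7 : gf {t | t ∈ WL L ∧ Λ ≤ (t.length : ℝ)} ≠ ⊤ := by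
      have hfin : {t | t ∈ WL L ∧ Λ ≤ (t.length : ℝ)}.Finite := by
        refine (List.finite_length_le Bool (100 * 4 ^ L)).subset ?_
        intro t ht
        exact WL_length ht.1
      unfold gf
      have := hfin.to_subtype
      have := Fintype.ofFinite ↑{t | t ∈ WL L ∧ Λ ≤ (t.length : ℝ)}
      rw [tsum_fintype]
      exact (ENNReal.sum_lt_top.2 fun t _ => ENNReal.ofReal_lt_top).ne
    have h8 : ∑ t ∈ W.filter (fun t => Λ ≤ (t.length : ℝ)), wE t =
        ENNReal.ofReal (∑ t ∈ W.filter (fun t => Λ ≤ (t.length : ℝ)), xc ^ t.length) := by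
      rw [ENNReal.ofReal_sum_of_nonneg (fun t _ => pow_nonneg xc_pos.le _)]
      rfl
    rw [h8] at h6
    exact (ENNReal.ofReal_le_iff_le_toReal h7).1 h6
  have h9 : (0 : ℝ) ≤ 100 * 4 ^ L := by positivity
  nlinarith [mul_le_mul_of_nonneg_left h5 h9]

/-- long walks from a lower bound of the length-weighted sum -/
theorem longWalks_gen {a b c C q : ℝ} (ha : 0 ≤ a) (hb : 0 ≤ b) (hc : 0 < c) (hC : 0 < C) (hq : 0 < q) (hq1 : q < 1)
    (hmean : ∀ h M : ℕ, 1 ≤ h → 1 ≤ M →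
      (c * (h : ℝ) ^ b - C * h * (M + 1) * q ^ M) * h ≤ ∑ t ∈ WW (3 * h) h (M * (3 * h)), cw t * t.length)
    (hB : ∃ C : ℝ, 0 < C ∧ ∀ h : ℕ, 1 ≤ h → uu h ≤ C * (h : ℝ) ^ (-a)) : LongWalks (a + b) := by
  intro τ hτ
  obtain ⟨C0, hC0, hB⟩ := hB
  obtain ⟨K, hK, hch⟩ := choose_k (A := C / c) (by positivity) hq hq1 1
  set K1 : ℝ := 14 * max K 1 with hK1
  have hK11 : 1 ≤ K1 := by
    have := le_max_right K 1
    rw [hK1]
    linarith
  obtain ⟨L1, hL1⟩ := num_pow (p := 1 + a + b) (ε := a + b - τ) (K := K1) (D := 4 * C0 / c) (by linarith) (by linarith)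
    hK11 (by positivity)
  obtain ⟨L2, hL2⟩ := num_pow (p := 1) (ε := 1) (K := K1) (D := 1) (by norm_num) (by norm_num) hK11 one_pos
  obtain ⟨L3, hL3⟩ := exists_nat_ge (400 / c)
  refine ⟨3, L1 + L2 + L3 + 1, by norm_num, fun L hL => ⟨L, le_rfl, ?_⟩⟩
  have hLR : (0 : ℝ) ≤ L := Nat.cast_nonneg L
  set X : ℝ := 2 ^ L with hX
  have hX0 : 0 < X := by positivity
  have hX1 : (2 : ℝ) ^ ((1 : ℝ) * L) = X := by rw [one_mul, Real.rpow_natCast]
  have hY0 : 0 < K1 * ((L : ℝ) + 1) := by positivity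
  have hYX : K1 * ((L : ℝ) + 1) ≤ X := by
    have := hL2 L (by omega)
    rw [hX1, one_mul, Real.rpow_one] at this
    exact this
  -- the height
  set h : ℕ := ⌊2 * (X / (K1 * ((L : ℝ) + 1)))⌋₊ with hh
  have hZ1 : 1 ≤ X / (K1 * ((L : ℝ) + 1)) := by rw [le_div_iff₀ hY0]; linarith
  have hh1 : X / (K1 * ((L : ℝ) + 1)) ≤ h := by
    have := Nat.lt_floor_add_one (2 * (X / (K1 * ((L : ℝ) + 1))))
    rw [← hh] at this
    linarith
  have hh2 : (h : ℝ) ≤ 2 * (X / (K1 * ((L : ℝ) + 1))) := Nat.floor_le (by positivity)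
  have hhR : (1 : ℝ) ≤ h := hZ1.trans hh1
  have hhN : 1 ≤ h := by exact_mod_cast hhR
  have hh0 : (0 : ℝ) < h := by linarith
  obtain ⟨M, hM1, hM2, hM3⟩ := hch h hhR
  -- log h ≤ L
  have hhX : (h : ℝ) ≤ X := by
    refine hh2.trans ?_
    rw [mul_div_assoc', div_le_iff₀ hY0]
    have h1 : 14 ≤ K1 := by
      have := le_max_right K 1
      rw [hK1]
      linarith
    have h2 : 14 ≤ K1 * ((L : ℝ) + 1) := by nlinarith
    have h3 := mul_le_mul_of_nonneg_left h2 hX0.le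
    linarith
  have hlog : Real.log h ≤ L := by
    have h1 : Real.log h ≤ Real.log X := Real.log_le_log hh0 hhX
    have h2 : Real.log X = L * Real.log 2 := by rw [hX, Real.log_pow]
    have h3 : Real.log 2 ≤ 1 := by
      have := Real.log_two_lt_d9
      linarith
    nlinarith
  have hlog0 : 0 ≤ Real.log h := Real.log_nonneg hhR
  have hMK : (M : ℝ) ≤ max K 1 * ((L : ℝ) + 1) := by
    refine hM2.trans ?_
    have h1 : K ≤ max K 1 := le_max_left _ _
    calc K * (1 + Real.log h) ≤ max K 1 * (1 + Real.log h) := mul_le_mul_of_nonneg_right h1 (by linarith)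
      _ ≤ max K 1 * ((L : ℝ) + 1) := mul_le_mul_of_nonneg_left (by linarith) (by linarith [le_max_right K 1])
  have hR : 2 * (M * (3 * h)) + 1 ≤ 2 ^ L := by
    have hMR : (1 : ℝ) ≤ M := by exact_mod_cast hM1
    have h1 : (2 * ((M : ℝ) * (3 * h)) + 1) ≤ X := by
      have h2 : (M : ℝ) * h ≤ max K 1 * ((L : ℝ) + 1) * (2 * (X / (K1 * ((L : ℝ) + 1)))) :=
        mul_le_mul hMK hh2 hh0.le (by positivity)
      have h3 : max K 1 * ((L : ℝ) + 1) * (2 * (X / (K1 * ((L : ℝ) + 1)))) = X / 7 := by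
        have h4 : (0 : ℝ) < max K 1 := by linarith [le_max_right K 1]
        rw [hK1]
        field_simp
        ring
      rw [h3] at h2
      have h5 : (1 : ℝ) ≤ M * h := by nlinarith
      linarith
    have h6 : ((2 * (M * (3 * h)) + 1 : ℕ) : ℝ) ≤ ((2 ^ L : ℕ) : ℝ) := by
      push_cast
      exact h1
    exact_mod_cast h6
  -- the two bounds
  set Λ : ℝ := 2 ^ ((L : ℝ) + τ * L) with hΛ
  have hΛ0 : 0 < Λ := by positivity
  have e1 := split_sum hhN hM1 hR hΛ0.le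
  have e2 := hmean h M hhN hM1
  set G : ℝ := (gf {t | t ∈ WL L ∧ Λ ≤ (t.length : ℝ)}).toReal with hG
  have hpow1 : 1 ≤ (h : ℝ) ^ b := Real.one_le_rpow hhR hb
  have e3 : c / 2 * (h : ℝ) ^ b ≤ c * (h : ℝ) ^ b - C * h * (M + 1) * q ^ M := by
    rw [pow_one, pow_one] at hM3
    have h1 : C * h * (M + 1) * q ^ M ≤ c / 2 := by
      have h2 : C / c * h * (M + 1) * q ^ M = (C * h * (M + 1) * q ^ M) / c := by ring
      rw [h2, div_le_iff₀ hc] at hM3
      linarith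
    nlinarith
  have e4 : Λ * uu h ≤ c / 4 * (h : ℝ) ^ b * h := by
    have h1 := hL1 L (by omega)
    have h2 : (4 * C0 / c) * Λ ≤ (h : ℝ) ^ (1 + a + b) := by
      have h3 : (X / (K1 * ((L : ℝ) + 1))) ^ (1 + a + b) ≤ (h : ℝ) ^ (1 + a + b) :=
        Real.rpow_le_rpow (by positivity) hh1 (by linarith)
      refine le_trans ?_ h3
      rw [Real.div_rpow hX0.le hY0.le, le_div_iff₀ (by positivity)]
      have h4 : X ^ (1 + a + b) = (2 : ℝ) ^ ((a + b - τ) * L) * Λ := by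
        rw [hX, hΛ, ← Real.rpow_natCast, ← Real.rpow_mul (by norm_num), ← Real.rpow_add (by norm_num)]
        congr 1
        ring
      rw [h4]
      calc 4 * C0 / c * Λ * (K1 * ((L : ℝ) + 1)) ^ (1 + a + b) =
            4 * C0 / c * (K1 * ((L : ℝ) + 1)) ^ (1 + a + b) * Λ := by ring
        _ ≤ _ := mul_le_mul_of_nonneg_right h1 hΛ0.le
    have h5 : (h : ℝ) ^ (1 + a + b) = (h : ℝ) ^ b * h * (h : ℝ) ^ a := by
      rw [Real.rpow_add hh0, Real.rpow_add hh0, Real.rpow_one]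
      ring
    have h6 : (h : ℝ) ^ (-a) * (h : ℝ) ^ a = 1 := by
      rw [← Real.rpow_add hh0, neg_add_cancel, Real.rpow_zero]
    have hma : 0 < (h : ℝ) ^ (-a) := Real.rpow_pos_of_pos hh0 _
    have h7 : Λ * (C0 * (h : ℝ) ^ (-a)) ≤ c / 4 * (h : ℝ) ^ b * h := by
      have h8 : (4 * C0 / c) * Λ * (h : ℝ) ^ (-a) ≤ (h : ℝ) ^ b * h := by
        calc (4 * C0 / c) * Λ * (h : ℝ) ^ (-a) ≤ (h : ℝ) ^ (1 + a + b) * (h : ℝ) ^ (-a) :=
              mul_le_mul_of_nonneg_right h2 hma.le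
          _ = (h : ℝ) ^ b * h * ((h : ℝ) ^ (-a) * (h : ℝ) ^ a) := by rw [h5]; ring
          _ = (h : ℝ) ^ b * h := by rw [h6, mul_one]
      have h9 : (4 * C0 / c) * Λ * (h : ℝ) ^ (-a) = 4 / c * (Λ * (C0 * (h : ℝ) ^ (-a))) := by ring
      rw [h9, div_mul_eq_mul_div, div_le_iff₀ hc] at h8
      linarith
    exact (mul_le_mul_of_nonneg_left (hB h hhN) hΛ0.le).trans h7
  have e5 : c / 4 * (h : ℝ) ^ b * h ≤ 100 * 4 ^ L * G := by
    have h1 := mul_le_mul_of_nonneg_right e3 hh0.le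
    linarith
  have e6 : c / 4 ≤ 100 * 4 ^ L * G := by
    refine le_trans ?_ e5
    have : 1 ≤ (h : ℝ) ^ b * h := by nlinarith
    nlinarith
  -- conclusion
  have hGtop : gf {t | t ∈ WL L ∧ Λ ≤ (t.length : ℝ)} ≠ ⊤ := by
    intro htop
    rw [hG, htop, ENNReal.toReal_top, mul_zero] at e6
    linarith
  rw [← ENNReal.ofReal_toReal hGtop]
  apply ENNReal.ofReal_le_ofReal
  rw [← hG]
  have h4L : (4 : ℝ) ^ L = X * X := by
    rw [hX, ← mul_pow]
    norm_num
  have h3L : (2 : ℝ) ^ (-(3 * (L : ℝ))) = (X * X * X)⁻¹ := by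
    rw [Real.rpow_neg (by norm_num)]
    congr 1
    rw [mul_comm, Real.rpow_mul (by norm_num), Real.rpow_natCast, ← hX]
    norm_num [pow_succ]
  rw [h3L]
  rw [h4L] at e6
  have h400 : 400 / c ≤ X := by
    refine hL3.trans ?_
    have h1 : (L3 : ℝ) ≤ 2 ^ L3 := by exact_mod_cast (Nat.lt_two_pow_self (n := L3)).le
    refine h1.trans ?_
    rw [hX]
    exact pow_le_pow_right₀ (by norm_num) (by omega)
  rw [inv_le_iff_one_le_mul₀ (by positivity)]
  rw [div_le_iff₀ hc] at h400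
  have hG0 : 0 ≤ G := ENNReal.toReal_nonneg
  -- c / 4 ≤ 100 X² G, 400 ≤ X c
  have h7 : c ≤ 400 * (X * X * G) := by linarith
  have h8 : X * c ≤ X * (400 * (X * X * G)) := mul_le_mul_of_nonneg_left h7 hX0.le
  have h9 : X * (400 * (X * X * G)) = 400 * (X * X * X * G) := by ring
  linarith

/-- long walks from the weight of the bridges -/
theorem longWalks_of {a : ℝ} (ha : 0 ≤ a) (hB : ∃ C : ℝ, 0 < C ∧ ∀ h : ℕ, 1 ≤ h → uu h ≤ C * (h : ℝ) ^ (-a)) :
    LongWalks a := by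
  obtain ⟨C1, q, hC1, hq, hq1, hmean⟩ := mean_ge_of walls_hit lat_tail
  have h := longWalks_gen (b := 0) (c := 5 / 2) ha le_rfl (by norm_num) hC1 hq hq1 (fun h M hh hM => by
    rw [Real.rpow_zero, mul_one]
    exact hmean h M hh hM) hB
  rwa [add_zero] at h

end T2

end HexObs
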