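import Pool.Agent.T2.PowS
import Pool.Agent.T2.ExpS
import Pool.Agent.T2.AllN
import Pool.Agent.T2.Mean

/-!
T2: from the mean length to all n.
-/

set_option autoImplicit false

namespace HexObs

namespace T2

/-- mean length of the bridges at most C T ^ a: for every p < 2 / a and every n the mean squared end-to-end distance is
at least c n ^ p, and the walks that stay within distance c n ^ (p / 2) are stretched exponentially rare -/
theorem all_n {a C : ℝ} (ha : 1 ≤ a) (hC : 0 ≤ C) (h : MeanLen a C) {p : ℝ} (hp : 0 < p) (hpa : p * a < 2) :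
    (∃ c : ℝ, 0 < c ∧ ∀ n : ℕ, 1 ≤ n →
      c * (n : ℝ) ^ p ≤ (∑ l ∈ SawNu.WS SawNu.hexL n, ‖SawNu.phiTri l.sum‖ ^ 2) /
        ((SawNu.WS SawNu.hexL n).card : ℝ)) ∧
    ∃ c : ℝ, 0 < c ∧ ∀ n : ℕ, 1 ≤ n →
      (((SawNu.WS SawNu.hexL n).filter (fun l => SawNu.S4 SawNu.hexRot l ≤ c * (n : ℝ) ^ p)).card : ℝ) ≤
        c⁻¹ * Real.exp (-(n : ℝ) ^ c) * ((SawNu.WS SawNu.hexL n).card : ℝ) := by
  have ha0 : 0 < a := by linarith
  obtain ⟨q, hq1, hq2⟩ : ∃ q : ℝ, p < q ∧ q * a < 2 := by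
    have h1 : p < 2 / a := by rwa [lt_div_iff₀ ha0]
    obtain ⟨q, h2, h3⟩ := exists_between h1
    exact ⟨q, h2, by rwa [lt_div_iff₀ ha0] at h3⟩
  have hq0 : 0 < q := hp.trans hq1
  obtain ⟨β, hβ1, hβ2⟩ : ∃ β : ℝ, a < β ∧ q * β < 2 := by
    have h1 : a < 2 / q := by rw [lt_div_iff₀ hq0]; linarith
    obtain ⟨β, h2, h3⟩ := exists_between h1
    exact ⟨β, h2, by rw [lt_div_iff₀ hq0] at h3; linarith⟩
  obtain ⟨β0, hβ3, hβ4⟩ := exists_between hβ1
  have hA := exp_small (β0 := β0) (β := β) (by linarith) hβ4 (fun Q hQ => pow_small ha hC h hβ3 hQ)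
  have hpβ : p * β < 2 := lt_trans (mul_lt_mul_of_pos_right hq1 (by linarith)) hβ2
  refine ⟨superdiff_p hp hq1 (ball_exp_p (β := β) (by linarith) hq0 hβ2 hA), ball_exp_p (β := β) (by linarith) hp hpβ hA⟩

end T2

end HexObs
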