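import Mathlib

/-!
T2, module C2: two partitions of an interval.
-/

set_option autoImplicit false

namespace HexObs

namespace T2

open Finset

/-- The part of a step in a partition. -/
theorem part_of {k n : ℕ} {c : ℕ → ℕ} (h0 : c 0 = 0) (hn : c k = n) {t : ℕ} (ht : t < n) :
    ∃ p, p < k ∧ c p ≤ t ∧ t < c (p + 1) := by
  classical
  have hex : ∃ j, t < c j := ⟨k, by omega⟩
  have h1 := Nat.find_spec hex
  have h2 : Nat.find hex ≤ k := Nat.find_min' hex (by omega)
  have h3 : Nat.find hex ≠ 0 := by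
    intro h
    rw [h, h0] at h1
    omega
  obtain ⟨p, hp⟩ := Nat.exists_eq_succ_of_ne_zero h3
  refine ⟨p, by omega, ?_, ?_⟩
  · have := Nat.find_min hex (m := p) (by omega)
    omega
  · rw [hp] at h1
    exact h1

theorem two_partitions {n k0 k1 : ℕ} {c0 c1 : ℕ → ℕ} (h00 : c0 0 = 0) (h0n : c0 k0 = n) (h10 : c1 0 = 0)
    (h1n : c1 k1 = n) (hm0 : ∀ p, p < k0 → c0 p ≤ c0 (p + 1)) (hm1 : ∀ p, p < k1 → c1 p ≤ c1 (p + 1))
    {S0 S1 : Finset ℕ} {l B : ℝ} (hl : 0 ≤ l) (hB : 0 ≤ B)
    (hn0 : ∀ p, p < k0 → p ∉ S0 → (c0 (p + 1) : ℝ) - c0 p ≤ l)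
    (hn1 : ∀ p, p < k1 → p ∉ S1 → (c1 (p + 1) : ℝ) - c1 p ≤ l)
    (hs : ∀ p ∈ S0, ∀ q ∈ S1, p < k0 → q < k1 → max (c0 p) (c1 q) ≤ min (c0 (p + 1)) (c1 (q + 1)) →
      ((min (c0 (p + 1)) (c1 (q + 1)) : ℕ) : ℝ) - (max (c0 p) (c1 q) : ℕ) ≤ B) :
    (n : ℝ) ≤ (k0 + k1) * l + S0.card * S1.card * B := by
  classical
  set A0 : Finset ℕ := ((range k0).filter (fun p => p ∉ S0)).biUnion (fun p => Ico (c0 p) (c0 (p + 1))) with hA0
  set A1 : Finset ℕ := ((range k1).filter (fun q => q ∉ S1)).biUnion (fun q => Ico (c1 q) (c1 (q + 1))) with hA1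
  set A2 : Finset ℕ := (((S0.filter (fun p => p < k0)) ×ˢ (S1.filter (fun q => q < k1)))).biUnion
    (fun x => Ico (max (c0 x.1) (c1 x.2)) (min (c0 (x.1 + 1)) (c1 (x.2 + 1)))) with hA2
  have hsub : range n ⊆ A0 ∪ (A1 ∪ A2) := by
    intro t ht
    rw [mem_range] at ht
    obtain ⟨p, hp, hp1, hp2⟩ := part_of h00 h0n ht
    obtain ⟨q, hq, hq1, hq2⟩ := part_of h10 h1n ht
    rw [mem_union, mem_union]
    by_cases hpS : p ∈ S0
    · by_cases hqS : q ∈ S1
      · right; right
        rw [hA2, mem_biUnion]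
        refine ⟨(p, q), ?_, ?_⟩
        · rw [mem_product, mem_filter, mem_filter]
          exact ⟨⟨hpS, hp⟩, ⟨hqS, hq⟩⟩
        · rw [mem_Ico]
          exact ⟨max_le hp1 hq1, lt_min hp2 hq2⟩
      · right; left
        rw [hA1, mem_biUnion]
        exact ⟨q, by rw [mem_filter, mem_range]; exact ⟨hq, hqS⟩, by rw [mem_Ico]; exact ⟨hq1, hq2⟩⟩
    · left
      rw [hA0, mem_biUnion]
      exact ⟨p, by rw [mem_filter, mem_range]; exact ⟨hp, hpS⟩, by rw [mem_Ico]; exact ⟨hp1, hp2⟩⟩
  have hc0 : (A0.card : ℝ) ≤ k0 * l := by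
    calc (A0.card : ℝ) ≤ ((∑ p ∈ (range k0).filter (fun p => p ∉ S0), (Ico (c0 p) (c0 (p + 1))).card : ℕ) : ℝ) := by
          exact_mod_cast card_biUnion_le
      _ = ∑ p ∈ (range k0).filter (fun p => p ∉ S0), ((c0 (p + 1) : ℝ) - c0 p) := by
          rw [Nat.cast_sum]
          refine sum_congr rfl fun p hp => ?_
          rw [mem_filter, mem_range] at hp
          rw [Nat.card_Ico, Nat.cast_sub (hm0 p hp.1)]
      _ ≤ ∑ _p ∈ (range k0).filter (fun p => p ∉ S0), l := by
          refine sum_le_sum fun p hp => ?_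
          rw [mem_filter, mem_range] at hp
          exact hn0 p hp.1 hp.2
      _ = ((range k0).filter (fun p => p ∉ S0)).card * l := by rw [sum_const, nsmul_eq_mul]
      _ ≤ k0 * l := by
          refine mul_le_mul_of_nonneg_right ?_ hl
          exact_mod_cast (card_filter_le _ _).trans (by rw [card_range])
  have hc1 : (A1.card : ℝ) ≤ k1 * l := by
    calc (A1.card : ℝ) ≤ ((∑ p ∈ (range k1).filter (fun p => p ∉ S1), (Ico (c1 p) (c1 (p + 1))).card : ℕ) : ℝ) := by
          exact_mod_cast card_biUnion_le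
      _ = ∑ p ∈ (range k1).filter (fun p => p ∉ S1), ((c1 (p + 1) : ℝ) - c1 p) := by
          rw [Nat.cast_sum]
          refine sum_congr rfl fun p hp => ?_
          rw [mem_filter, mem_range] at hp
          rw [Nat.card_Ico, Nat.cast_sub (hm1 p hp.1)]
      _ ≤ ∑ _p ∈ (range k1).filter (fun p => p ∉ S1), l := by
          refine sum_le_sum fun p hp => ?_
          rw [mem_filter, mem_range] at hp
          exact hn1 p hp.1 hp.2
      _ = ((range k1).filter (fun p => p ∉ S1)).card * l := by rw [sum_const, nsmul_eq_mul]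
      _ ≤ k1 * l := by
          refine mul_le_mul_of_nonneg_right ?_ hl
          exact_mod_cast (card_filter_le _ _).trans (by rw [card_range])
  have hc2 : (A2.card : ℝ) ≤ S0.card * S1.card * B := by
    calc (A2.card : ℝ) ≤ ((∑ x ∈ ((S0.filter (fun p => p < k0)) ×ˢ (S1.filter (fun q => q < k1))),
          (Ico (max (c0 x.1) (c1 x.2)) (min (c0 (x.1 + 1)) (c1 (x.2 + 1)))).card : ℕ) : ℝ) := by
          exact_mod_cast card_biUnion_le
      _ ≤ ∑ _x ∈ ((S0.filter (fun p => p < k0)) ×ˢ (S1.filter (fun q => q < k1))), B := by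
          rw [Nat.cast_sum]
          refine sum_le_sum fun x hx => ?_
          rw [mem_product, mem_filter, mem_filter] at hx
          rw [Nat.card_Ico]
          rcases le_or_gt (max (c0 x.1) (c1 x.2)) (min (c0 (x.1 + 1)) (c1 (x.2 + 1))) with h | h
          · rw [Nat.cast_sub h]
            exact hs x.1 hx.1.1 x.2 hx.2.1 hx.1.2 hx.2.2 h
          · rw [Nat.sub_eq_zero_of_le h.le]
            simpa using hB
      _ = ((S0.filter (fun p => p < k0)).card * (S1.filter (fun q => q < k1)).card : ℕ) * B := by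
          rw [sum_const, nsmul_eq_mul, card_product]
      _ ≤ (S0.card * S1.card : ℕ) * B := by
          refine mul_le_mul_of_nonneg_right ?_ hB
          exact_mod_cast Nat.mul_le_mul (card_filter_le _ _) (card_filter_le _ _)
      _ = S0.card * S1.card * B := by push_cast; ring
  have hn : (n : ℝ) ≤ A0.card + (A1.card + A2.card) := by
    have h1 : n ≤ A0.card + (A1.card + A2.card) := by
      calc n = (range n).card := (card_range n).symm
        _ ≤ (A0 ∪ (A1 ∪ A2)).card := card_le_card hsub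
        _ ≤ A0.card + (A1 ∪ A2).card := card_union_le _ _
        _ ≤ A0.card + (A1.card + A2.card) := Nat.add_le_add_left (card_union_le _ _) _
    exact_mod_cast h1
  nlinarith [hn, hc0, hc1, hc2]

end T2

end HexObs
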