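import Pool.Agent.T2.Bimono
import Pool.Agent.T2.TwoPart
import Pool.Agent.T2.FrameT
import Pool.Agent.T2.NotSp
import Pool.Agent.SDN.Hyst

/-!
T2, C5: one step of the recursion: a walk of the scale b + μ is cut into pieces of the scale b and short pieces.
-/

set_option autoImplicit false

namespace HexObs

namespace T2

open Finset TS SDN

open scoped ENNReal

/-- the cut points: the start, the folds, the end -/
def cpt (n m : ℕ) (fo : ℕ → ℕ) (p : ℕ) : ℕ := if p = 0 then 0 else if p ≤ m + 1 then fo (p - 1) else n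

theorem cpt_zero (n m : ℕ) (fo : ℕ → ℕ) : cpt n m fo 0 = 0 := by
  simp [cpt]

theorem cpt_mid (n m : ℕ) (fo : ℕ → ℕ) {i : ℕ} (hi : i ≤ m) : cpt n m fo (i + 1) = fo i := by
  simp [cpt, hi]

theorem cpt_end (n m : ℕ) (fo : ℕ → ℕ) : cpt n m fo (m + 2) = n := by
  simp [cpt]

/-- a filtered list of a map is as long as the set of its indices -/
theorem card_filter_range {α : Type} (g : ℕ → α) (P : α → Bool) (k : ℕ) :
    (((List.range k).map g).filter P).length = ((Finset.range k).filter fun i => P (g i) = true).card := by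
  rw [List.filter_map, List.length_map]
  have h : ((Finset.range k).filter fun i => P (g i) = true).val = ↑((List.range k).filter (P ∘ g)) := by
    simp [Finset.filter, Finset.range, Multiset.range, Function.comp_def]
  rw [Finset.card_def, h, Multiset.coe_card]

open Classical in
/-- the pieces of the walk in one direction -/
theorem part_dir {w : List Bool} {b e f m0 J : ℕ} {lam S2 : ℝ} (dir : Bool) (hw : w ∈ SA) (hb : 1 ≤ b) (hef : e ≤ f)
    (hS2p : 0 ≤ S2)
    (hS2 : ∀ v, v <:+: w → v ∈ WL (f + 2) → (v.length : ℝ) ≤ S2)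
    (hbox : ∀ X h, X ∈ Brd h → h ≤ 2 ^ e → X.dropLast <:+: w → InBox X (2 ^ f))
    (hlf : ∀ dir m u fo, Lf dir b w m u fo → m ≤ m0 ∧ spc e lam w m fo ≤ J) :
    ∃ (k : ℕ) (c : ℕ → ℕ) (S : Finset ℕ), k ≤ m0 + 2 ∧ S.card ≤ J + 4 ∧ c 0 = 0 ∧ c k = w.length ∧
      (∀ p, p < k → c p ≤ c (p + 1)) ∧ (∀ p, p ≤ k → c p ≤ w.length) ∧
      (∀ p, p < k → p ∉ S → (c (p + 1) : ℝ) - c p ≤ 2 * S2 + lam + 4) ∧
      (∀ p, p < k → ∃ s : ℤ, (s = 1 ∨ s = -1) ∧ ∀ i j, c p ≤ i → i ≤ j → j ≤ c (p + 1) →
        s * lvl dir (vx oo up w i) - s * lvl dir (vx oo up w j) < RR b) := by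
  obtain ⟨m, u, fo, hL⟩ := lf_exists dir b w
  obtain ⟨hm, hJ⟩ := hlf dir m u fo hL
  have hL' := hL
  unfold Lf at hL'
  have hmono : ∀ d j, j + d = m → fo j ≤ fo m := by
    intro d
    induction d with
    | zero =>
      intro j hj
      have h1 : j = m := by omega
      rw [h1]
    | succ d ih =>
      intro j hj
      have h1 := ih (j + 1) (by omega)
      have h2 := hL'.lt j (by omega)
      omega
  have hle : ∀ j, j ≤ m → fo j ≤ w.length := by
    intro j hj
    have h1 := hmono (m - j) j (by omega)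
    have h2 := hL'.le
    omega
  let S1 : Finset ℕ := (Finset.range (m - 2)).filter fun i => lw w (fo (1 + i)) (fo (1 + i + 1)) ∈ Sp e lam
  have hS1c : S1.card = spc e lam w m fo := by
    unfold spc lws
    rw [card_filter_range]
    apply congrArg
    ext i
    simp [S1]
  refine ⟨m + 2, cpt w.length m fo, ({0, 1, m, m + 1} : Finset ℕ) ∪ S1.image (fun i => i + 2), by omega, ?_,
    cpt_zero _ _ _, cpt_end _ _ _, ?_, ?_, ?_, ?_⟩
  · calc _ ≤ ({0, 1, m, m + 1} : Finset ℕ).card + (S1.image (fun i => i + 2)).card := Finset.card_union_le _ _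
      _ ≤ 4 + S1.card := by
        apply Nat.add_le_add
        · exact Finset.card_le_four
        · exact Finset.card_image_le
      _ ≤ J + 4 := by omega
  · intro p hp
    rcases Nat.eq_zero_or_pos p with h0 | h0
    · subst h0
      rw [cpt_zero]
      omega
    · obtain ⟨i, rfl⟩ : ∃ i, p = i + 1 := ⟨p - 1, by omega⟩
      rw [cpt_mid _ _ _ (by omega)]
      by_cases h1 : i + 1 ≤ m
      · rw [cpt_mid _ _ _ h1]
        have := hL'.lt i (by omega)
        omega
      · have h2 : i = m := by omega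
        subst h2
        rw [cpt_end]
        exact hle _ le_rfl
  · intro p hp
    rcases Nat.eq_zero_or_pos p with h0 | h0
    · subst h0
      rw [cpt_zero]
      omega
    · obtain ⟨i, rfl⟩ : ∃ i, p = i + 1 := ⟨p - 1, by omega⟩
      by_cases h1 : i ≤ m
      · rw [cpt_mid _ _ _ h1]
        exact hle _ h1
      · have h2 : i + 1 = m + 2 := by omega
        rw [h2, cpt_end]
  · intro p hp hpS
    simp only [Finset.mem_union, Finset.mem_insert, Finset.mem_singleton, Finset.mem_image, not_or, not_exists,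
      not_and] at hpS
    obtain ⟨⟨h0, h1, h2, h3⟩, h4⟩ := hpS
    obtain ⟨i, rfl⟩ : ∃ i, p = i + 2 := ⟨p - 2, by omega⟩
    have h5 : lw w (fo (i + 1)) (fo (i + 1 + 1)) ∉ Sp e lam := by
      intro h6
      refine h4 i ?_ rfl
      simp only [S1, Finset.mem_filter, Finset.mem_range]
      refine ⟨by omega, ?_⟩
      have h7 : 1 + i = i + 1 := by omega
      rw [h7]
      exact h6
    rw [cpt_mid _ _ _ (show i + 1 ≤ m by omega), cpt_mid _ _ _ (show i + 2 ≤ m by omega)]
    exact not_special hw hb hL (i := i + 1) (by omega) (by omega) h5 hef hbox hS2 hS2p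
  · intro p hp
    rcases Nat.eq_zero_or_pos p with h0 | h0
    · subst h0
      refine ⟨1, Or.inl rfl, ?_⟩
      intro i j hi hij hj
      rw [zero_add, show (1 : ℕ) = 0 + 1 from rfl, cpt_mid _ _ _ (by omega)] at hj
      have h1 := hL'.start i j (by omega) hj
      rw [one_mul, one_mul]
      exact h1
    · obtain ⟨i, rfl⟩ : ∃ i, p = i + 1 := ⟨p - 1, by omega⟩
      by_cases h1 : i + 1 ≤ m
      · refine ⟨if Even (u + i) then -1 else 1, ?_, ?_⟩
        · by_cases h2 : Even (u + i)
          · right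
            rw [if_pos h2]
          · left
            rw [if_neg h2]
        · intro x y hx hxy hy
          rw [cpt_mid _ _ _ (by omega)] at hx
          rw [cpt_mid _ _ _ h1] at hy
          have h2 := hL'.small i (by omega) x y hx hxy hy
          unfold Tight.sg at h2
          by_cases h3 : Even (u + i)
          · rw [if_pos h3, if_pos h3] at h2
            rw [if_pos h3]
            linarith
          · rw [if_neg h3, if_neg h3] at h2
            rw [if_neg h3]
            linarith
      · have h2 : i = m := by omega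
        subst h2
        refine ⟨1, Or.inl rfl, ?_⟩
        intro x y hx hxy hy
        rw [cpt_mid _ _ _ le_rfl] at hx
        rw [cpt_end] at hy
        have h1 := hL'.fin x y hx (by omega) (by omega) hy
        rw [one_mul, one_mul]
        exact h1

/-- WL is monotone in the scale -/
theorem WL_mono' {p q : ℕ} (h : p ≤ q) : WL p ⊆ WL q := by
  intro t ht
  refine ⟨ht.1, fun i hi dir => (ht.2 i hi dir).trans ?_⟩
  exact_mod_cast Nat.pow_le_pow_right (by norm_num) h

theorem one_step {w : List Bool} {b μ e f m0 J : ℕ} {lam S1 S2 : ℝ} (hw : w ∈ WL (b + μ)) (hb : 5 ≤ b) (hef : e ≤ f)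
    (hlam : 0 ≤ lam) (hS1p : 0 ≤ S1) (hS2p : 0 ≤ S2)
    (hS1 : ∀ v, v <:+: w → v ∈ WL (b + 4) → (v.length : ℝ) ≤ S1)
    (hS2 : ∀ v, v <:+: w → v ∈ WL (f + 2) → (v.length : ℝ) ≤ S2)
    (hbox : ∀ X h, X ∈ Brd h → h ≤ 2 ^ e → X.dropLast <:+: w → InBox X (2 ^ f))
    (hlf : ∀ dir m u fo, Lf dir b w m u fo → m ≤ m0 ∧ spc e lam w m fo ≤ J) :
    (w.length : ℝ) ≤ 2 * (m0 + 2) * (2 * S2 + lam + 4) + (J + 4) ^ 2 * (2 ^ (μ + 5) * (S1 + 1)) := by
  obtain ⟨k0, c0, T0, hk0, hT0, h00, h0n, hm0, hl0, hn0, hs0⟩ :=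
    part_dir (lam := lam) false hw.1 (by omega) hef hS2p hS2 hbox hlf
  obtain ⟨k1, c1, T1, hk1, hT1, h10, h1n, hm1, hl1, hn1, hs1⟩ :=
    part_dir (lam := lam) true hw.1 (by omega) hef hS2p hS2 hbox hlf
  have hB : (0 : ℝ) ≤ 2 ^ (μ + 5) * (S1 + 1) := by positivity
  have hpw : (32 : ℤ) ≤ 2 ^ b := by
    calc (32 : ℤ) = 2 ^ 5 := by norm_num
      _ ≤ 2 ^ b := by exact_mod_cast Nat.pow_le_pow_right (by norm_num) hb
  have hmu : (1 : ℤ) ≤ 2 ^ μ := by exact_mod_cast Nat.one_le_two_pow
  have hV : ∀ dir i j, i ≤ w.length → j ≤ w.length →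
      lvl dir (vx oo up w i) - lvl dir (vx oo up w j) ≤ ((2 ^ (μ + 2) : ℕ) : ℤ) * RR b := by
    intro dir i j hi hj
    have h1 := abs_le.mp (hw.2 i hi dir)
    have h2 := abs_le.mp (hw.2 j hj dir)
    unfold row at h1 h2
    rw [pow_add] at h1 h2
    have h3 : ((2 ^ (μ + 2) : ℕ) : ℤ) * RR b = 12 * (2 ^ b * 2 ^ μ) - 8 * 2 ^ μ := by
      unfold RR
      push_cast
      ring
    rw [h3]
    have h4 : 8 * (2 : ℤ) ^ μ + 6 ≤ 6 * (2 ^ b * 2 ^ μ) := by nlinarith
    omega
  have key := two_partitions (n := w.length) h00 h0n h10 h1n hm0 hm1 (S0 := T0) (S1 := T1)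
    (l := 2 * S2 + lam + 4) (B := 2 ^ (μ + 5) * (S1 + 1)) (by positivity) hB hn0 hn1 (by
      intro p hp q hq hpk hqk hxy
      obtain ⟨s0, hs0', hq0⟩ := hs0 p hpk
      obtain ⟨s1, hs1', hq1⟩ := hs1 q hqk
      set x := max (c0 p) (c1 q) with hx
      set y := min (c0 (p + 1)) (c1 (q + 1)) with hy
      have hx0 : c0 p ≤ x := le_max_left _ _
      have hx1 : c1 q ≤ x := le_max_right _ _
      have hy0 : y ≤ c0 (p + 1) := min_le_left _ _
      have hy1 : y ≤ c1 (q + 1) := min_le_right _ _
      have hyn : y ≤ w.length := hy0.trans (hl0 _ (by omega))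
      have hR : 1 ≤ RR b := by unfold RR; omega
      have h := bimono_cut (f0 := fun i => lvl false (vx oo up w i)) (f1 := fun i => lvl true (vx oo up w i))
        (R := RR b) hR (V := 2 ^ (μ + 2)) (x := x) (y := y) hxy hs0' hs1'
        (fun i j hi hij hj => hq0 i j (hx0.trans hi) hij (hj.trans hy0))
        (fun i j hi hij hj => hq1 i j (hx1.trans hi) hij (hj.trans hy1))
        (fun i j _ hi _ hj => hV false i j (by omega) (by omega))
        (fun i j _ hi _ hj => hV true i j (by omega) (by omega)) (S := S1) (by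
          intro x' y' hx' hxy' hy' hf0 hf1
          have h1 : (w.drop x').take (y' - x') ∈ WL (b + 1 + 2) := by
            apply infix_WL hw.1 hxy' (by omega)
            intro dir i j hi hi' hj hj'
            have h2 : lvl dir (vx oo up w i) - lvl dir (vx oo up w j) < 2 * RR b := by
              cases dir
              · exact hf0 i j hi hi' hj hj'
              · exact hf1 i j hi hi' hj hj'
            unfold row
            unfold RR at h2
            rw [pow_succ]
            omega
          have h3 : (w.drop x').take (y' - x') <:+: w :=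
            (List.take_prefix _ _).isInfix.trans (List.drop_suffix _ _).isInfix
          have h4 := hS1 _ h3 (WL_mono' (by omega) h1)
          have h5 : ((w.drop x').take (y' - x')).length = y' - x' := by
            rw [List.length_take, List.length_drop]
            omega
          rw [h5, Nat.cast_sub hxy'] at h4
          exact h4)
      refine h.trans ?_
      have h6 : (1 : ℝ) ≤ 2 ^ μ := one_le_pow₀ (by norm_num)
      have h7 : (0 : ℝ) ≤ S1 + 1 := by positivity
      have h8 : (2 * ((2 ^ (μ + 2) : ℕ) : ℝ) + 1) ≤ 2 ^ (μ + 5) := by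
        push_cast
        rw [pow_add, pow_add]
        nlinarith
      exact mul_le_mul_of_nonneg_right h8 h7)
  refine key.trans ?_
  have hk : (k0 : ℝ) + k1 ≤ 2 * (m0 + 2) := by
    have : k0 + k1 ≤ 2 * (m0 + 2) := by omega
    exact_mod_cast this
  have hc0 : (T0.card : ℝ) ≤ J + 4 := by exact_mod_cast hT0
  have hc1 : (T1.card : ℝ) ≤ J + 4 := by exact_mod_cast hT1
  apply add_le_add
  · exact mul_le_mul_of_nonneg_right hk (by positivity)
  · rw [sq]
    apply mul_le_mul_of_nonneg_right _ hB
    exact mul_le_mul hc0 hc1 (by positivity) (by positivity)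

end T2

end HexObs
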