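import Pool.Agent.T2.OneStep
import Pool.Agent.T2.Infix
import Pool.Agent.T2.Few
import Pool.Agent.T2.FewSp
import Pool.Agent.T2.RecNum

/-!
T2, module E: longest infixes in boxes, bad infixes, one step of the recursion.
-/

set_option autoImplicit false

namespace HexObs

namespace T2

open Finset TS SDN

open scoped ENNReal

namespace PowS

open Classical in
/-- length of the longest infix in the box of size 2 ^ l -/
noncomputable def SS (t : List Bool) (l : ℕ) : ℕ :=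
  Nat.findGreatest (fun k => ∃ v, v <:+: t ∧ v ∈ WL l ∧ v.length = k) t.length

lemma SS_ge {t v : List Bool} {l : ℕ} (hv : v <:+: t) (hw : v ∈ WL l) : v.length ≤ SS t l := by
  classical
  unfold SS
  exact Nat.le_findGreatest hv.length_le ⟨v, hv, hw, rfl⟩

lemma nil_WL {t : List Bool} (ht : t ∈ SA) (l : ℕ) : [] ∈ WL l := by
  have h0 : ([] : List Bool) ∈ SA := by
    have := SA_take ht 0
    rwa [List.take_zero] at this
  refine ⟨h0, fun i hi dir => ?_⟩
  have hi0 : i = 0 := Nat.le_zero.1 hi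
  rw [hi0]
  have h1 : row dir (vx oo up [] 0) = 0 := by
    cases dir <;> rfl
  rw [h1, abs_zero]
  positivity

lemma SS_ex {t : List Bool} (ht : t ∈ SA) (l : ℕ) : ∃ v, v <:+: t ∧ v ∈ WL l ∧ v.length = SS t l := by
  classical
  unfold SS
  refine Nat.findGreatest_spec (P := fun k => ∃ v, v <:+: t ∧ v ∈ WL l ∧ v.length = k) (m := 0) (Nat.zero_le _) ?_
  exact ⟨[], List.nil_infix, nil_WL ht l, rfl⟩

/-- the three kinds of bad infixes -/
def B1 (C1 : ℝ) (L b μ : ℕ) (dir : Bool) : Set (List Bool) :=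
  {t | t ∈ WL (b + μ) ∧ ∃ m u e, Lf dir b t m u e ∧ C1 * L < m}

def B2 (η C1 lam : ℝ) (L b μ J : ℕ) (dir : Bool) : Set (List Bool) :=
  {t | t ∈ WL (b + μ) ∧ ∃ m u e, Lf dir b t m u e ∧ m ≤ C1 * L ∧ J < spc (ee η b) lam t m e}

def B3 (η : ℝ) (b : ℕ) : Set (List Bool) :=
  {v | ∃ h X, X ∈ Brd h ∧ h ≤ 2 ^ (ee η b) ∧ ¬ InBox X (2 ^ (ff η b)) ∧ v = X.dropLast}

/-- all bad infixes of the scale b -/
def BB (η C1 lam : ℝ) (L b μ J : ℕ) : Set (List Bool) :=
  (B1 C1 L b μ false ∪ B1 C1 L b μ true) ∪ ((B2 η C1 lam L b μ J false ∪ B2 η C1 lam L b μ J true) ∪ B3 η b)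

lemma gf_BB {η C1 lam : ℝ} {L b μ J : ℕ} {x : ℝ≥0∞} (h1 : ∀ dir, gf (B1 C1 L b μ dir) ≤ x)
    (h2 : ∀ dir, gf (B2 η C1 lam L b μ J dir) ≤ x) (h3 : gf (B3 η b) ≤ x) : gf (BB η C1 lam L b μ J) ≤ 5 * x := by
  unfold BB
  refine (gf_union_le _ _).trans ?_
  refine (add_le_add (gf_union_le _ _) ((gf_union_le _ _).trans (add_le_add (gf_union_le _ _) le_rfl))).trans ?_
  refine (add_le_add (add_le_add (h1 _) (h1 _)) (add_le_add (add_le_add (h2 _) (h2 _)) h3)).trans ?_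
  apply le_of_eq
  ring

/-- the recursion for a walk without bad infixes -/
lemma step {η C1 lam : ℝ} (hη : 0 < η) (hC1 : 0 < C1) (hlam : 0 ≤ lam) {L b μ J : ℕ} (hb : 5 ≤ b) {t : List Bool}
    (ht : t ∈ SA) (hgood : ∀ w, w <:+: t → w ∉ BB η C1 lam L b μ J) :
    (SS t (b + μ) : ℝ) ≤ 2 * (C1 * L + 2) * (2 * (SS t (ff η b + 2) : ℝ) + lam + 4) +
      ((J : ℝ) + 4) ^ 2 * (2 ^ (μ + 5) * ((SS t (b + 4) : ℝ) + 1)) := by
  obtain ⟨w, hw1, hw2, hw3⟩ := SS_ex ht (b + μ)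
  have hef : ee η b ≤ ff η b := by
    unfold ee ff
    have h1 : ⌊η * b⌋₊ ≤ ⌊2 * η * b⌋₊ := by
      apply Nat.floor_le_floor
      have : (0 : ℝ) ≤ η * b := by positivity
      linarith
    omega
  have key := one_step (m0 := ⌊C1 * L⌋₊) (J := J) (S1 := (SS t (b + 4) : ℝ)) (S2 := (SS t (ff η b + 2) : ℝ)) (e := ee η b)
    (f := ff η b) (lam := lam) hw2 hb hef hlam (Nat.cast_nonneg _) (Nat.cast_nonneg _)
    (fun v hv hvw => by exact_mod_cast SS_ge (hv.trans hw1) hvw)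
    (fun v hv hvw => by exact_mod_cast SS_ge (hv.trans hw1) hvw)
    (fun X h hX hh hXw => by
      by_contra hcon
      exact hgood _ (hXw.trans hw1) (Or.inr (Or.inr ⟨h, X, hX, hh, hcon, rfl⟩)))
    (fun dir m u fo hL => by
      have hm : (m : ℝ) ≤ C1 * L := by
        by_contra hcon
        push Not at hcon
        have h1 : w ∈ B1 C1 L b μ dir := ⟨hw2, m, u, fo, hL, hcon⟩
        cases dir with
        | false => exact hgood w hw1 (Or.inl (Or.inl h1))
        | true => exact hgood w hw1 (Or.inl (Or.inr h1))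
      refine ⟨Nat.le_floor hm, ?_⟩
      by_contra hcon
      push Not at hcon
      have h1 : w ∈ B2 η C1 lam L b μ J dir := ⟨hw2, m, u, fo, hL, hm, hcon⟩
      cases dir with
      | false => exact hgood w hw1 (Or.inr (Or.inl (Or.inl h1)))
      | true => exact hgood w hw1 (Or.inr (Or.inl (Or.inr h1))))
  rw [← hw3]
  refine key.trans ?_
  have h1 : ((⌊C1 * L⌋₊ : ℕ) : ℝ) ≤ C1 * L := Nat.floor_le (by positivity)
  have h2 : (0 : ℝ) ≤ 2 * (SS t (ff η b + 2) : ℝ) + lam + 4 := by positivity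
  have h3 : 2 * (((⌊C1 * L⌋₊ : ℕ) : ℝ) + 2) * (2 * (SS t (ff η b + 2) : ℝ) + lam + 4) ≤
      2 * (C1 * L + 2) * (2 * (SS t (ff η b + 2) : ℝ) + lam + 4) :=
    mul_le_mul_of_nonneg_right (by linarith) h2
  linarith

end PowS

end T2

end HexObs
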