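import Pool.Agent.T2.RecNum

/-!
UP, module D': the numbers of the recursion, thresholds of slope one.
-/

set_option autoImplicit false

namespace HexObs

namespace T2

/-- D': the numbers of the recursion, thresholds of slope one -/
theorem rec_num_w {s κ η C1 : ℝ} {J1 : ℕ} (hs : 0 < s) (hs1 : s ≤ 1) (hκ : 0 < κ) (hκ1 : κ ≤ 1 / 8) (hη : 0 < η)
    (hη1 : η ≤ 1 / 8) (hC1 : 0 < C1) : ∃ μ L0 : ℕ, 6 ≤ μ ∧ ∀ (L : ℕ) (τ : ℝ) (S : ℕ → ℝ), L0 ≤ L → 0 ≤ τ →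
      (∀ l, 0 ≤ S l) → (∀ l, S l ≤ 100 * 4 ^ l) →
      (∀ b : ℕ, κ * L ≤ b → b + μ ≤ L → S (b + μ) ≤ 2 * (C1 * L + 2) * (2 * S (ff η b + 2) +
        (2 : ℝ) ^ (((b + μ : ℕ) : ℝ) + τ * L) + 4) +
        ((J1 * (μ + 1) : ℕ) + 4) ^ 2 * (2 ^ (μ + 5) * (S (b + 4) + 1))) →
      ∀ l : ℕ, l ≤ L → S l ≤ (2 : ℝ) ^ ((1 + s) * l + τ * L + 3 * κ * L) := by
  obtain ⟨μ, L0, hμ, h⟩ := RN.gen (J1 := J1) (show 1 < 1 + s by linarith) (by linarith) hκ hη hη1 hC1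
  refine ⟨μ, L0, hμ, fun L τ S hL hτ _ hS4 hrec => h L τ S hL hτ hS4 (fun b hb hbL => ?_)⟩
  refine (hrec b hb hbL).trans ?_
  have h1 : (2 : ℝ) ^ (((b + μ : ℕ) : ℝ) + τ * L) ≤ (2 : ℝ) ^ ((1 + s) * ((b + μ : ℕ) : ℝ) + τ * L) := by
    apply Real.rpow_le_rpow_of_exponent_le (by norm_num)
    have h2 : 0 ≤ s * ((b + μ : ℕ) : ℝ) := by positivity
    linarith
  gcongr

end T2

end HexObs
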