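import Pool.Agent.T2.UpDefs
import Pool.Agent.SDN.LeafW
import Pool.Agent.SDN.Dim1Defs

/-!
UP, U6a: one of few leaves is tall (the first and the last leaf included).
-/

set_option autoImplicit false

namespace HexObs

namespace T2

open Finset TS SDN

open scoped ENNReal

/-- a part of a walk that rises from its lowest to its highest level contains a bridge of nearly the same height -/
theorem trim {D : Pt} (hD : D ∈ dirs) {w : List Bool} (hw : w ∈ SA) {a b : ℕ} (hb : b ≤ w.length) (hab : a < b)
    (hlo : ∀ i, a < i → i ≤ b → xD D w a < xD D w i) (hbig : xD D w a + 10 ≤ xD D w b) {R : ℤ}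
    (hR : ∀ i i', a ≤ i → i ≤ i' → i' ≤ b → xD D w i - xD D w i' < R) :
    ∃ X h, X ∈ Brd h ∧ (∀ i i', i ≤ i' → i' ≤ X.length → lev X i - lev X i' < R) ∧
      xD D w b - xD D w a ≤ 3 * h + 3 ∧ X.dropLast <:+: w := by
  -- the start
  obtain ⟨f, hf0, hf1, hfb, hfD, hfl, hfs⟩ : ∃ f, a ≤ f ∧ f ≤ a + 1 ∧ f < b ∧ dx up w f = D ∧
      xD D w f ≤ xD D w a + 1 ∧ ∀ i, f < i → i ≤ b → xD D w f < xD D w i := by
    have h1 := hlo (a + 1) (by omega) (by omega)
    have hstep := xD_step_le hD w a
    have hne : a + 1 ≠ b := by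
      intro h
      rw [← h] at hbig
      omega
    rcases cl_cases hD w a with hc | hc
    · rcases step_pos hD hc with ⟨h2, h3⟩ | h3
      · exact ⟨a, le_rfl, by omega, hab, h2, by omega, hlo⟩
      · omega
    · rcases step_neg hD hc with ⟨h2, h3⟩ | h3
      · omega
      · have hc' : cl (dx up w (a + 1)) = cl D := by
          have := cl_step w a
          rw [hc, neg_neg] at this
          exact this
        rcases step_pos hD hc' with ⟨h4, h5⟩ | h5
        · refine ⟨a + 1, by omega, le_rfl, by omega, h4, by omega, ?_⟩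
          intro i hi hib
          refine strict_D hD h4 (fun k k1 k2 => ?_) (by omega) hi hib
          have := hlo k (by omega) k2
          omega
        · have := hlo (a + 1 + 1) (by omega) (by omega)
          omega
  -- the frame
  obtain ⟨u, hu⟩ : ∃ u, u = rotTo up D := ⟨_, rfl⟩
  have hu1 : mulE u up = D := by
    rw [hu]
    exact rotTo_apply D upd
  have hu2 : nrm u = 1 := by
    rw [hu]
    exact nrm_rotTo upd hD
  obtain ⟨q, hq⟩ : ∃ q, q = w.drop f := ⟨_, rfl⟩
  have hql : q.length + f = w.length := by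
    rw [hq, List.length_drop]
    omega
  have hvt : ∀ i, vx oo up w (f + i) = vx oo up w f + mulE u (vx oo up q i) := by
    intro i
    rw [vx_drop, hfD, ← hu1, vx_mulE u oo, ← hq]
    congr 2
    exact sub_zero _
  have hlq : ∀ i, lev q i = xD D w (f + i) - xD D w f := by
    intro i
    have e1 : xD D w (f + i) = xD D w f + ip (mulE u (vx oo up q i)) D := by
      unfold xD
      rw [hvt, ip_add_left]
    have e2 : ip (mulE u (vx oo up q i)) D = lev q i := by
      rw [← hu1, ip_mulE, hu2, one_mul]
      rfl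
    rw [e1, e2]
    ring
  have hinj : ∀ i k, i < k → k ≤ q.length → vx oo up q i ≠ vx oo up q k := by
    intro i k hik hk heq
    refine hw.inj (f + i) (f + k) (by omega) (by omega) ?_
    rw [hvt i, hvt k, heq]
  -- the height
  obtain ⟨h, hh⟩ : ∃ h : ℕ, (h : ℤ) = (xD D w b - xD D w f) / 3 := ⟨((xD D w b - xD D w f) / 3).toNat, by omega⟩
  have hh1 : 1 ≤ h := by omega
  obtain ⟨n, hn, hmin⟩ : ∃ n, 3 * (h : ℤ) ≤ lev q n ∧ ∀ k, k < n → lev q k < 3 * (h : ℤ) := by
    classical
    have hex : ∃ n, 3 * (h : ℤ) ≤ lev q n := by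
      refine ⟨b - f, ?_⟩
      rw [hlq, show f + (b - f) = b by omega]
      omega
    exact ⟨Nat.find hex, Nat.find_spec hex, fun k hk => not_le.1 (Nat.find_min hex hk)⟩
  have hnb : f + n ≤ b := by
    by_contra hc
    have h1 := hmin (b - f) (by omega)
    rw [hlq, show f + (b - f) = b by omega] at h1
    omega
  have hn1 : 1 ≤ n := by
    by_contra hc
    have h0 : n = 0 := by omega
    rw [h0, hlq, add_zero] at hn
    omega
  obtain ⟨k, rfl⟩ : ∃ k, n = k + 1 := ⟨n - 1, by omega⟩
  have hk := hmin k (by omega)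
  have hodd : ¬ Even k := by
    intro he
    have h1 := lev_mod q k
    rw [if_pos he] at h1
    have h2 := lev_succ q k
    rcases step_even upd q he with ⟨_, h3⟩ | ⟨_, h3⟩ | ⟨_, h3⟩ <;> rw [h3] at h2 <;> omega
  have hkl : lev q (k + 1) = 3 * (h : ℤ) := by
    have h1 := lev_mod q k
    rw [if_neg hodd] at h1
    have h2 := lev_succ q k
    rcases step_odd upd q hodd with ⟨_, h3⟩ | ⟨_, h3⟩ | ⟨_, h3⟩ <;> rw [h3] at h2 <;> omega
  obtain ⟨c, hc⟩ : ∃ c : Bool, dx up q k = turn c up := by
    rcases step_odd upd q hodd with ⟨hd, hip⟩ | ⟨hd, hip⟩ | ⟨hd, hip⟩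
    · exfalso
      have hs := lev_succ q k
      rw [hip] at hs
      linarith
    · exact ⟨true, hd⟩
    · exact ⟨false, hd⟩
  have htk : (q.take k).length = k := by
    rw [List.length_take]
    omega
  have hqs : q = q.take k ++ q.drop k := (List.take_append_drop _ q).symm
  have hXl : (q.take k ++ [!c]).length = k + 1 := by
    rw [List.length_append, htk]
    rfl
  have hXv : ∀ i, i ≤ k + 1 → vx oo up (q.take k ++ [!c]) i = vx oo up q i := by
    intro i hi
    have e1 : vx oo up (q.take k ++ [!c]) i = vx oo up (q.take k) i := vx_append (by omega)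
    have e2 : vx oo up (q.take k ++ q.drop k) i = vx oo up (q.take k) i := vx_append (by omega)
    rw [← hqs] at e2
    rw [e1, e2]
  have hXlev : ∀ i, i ≤ k + 1 → lev (q.take k ++ [!c]) i = lev q i := by
    intro i hi
    unfold lev
    rw [hXv i hi]
  have hXd : dx up (q.take k ++ [!c]) (k + 1) = up := by
    have e1 : dx up (q.take k ++ [!c]) k = dx up (q.take k) k := dx_append (by omega)
    have e2 : dx up (q.take k ++ q.drop k) k = dx up (q.take k) k := dx_append (by omega)
    rw [← hqs] at e2
    have e3 : tf (q.take k ++ [!c]) k = !c := by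
      have := tf_append_right (t := q.take k) (s := [!c]) 0
      rw [htk, add_zero] at this
      rw [this]
      rfl
    rw [dx_succ, e3, e1, ← e2, hc, turn_turn]
  refine ⟨q.take k ++ [!c], h, mem_Brd.2 ⟨?_, ?_, ?_, ?_⟩, ?_, by omega, ?_⟩
  · intro i h1 h2
    rw [hXl] at h2
    rw [hXlev i h2, hlq i]
    have h3 := hfs (f + i) (by omega) (by omega)
    refine ⟨by omega, ?_⟩
    rcases Nat.lt_or_ge i (k + 1) with h4 | h4
    · have := hmin i h4
      rw [hlq] at this
      omega
    · have h5 : i = k + 1 := by omega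
      rw [← hlq, h5, hkl]
  · intro i j hij hj
    rw [hXl] at hj
    rw [hXv i (by omega), hXv j hj]
    exact hinj i j hij (by omega)
  · rw [hXl]
    exact hXd
  · rw [hXl, hXlev _ le_rfl, hkl]
  · intro i i' h1 h2
    rw [hXl] at h2
    rw [hXlev i (by omega), hXlev i' h2, hlq, hlq]
    have := hR (f + i) (f + i') (by omega) (by omega) (by omega)
    omega
  · rw [List.dropLast_concat, hq]
    exact (List.take_prefix _ _).isInfix.trans (List.drop_suffix _ _).isInfix

theorem tall {dir : Bool} {b m u J L : ℕ} {w : List Bool} {fo : ℕ → ℕ} (hw : w ∈ SA) (hb : 1 ≤ b)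
    (hL : Lf dir b w m u fo) (hm : m < J) {i : ℕ} (hi : i ≤ w.length) (hE : (2 : ℤ) ^ L ≤ |row dir (vx oo up w i)|)
    (hbL : b + J + 10 ≤ L) :
    ∃ X h, X ∈ Brd h ∧ X ∈ CL (b + 1) ∧ 2 ^ L ≤ 8 * J * h ∧ X.dropLast <:+: w := by
  have hL' := hL
  unfold Lf at hL'
  set g : ℕ → ℤ := fun i => lvl dir (vx oo up w i) with hg
  have hg0 : g 0 = 0 := by
    rw [hg]
    show ip oo (hd dir) = 0
    cases dir <;> decide
  have hpb : (1 : ℤ) ≤ 2 ^ b := by exact_mod_cast Nat.one_le_two_pow
  have hJ0 : (0 : ℤ) < J := by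
    have : 0 < J := by omega
    exact_mod_cast this
  have hpL : 1024 * ((2 : ℤ) ^ b * J) ≤ 2 ^ L := by
    have h1 : 2 ^ (b + J + 10) ≤ 2 ^ L := Nat.pow_le_pow_right (by norm_num) hbL
    have h2 : J ≤ 2 ^ J := Nat.lt_two_pow_self.le
    have h3 : 1024 * (2 ^ b * J) ≤ 2 ^ L := by
      calc 1024 * (2 ^ b * J) ≤ 1024 * (2 ^ b * 2 ^ J) := by gcongr
        _ = 2 ^ (b + J + 10) := by
          rw [pow_add, pow_add]
          ring
        _ ≤ 2 ^ L := h1
    exact_mod_cast h3
  by_cases hex : ∃ j, j < m ∧ 3 * (2 : ℤ) ^ L ≤ 8 * J * (|g (fo (j + 1)) - g (fo j)| - 3)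
  · -- the tall leaf
    obtain ⟨j, hj, hH⟩ := hex
    have hbig := hL'.big j hj
    have hlt := hL'.lt j hj
    have hle : fo (j + 1) ≤ w.length := by
      have h1 : ∀ d k, k + d = m → fo k ≤ fo m := by
        intro d
        induction d with
        | zero =>
          intro k hk
          have h1 : k = m := by omega
          rw [h1]
        | succ d ih =>
          intro k hk
          have h1 := ih (k + 1) (by omega)
          have h2 := hL'.lt k (by omega)
          omega
      have h2 := h1 (m - (j + 1)) (j + 1) (by omega)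
      have h3 := hL'.le
      omega
    have hx : ∀ l, xD (dD dir (u + j)) w l = Tight.sg (u + j) (g l) := fun l => xD_dD _ _ _ _
    have habs : |g (fo (j + 1)) - g (fo j)| = xD (dD dir (u + j)) w (fo (j + 1)) - xD (dD dir (u + j)) w (fo j) := by
      rw [hx, hx]
      have hR0 : 0 ≤ RR b := by
        unfold RR
        omega
      have h1 : 0 ≤ Tight.sg (u + j) (g (fo (j + 1))) - Tight.sg (u + j) (g (fo j)) := hR0.trans hbig
      unfold Tight.sg at h1 ⊢
      split_ifs at h1 ⊢
      · rw [abs_of_nonpos (by omega)]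
        ring
      · rw [abs_of_nonneg h1]
    have h384 : 384 ≤ |g (fo (j + 1)) - g (fo j)| - 3 := by
      by_contra hc
      have h1 : 8 * (J : ℤ) * (|g (fo (j + 1)) - g (fo j)| - 3) < 8 * J * 384 :=
        mul_lt_mul_of_pos_left (by omega) (by positivity)
      have h2 : (J : ℤ) ≤ 2 ^ b * J := by nlinarith
      omega
    obtain ⟨X, h, hX, hC, hh, hinf⟩ := trim (dD_mem dir (u + j)) hw hle hlt
      (fun i h1 h2 => by
        rw [hx, hx]
        exact hL'.lo j hj i h1 h2) (by
        have h5 := h384
        rw [habs] at h5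
        omega) (R := RR b) (fun i i' h1 h2 h3 => by
        rw [hx, hx]
        exact hL'.small j hj i i' h1 h2 h3)
    refine ⟨X, h, hX, ?_, ?_, hinf⟩
    · intro i i' h1 h2
      refine (hC i i' h1 h2).trans ?_
      unfold RR
      rw [pow_succ]
      omega
    · rw [← habs] at hh
      have h1 : 8 * (J : ℤ) * (|g (fo (j + 1)) - g (fo j)| - 3) ≤ 8 * J * (3 * h) :=
        mul_le_mul_of_nonneg_left (by omega) (by positivity)
      have h2 : (3 : ℤ) * 2 ^ L ≤ 3 * (8 * J * h) := by
        calc (3 : ℤ) * 2 ^ L ≤ 8 * J * (3 * h) := hH.trans h1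
          _ = _ := by ring
      have h3 : (2 : ℤ) ^ L ≤ 8 * J * h := by omega
      exact_mod_cast h3
  · -- all leaves are low
    exfalso
    push Not at hex
    have hRb : RR b = 3 * 2 ^ b - 2 := rfl
    have hst : ∀ i, i ≤ fo 0 → |g i - g 0| ≤ RR b := by
      intro i hi
      have h1 := hL'.start i 0 hi (Nat.zero_le _)
      have h2 := hL'.start 0 i (Nat.zero_le _) hi
      rw [abs_le]
      constructor <;> omega
    have hind : ∀ j, j ≤ m → ∀ i, i ≤ fo j → 8 * (J : ℤ) * |g i - g 0| ≤ 8 * J * RR b + j * (3 * 2 ^ L + 24 * J) := by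
      intro j
      induction j with
      | zero =>
        intro _ i hi
        have := mul_le_mul_of_nonneg_left (hst i hi) (show (0 : ℤ) ≤ 8 * J by positivity)
        push_cast
        linarith
      | succ j ih =>
        intro hj i hi
        have hpos : (0 : ℤ) ≤ 3 * 2 ^ L + 24 * J := by positivity
        rcases Nat.lt_or_ge (fo j) i with h1 | h1
        rotate_left
        · have := ih (by omega) i h1
          push_cast
          linarith
        · have h2 := hex j (by omega)
          have h3 := ih (by omega) (fo j) le_rfl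
          have h4 : |g i - g (fo j)| ≤ |g (fo (j + 1)) - g (fo j)| := by
            have a1 := hL'.lo j (by omega) i h1 hi
            have a2 := hL'.hi j (by omega) i h1.le hi
            have b1 : Tight.sg (u + j) (g (fo j)) < Tight.sg (u + j) (g i) := a1
            have b2 : Tight.sg (u + j) (g i) ≤ Tight.sg (u + j) (g (fo (j + 1))) := a2
            unfold Tight.sg at b1 b2
            split_ifs at b1 b2
            · rw [abs_of_nonpos (by omega), abs_of_nonpos (by omega)]
              omega
            · rw [abs_of_nonneg (by omega), abs_of_nonneg (by omega)]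
              omega
          have h5 : |g i - g 0| ≤ |g i - g (fo j)| + |g (fo j) - g 0| := by
            have := abs_add_le (g i - g (fo j)) (g (fo j) - g 0)
            simpa using this
          have h6 : 8 * (J : ℤ) * |g i - g 0| ≤ 8 * J * (|g (fo (j + 1)) - g (fo j)| + |g (fo j) - g 0|) :=
            mul_le_mul_of_nonneg_left (by omega) (by positivity)
          have h7 : 8 * (J : ℤ) * (|g (fo (j + 1)) - g (fo j)| - 3) =
              8 * J * |g (fo (j + 1)) - g (fo j)| - 24 * J := by ring
          rw [h7] at h2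
          push_cast
          linarith
    have hfin : 8 * (J : ℤ) * |g i - g 0| ≤ 16 * J * RR b + m * (3 * 2 ^ L + 24 * J) := by
      have hR0 : (0 : ℤ) ≤ 8 * J * RR b := by
        have : 0 ≤ RR b := by omega
        positivity
      rcases Nat.lt_or_ge (fo m) i with h1 | h1
      rotate_left
      · have := hind m le_rfl i h1
        linarith
      · have h2 := hL'.fin i (fo m) h1.le hi le_rfl hL'.le
        have h3 := hL'.fin (fo m) i le_rfl hL'.le h1.le hi
        have h4 : |g i - g (fo m)| ≤ RR b := by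
          rw [abs_le]
          constructor
          · have : g (fo m) - g i < RR b := h3
            omega
          · have : g i - g (fo m) < RR b := h2
            omega
        have h5 : |g i - g 0| ≤ |g i - g (fo m)| + |g (fo m) - g 0| := by
          have := abs_add_le (g i - g (fo m)) (g (fo m) - g 0)
          simpa using this
        have h6 : 8 * (J : ℤ) * |g i - g 0| ≤ 8 * J * (RR b + |g (fo m) - g 0|) :=
          mul_le_mul_of_nonneg_left (by omega) (by positivity)
        have h7 := hind m le_rfl (fo m) le_rfl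
        linarith
    have hgi : 3 * (2 : ℤ) ^ L - 2 ≤ |g i - g 0| := by
      rw [hg0, sub_zero]
      have h1 : row dir (vx oo up w i) = g i / 3 := rfl
      rw [h1] at hE
      rcases le_abs.1 hE with h2 | h2
      · refine le_trans ?_ (le_abs_self _)
        omega
      · refine le_trans ?_ (neg_le_abs _)
        omega
    have h8 : 8 * (J : ℤ) * (3 * 2 ^ L - 2) ≤ 16 * J * RR b + m * (3 * 2 ^ L + 24 * J) :=
      (mul_le_mul_of_nonneg_left hgi (by positivity)).trans hfin
    have hm' : (m : ℤ) + 1 ≤ J := by exact_mod_cast hm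
    have h9 : (m : ℤ) * (3 * 2 ^ L + 24 * J) ≤ J * (3 * 2 ^ L + 24 * J) :=
      mul_le_mul_of_nonneg_right (by omega) (by positivity)
    rw [hRb] at h8
    have h10 : (J : ℤ) * (8 * (3 * 2 ^ L - 2)) ≤ J * (16 * (3 * 2 ^ b - 2) + (3 * 2 ^ L + 24 * J)) := by
      calc (J : ℤ) * (8 * (3 * 2 ^ L - 2)) = 8 * (J : ℤ) * (3 * 2 ^ L - 2) := by ring
        _ ≤ _ := h8
        _ ≤ 16 * J * (3 * 2 ^ b - 2) + J * (3 * 2 ^ L + 24 * J) := by linarith
        _ = _ := by ring
    have h11 := le_of_mul_le_mul_left h10 hJ0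
    have h12 : (J : ℤ) ≤ 2 ^ b * J := by nlinarith
    have h13 : (2 : ℤ) ^ b ≤ 2 ^ b * J := by nlinarith
    omega

end T2

end HexObs
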