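import Pool.Agent.T2.PowBase
import Pool.Agent.T2.FewT
import Pool.Agent.T2.RecNumW

/-!
UP, module E': the recursion of T2 on a window of scales, with the tail bound instead of the mean; failure of the tail
bound.
-/

set_option autoImplicit false

namespace HexObs

namespace T2

open Finset TS SDN

open scoped ENNReal

namespace Win

open PowS

/-- weight of the words that contain an infix of the set A -/
lemma infix_bound {Cp Q' x : ℝ} (hCp : 0 < Cp) (hx : 0 ≤ x)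
    (hpoly : ∀ Λ : ℕ, 1 ≤ Λ → gf (SAL Λ) ≤ ENNReal.ofReal ((Λ : ℝ) ^ Cp * Cp)) {L : ℕ} {A : Set (List Bool)}
    (h : gf A ≤ ENNReal.ofReal (x * (2 : ℝ) ^ (-(Q' * L)))) :
    gf {t | t ∈ WL L ∧ ∃ w ∈ A, w <:+: t} ≤
      ENNReal.ofReal ((Cp * 100 ^ Cp) ^ 2 * (2 : ℝ) ^ (4 * Cp * L) * (x * (2 : ℝ) ^ (-(Q' * L)))) := by
  refine (gf_infix L A).trans ?_
  have h2 : gf (SAL (100 * 4 ^ L)) ≤ ENNReal.ofReal (Cp * 100 ^ Cp * (2 : ℝ) ^ (2 * Cp * L)) := by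
    refine (hpoly (100 * 4 ^ L) ?_).trans (ENNReal.ofReal_le_ofReal (le_of_eq ?_))
    · have : 1 ≤ 4 ^ L := Nat.one_le_pow _ _ (by norm_num)
      omega
    · push_cast
      rw [Real.mul_rpow (by norm_num) (by positivity)]
      have h5 : ((4 : ℝ) ^ L) ^ Cp = (2 : ℝ) ^ (2 * Cp * L) := by
        rw [← Real.rpow_natCast 4 L, show (4 : ℝ) = (2 : ℝ) ^ (2 : ℝ) by norm_num, ← Real.rpow_mul (by norm_num),
          ← Real.rpow_mul (by norm_num)]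
        congr 1
        ring
      rw [h5]
      ring
  have h4 : gf (SAL (100 * 4 ^ L)) ^ 2 ≤ ENNReal.ofReal ((Cp * 100 ^ Cp) ^ 2 * (2 : ℝ) ^ (4 * Cp * L)) := by
    refine (pow_le_pow_left' h2 2).trans (le_of_eq ?_)
    rw [← ENNReal.ofReal_pow (by positivity), mul_pow]
    congr 2
    rw [← Real.rpow_natCast ((2 : ℝ) ^ (2 * Cp * L)) 2, ← Real.rpow_mul (by norm_num)]
    congr 1
    push_cast
    ring
  refine (mul_le_mul' h4 h).trans (le_of_eq ?_)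
  rw [← ENNReal.ofReal_mul (by positivity)]

end Win

lemma WL_mono {l L : ℕ} (h : l ≤ L) : WL l ⊆ WL L := by
  intro t ht
  refine ⟨ht.1, fun i hi dir => (ht.2 i hi dir).trans ?_⟩
  exact_mod_cast Nat.pow_le_pow_right (by norm_num) h

open PowS in
theorem window {s κ g : ℝ} (hs : 0 < s) (hs1 : s ≤ 1) (hκ : 0 < κ) (hκ1 : κ ≤ 1 / 8) (hg : 0 < g) {Q : ℝ} (hQ : 0 < Q) :
    ∃ μ L0 : ℕ, ∀ (L : ℕ) (τ : ℝ), L0 ≤ L → 0 ≤ τ →
      (∀ b : ℕ, κ * L ≤ b → b + μ ≤ L →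
        Tail (2 ^ (b + μ + 1)) ((2 : ℝ) ^ (((b + μ : ℕ) : ℝ) + τ * L)) ((2 : ℝ) ^ (-(g * b)))) →
      ∀ l : ℕ, l ≤ L → gf {t | t ∈ WL l ∧ (2 : ℝ) ^ ((1 + s) * l + τ * L + 4 * κ * L) ≤ t.length} ≤
        ENNReal.ofReal ((2 : ℝ) ^ (-(Q * L))) := by
  -- parameters
  obtain ⟨Cp, hCp, hpoly⟩ := SAL_poly
  obtain ⟨Q', hQ'⟩ : ∃ Q' : ℝ, Q' = Q + 4 * Cp + 2 := ⟨_, rfl⟩
  have hQ'0 : 0 < Q' := by rw [hQ']; positivity
  obtain ⟨C1, hC1, hB1⟩ := few_leaves hQ'0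
  obtain ⟨η, hη, hη1, hB2⟩ := few_special_T hg
  obtain ⟨J1, hJ1⟩ := hB2 κ C1 Q' hκ hC1 hQ'0
  obtain ⟨μ, LD, hμ, hD⟩ := rec_num_w (s := s) (κ := κ) (η := η) (C1 := C1) (J1 := J1) hs hs1 hκ hκ1 hη hη1 hC1
  obtain ⟨L1, hL1⟩ := hB1 κ hκ μ
  obtain ⟨L2, hL2⟩ := hJ1 μ
  obtain ⟨L3, hL3⟩ := near_box hη hη1 hκ hQ'0
  obtain ⟨L4, hL4⟩ := exists_nat_gt (5 / κ)
  -- the final comparison
  obtain ⟨K, hK⟩ : ∃ K : ℝ, K = 5 * (Cp * 100 ^ Cp) ^ 2 := ⟨_, rfl⟩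
  have hK0 : 0 < K := by rw [hK]; positivity
  obtain ⟨L5, hL5⟩ := exists_nat_gt K
  refine ⟨μ, max (max (max LD L1) (max L2 L3)) (max L4 (L5 + 1)), fun L τ hL hτ hT l hl => ?_⟩
  have hLD : LD ≤ L := by omega
  have hLL1 : L1 ≤ L := by omega
  have hLL2 : L2 ≤ L := by omega
  have hLL3 : L3 ≤ L := by omega
  have hLL4 : L4 ≤ L := by omega
  have hLL5 : L5 + 1 ≤ L := by omega
  have hLpos : 1 ≤ L := by omega
  have hLR : (0 : ℝ) < L := by exact_mod_cast hLpos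
  have hb5 : ∀ b : ℕ, κ * L ≤ b → 5 ≤ b := by
    intro b hb
    have h1 : 5 / κ < L := lt_of_lt_of_le hL4 (by exact_mod_cast hLL4)
    rw [div_lt_iff₀ hκ] at h1
    have h2 : (5 : ℝ) < b := by linarith
    have h3 : 5 < b := by exact_mod_cast h2
    omega
  -- the bad scales
  classical
  obtain ⟨I, hI⟩ : ∃ I : Finset ℕ, I = (range (L + 1)).filter (fun b : ℕ => κ * (L : ℝ) ≤ (b : ℝ) ∧ b + μ ≤ L) := ⟨_, rfl⟩
  obtain ⟨bad, hbad⟩ : ∃ bad : ℕ → Set (List Bool), bad = fun b =>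
    BB η C1 ((2 : ℝ) ^ (((b + μ : ℕ) : ℝ) + τ * L)) L b μ (J1 * (μ + 1)) := ⟨_, rfl⟩
  have hsub : {t | t ∈ WL l ∧ (2 : ℝ) ^ ((1 + s) * l + τ * L + 4 * κ * L) ≤ t.length} ⊆
      ⋃ b ∈ I, {t | t ∈ WL L ∧ ∃ w ∈ bad b, w <:+: t} := by
    rintro t ⟨ht, hlen⟩
    by_contra hcon
    have hgood : ∀ b : ℕ, κ * (L : ℝ) ≤ (b : ℝ) → b + μ ≤ L → ∀ w, w <:+: t → w ∉ bad b := by
      intro b hb1 hb2 w hw hwb
      apply hcon
      refine Set.mem_iUnion₂.2 ⟨b, ?_, WL_mono hl ht, w, hwb, hw⟩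
      rw [hI, Finset.mem_filter, Finset.mem_range]
      exact ⟨by omega, hb1, hb2⟩
    have hrec := hD L τ (fun l => (SS t l : ℝ)) hLD hτ (fun l => Nat.cast_nonneg _) (fun l => by
      obtain ⟨v, -, hv2, hv3⟩ := SS_ex ht.1 l
      rw [← hv3]
      exact_mod_cast WL_length hv2) (fun b hb1 hb2 => by
      have h1 := step (η := η) (C1 := C1) (lam := (2 : ℝ) ^ (((b + μ : ℕ) : ℝ) + τ * L)) hη hC1 (by positivity) (L := L)
        (J := J1 * (μ + 1)) (hb5 b hb1) ht.1 (fun w hw => by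
          have h2 := hgood b hb1 hb2 w hw
          rw [hbad] at h2
          exact h2)
      exact h1) l hl
    have h1 : (t.length : ℝ) ≤ SS t l := by exact_mod_cast SS_ge (List.infix_refl t) ht
    have h2 : (2 : ℝ) ^ ((1 + s) * l + τ * L + 3 * κ * L) < (2 : ℝ) ^ ((1 + s) * l + τ * L + 4 * κ * L) := by
      apply Real.rpow_lt_rpow_of_exponent_lt (by norm_num)
      have : 0 < κ * L := mul_pos hκ hLR
      linarith
    have h3 : (SS t l : ℝ) ≤ (2 : ℝ) ^ ((1 + s) * l + τ * L + 3 * κ * L) := hrec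
    linarith
  have hone : ∀ b ∈ I, gf {t | t ∈ WL L ∧ ∃ w ∈ bad b, w <:+: t} ≤
      ENNReal.ofReal ((Cp * 100 ^ Cp) ^ 2 * (2 : ℝ) ^ (4 * Cp * L) * (5 * (2 : ℝ) ^ (-(Q' * L)))) := by
    intro b hbI
    rw [hI, Finset.mem_filter] at hbI
    obtain ⟨-, hb1, hb2⟩ := hbI
    have h1 : gf (bad b) ≤ ENNReal.ofReal (5 * (2 : ℝ) ^ (-(Q' * L))) := by
      rw [ENNReal.ofReal_mul (by norm_num), ENNReal.ofReal_ofNat, hbad]
      exact gf_BB (fun dir => hL1 L b dir hLL1 hb1 hb2)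
        (fun dir => hL2 L b dir _ hLL2 hb1 hb2 (hT b hb1 hb2)) (hL3 L b hLL3 hb1 (by omega))
    exact Win.infix_bound hCp (by norm_num) hpoly h1
  refine (gf_mono hsub).trans ((ENNReal.tsum_biUnion_le wE I _).trans ((Finset.sum_le_sum hone).trans ?_))
  rw [Finset.sum_const, nsmul_eq_mul, ← ENNReal.ofReal_natCast, ← ENNReal.ofReal_mul (by positivity)]
  apply ENNReal.ofReal_le_ofReal
  have hcard : (I.card : ℝ) ≤ (2 : ℝ) ^ (L : ℝ) := by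
    have h1 : I.card ≤ L + 1 := by
      rw [hI]
      refine (Finset.card_filter_le _ _).trans ?_
      rw [Finset.card_range]
    have h2 : L + 1 ≤ 2 ^ L := Nat.lt_two_pow_self
    rw [Real.rpow_natCast]
    exact_mod_cast h1.trans h2
  have hKL : K ≤ (2 : ℝ) ^ (L : ℝ) := by
    have h1 : (L5 : ℝ) ≤ L := by
      have : L5 ≤ L := by omega
      exact_mod_cast this
    have h2 : (L : ℝ) ≤ (2 : ℝ) ^ (L : ℝ) := by
      rw [Real.rpow_natCast]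
      exact_mod_cast (Nat.lt_two_pow_self (n := L)).le
    linarith
  calc (I.card : ℝ) * ((Cp * 100 ^ Cp) ^ 2 * (2 : ℝ) ^ (4 * Cp * L) * (5 * (2 : ℝ) ^ (-(Q' * L)))) =
        I.card * (K * ((2 : ℝ) ^ (4 * Cp * L) * (2 : ℝ) ^ (-(Q' * L)))) := by
        rw [hK]
        ring
    _ ≤ (2 : ℝ) ^ (L : ℝ) * ((2 : ℝ) ^ (L : ℝ) * ((2 : ℝ) ^ (4 * Cp * L) * (2 : ℝ) ^ (-(Q' * L)))) := by
        gcongr
    _ = (2 : ℝ) ^ (-(Q * L)) := by
        rw [← Real.rpow_add (by norm_num), ← Real.rpow_add (by norm_num), ← Real.rpow_add (by norm_num)]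
        congr 1
        rw [hQ']
        ring

/-- failure of the tail bound at some scale -/
theorem fail {τ τ1 κ g : ℝ} (hτ : 0 ≤ τ) (hτ1 : τ < τ1) (hκ : 0 < κ) (hκ1 : κ ≤ 1 / 8) (hκ2 : κ ≤ (τ1 - τ) / 16)
    (hg : 0 < g) (hL : LongWalks τ1) : ∃ μ L0 : ℕ, ∀ L : ℕ, L0 ≤ L → ∃ b : ℕ, κ * L ≤ b ∧ b + μ ≤ L ∧
      ¬ Tail (2 ^ (b + μ + 1)) ((2 : ℝ) ^ (((b + μ : ℕ) : ℝ) + τ * L)) ((2 : ℝ) ^ (-(g * b))) := by
  obtain ⟨s, hs⟩ : ∃ s : ℝ, s = min 1 ((τ1 - τ) / 8) := ⟨_, rfl⟩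
  have hs0 : 0 < s := by rw [hs]; exact lt_min one_pos (by linarith)
  have hs1 : s ≤ 1 := by rw [hs]; exact min_le_left _ _
  have hs2 : s ≤ (τ1 - τ) / 8 := by rw [hs]; exact min_le_right _ _
  obtain ⟨Q0, L1, hQ0, hL1⟩ := hL ((τ + τ1) / 2) (by linarith)
  obtain ⟨μ, L2, hL2⟩ := window (s := s) (κ := κ) (g := g) hs0 hs1 hκ hκ1 hg (Q := Q0 + 1) (by linarith)
  refine ⟨μ, max (max L1 L2) 1, fun L hLL => ?_⟩
  by_contra hcon
  push Not at hcon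
  have hLR : (0 : ℝ) < L := by
    have : 1 ≤ L := by omega
    exact_mod_cast this
  obtain ⟨l, hl, h5⟩ := hL1 L (by omega)
  have h6 := hL2 L τ (by omega) hτ (fun b hb1 hb2 => hcon b hb1 hb2) l hl
  have hexp : (2 : ℝ) ^ ((1 + s) * l + τ * L + 4 * κ * L) ≤ (2 : ℝ) ^ ((l : ℝ) + (τ + τ1) / 2 * L) := by
    apply Real.rpow_le_rpow_of_exponent_le (by norm_num)
    have hlR : (l : ℝ) ≤ L := by exact_mod_cast hl
    have h9 : s * l ≤ (τ1 - τ) / 8 * L := by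
      calc s * l ≤ s * L := mul_le_mul_of_nonneg_left hlR hs0.le
        _ ≤ (τ1 - τ) / 8 * L := mul_le_mul_of_nonneg_right hs2 hLR.le
    have h10 : κ * L ≤ (τ1 - τ) / 16 * L := mul_le_mul_of_nonneg_right hκ2 hLR.le
    have h11 : 0 < (τ1 - τ) * L := mul_pos (by linarith) hLR
    nlinarith
  have hsub : gf {t | t ∈ WL l ∧ (2 : ℝ) ^ ((l : ℝ) + (τ + τ1) / 2 * L) ≤ t.length} ≤
      gf {t | t ∈ WL l ∧ (2 : ℝ) ^ ((1 + s) * l + τ * L + 4 * κ * L) ≤ t.length} :=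
    gf_mono fun t ht => ⟨ht.1, hexp.trans ht.2⟩
  have h7 := h5.trans (hsub.trans h6)
  rw [ENNReal.ofReal_le_ofReal_iff (by positivity)] at h7
  have h8 : (2 : ℝ) ^ (-((Q0 + 1) * L)) < (2 : ℝ) ^ (-(Q0 * L)) := by
    apply Real.rpow_lt_rpow_of_exponent_lt (by norm_num)
    nlinarith
  linarith

end T2

end HexObs
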